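import Pool.Agent.L3E.Stmts

set_option autoImplicit false

/-!
# L3E, module CG: commutators of the terms of the lower central series
-/

namespace Pool.Agent.L3E

open scoped commutatorElement

namespace CG_

theorem three {G : Type} [Group G] (N A B C : Subgroup G) [hN : N.Normal]
    (h1 : ⁅⁅B, C⁆, A⁆ ≤ N) (h2 : ⁅⁅C, A⁆, B⁆ ≤ N) : ⁅⁅A, B⁆, C⁆ ≤ N := by
  have key : ∀ H : Subgroup G, H ≤ N ↔ H.map (QuotientGroup.mk' N) = ⊥ := by
    intro H
    rw [Subgroup.map_eq_bot_iff, QuotientGroup.ker_mk']
  rw [key, Subgroup.map_commutator, Subgroup.map_commutator] at h1 h2 ⊢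
  exact Subgroup.commutator_commutator_eq_bot_of_rotate h1 h2

theorem gam_zero (G : Type) [Group G] : gam G 0 = ⊤ := rfl

theorem gam_succ (G : Type) [Group G] (n : ℕ) : gam G (n + 1) = ⁅gam G n, (⊤ : Subgroup G)⁆ :=
  Subgroup.lowerCentralSeries_succ _ n

theorem gam_normal (G : Type) [Group G] (n : ℕ) : (gam G n).Normal := by
  unfold gam
  infer_instance

theorem main {G : Type} [Group G] (j : ℕ) : ∀ i : ℕ, ⁅gam G i, gam G j⁆ ≤ gam G (i + j + 1) := by
  induction j with
  | zero =>
    intro i
    rw [gam_zero, gam_succ]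
  | succ j ih =>
    intro i
    have hN := gam_normal G (i + (j + 1) + 1)
    rw [Subgroup.commutator_comm, gam_succ G j]
    apply three (gam G (i + (j + 1) + 1)) (gam G j) ⊤ (gam G i)
    · rw [Subgroup.commutator_comm ⊤ (gam G i), ← gam_succ]
      have h := ih (i + 1)
      have he : i + 1 + j + 1 = i + (j + 1) + 1 := by omega
      rwa [he] at h
    · have h := Subgroup.commutator_mono (ih i) (le_refl (⊤ : Subgroup G))
      rw [← gam_succ] at h
      exact h

end CG_

theorem cg_proof : Stmt_CG := by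
  intro G _ i j
  exact CG_.main j i

end Pool.Agent.L3E
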