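import Pool.Agent.L3E.Stmts

set_option autoImplicit false

/-!
# L3E, module GR: the operators `ad x_i` on the graded Lie ring of the lower central series
-/

namespace Pool.Agent.L3E

open Pool.Agent.KOS (ev Com)
open scoped commutatorElement

namespace GR_

/-! ## general group identities -/

section ids
variable {H : Type} [Group H]

lemma com_mul_left (a b u : H) : ⁅a * b, u⁆ = a * ⁅b, u⁆ * a⁻¹ * ⁅a, u⁆ := by
  simp only [commutatorElement_def]; group

lemma com_mul_right (a u v : H) : ⁅a, u * v⁆ = ⁅a, u⁆ * (u * ⁅a, v⁆ * u⁻¹) := by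
  simp only [commutatorElement_def]; group

lemma c1 {a b u : H} (h : Commute a ⁅b, u⁆) : ⁅a * b, u⁆ = ⁅b, u⁆ * ⁅a, u⁆ := by
  rw [com_mul_left, h.eq, mul_inv_cancel_right]

lemma c2 {a u v : H} (h : Commute u ⁅a, v⁆) : ⁅a, u * v⁆ = ⁅a, u⁆ * ⁅a, v⁆ := by
  rw [com_mul_right, h.eq, mul_inv_cancel_right]

lemma jac (a u v : H) (hcp : Commute ⁅u, v⁆ ⁅a, u⁆) (hcq : Commute ⁅u, v⁆ ⁅a, v⁆)
    (hpq : Commute ⁅a, u⁆ ⁅a, v⁆)
    (hcr : Commute ⁅u, v⁆ ⁅v, ⁅a, u⁆⁆)
    (h1 : Commute ⁅u, ⁅a, v⁆⁆ ⁅a, u⁆)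
    (h2 : Commute ⁅v, ⁅a, u⁆⁆ ⁅a, v⁆) :
    ⁅a, ⁅u, v⁆⁆ * ⁅v, ⁅a, u⁆⁆ = ⁅u, ⁅a, v⁆⁆ := by
  have key : ⁅a, u⁆ * ⁅u, ⁅a, v⁆⁆ * ⁅a, v⁆ =
      ⁅a, ⁅u, v⁆⁆ * (⁅u, v⁆ * ⁅a, v⁆ * ⁅v, ⁅a, u⁆⁆ * ⁅a, u⁆ * ⁅u, v⁆⁻¹) := by
    simp only [commutatorElement_def]; group
  generalize ⁅a, ⁅u, v⁆⁆ = A at *
  generalize ⁅v, ⁅a, u⁆⁆ = B at *
  generalize ⁅u, ⁅a, v⁆⁆ = C at *
  generalize ⁅u, v⁆ = c at *
  generalize ⁅a, u⁆ = p at *
  generalize ⁅a, v⁆ = q at *
  have e1 : c * q * B * p * c⁻¹ = q * B * p := by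
    have : Commute c (q * B * p) := (hcq.mul_right hcr).mul_right hcp
    calc c * q * B * p * c⁻¹ = (c * (q * B * p)) * c⁻¹ := by group
      _ = q * B * p := by rw [this.eq]; group
  rw [e1] at key
  have e2 : q * B * p = B * (p * q) := by
    rw [← h2.eq, mul_assoc, ← hpq.eq]
  have e3 : p * C * q = C * (p * q) := by
    rw [← h1.eq, mul_assoc]
  rw [e2, e3] at key
  have key' : C * (p * q) = (A * B) * (p * q) := by rw [key, mul_assoc]
  exact (mul_right_cancel key').symm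

end ids

/-! ## the lower central series -/

section lcs
variable {G : Type} [Group G]

instance gam_normal (n : ℕ) : (gam G n).Normal := by
  unfold gam; infer_instance

lemma gam_zero : gam G 0 = ⊤ := rfl

lemma gam_succ (n : ℕ) : gam G (n + 1) = ⁅gam G n, ⊤⁆ := rfl

lemma gam_anti {i j : ℕ} (h : i ≤ j) : gam G j ≤ gam G i :=
  Subgroup.lowerCentralSeries_antitone _ h

lemma com_mem (h : Stmt_CG) {i j t : ℕ} {x y : G} (hx : x ∈ gam G i) (hy : y ∈ gam G j)
    (ht : t ≤ i + j + 1) : ⁅x, y⁆ ∈ gam G t :=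
  gam_anti ht (h G i j (Subgroup.commutator_mem_commutator hx hy))

/-- projection modulo `gam t`. -/
def pr (t : ℕ) : G →* G ⧸ gam G t := QuotientGroup.mk' (gam G t)

lemma pr_eq_one {t : ℕ} {x : G} : pr t x = 1 ↔ x ∈ gam G t :=
  QuotientGroup.eq_one_iff x

lemma pr_com (h : Stmt_CG) {i j t : ℕ} {x y : G} (hx : x ∈ gam G i) (hy : y ∈ gam G j)
    (ht : t ≤ i + j + 1) : Commute (pr t x) (pr t y) := by
  rw [← commutatorElement_eq_one_iff_commute, ← map_commutatorElement, pr_eq_one]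
  exact com_mem h hx hy ht

lemma mem_top0 (x : G) : x ∈ gam G 0 := by rw [gam_zero]; trivial

/-- generation of the terms of the lower central series. -/
lemma gen (h : Stmt_CG) {m : ℕ} (x : Fin m → G) (hx : Subgroup.closure (Set.range x) = ⊤)
    (t : ℕ) (B : Subgroup G) (hB : gam G (t + 2) ≤ B)
    (hb : ∀ b ∈ gam G t, ∀ i, ⁅b, x i⁆ ∈ B) : gam G (t + 1) ≤ B := by
  rw [gam_succ, Subgroup.commutator_le]
  intro b hb' y hyt
  clear hyt
  have hy : y ∈ Subgroup.closure (Set.range x) := by rw [hx]; trivial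
  revert b
  induction hy using Subgroup.closure_induction with
  | mem y hy =>
    obtain ⟨i, rfl⟩ := hy
    intro b hb'
    exact hb b hb' i
  | one => intro b _; simp
  | mul y z _ _ iy iz =>
    intro b hb'
    have e : ⁅b, y * z⁆ = ⁅b, y⁆ * (⁅y, ⁅b, z⁆⁆ * ⁅b, z⁆) := by
      simp only [commutatorElement_def]; group
    rw [e]
    refine B.mul_mem (iy b hb') (B.mul_mem (hB ?_) (iz b hb'))
    exact com_mem h (mem_top0 y) (com_mem h hb' (mem_top0 z) (le_refl _)) (by omega)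
  | inv y _ iy =>
    intro b hb'
    have e : ⁅b, y⁻¹⁆ = ⁅y⁻¹, ⁅b, y⁆⁻¹⁆ * ⁅b, y⁆⁻¹ := by
      simp only [commutatorElement_def]; group
    rw [e]
    refine B.mul_mem (hB ?_) (B.inv_mem (iy b hb'))
    exact com_mem h (mem_top0 _) ((gam G (t + 1)).inv_mem
      (com_mem h hb' (mem_top0 y) (le_refl _))) (by omega)

/-! ## the claim -/

/-- the elements of `gam k` with `[[u, x], x] ∈ gam (k + 3)`. -/
def kerc (h : Stmt_CG) (x : G) (k : ℕ) : Subgroup G where
  carrier := {u | u ∈ gam G k ∧ ⁅⁅u, x⁆, x⁆ ∈ gam G (k + 3)}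
  one_mem' := ⟨one_mem _, by simp⟩
  mul_mem' := by
    rintro u v ⟨hu, hu'⟩ ⟨hv, hv'⟩
    refine ⟨mul_mem hu hv, ?_⟩
    have hux : ⁅u, x⁆ ∈ gam G (k + 1) := com_mem h hu (mem_top0 x) (le_refl _)
    have hvx : ⁅v, x⁆ ∈ gam G (k + 1) := com_mem h hv (mem_top0 x) (le_refl _)
    have hs : ⁅u, ⁅v, x⁆⁆ ∈ gam G (k + 2) := 
      com_mem h (i := k) (j := k + 1) hu hvx (by omega)
    have e : ⁅u * v, x⁆ = ⁅u, ⁅v, x⁆⁆ * (⁅v, x⁆ * ⁅u, x⁆) := by
      simp only [commutatorElement_def]; group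
    rw [e, ← pr_eq_one]
    have hvxx : ⁅⁅v, x⁆, x⁆ ∈ gam G (k + 2) := com_mem h hvx (mem_top0 x) (by omega)
    have huxx : ⁅⁅u, x⁆, x⁆ ∈ gam G (k + 2) := com_mem h hux (mem_top0 x) (by omega)
    have e1 : ⁅⁅u, ⁅v, x⁆⁆ * (⁅v, x⁆ * ⁅u, x⁆), x⁆ =
        ⁅u, ⁅v, x⁆⁆ * ⁅⁅v, x⁆ * ⁅u, x⁆, x⁆ * ⁅u, ⁅v, x⁆⁆⁻¹ * ⁅⁅u, ⁅v, x⁆⁆, x⁆ :=
      com_mul_left _ _ _
    have e2 : ⁅⁅v, x⁆ * ⁅u, x⁆, x⁆ = ⁅v, x⁆ * ⁅⁅u, x⁆, x⁆ * ⁅v, x⁆⁻¹ * ⁅⁅v, x⁆, x⁆ :=
      com_mul_left _ _ _
    have m2 : ⁅⁅v, x⁆ * ⁅u, x⁆, x⁆ ∈ gam G (k + 3) := by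
      rw [e2]
      exact mul_mem ((gam_normal (k + 3)).conj_mem _ hu' _) hv'
    have m3 : ⁅⁅u, ⁅v, x⁆⁆, x⁆ ∈ gam G (k + 3) := com_mem h hs (mem_top0 x) (by omega)
    rw [pr_eq_one, e1]
    exact mul_mem ((gam_normal (k + 3)).conj_mem _ m2 _) m3
  inv_mem' := by
    rintro u ⟨hu, hu'⟩
    refine ⟨inv_mem hu, ?_⟩
    have hux : ⁅u, x⁆ ∈ gam G (k + 1) := com_mem h hu (mem_top0 x) (le_refl _)
    have e : ⁅u⁻¹, x⁆ = ⁅u⁻¹, ⁅u, x⁆⁻¹⁆ * ⁅u, x⁆⁻¹ := by
      simp only [commutatorElement_def]; group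
    have e1 : ⁅⁅u⁻¹, ⁅u, x⁆⁻¹⁆ * ⁅u, x⁆⁻¹, x⁆ =
        ⁅u⁻¹, ⁅u, x⁆⁻¹⁆ * ⁅⁅u, x⁆⁻¹, x⁆ * ⁅u⁻¹, ⁅u, x⁆⁻¹⁆⁻¹ * ⁅⁅u⁻¹, ⁅u, x⁆⁻¹⁆, x⁆ :=
      com_mul_left _ _ _
    have e2 : ⁅⁅u, x⁆⁻¹, x⁆ = ⁅u, x⁆⁻¹ * ⁅⁅u, x⁆, x⁆⁻¹ * (⁅u, x⁆⁻¹)⁻¹ := by
      simp only [commutatorElement_def]; group
    have m2 : ⁅⁅u, x⁆⁻¹, x⁆ ∈ gam G (k + 3) := by
      rw [e2]
      exact (gam_normal (k + 3)).conj_mem _ (inv_mem hu') _
    have m3 : ⁅⁅u⁻¹, ⁅u, x⁆⁻¹⁆, x⁆ ∈ gam G (k + 3) := by
      have : ⁅u⁻¹, ⁅u, x⁆⁻¹⁆ ∈ gam G (k + 2) :=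
        com_mem h (i := k) (j := k + 1) (inv_mem hu) (inv_mem hux) (by omega)
      exact com_mem h this (mem_top0 x) (by omega)
    rw [e, e1]
    exact mul_mem ((gam_normal (k + 3)).conj_mem _ m2 _) m3

lemma claim (h : Stmt_CG) {D : Set G} {m : ℕ} {x : Fin m → G} (hD : Sand D)
    (hxD : ∀ i, x i ∈ D) (hx : Subgroup.closure (Set.range x) = ⊤) (k : ℕ) (z : G) (hz : z ∈ D) :
    ∀ u ∈ gam G k, ⁅⁅u, z⁆, z⁆ ∈ gam G (k + 3) := by
  suffices hs : gam G k ≤ kerc h z k from fun u hu => (hs hu).2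
  have comm2 : ∀ a ∈ D, ∀ b ∈ D, Commute ⁅a, b⁆ b := by
    intro a ha b hb
    have := hD.comm b hb a ha
    rw [← commutatorElement_inv] at this
    exact Commute.inv_left_iff.1 this
  cases k with
  | zero =>
    rw [gam_zero, ← hx, Subgroup.closure_le]
    rintro _ ⟨i, rfl⟩
    refine ⟨mem_top0 _, ?_⟩
    rw [commutatorElement_eq_one_iff_commute.2 (comm2 _ (hxD i) _ hz)]
    exact one_mem _
  | succ t =>
    refine gen h x hx t _ ?_ ?_
    · intro u hu
      refine ⟨gam_anti (by omega) hu, ?_⟩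
      exact com_mem h (com_mem h hu (mem_top0 z) (le_refl _)) (mem_top0 z) (by omega)
    · intro b hb i
      have hu : ⁅b, x i⁆ ∈ gam G (t + 1) := com_mem h hb (mem_top0 _) (le_refl _)
      refine ⟨hu, ?_⟩
      set u := ⁅b, x i⁆ with hudef
      set y := x i with hy
      have hyD : y ∈ D := hxD i
      set y' := b * y * b⁻¹ with hy'
      have hy'D : y' ∈ D := hD.conj y hyD b
      have e0 : u = y' * y⁻¹ := by rw [hudef, hy', commutatorElement_def]
      set q := ⁅z, y⁆ with hq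
      have q1 : Commute q z := hD.comm z hz y hyD
      have q2 : Commute q y := comm2 z hz y hyD
      have q3 : ⁅y⁻¹, z⁆ = q := by
        have : ⁅y⁻¹, z⁆ = y⁻¹ * q * y := by
          rw [hq]; simp only [commutatorElement_def]; group
        rw [this, mul_assoc, q2.eq, inv_mul_cancel_left]
      set p := ⁅y', z⁆ with hp
      have p1 : Commute p z := comm2 y' hy'D z hz
      have eu : ⁅u, z⁆ = ⁅u, q⁆ * (q * p) := by
        have a1 : ⁅u, z⁆ = y' * q * y'⁻¹ * p := by
          rw [e0, com_mul_left, q3]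
        have a2 : ⁅u, q⁆ = ⁅y', q⁆ := by
          have : y' = u * y := by rw [e0]; group
          rw [this, com_mul_left, commutatorElement_eq_one_iff_commute.2 q2.symm]
          simp
        rw [a1, a2, commutatorElement_def]; group
      have hqm : q ∈ gam G 1 := com_mem h (mem_top0 z) (mem_top0 y) (by omega)
      have hsm : ⁅u, q⁆ ∈ gam G (t + 1 + 2) :=
        com_mem h (i := t + 1) (j := 1) hu hqm (by omega)
      have e3 : ⁅⁅u, z⁆, z⁆ = ⁅⁅u, q⁆, z⁆ := by
        rw [eu, com_mul_left,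
          commutatorElement_eq_one_iff_commute.2 (q1.mul_left p1), mul_one, mul_inv_cancel,
          one_mul]
      rw [e3]
      exact com_mem h hsm (mem_top0 z) (by omega)

end lcs

/-! ## the graded group -/

section graded
variable (G : Type) [Group G]

/-- sequences with `a j ∈ gam j`. -/
def P0 : Subgroup (ℕ → G) where
  carrier := {a | ∀ j, a j ∈ gam G j}
  one_mem' := fun _ => one_mem _
  mul_mem' := fun ha hb j => mul_mem (ha j) (hb j)
  inv_mem' := fun ha j => inv_mem (ha j)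

/-- sequences with `a j ∈ gam (j + 1)`. -/
def P1 : Subgroup (ℕ → G) where
  carrier := {a | ∀ j, a j ∈ gam G (j + 1)}
  one_mem' := fun _ => one_mem _
  mul_mem' := fun ha hb j => mul_mem (ha j) (hb j)
  inv_mem' := fun ha j => inv_mem (ha j)

instance P1_normal : (P1 G).Normal :=
  ⟨fun a ha g j => (gam_normal (j + 1)).conj_mem _ (ha j) _⟩

/-- the kernel. -/
def N1 : Subgroup (P0 G) := (P1 G).subgroupOf (P0 G)

instance N1_normal : (N1 G).Normal := by unfold N1; infer_instance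

lemma mem_N1 {a : P0 G} : a ∈ N1 G ↔ ∀ j, a.1 j ∈ gam G (j + 1) := Iff.rfl

instance : CommGroup (P0 G ⧸ N1 G) :=
  { (inferInstance : Group (P0 G ⧸ N1 G)) with
    mul_comm := by
      intro a b
      obtain ⟨a, rfl⟩ := QuotientGroup.mk_surjective a
      obtain ⟨b, rfl⟩ := QuotientGroup.mk_surjective b
      rw [← QuotientGroup.mk_mul, ← QuotientGroup.mk_mul, QuotientGroup.eq, mem_N1]
      intro j
      have : (((a * b)⁻¹ * (b * a) : P0 G)).1 j = ⁅(b.1 j)⁻¹, (a.1 j)⁻¹⁆ := by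
        show (a.1 j * b.1 j)⁻¹ * (b.1 j * a.1 j) = _
        simp only [commutatorElement_def]; group
      rw [this, gam_succ]
      exact Subgroup.commutator_mem_commutator (inv_mem (b.2 j)) trivial }

/-- the abelian group. -/
abbrev AA : Type := Additive (P0 G ⧸ N1 G)

variable {G}

/-- class of a sequence. -/
def pi (a : P0 G) : AA G := Additive.ofMul (QuotientGroup.mk a)

lemma pi_surj (α : AA G) : ∃ a, pi a = α := by
  obtain ⟨a, ha⟩ := QuotientGroup.mk_surjective (Additive.toMul α)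
  exact ⟨a, by unfold pi; rw [ha]; rfl⟩

lemma pi_mul (a b : P0 G) : pi (a * b) = pi a + pi b := rfl

lemma pi_eq {a b : P0 G} : pi a = pi b ↔ ∀ j, pr (j + 1) (a.1 j) = pr (j + 1) (b.1 j) := by
  have : pi a = pi b ↔ a⁻¹ * b ∈ N1 G := by
    rw [← QuotientGroup.eq]; rfl
  rw [this, mem_N1]
  refine forall_congr' fun j => ?_
  have : ((a⁻¹ * b : P0 G)).1 j = (a.1 j)⁻¹ * b.1 j := rfl
  rw [this, ← pr_eq_one, map_mul, map_inv, inv_mul_eq_one]

lemma pi_zero {a : P0 G} : pi a = 0 ↔ ∀ j, a.1 j ∈ gam G (j + 1) := by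
  have : (0 : AA G) = pi 1 := rfl
  rw [this, pi_eq]
  refine forall_congr' fun j => ?_
  rw [← pr_eq_one]
  exact Iff.rfl

/-- the commutator operators on sequences. -/
def adf (k : ℕ) (u : G) (a : ℕ → G) (j : ℕ) : G :=
  if k + 1 ≤ j then ⁅a (j - (k + 1)), u⁆ else 1

lemma adf_mem (h : Stmt_CG) {k : ℕ} {u : G} (hu : u ∈ gam G k) (a : P0 G) :
    adf k u a.1 ∈ P0 G := by
  intro j
  unfold adf
  split_ifs with hj
  · exact com_mem h (a.2 _) hu (by omega)
  · exact one_mem _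

/-- the same with values in the group of sequences. -/
def adp (h : Stmt_CG) {k : ℕ} {u : G} (hu : u ∈ gam G k) (a : P0 G) : P0 G :=
  ⟨adf k u a.1, adf_mem h hu a⟩

/-- `adp` followed by the projection. -/
def adh (h : Stmt_CG) {k : ℕ} {u : G} (hu : u ∈ gam G k) : P0 G →* P0 G ⧸ N1 G where
  toFun a := QuotientGroup.mk (adp h hu a)
  map_one' := by
    rw [QuotientGroup.eq_one_iff, mem_N1]
    intro j
    show adf k u _ j ∈ _
    unfold adf
    split_ifs
    · have : ((1 : P0 G).1 (j - (k + 1))) = 1 := rfl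
      rw [this, commutatorElement_one_left]
      exact one_mem _
    · exact one_mem _
  map_mul' := by
    intro a b
    rw [← QuotientGroup.mk_mul]
    have hh : pi (adp h hu (a * b)) = pi (adp h hu a * adp h hu b) := by
      rw [pi_eq]
      intro j
      show pr (j + 1) (adf k u (a * b : P0 G).1 j) = pr (j + 1) (adf k u a.1 j * adf k u b.1 j)
      unfold adf
      split_ifs with hj
      · have e : (a * b : P0 G).1 (j - (k + 1)) = a.1 (j - (k + 1)) * b.1 (j - (k + 1)) := rfl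
        have hb : ⁅b.1 (j - (k + 1)), u⁆ ∈ gam G j := com_mem h (b.2 _) hu (by omega)
        have ha : ⁅a.1 (j - (k + 1)), u⁆ ∈ gam G j := com_mem h (a.2 _) hu (by omega)
        rw [e, com_mul_left]
        simp only [map_mul, map_inv]
        rw [(pr_com h (a.2 (j - (k + 1))) hb (by omega)).eq, mul_inv_cancel_right,
          (pr_com h hb ha (by omega)).eq]
      · simp
    exact hh

lemma adh_ker (h : Stmt_CG) {k : ℕ} {u : G} (hu : u ∈ gam G k) : N1 G ≤ (adh h hu).ker := by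
  intro a ha
  rw [MonoidHom.mem_ker]
  show (QuotientGroup.mk (adp h hu a) : P0 G ⧸ N1 G) = 1
  rw [QuotientGroup.eq_one_iff, mem_N1]
  intro j
  show adf k u _ j ∈ _
  unfold adf
  split_ifs with hj
  · exact com_mem h (ha _) hu (by omega)
  · exact one_mem _

/-- the operator `ad_k u`. -/
def AD (h : Stmt_CG) {k : ℕ} {u : G} (hu : u ∈ gam G k) : AddMonoid.End (AA G) :=
  MonoidHom.toAdditive (QuotientGroup.lift (N1 G) (adh h hu) (adh_ker h hu))

lemma AD_pi (h : Stmt_CG) {k : ℕ} {u : G} (hu : u ∈ gam G k) (a : P0 G) :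
    AD h hu (pi a) = pi (adp h hu a) := rfl

lemma end_ext {F F' : AddMonoid.End (AA G)} (h : ∀ a, F (pi a) = F' (pi a)) : F = F' := by
  ext α
  obtain ⟨a, rfl⟩ := pi_surj α
  exact h a

lemma AD_zero (h : Stmt_CG) {k : ℕ} {u : G} (hu : u ∈ gam G k) (hu' : u ∈ gam G (k + 1)) :
    AD h hu = 0 := by
  refine end_ext fun a => ?_
  rw [AD_pi]
  show _ = (0 : AA G)
  rw [pi_zero]
  intro j
  show adf k u _ j ∈ _
  unfold adf
  split_ifs with hj
  · exact com_mem h (a.2 _) hu' (by omega)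
  · exact one_mem _

lemma AD_br (h : Stmt_CG) {k l : ℕ} {u v : G} (hu : u ∈ gam G k) (hv : v ∈ gam G l)
    (huv : ⁅u, v⁆ ∈ gam G (k + l + 1)) :
    AD h hv * AD h hu - AD h hu * AD h hv = AD h huv := by
  rw [sub_eq_iff_eq_add]
  refine end_ext fun a => ?_
  show AD h hv (AD h hu (pi a)) = AD h huv (pi a) + AD h hu (AD h hv (pi a))
  rw [AD_pi, AD_pi, AD_pi, AD_pi, AD_pi, ← pi_mul, pi_eq]
  intro j
  show pr (j + 1) (adf l v (adf k u a.1) j) =
    pr (j + 1) (adf (k + l + 1) ⁅u, v⁆ a.1 j * adf k u (adf l v a.1) j)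
  by_cases hj : k + l + 1 + 1 ≤ j
  · have e1 : adf l v (adf k u a.1) j = ⁅⁅a.1 (j - (k + l + 2)), u⁆, v⁆ := by
      unfold adf
      rw [if_pos (by omega), if_pos (by omega)]
      have hh : j - (l + 1) - (k + 1) = j - (k + l + 2) := by omega
      rw [hh]
    have e2 : adf k u (adf l v a.1) j = ⁅⁅a.1 (j - (k + l + 2)), v⁆, u⁆ := by
      unfold adf
      rw [if_pos (by omega), if_pos (by omega)]
      have hh : j - (k + 1) - (l + 1) = j - (k + l + 2) := by omega
      rw [hh]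
    have e3 : adf (k + l + 1) ⁅u, v⁆ a.1 j = ⁅a.1 (j - (k + l + 2)), ⁅u, v⁆⁆ := by
      unfold adf
      rw [if_pos (by omega)]
    rw [e1, e2, e3]
    obtain ⟨i, rfl⟩ : ∃ i, j = i + (k + l + 2) := ⟨j - (k + l + 2), by omega⟩
    have hi : i + (k + l + 2) - (k + l + 2) = i := by omega
    rw [hi]
    set b := a.1 i with hb
    have hbm : b ∈ gam G i := a.2 i
    have hp : ⁅b, u⁆ ∈ gam G (i + k + 1) := com_mem h hbm hu (le_refl _)
    have hq : ⁅b, v⁆ ∈ gam G (i + l + 1) := com_mem h hbm hv (le_refl _)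
    have hvp : ⁅v, ⁅b, u⁆⁆ ∈ gam G (i + k + l + 2) := com_mem h hv hp (by omega)
    have huq : ⁅u, ⁅b, v⁆⁆ ∈ gam G (i + k + l + 2) := com_mem h hu hq (by omega)
    have hbc : ⁅b, ⁅u, v⁆⁆ ∈ gam G (i + k + l + 2) := com_mem h hbm huv (by omega)
    have J := jac (pr (i + (k + l + 2) + 1) b) (pr (i + (k + l + 2) + 1) u)
      (pr (i + (k + l + 2) + 1) v)
      (by
        simp only [← map_commutatorElement]
        exact pr_com h huv hp (by omega))
      (by
        simp only [← map_commutatorElement]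
        exact pr_com h huv hq (by omega))
      (by
        simp only [← map_commutatorElement]
        exact pr_com h hp hq (by omega))
      (by
        simp only [← map_commutatorElement]
        exact pr_com h huv hvp (by omega))
      (by
        simp only [← map_commutatorElement]
        exact pr_com h huq hp (by omega))
      (by
        simp only [← map_commutatorElement]
        exact pr_com h hvp hq (by omega))
    simp only [← map_commutatorElement] at J
    rw [map_mul, ← commutatorElement_inv v ⁅b, u⁆, ← commutatorElement_inv u ⁅b, v⁆, map_inv,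
      map_inv, ← J, mul_inv_rev]
    have hc : Commute (pr (i + (k + l + 2) + 1) ⁅b, ⁅u, v⁆⁆)
        (pr (i + (k + l + 2) + 1) ⁅v, ⁅b, u⁆⁆)⁻¹ :=
      (pr_com h hbc hvp (by omega)).inv_right
    rw [← mul_assoc, hc.eq, mul_assoc, mul_inv_cancel, mul_one]
  · have e3 : adf (k + l + 1) ⁅u, v⁆ a.1 j = 1 := by
      unfold adf
      rw [if_neg hj]
    have e1 : adf l v (adf k u a.1) j = 1 := by
      unfold adf
      split_ifs with h1 h2
      · omega
      · simp
      · rfl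
    have e2 : adf k u (adf l v a.1) j = 1 := by
      unfold adf
      split_ifs with h1 h2
      · omega
      · simp
      · rfl
    rw [e1, e2, e3, one_mul]

lemma AD_mul (h : Stmt_CG) {k : ℕ} {u v : G} (hu : u ∈ gam G k) (hv : v ∈ gam G k) :
    AD h (mul_mem hu hv) = AD h hu + AD h hv := by
  refine end_ext fun a => ?_
  show AD h _ (pi a) = AD h hu (pi a) + AD h hv (pi a)
  rw [AD_pi, AD_pi, AD_pi, ← pi_mul, pi_eq]
  intro j
  show pr (j + 1) (adf k (u * v) a.1 j) = pr (j + 1) (adf k u a.1 j * adf k v a.1 j)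
  unfold adf
  split_ifs with hj
  · have ha : ⁅a.1 (j - (k + 1)), v⁆ ∈ gam G j := com_mem h (a.2 _) hv (by omega)
    rw [com_mul_right]
    simp only [map_mul, map_inv]
    rw [(pr_com h hu ha (by omega)).eq, mul_inv_cancel_right]
  · simp

/-! ### single entries -/

/-- the sequence with entry `b` at `t`. -/
def sq (t : ℕ) (b : G) (hb : b ∈ gam G t) : P0 G :=
  ⟨Pi.mulSingle t b, by
    intro j
    by_cases hj : j = t
    · subst hj
      rw [Pi.mulSingle_eq_same]; exact hb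
    · rw [Pi.mulSingle_eq_of_ne hj]; exact one_mem _⟩

/-- its class. -/
def sg (t : ℕ) (b : G) (hb : b ∈ gam G t) : AA G := pi (sq t b hb)

lemma sg_mul (t : ℕ) (b c : G) (hb : b ∈ gam G t) (hc : c ∈ gam G t) :
    sg t (b * c) (mul_mem hb hc) = sg t b hb + sg t c hc := by
  unfold sg
  rw [← pi_mul]
  congr 1
  apply Subtype.ext
  exact Pi.mulSingle_mul (f := fun _ : ℕ => G) t b c

lemma sg_zero (t : ℕ) (b : G) (hb : b ∈ gam G t) : sg t b hb = 0 ↔ b ∈ gam G (t + 1) := by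
  unfold sg
  rw [pi_zero]
  constructor
  · intro h
    have := h t
    have e : (sq t b hb).1 t = b := Pi.mulSingle_eq_same (M := fun _ : ℕ => G) t b
    rwa [e] at this
  · intro h j
    show (Pi.mulSingle t b : ℕ → G) j ∈ _
    by_cases hj : j = t
    · subst hj
      rw [Pi.mulSingle_eq_same]; exact h
    · rw [Pi.mulSingle_eq_of_ne hj]; exact one_mem _

lemma AD_sg (h : Stmt_CG) {k : ℕ} {u : G} (hu : u ∈ gam G k) (t : ℕ) (b : G)
    (hb : b ∈ gam G t) (hc : ⁅b, u⁆ ∈ gam G (t + k + 1)) :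
    AD h hu (sg t b hb) = sg (t + k + 1) ⁅b, u⁆ hc := by
  unfold sg
  rw [AD_pi]
  congr 1
  apply Subtype.ext
  funext j
  show adf k u (Pi.mulSingle t b) j = (Pi.mulSingle (t + k + 1) ⁅b, u⁆ : ℕ → G) j
  unfold adf
  by_cases hj : j = t + k + 1
  · subst hj
    have : t + k + 1 - (k + 1) = t := by omega
    rw [if_pos (by omega), this, Pi.mulSingle_eq_same, Pi.mulSingle_eq_same]
  · rw [Pi.mulSingle_eq_of_ne hj]
    split_ifs with h1
    · have : j - (k + 1) ≠ t := by omega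
      rw [Pi.mulSingle_eq_of_ne this, commutatorElement_one_left]
    · rfl

end graded

end GR_

open GR_ in
theorem gr_proof (h : Stmt_CG) : Stmt_GR := by
  intro G _ D m x hD hxD hx
  refine ⟨AddMonoid.End (AA G), inferInstance, fun i => AD h (mem_top0 (x i)), ?_, ?_, ?_⟩
  · intro i
    refine end_ext fun a => ?_
    show AD h _ (AD h _ (pi a)) = (0 : AA G)
    rw [AD_pi, AD_pi, pi_zero]
    intro j
    show adf 0 (x i) (adf 0 (x i) a.1) j ∈ _
    unfold adf
    split_ifs with h1 h2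
    · exact gam_anti (by omega)
        (claim h hD hxD hx (j - (0 + 1) - (0 + 1)) (x i) (hxD i) _ (a.2 _))
    · rw [commutatorElement_one_left]; exact one_mem _
    · exact one_mem _
  · intro i l hl
    have hsq : AD h (mem_top0 (x i)) * AD h (mem_top0 (x i)) = 0 := by
      refine end_ext fun a => ?_
      show AD h _ (AD h _ (pi a)) = (0 : AA G)
      rw [AD_pi, AD_pi, pi_zero]
      intro j
      show adf 0 (x i) (adf 0 (x i) a.1) j ∈ _
      unfold adf
      split_ifs with h1 h2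
      · exact gam_anti (by omega)
          (claim h hD hxD hx (j - (0 + 1) - (0 + 1)) (x i) (hxD i) _ (a.2 _))
      · rw [commutatorElement_one_left]; exact one_mem _
      · exact one_mem _
    have hl' : ∃ (k : ℕ) (u : G) (hu : u ∈ gam G k), l = AD h hu := by
      induction hl with
      | gen i => exact ⟨0, x i, mem_top0 _, rfl⟩
      | br a b _ _ ia ib =>
        obtain ⟨k, u, hu, rfl⟩ := ia
        obtain ⟨k', u', hu', rfl⟩ := ib
        exact ⟨k' + k + 1, ⁅u', u⁆, com_mem h hu' hu (le_refl _),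
          AD_br h hu' hu (com_mem h hu' hu (le_refl _))⟩
    obtain ⟨k, u, hu, rfl⟩ := hl'
    set X := AD h (mem_top0 (x i)) with hX
    have hb1 : ⁅u, x i⁆ ∈ gam G (k + 0 + 1) := com_mem h hu (mem_top0 _) (le_refl _)
    have hb2 : ⁅⁅u, x i⁆, x i⁆ ∈ gam G (k + 0 + 1 + 0 + 1) :=
      com_mem h hb1 (mem_top0 _) (le_refl _)
    have e1 : X * AD h hu - AD h hu * X = AD h hb1 := AD_br h hu (mem_top0 (x i)) hb1
    have e2 : X * AD h hb1 - AD h hb1 * X = AD h hb2 := AD_br h hb1 (mem_top0 (x i)) hb2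
    have e3 : AD h hb2 = 0 :=
      AD_zero h hb2 (claim h hD hxD hx k (x i) (hxD i) u hu)
    rw [e3, ← e1] at e2
    have e4 : X * (X * AD h hu - AD h hu * X) - (X * AD h hu - AD h hu * X) * X =
        X * X * AD h hu - 2 * (X * AD h hu * X) + AD h hu * (X * X) := by
      simp only [mul_sub, sub_mul, two_mul, mul_assoc]; abel
    rw [e4, hsq] at e2
    simpa using e2
  · intro N hN j hj u hu
    have key : ∀ n ≤ N, ∀ w : List (Fin m), w.length = N - n → ∀ t, n ≤ t → ∀ b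
        (hb : b ∈ gam G t), 2 • (ev (fun i => AD h (mem_top0 (x i))) w (sg t b hb)) = 0 := by
      intro n
      induction n with
      | zero =>
        intro _ w hw t _ b hb
        have := hN w (by omega)
        have h2 := congrArg (fun F : AddMonoid.End (AA G) => F (sg t b hb)) this
        have h3 : (2 * ev (fun i => AD h (mem_top0 (x i))) w : AddMonoid.End (AA G)) (sg t b hb)
            = 2 • (ev (fun i => AD h (mem_top0 (x i))) w (sg t b hb)) := by
          rw [two_mul, two_nsmul]; rfl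
        rw [← h3]
        exact h2
      | succ n ih =>
        intro hn w hw t ht b hb
        obtain ⟨t, rfl⟩ : ∃ t', t = t' + 1 := ⟨t - 1, by omega⟩
        let B : Subgroup G :=
          { carrier := {b | ∃ hb : b ∈ gam G (t + 1),
              2 • (ev (fun i => AD h (mem_top0 (x i))) w (sg (t + 1) b hb)) = 0}
            one_mem' := by
              refine ⟨one_mem _, ?_⟩
              rw [(sg_zero (t + 1) 1 (one_mem _)).2 (one_mem _), map_zero, smul_zero]
            mul_mem' := by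
              rintro b c ⟨hb, hb'⟩ ⟨hc, hc'⟩
              refine ⟨mul_mem hb hc, ?_⟩
              rw [sg_mul (t + 1) b c hb hc, map_add, smul_add, hb', hc', add_zero]
            inv_mem' := by
              rintro b ⟨hb, hb'⟩
              refine ⟨inv_mem hb, ?_⟩
              have e : sg (t + 1) b hb + sg (t + 1) b⁻¹ (inv_mem hb) = 0 := by
                rw [← sg_mul, sg_zero]
                rw [mul_inv_cancel]; exact one_mem _
              have e' : sg (t + 1) b⁻¹ (inv_mem hb) = - sg (t + 1) b hb := by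
                rw [eq_neg_iff_add_eq_zero, add_comm, e]
              rw [e', map_neg, smul_neg, hb', neg_zero] }
        have hB : gam G (t + 1) ≤ B := by
          refine gen h x hx t B ?_ ?_
          · intro c hc
            refine ⟨gam_anti (by omega) hc, ?_⟩
            rw [(sg_zero (t + 1) c _).2 hc, map_zero, smul_zero]
          · intro c hc i
            have hc1 : ⁅c, x i⁆ ∈ gam G (t + 0 + 1) := com_mem h hc (mem_top0 _) (le_refl _)
            refine ⟨hc1, ?_⟩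
            have e1 := AD_sg h (mem_top0 (x i)) t c hc hc1
            have e2 := ih (by omega) (w ++ [i]) (by simp; omega) t (by omega) c hc
            have e3 : ev (fun i => AD h (mem_top0 (x i))) (w ++ [i]) =
                ev (fun i => AD h (mem_top0 (x i))) w * AD h (mem_top0 (x i)) := by
              simp [ev]
            rw [e3] at e2
            have e4 : (ev (fun i => AD h (mem_top0 (x i))) w * AD h (mem_top0 (x i))) (sg t c hc)
                = ev (fun i => AD h (mem_top0 (x i))) w (AD h (mem_top0 (x i)) (sg t c hc)) := rfl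
            rw [e4, e1] at e2
            exact e2
        obtain ⟨_, h2⟩ := hB hb
        exact h2
    have hf := key N (le_refl _) [] (by simp) j hj u hu
    have e0 : ev (fun i => AD h (mem_top0 (x i))) [] (sg j u hu) = sg j u hu := by
      simp [ev]
    rw [e0, two_nsmul, ← sg_mul, sg_zero] at hf
    exact hf

end Pool.Agent.L3E
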