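import Pool.Agent.L3E.Stmts

set_option autoImplicit false

/-!
# L3E, module S1: squares in deep terms of the lower central series
-/

namespace Pool.Agent.L3E

theorem s1_proof (hGR : Stmt_GR) (hSWT : Stmt_SWT) : Stmt_S1 := by
  intro m
  obtain ⟨N, hN⟩ := hSWT m
  refine ⟨N, ?_⟩
  intro G _ D x hD hx hcl j hj u hu
  obtain ⟨R, instR, g, h1, h2, h3⟩ := hGR G D m x hD hx hcl
  exact h3 N (hN R g h1 h2) j hj u hu

end Pool.Agent.L3E
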