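import Pool.Agent.L3E.Stmts

/-!
# L3E module SWT: the uniform sandwich theorem up to 2-torsion
-/

set_option autoImplicit false

namespace Pool.Agent.L3E

open Pool.Agent.KOS (ev Com)
open scoped commutatorElement

namespace SWT_

variable (R : Type) [Ring R]

theorem two_mul_left (a b : R) (h : 2 * b = 0) : 2 * (a * b) = 0 := by
  have : 2 * (a * b) = a * (2 * b) := by
    rw [two_mul, two_mul, mul_add]
  rw [this, h, mul_zero]

theorem two_mul_right (a b : R) (h : 2 * a = 0) : 2 * (a * b) = 0 := by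
  rw [← mul_assoc, h, zero_mul]

/-- equality up to 2-torsion -/
def con : RingCon R where
  r a b := 2 * (a - b) = 0
  iseqv := by
    refine ⟨fun a => by rw [sub_self, mul_zero], fun {a b} h => ?_, fun {a b c} h1 h2 => ?_⟩
    · have : 2 * (b - a) = -(2 * (a - b)) := by rw [← mul_neg, neg_sub]
      rw [this, h, neg_zero]
    · have : 2 * (a - c) = 2 * (a - b) + 2 * (b - c) := by rw [← mul_add, sub_add_sub_cancel]
      rw [this, h1, h2, add_zero]
  mul' := by
    intro w x y z h1 h2
    have : w * y - x * z = w * (y - z) + (w - x) * z := by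
      rw [mul_sub, sub_mul]; abel
    rw [this, mul_add, two_mul_left R _ _ h2, two_mul_right R _ _ h1, add_zero]
  add' := by
    intro w x y z h1 h2
    have : w + y - (x + z) = (w - x) + (y - z) := by abel
    rw [this, mul_add, h1, h2, add_zero]

theorem mk_eq (a b : R) : (con R).mk' a = (con R).mk' b ↔ 2 * (a - b) = 0 :=
  (con R).eq

theorem com_lift {r : ℕ} (g : Fin r → R) (l' : (con R).Quotient)
    (h : Com (fun i => (con R).mk' (g i)) l') : ∃ l, Com g l ∧ (con R).mk' l = l' := by
  induction h with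
  | gen i => exact ⟨g i, Com.gen i, rfl⟩
  | br a b _ _ iha ihb =>
    obtain ⟨x, hx, rfl⟩ := iha
    obtain ⟨y, hy, rfl⟩ := ihb
    exact ⟨x * y - y * x, Com.br x y hx hy, by rw [map_sub, map_mul, map_mul]⟩

end SWT_

theorem swt_proof (h1 : Stmt_SWU) : Stmt_SWT := by
  intro r
  obtain ⟨N, hN⟩ := h1 r
  refine ⟨N, fun R _ g hg hl w hw => ?_⟩
  have key := hN (SWT_.con R).Quotient (fun i => (SWT_.con R).mk' (g i)) ?_ ?_ w hw
  · have h2 : ev (fun i => (SWT_.con R).mk' (g i)) w = (SWT_.con R).mk' (ev g w) := by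
      unfold Pool.Agent.KOS.ev
      rw [map_list_prod, List.map_map]
      rfl
    rw [h2, ← map_zero (SWT_.con R).mk', SWT_.mk_eq, sub_zero] at key
    exact key
  · intro i
    rw [← map_mul, hg i, map_zero]
  · intro i l hc
    obtain ⟨x, hx, rfl⟩ := SWT_.com_lift R g l hc
    rw [← map_mul, ← map_mul, ← map_zero (SWT_.con R).mk', SWT_.mk_eq, sub_zero]
    exact hl i x hx

end Pool.Agent.L3E
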