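import Pool.Agent.L3E.Stmts

set_option autoImplicit false

/-!
# L3E SWU: the uniform sandwich theorem
-/

namespace Pool.Agent.L3E.SWU_

open Pool.Agent.KOS (ev Com)

variable {r : ℕ} {R : ℕ → Type} [∀ n, Ring (R n)] (g : ∀ n, Fin r → R n)

theorem com_apply {c : ∀ n, R n} (h : Com (fun i n => g n i) c) (n : ℕ) : Com (g n) (c n) := by
  induction h with
  | gen i => exact Com.gen i
  | br a b _ _ iha ihb => exact Com.br _ _ iha ihb

theorem ev_apply (w : List (Fin r)) (n : ℕ) :
    (ev (fun i n => g n i) w : ∀ n, R n) n = ev (g n) w := by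
  induction w with
  | nil => rfl
  | cons i w ih =>
    unfold ev at ih ⊢
    rw [List.map_cons, List.prod_cons, List.map_cons, List.prod_cons, Pi.mul_apply, ih]

end Pool.Agent.L3E.SWU_

namespace Pool.Agent.L3E

open Pool.Agent.KOS (ev Com)

theorem swu_proof (hZ : Stmt_SWZ) (hT : Stmt_Thk) : Stmt_SWU := by
  intro r
  by_contra hcon
  push Not at hcon
  choose R hR g h1 h2 h3 using hcon
  have e1 : ∀ i : Fin r, ((fun n => g n i : ∀ n, R n) * fun n => g n i) = 0 := by
    intro i
    funext n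
    exact h1 n i
  have e2 : ∀ (i : Fin r) (l : ∀ n, R n), Com (fun i n => g n i) l →
      ((fun n => g n i : ∀ n, R n) * l * fun n => g n i) = 0 := by
    intro i l hl
    funext n
    exact h2 n i (l n) (SWU_.com_apply g hl n)
  obtain ⟨t1, t2⟩ := hT (∀ n, R n) r (fun i n => g n i) e1 e2
  obtain ⟨N, hN⟩ := hZ (∀ n, R n) r (fun i n => g n i) t1 t2
  apply h3 N
  intro w hw
  rw [← SWU_.ev_apply, hN w hw]
  rfl

end Pool.Agent.L3E
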