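import Pool.Agent.L3E.Stmts
import Pool.Agent.KOS.StmtsA
import Pool.Agent.KOS.WMin
import Pool.Agent.KOS.Word
import Pool.Agent.KOS.LynF

set_option autoImplicit false

/-! Module SWZ: the sandwich theorem over an arbitrary ring (copy of KOS/Lyn and KOS/SW over the
integers). -/

namespace Pool.Agent.L3E

open Pool.Agent.KOS (ev Com Lyn Stmt_Word Stmt_LynF wMin_proof word_proof lynF_proof)
open scoped commutatorElement

namespace SWZ_

/-- span of the values of the bigger words of the same length. -/
def Up {R : Type*} [Ring R] {r : ℕ} (g : Fin r → R) (w : List (Fin r)) : Submodule ℤ R :=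
  Submodule.span ℤ {x | ∃ w' : List (Fin r), w'.length = w.length ∧ w < w' ∧ x = ev g w'}

/-- bracketing of Lyndon words. -/
def SLyn : Prop := ∀ (R : Type) [Ring R] (r : ℕ) (g : Fin r → R)
  (w : List (Fin r)), Lyn w → ∃ c, Com g c ∧ c - ev g w ∈ Up g w

theorem lt_append {r : ℕ} : ∀ (u u' x y : List (Fin r)), u.length = u'.length → u < u' →
    u ++ x < u' ++ y
  | [], [], _, _, _, h => absurd h (lt_irrefl _)
  | [], _ :: _, _, _, hl, _ => by simp at hl
  | _ :: _, [], _, _, hl, _ => by simp at hl
  | a :: u, b :: u', x, y, hl, h => by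
    rw [List.cons_lt_cons_iff] at h
    rw [List.cons_append, List.cons_append, List.cons_lt_cons_iff]
    rcases h with h | ⟨h1, h2⟩
    · exact Or.inl h
    · refine Or.inr ⟨h1, lt_append u u' x y (by simpa using hl) h2⟩

theorem append_lt {r : ℕ} : ∀ (u x y : List (Fin r)), x < y → u ++ x < u ++ y
  | [], _, _, h => h
  | a :: u, x, y, h => by
    rw [List.cons_append, List.cons_append, List.cons_lt_cons_iff]
    exact Or.inr ⟨rfl, append_lt u x y h⟩

theorem ev_append {R : Type*} [Monoid R] {r : ℕ} (g : Fin r → R) (u v : List (Fin r)) :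
    ev g (u ++ v) = ev g u * ev g v := by
  simp [ev]

section
variable {R : Type*} [Ring R] {r : ℕ} (g : Fin r → R)

/-- span of all words of length `n`. -/
def Sp (n : ℕ) : Submodule ℤ R :=
  Submodule.span ℤ {x | ∃ w' : List (Fin r), w'.length = n ∧ x = ev g w'}

theorem up_le_sp (w : List (Fin r)) : Up g w ≤ Sp g w.length := by
  apply Submodule.span_mono
  rintro x ⟨w', h1, _, h3⟩
  exact ⟨w', h1, h3⟩

theorem ev_mem_sp (w : List (Fin r)) : ev g w ∈ Sp g w.length :=
  Submodule.subset_span ⟨w, rfl, rfl⟩

theorem up_mul_sp (u v : List (Fin r)) (x y : R) (hx : x ∈ Up g u)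
    (hy : y ∈ Sp g v.length) : x * y ∈ Up g (u ++ v) := by
  induction hx using Submodule.span_induction with
  | mem x hx =>
    obtain ⟨u', h1, h2, rfl⟩ := hx
    induction hy using Submodule.span_induction with
    | mem y hy =>
      obtain ⟨v', h3, rfl⟩ := hy
      rw [← ev_append]
      refine Submodule.subset_span ⟨u' ++ v', ?_, ?_, rfl⟩
      · simp [h1, h3]
      · exact lt_append u u' v v' h1.symm h2
    | zero => rw [mul_zero]; exact Submodule.zero_mem _
    | add a b _ _ ha hb => rw [mul_add]; exact Submodule.add_mem _ ha hb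
    | smul c a _ ha => rw [mul_smul_comm]; exact Submodule.smul_mem _ _ ha
  | zero => rw [zero_mul]; exact Submodule.zero_mem _
  | add a b _ _ ha hb => rw [add_mul]; exact Submodule.add_mem _ ha hb
  | smul c a _ ha => rw [smul_mul_assoc]; exact Submodule.smul_mem _ _ ha

theorem ev_mul_up (u v : List (Fin r)) (y : R) (hy : y ∈ Up g v) :
    ev g u * y ∈ Up g (u ++ v) := by
  induction hy using Submodule.span_induction with
  | mem y hy =>
    obtain ⟨v', h3, h4, rfl⟩ := hy
    rw [← ev_append]
    refine Submodule.subset_span ⟨u ++ v', ?_, ?_, rfl⟩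
    · simp [h3]
    · exact append_lt u v v' h4
  | zero => rw [mul_zero]; exact Submodule.zero_mem _
  | add a b _ _ ha hb => rw [mul_add]; exact Submodule.add_mem _ ha hb
  | smul c a _ ha => rw [mul_smul_comm]; exact Submodule.smul_mem _ _ ha

theorem mul_sub_ev (u v : List (Fin r)) (a b : R) (ha : a - ev g u ∈ Up g u)
    (hb : b - ev g v ∈ Up g v) : a * b - ev g (u ++ v) ∈ Up g (u ++ v) := by
  have hb' : b ∈ Sp g v.length := by
    have h1 := Submodule.add_mem _ (up_le_sp g v hb) (ev_mem_sp g v)
    rwa [sub_add_cancel] at h1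
  have h2 := Submodule.add_mem _ (up_mul_sp g u v _ _ ha hb') (ev_mul_up g u v _ hb)
  have h3 : (a - ev g u) * b + ev g u * (b - ev g v) = a * b - ev g (u ++ v) := by
    rw [ev_append]; noncomm_ring
  rwa [h3] at h2

theorem up_mono (w w' : List (Fin r)) (hl : w'.length = w.length) (h : w < w') :
    Up g w' ≤ Up g w := by
  apply Submodule.span_mono
  rintro x ⟨v, h1, h2, h3⟩
  exact ⟨v, h1.trans hl, h.trans h2, h3⟩

end


theorem lyn_proof (hF : Stmt_LynF) : SLyn := by
  intro R _ r g w
  induction hn : w.length using Nat.strong_induction_on generalizing w with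
  | _ n ih =>
  subst hn
  intro hw
  by_cases h2 : 2 ≤ w.length
  · obtain ⟨u, v, rfl, hu, hv, huv⟩ := hF r w hw h2
    have hu0 : 0 < u.length := List.length_pos_iff.mpr hu.1
    have hv0 : 0 < v.length := List.length_pos_iff.mpr hv.1
    obtain ⟨a, ha, ha'⟩ := ih u.length (by simp; omega) u rfl hu
    obtain ⟨b, hb, hb'⟩ := ih v.length (by simp; omega) v rfl hv
    refine ⟨a * b - b * a, Com.br a b ha hb, ?_⟩
    have hl : (v ++ u).length = (u ++ v).length := by simp [Nat.add_comm]
    have e1 := mul_sub_ev g u v a b ha' hb'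
    have e2 := up_mono g (u ++ v) (v ++ u) hl huv (mul_sub_ev g v u b a hb' ha')
    have e3 : ev g (v ++ u) ∈ Up g (u ++ v) :=
      Submodule.subset_span ⟨v ++ u, hl, huv, rfl⟩
    have e4 := Submodule.sub_mem _ (Submodule.sub_mem _ e1 e2) e3
    have e5 : a * b - ev g (u ++ v) - (b * a - ev g (v ++ u)) - ev g (v ++ u) =
        a * b - b * a - ev g (u ++ v) := by abel
    rwa [e5] at e4
  · have h0 : 0 < w.length := List.length_pos_iff.mpr hw.1
    have h1 : w.length = 1 := by omega
    obtain ⟨x, rfl⟩ := List.length_eq_one_iff.mp h1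
    refine ⟨g x, Com.gen x, ?_⟩
    have : ev g [x] = g x := by simp [ev]
    rw [this, sub_self]
    exact Submodule.zero_mem _

variable {r : ℕ}

lemma lt_append_left (u : List (Fin r)) {v v' : List (Fin r)} (h : v < v') : u ++ v < u ++ v' := by
  induction u with
  | nil => simpa using h
  | cons a u ih => simpa using ih

lemma lt_append_right (w w' : List (Fin r)) {v v' : List (Fin r)} (hl : v'.length = v.length)
    (h : v < v') : v ++ w < v' ++ w' := by
  induction v generalizing v' with
  | nil =>
    have : v' = [] := by simpa using hl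
    subst this
    exact absurd h (lt_irrefl _)
  | cons a v ih =>
    cases v' with
    | nil => simp at hl
    | cons b v' =>
      simp only [List.cons_append, List.cons_lt_cons_iff] at h ⊢
      rcases h with h | ⟨h, h'⟩
      · exact Or.inl h
      · exact Or.inr ⟨h, ih (by simpa using hl) h'⟩

variable {R : Type} [Ring R] (g : Fin r → R)


/-- products of something in `Up V` with something spanned by words -/
lemma mul_mem (a V b : List (Fin r)) (x z : R) (_n : ℕ) (hx : x ∈ Up g V)
    (hz : z ∈ Submodule.span ℤ {z | ∃ w' : List (Fin r), w'.length = b.length ∧ z = ev g w'}) :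
    ev g a * x * z ∈ Up g (a ++ V ++ b) := by
  unfold Up at hx ⊢
  induction hx using Submodule.span_induction with
  | mem x hx =>
    obtain ⟨w', hl, hlt, rfl⟩ := hx
    induction hz using Submodule.span_induction with
    | mem z hz =>
      obtain ⟨w'', hl', rfl⟩ := hz
      apply Submodule.subset_span
      refine ⟨a ++ w' ++ w'', by simp [hl, hl'], ?_, by simp [ev_append, mul_assoc]⟩
      rw [List.append_assoc, List.append_assoc]
      exact lt_append_left _ (lt_append_right _ _ hl hlt)
    | zero => simp
    | add z z' _ _ h1 h2 => rw [mul_add]; exact Submodule.add_mem _ h1 h2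
    | smul c z _ h1 => rw [mul_smul_comm]; exact Submodule.smul_mem _ _ h1
  | zero => simp
  | add x x' _ _ h1 h2 => rw [mul_add, add_mul]; exact Submodule.add_mem _ h1 h2
  | smul c x _ h1 => rw [mul_smul_comm, smul_mul_assoc]; exact Submodule.smul_mem _ _ h1

lemma ev_mul_mem (a V : List (Fin r)) (x : R) (hx : x ∈ Up g V) :
    ev g a * x ∈ Up g (a ++ V) := by
  have := mul_mem g a V [] x 1 0 hx (Submodule.subset_span ⟨[], rfl, by simp [ev]⟩)
  simpa using this

lemma up_sub (V : List (Fin r)) (x : R) (hx : x ∈ Up g V) :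
    x ∈ Submodule.span ℤ {z | ∃ w' : List (Fin r), w'.length = V.length ∧ z = ev g w'} := by
  unfold Up at hx
  refine Submodule.span_mono ?_ hx
  rintro x ⟨w', h1, _, h3⟩
  exact ⟨w', h1, h3⟩

lemma ev_span (b : List (Fin r)) :
    ev g b ∈ Submodule.span ℤ {z | ∃ w' : List (Fin r), w'.length = b.length ∧ z = ev g w'} :=
  Submodule.subset_span ⟨b, rfl, rfl⟩

lemma span_mul (b b' : List (Fin r)) (x z : R)
    (hx : x ∈ Submodule.span ℤ {z | ∃ w' : List (Fin r), w'.length = b.length ∧ z = ev g w'})
    (hz : z ∈ Submodule.span ℤ {z | ∃ w' : List (Fin r), w'.length = b'.length ∧ z = ev g w'}) :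
    x * z ∈ Submodule.span ℤ {z | ∃ w' : List (Fin r), w'.length = (b ++ b').length ∧
      z = ev g w'} := by
  induction hx using Submodule.span_induction with
  | mem x hx =>
    obtain ⟨w', hl, rfl⟩ := hx
    induction hz using Submodule.span_induction with
    | mem z hz =>
      obtain ⟨w'', hl', rfl⟩ := hz
      exact Submodule.subset_span ⟨w' ++ w'', by simp [hl, hl'], by simp [ev_append]⟩
    | zero => simp
    | add z z' _ _ h1 h2 => rw [mul_add]; exact Submodule.add_mem _ h1 h2
    | smul c z _ h1 => rw [mul_smul_comm]; exact Submodule.smul_mem _ _ h1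
  | zero => simp
  | add x x' _ _ h1 h2 => rw [add_mul]; exact Submodule.add_mem _ h1 h2
  | smul c x _ h1 => rw [smul_mul_assoc]; exact Submodule.smul_mem _ _ h1


theorem sw_proof (hW : Stmt_Word) (hL : SLyn) : Stmt_SWZ := by
  intro R _ r g hc hcd
  by_contra hcon
  have hcon : ∀ N : ℕ, ∃ w : List (Fin r), w.length = N ∧ ev g w ≠ 0 := by
    intro N
    by_contra h
    push Not at h
    exact hcon ⟨N, h⟩
  refine hW r {w | ev g w ∉ Up g w} ?_ ?_ ?_ ?_ ?_
  · intro u v w huvw hv
    apply huvw
    have := mul_mem g u v w (ev g v) (ev g w) 0 hv (ev_span g w)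
    simpa [ev_append, mul_assoc] using this
  · intro N
    by_contra hN
    push Not at hN
    obtain ⟨w, hw, hne⟩ := hcon N
    have hfin : {w : List (Fin r) | w.length = N}.Finite := List.finite_length_eq (Fin r) N
    -- all words of length N vanish
    have key : ∀ w : List (Fin r), w.length = N → ev g w = 0 := by
      by_contra hk
      push Not at hk
      have hne' : ({w : List (Fin r) | w.length = N ∧ ev g w ≠ 0}).Nonempty := hk
      obtain ⟨m, hm, hmax⟩ := Set.exists_max_image {w : List (Fin r) | w.length = N ∧ ev g w ≠ 0}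
        id (hfin.subset fun w hw => hw.1) hne'
      apply hm.2
      have h1 : ev g m ∈ Up g m := by
        by_contra h2
        exact hN m h2 hm.1
      have h2 : Up g m ≤ ⊥ := by
        unfold Up
        rw [Submodule.span_le]
        rintro x ⟨w', hl, hlt, rfl⟩
        by_contra hx
        have := hmax w' ⟨hl.trans hm.1, by simpa using hx⟩
        exact absurd hlt (not_lt.mpr this)
      simpa using h2 h1
    exact hne (key w hw)
  · intro y hy
    apply hy
    have : ev g [y, y] = 0 := by
      have := hc _ (Com.gen (g := g) y)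
      simpa [ev] using this
    rw [this]
    exact Submodule.zero_mem _
  · intro y V hV hy
    obtain ⟨c, hcc, hcV⟩ := hL R r g V hV
    apply hy
    have h1 : g y * c * g y = 0 := hcd _ _ (Com.gen y) hcc
    have h2 : ev g ([y] ++ V ++ [y]) = -(ev g [y] * (c - ev g V) * ev g [y]) := by
      have : ev g [y] = g y := by simp [ev]
      rw [ev_append, ev_append, this]
      rw [mul_sub, sub_mul, h1]
      simp
    rw [h2]
    exact Submodule.neg_mem _ (mul_mem g [y] V [y] _ _ 0 hcV (ev_span g [y]))
  · intro y V hV hy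
    obtain ⟨c, hcc, hcV⟩ := hL R r g V hV
    apply hy
    have h1 : c * g y * c = 0 := hcd _ _ hcc (Com.gen y)
    set δ := c - ev g V with hδ
    have hcd' : c = ev g V + δ := by rw [hδ]; abel
    have hgy : ev g [y] = g y := by simp [ev]
    have h2 : ev g (V ++ [y] ++ V) =
        -(ev g (V ++ [y]) * δ) - ev g [] * δ * (ev g [y] * ev g V) -
          ev g [] * δ * (ev g [y] * δ) := by
      have he : ev g ([] : List (Fin r)) = 1 := by simp [ev]
      rw [ev_append, ev_append, hgy, he]
      rw [hcd'] at h1
      have h3 : (ev g V + δ) * g y * (ev g V + δ) = ev g V * g y * ev g V +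
        ev g V * g y * δ + δ * g y * ev g V + δ * g y * δ := by noncomm_ring
      rw [h3] at h1
      have h4 : ev g V * g y * ev g V = -(ev g V * g y * δ) - (δ * g y * ev g V) -
        (δ * g y * δ) := by
        rw [eq_sub_iff_add_eq, eq_sub_iff_add_eq, eq_neg_iff_add_eq_zero, ← h1]
        abel
      rw [h4]
      noncomm_ring
    rw [h2]
    refine Submodule.sub_mem _ (Submodule.sub_mem _ (Submodule.neg_mem _ ?_) ?_) ?_
    · exact ev_mul_mem g (V ++ [y]) V δ hcV
    · have := mul_mem g [] V ([y] ++ V) δ (ev g [y] * ev g V) 0 hcV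
        (span_mul g [y] V _ _ (ev_span g [y]) (ev_span g V))
      simpa [List.append_assoc] using this
    · have := mul_mem g [] V ([y] ++ V) δ (ev g [y] * δ) 0 hcV
        (span_mul g [y] V _ _ (ev_span g [y]) (up_sub g V δ hcV))
      simpa [List.append_assoc] using this

end SWZ_

theorem swz_proof : Stmt_SWZ :=
  SWZ_.sw_proof (word_proof wMin_proof) (SWZ_.lyn_proof lynF_proof)

end Pool.Agent.L3E
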