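import Pool.Agent.L3E.Stmts

set_option autoImplicit false

/-!
# L3E, module THK: commutators of thick elements are thick
-/

namespace Pool.Agent.L3E

open Pool.Agent.KOS (ev Com)

theorem thk_proof : Stmt_Thk := by
  intro R _ r g h1 h2
  have key : ∀ c, Com g c → c * c = 0 ∧ ∀ l, Com g l → c * l * c = 0 := by
    intro c hc
    induction hc with
    | gen i => exact ⟨h1 i, h2 i⟩
    | br c d hc hd ihc ihd =>
      obtain ⟨c2, cl⟩ := ihc
      obtain ⟨d2, dl⟩ := ihd
      have cdc := cl d hd
      have dcd := dl c hc
      constructor
      · have e : (c * d - d * c) * (c * d - d * c)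
            = c * d * c * d - c * (d * d) * c - d * (c * c) * d + d * c * d * c := by noncomm_ring
        rw [e, cdc, dcd, c2, d2]; simp
      · intro u hu
        have hi : c * d * u * c = c * u * d * c := by
          have := cl _ (Com.br d u hd hu)
          have e : c * (d * u - u * d) * c = c * d * u * c - c * u * d * c := by noncomm_ring
          rw [e] at this
          exact sub_eq_zero.1 this
        have cuc := cl u hu
        have dud := dl u hu
        have t1 : c * d * u * c * d = 0 := by
          rw [hi]
          calc c * u * d * c * d = c * u * (d * c * d) := by noncomm_ring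
            _ = 0 := by rw [dcd, mul_zero]
        have t2 : d * (c * u * d * c) = 0 := by
          rw [← hi]
          calc d * (c * d * u * c) = (d * c * d) * u * c := by noncomm_ring
            _ = 0 := by rw [dcd]; simp
        have e : (c * d - d * c) * u * (c * d - d * c)
            = c * d * u * c * d - c * (d * u * d) * c - d * (c * u * c) * d
              + d * (c * u * d * c) := by noncomm_ring
        rw [e, t1, t2, cuc, dud]; simp
  exact ⟨fun c hc => (key c hc).1, fun c d hc hd => (key c hc).2 d hd⟩

end Pool.Agent.L3E
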