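import Pool.Agent.L3E.Stmts

set_option autoImplicit false

/-!
# L3E, module ABN
-/

namespace Pool.Agent.L3E

/-- ABN. -/
theorem abn_proof : Stmt_Abn := by
  intro r e
  induction r with
  | zero =>
    refine ⟨1, fun C _ n _ => ?_⟩
    have h : Set.range n = ∅ := Set.range_eq_empty n
    rw [h, Ideal.span_empty, pow_one]
  | succ r ih =>
    obtain ⟨K, hK⟩ := ih
    refine ⟨e + K, fun C _ n hn => ?_⟩
    have h : Set.range n = {n 0} ∪ Set.range (fun i : Fin r => n i.succ) := by
      ext y
      constructor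
      · rintro ⟨i, rfl⟩
        refine Fin.cases (Or.inl rfl) (fun j => Or.inr ⟨j, rfl⟩) i
      · rintro (h | ⟨j, rfl⟩)
        · exact ⟨0, h.symm⟩
        · exact ⟨j.succ, rfl⟩
    rw [h, Ideal.span_union]
    refine le_bot_iff.mp (Ideal.sup_pow_add_le_pow_sup_pow.trans ?_)
    rw [Ideal.span_singleton_pow, hn 0, hK C (fun i => n i.succ) fun i => hn i.succ,
      Ideal.span_singleton_eq_bot.mpr rfl]
    simp

end Pool.Agent.L3E
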