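import Pool.Agent.L3E.DK
import Mathlib

set_option autoImplicit false

/-!
# L3E, module BCS: the bootstrap (J1) => Stmt_CS (helper49, after helper81's note)
-/

namespace Pool.Agent.L3E

open scoped commutatorElement

/-- The value `t - 1`, `t = (z [x, y]) ^ 4`, in terms of `X = x - 1`, `Y = y - 1`, `Z = z - 1`. -/
def tval {R : Type} [Ring R] (X Y Z : R) : R :=
  ((1 + Z) * ((1 + X) * (1 + Y) * (1 + X) * (1 + Y))) ^ 4 - 1

/-- (J1): the certificate for four D-letters, in ring form. -/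
def Stmt_J1 : Prop := ∀ (R : Type) [Ring R] (D : Set R), (2 : R) = 0 →
  (∀ X ∈ D, X * X = 0) → (∀ X ∈ D, ∀ Y ∈ D, X * Y * X * Y = 0) →
  (∀ X ∈ D, ∀ Y ∈ D, (1 + Y) * X * (1 + Y) ∈ D) →
  (∃ N : ℕ, ∀ l : List R, l.length = N → (∀ X ∈ l, X ∈ D) → l.prod = 0) →
  ∀ X ∈ D, ∀ Y ∈ D, ∀ Z ∈ D, ∀ U ∈ D,
    tval X Y Z * tval X Y Z = 0 ∧ tval X Y Z * U * tval X Y Z = 0

/-- The hypotheses of (J1) for a group acting through a homomorphism. -/
structure DSys {G R : Type} [Group G] [Ring R] (D : Set G) (ρ : G →* R) : Prop where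
  two : (2 : R) = 0
  conj : ∀ a ∈ D, ∀ g : G, g * a * g⁻¹ ∈ D
  sq : ∀ a ∈ D, (ρ a - 1) * (ρ a - 1) = 0
  pr : ∀ a ∈ D, ∀ b ∈ D, (ρ a - 1) * (ρ b - 1) * (ρ a - 1) * (ρ b - 1) = 0
  nil : ∃ N : ℕ, ∀ l : List G, l.length = N → (l.map fun g => ρ g - 1).prod = 0

namespace BCS_

section
variable {G R : Type} [Group G] [Ring R] {D : Set G} {ρ : G →* R}

theorem two_add (h2 : (2 : R) = 0) (a : R) : a + a = 0 := by rw [← two_mul, h2, zero_mul]

theorem rho_sq (h2 : (2 : R) = 0) {a : G} (h : (ρ a - 1) * (ρ a - 1) = 0) : ρ a * ρ a = 1 := by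
  have e : ρ a * ρ a = (ρ a - 1) * (ρ a - 1) + (ρ a + ρ a) - 1 := by noncomm_ring
  rw [e, h, two_add h2, zero_add, zero_sub, neg_eq_iff_add_eq_zero]
  exact two_add h2 1

theorem rho_inv (h2 : (2 : R) = 0) {a : G} (h : (ρ a - 1) * (ρ a - 1) = 0) : ρ a⁻¹ = ρ a := by
  have e := rho_sq h2 h
  calc ρ a⁻¹ = ρ a⁻¹ * (ρ a * ρ a) := by rw [e, mul_one]
    _ = ρ a := by rw [← mul_assoc, ← map_mul, inv_mul_cancel, map_one, one_mul]

theorem exists_map {α β : Type} (f : α → β) (D : Set α) : ∀ l : List β, (∀ X ∈ l, X ∈ f '' D) →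
    ∃ l' : List α, l'.map f = l := by
  intro l
  induction l with
  | nil => intro _; exact ⟨[], rfl⟩
  | cons b l ih =>
    intro h
    obtain ⟨l', hl'⟩ := ih (fun X hX => h X (List.mem_cons_of_mem _ hX))
    obtain ⟨a, _, ha⟩ := h b (by simp)
    exact ⟨a :: l', by simp [ha, hl']⟩

/-- (J1) in group form. -/
theorem j1_group (h : Stmt_J1) (s : DSys D ρ) : ∀ x ∈ D, ∀ y ∈ D, ∀ z ∈ D, ∀ u ∈ D,
    (ρ ((z * ⁅x, y⁆) ^ 4) - 1) * (ρ ((z * ⁅x, y⁆) ^ 4) - 1) = 0 ∧
    (ρ ((z * ⁅x, y⁆) ^ 4) - 1) * (ρ u - 1) * (ρ ((z * ⁅x, y⁆) ^ 4) - 1) = 0 := by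
  have key := h R ((fun a => ρ a - 1) '' D) s.two
    (by rintro _ ⟨a, ha, rfl⟩; exact s.sq a ha)
    (by rintro _ ⟨a, ha, rfl⟩ _ ⟨b, hb, rfl⟩; exact s.pr a ha b hb)
    (by
      rintro _ ⟨a, ha, rfl⟩ _ ⟨b, hb, rfl⟩
      refine ⟨b * a * b⁻¹, s.conj a ha b, ?_⟩
      have h1 := rho_inv s.two (s.sq b hb)
      have h2 := rho_sq s.two (s.sq b hb)
      simp only [map_mul, h1]
      have e : (1 + (ρ b - 1)) * (ρ a - 1) * (1 + (ρ b - 1)) = ρ b * ρ a * ρ b - ρ b * ρ b := by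
        noncomm_ring
      rw [e, h2])
    (by
      obtain ⟨N, hN⟩ := s.nil
      refine ⟨N, fun l hl hD => ?_⟩
      obtain ⟨l', rfl⟩ := exists_map (fun a => ρ a - 1) D l hD
      exact hN l' (by simpa using hl))
  intro x hx y hy z hz u hu
  have k := key _ ⟨x, hx, rfl⟩ _ ⟨y, hy, rfl⟩ _ ⟨z, hz, rfl⟩ _ ⟨u, hu, rfl⟩
  have e : tval (ρ x - 1) (ρ y - 1) (ρ z - 1) = ρ ((z * ⁅x, y⁆) ^ 4) - 1 := by
    simp only [tval, add_sub_cancel, commutatorElement_def, map_pow, map_mul,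
      rho_inv s.two (s.sq x hx), rho_inv s.two (s.sq y hy)]
  rw [e] at k
  exact k

theorem valS_conj (hc : ∀ a ∈ D, ∀ g : G, g * a * g⁻¹ ∈ D) {t : G} (ht : t ∈ valS D) (g : G) :
    g * t * g⁻¹ ∈ valS D := by
  obtain ⟨c, hc', x, hx, y, hy, rfl⟩ := ht
  refine ⟨g * c * g⁻¹, hc c hc' g, g * x * g⁻¹, hc x hx g, g * y * g⁻¹, hc y hy g, ?_⟩
  rw [← conj_pow, commutatorElement_def, commutatorElement_def]
  congr 1
  group

variable (D ρ) in
/-- The additive group spanned by the elements `(T T')^2 w g`, `w` a product of `n` elements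
`k - 1`. -/
def V (n : ℕ) : AddSubgroup R := AddSubgroup.closure
  {v | ∃ t ∈ valS D, ∃ t' ∈ valS D, ∃ l : List G, l.length = n ∧ ∃ k : G,
    v = (ρ t - 1) * (ρ t' - 1) * (ρ t - 1) * (ρ t' - 1) * (l.map fun g => ρ g - 1).prod * ρ k}

theorem move (g t : G) : ρ g * (ρ t - 1) = (ρ (g * t * g⁻¹) - 1) * ρ g := by
  rw [sub_mul, ← map_mul ρ (g * t * g⁻¹), mul_sub, ← map_mul]
  simp

theorem move_list (g : G) (l : List G) : ρ g * (l.map fun g => ρ g - 1).prod =
    ((l.map fun a => g * a * g⁻¹).map fun g => ρ g - 1).prod * ρ g := by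
  induction l with
  | nil => simp
  | cons a l ih =>
    simp only [List.map_cons, List.prod_cons]
    rw [← mul_assoc (ρ g), move, mul_assoc (ρ (g * a * g⁻¹) - 1) (ρ g), ih, ← mul_assoc]

theorem mulR (n : ℕ) {v : R} (hv : v ∈ V D ρ n) {a : R}
    (ha : a ∈ Subring.closure (Set.range ρ)) : v * a ∈ V D ρ n := by
  induction ha using Subring.closure_induction generalizing v with
  | mem x hx =>
    obtain ⟨g, rfl⟩ := hx
    induction hv using AddSubgroup.closure_induction with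
    | mem v hv =>
      obtain ⟨t, ht, t', ht', l, hl, k, rfl⟩ := hv
      refine AddSubgroup.subset_closure ⟨t, ht, t', ht', l, hl, k * g, ?_⟩
      rw [map_mul, mul_assoc _ (ρ k)]
    | zero => rw [zero_mul]; exact zero_mem _
    | add v w _ _ h1 h2 => rw [add_mul]; exact add_mem h1 h2
    | neg v _ h1 => rw [neg_mul]; exact neg_mem h1
  | zero => rw [mul_zero]; exact zero_mem _
  | one => rwa [mul_one]
  | add x y _ _ h1 h2 => rw [mul_add]; exact add_mem (h1 hv) (h2 hv)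
  | neg x _ h1 => rw [mul_neg]; exact neg_mem (h1 hv)
  | mul x y _ _ h1 h2 => rw [← mul_assoc]; exact h2 (h1 hv)

theorem mulL (hc : ∀ a ∈ D, ∀ g : G, g * a * g⁻¹ ∈ D) (n : ℕ) {v : R} (hv : v ∈ V D ρ n) {a : R}
    (ha : a ∈ Subring.closure (Set.range ρ)) : a * v ∈ V D ρ n := by
  induction ha using Subring.closure_induction generalizing v with
  | mem x hx =>
    obtain ⟨g, rfl⟩ := hx
    induction hv using AddSubgroup.closure_induction with
    | mem v hv =>
      obtain ⟨t, ht, t', ht', l, hl, k, rfl⟩ := hv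
      refine AddSubgroup.subset_closure ⟨g * t * g⁻¹, valS_conj hc ht g, g * t' * g⁻¹,
        valS_conj hc ht' g, l.map fun a => g * a * g⁻¹, by simpa using hl, g * k, ?_⟩
      simp only [← mul_assoc]
      rw [move]
      rw [mul_assoc (ρ (g * t * g⁻¹) - 1) (ρ g), move]
      simp only [← mul_assoc]
      rw [mul_assoc _ (ρ g) (ρ t - 1), move]
      simp only [← mul_assoc]
      rw [mul_assoc _ (ρ g) (ρ t' - 1), move]
      simp only [← mul_assoc]
      rw [mul_assoc _ (ρ g) (List.prod _), move_list]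
      simp only [← mul_assoc]
      rw [mul_assoc _ (ρ g) (ρ k), ← map_mul]
    | zero => rw [mul_zero]; exact zero_mem _
    | add v w _ _ h1 h2 => rw [mul_add]; exact add_mem h1 h2
    | neg v _ h1 => rw [mul_neg]; exact neg_mem h1
  | zero => rw [zero_mul]; exact zero_mem _
  | one => rwa [one_mul]
  | add x y _ _ h1 h2 => rw [add_mul]; exact add_mem (h1 hv) (h2 hv)
  | neg x _ h1 => rw [neg_mul]; exact neg_mem (h1 hv)
  | mul x y _ _ h1 h2 => rw [mul_assoc]; exact h1 (h2 hv)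

/-- one more factor -/
theorem mulT (n : ℕ) {v : R} (hv : v ∈ V D ρ n) (t : G) : v * (ρ t - 1) ∈ V D ρ (n + 1) := by
  induction hv using AddSubgroup.closure_induction with
  | mem v hv =>
    obtain ⟨t1, ht1, t', ht', l, hl, k, rfl⟩ := hv
    refine AddSubgroup.subset_closure ⟨t1, ht1, t', ht', l ++ [k * t * k⁻¹], by simp [hl], k, ?_⟩
    rw [mul_assoc _ (ρ k), move]
    simp [mul_assoc]
  | zero => rw [zero_mul]; exact zero_mem _
  | add v w _ _ h1 h2 => rw [add_mul]; exact add_mem h1 h2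
  | neg v _ h1 => rw [neg_mul]; exact neg_mem h1

/-- If all generators lie in `V n` then `V 0 ≤ V n`. -/
theorem V_le {n : ℕ} (h : ∀ t ∈ valS D, ∀ t' ∈ valS D,
    (ρ t - 1) * (ρ t' - 1) * (ρ t - 1) * (ρ t' - 1) ∈ V D ρ n) : V D ρ 0 ≤ V D ρ n := by
  rw [V, AddSubgroup.closure_le]
  rintro v ⟨t, ht, t', ht', l, hl, k, rfl⟩
  obtain rfl := List.length_eq_zero_iff.1 hl
  simp only [List.map_nil, List.prod_nil, mul_one]
  exact mulR n (h t ht t' ht') (Subring.subset_closure ⟨k, rfl⟩)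

end

/-- The bootstrap. -/
theorem boot (h : Stmt_J1) {G R : Type} [Group G] [Ring R] {D : Set G} {ρ : G →* R}
    (s : DSys D ρ) : ∀ t ∈ valS D, ∀ t' ∈ valS D,
    (ρ t - 1) * (ρ t - 1) = 0 ∧ (ρ t - 1) * (ρ t' - 1) * (ρ t - 1) = 0 := by
  -- the subring generated by the image
  let A : Subring R := Subring.closure (Set.range ρ)
  let ρA : G →* A := ρ.codRestrict A (fun g => Subring.subset_closure ⟨g, rfl⟩)
  have hρA : ∀ g, ((ρA g : A) : R) = ρ g := fun g => rfl
  let I : TwoSidedIdeal A := TwoSidedIdeal.mk' {a : A | (a : R) ∈ V D ρ 0}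
    (by simp)
    (by
      intro x y hx hy
      simp only [Set.mem_ofPred_eq, Subring.coe_add] at *
      exact add_mem hx hy)
    (by
      intro x hx
      simp only [Set.mem_ofPred_eq, Subring.coe_neg] at *
      exact neg_mem hx)
    (by
      intro x y hy
      simp only [Set.mem_ofPred_eq, Subring.coe_mul] at *
      exact mulL s.conj 0 hy x.2)
    (by
      intro x y hx
      simp only [Set.mem_ofPred_eq, Subring.coe_mul] at *
      exact mulR 0 hx y.2)
  have hI : ∀ a : A, a ∈ I ↔ (a : R) ∈ V D ρ 0 := by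
    intro a
    exact TwoSidedIdeal.mem_mk' _ _ _ _ _ _ _
  let π : A →+* I.ringCon.Quotient := I.ringCon.mk'
  have hπ : ∀ a : A, π a = 0 ↔ (a : R) ∈ V D ρ 0 := by
    intro a
    rw [← hI, TwoSidedIdeal.mem_iff, ← RingCon.eq]
    rfl
  let ρQ : G →* I.ringCon.Quotient := (π : A →* I.ringCon.Quotient).comp ρA
  have hρQ : ∀ g, ρQ g = π (ρA g) := fun g => rfl
  have hQ1 : ∀ g, ρQ g - 1 = π (ρA g - 1) := by
    intro g; rw [map_sub, map_one]; rfl
  have zero_of : ∀ a : A, (a : R) = 0 → π a = 0 := by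
    intro a ha
    rw [hπ, ha]
    exact zero_mem _
  have J := j1_group h s
  have JT : ∀ t ∈ valS D, (ρ t - 1) * (ρ t - 1) = 0 := by
    rintro _ ⟨c, hc, x, hx, y, hy, rfl⟩
    exact (J x hx y hy c hc c hc).1
  have JU : ∀ t ∈ valS D, ∀ u ∈ D, (ρ t - 1) * (ρ u - 1) * (ρ t - 1) = 0 := by
    rintro _ ⟨c, hc, x, hx, y, hy, rfl⟩ u hu
    exact (J x hx y hy c hc u hu).2
  -- the enlarged system in the quotient
  have sQ : DSys (D ∪ valS D) ρQ := by
    refine ⟨?_, ?_, ?_, ?_, ?_⟩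
    · have e : (2 : I.ringCon.Quotient) = π 2 := by
        rw [map_ofNat]
      rw [e]
      apply zero_of
      exact (show ((2 : A) : R) = 2 from map_ofNat A.subtype 2).trans s.two
    · rintro a (ha | ha) g
      · exact Or.inl (s.conj a ha g)
      · exact Or.inr (valS_conj s.conj ha g)
    · rintro a (ha | ha)
      · rw [hQ1, ← map_mul]
        apply zero_of
        simpa [hρA] using s.sq a ha
      · rw [hQ1, ← map_mul]
        apply zero_of
        simpa [hρA] using JT a ha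
    · rintro a (ha | ha) b (hb | hb)
      · rw [hQ1, hQ1, ← map_mul, ← map_mul, ← map_mul]
        apply zero_of
        simpa [hρA] using s.pr a ha b hb
      · rw [hQ1, hQ1, ← map_mul, ← map_mul, ← map_mul]
        apply zero_of
        have e := JU b hb a ha
        have : (ρ a - 1) * (ρ b - 1) * (ρ a - 1) * (ρ b - 1) = 0 := by
          rw [mul_assoc (ρ a - 1), mul_assoc (ρ a - 1), e, mul_zero]
        simpa [hρA] using this
      · rw [hQ1, hQ1, ← map_mul, ← map_mul, ← map_mul]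
        apply zero_of
        have e := JU a ha b hb
        have : (ρ a - 1) * (ρ b - 1) * (ρ a - 1) * (ρ b - 1) = 0 := by
          rw [e, zero_mul]
        simpa [hρA] using this
      · rw [hQ1, hQ1, ← map_mul, ← map_mul, ← map_mul, hπ]
        refine AddSubgroup.subset_closure ⟨a, ha, b, hb, [], rfl, 1, ?_⟩
        simp [hρA]
    · obtain ⟨N, hN⟩ := s.nil
      refine ⟨N, fun l hl => ?_⟩
      have e : (l.map fun g => ρQ g - 1).prod = π (l.map fun g => ρA g - 1).prod := by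
        rw [map_list_prod, List.map_map]
        rfl
      rw [e]
      apply zero_of
      have e2 : (((l.map fun g => ρA g - 1).prod : A) : R) = (l.map fun g => ρ g - 1).prod := by
        have := map_list_prod A.subtype (l.map fun g => ρA g - 1)
        rw [List.map_map] at this
        exact this
      rw [e2]
      exact hN l hl
  have JQ := j1_group h sQ
  -- T T' T in V 0
  have hTT : ∀ t ∈ valS D, ∀ t' ∈ valS D,
      (ρ t - 1) * (ρ t' - 1) * (ρ t - 1) ∈ V D ρ 0 := by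
    rintro _ ⟨c, hc, x, hx, y, hy, rfl⟩ t' ht'
    have k := (JQ x (Or.inl hx) y (Or.inl hy) c (Or.inl hc) t' (Or.inr ht')).2
    rw [hQ1, hQ1, ← map_mul, ← map_mul, hπ] at k
    simpa [hρA] using k
  -- all generators are in V n
  have hV : ∀ n, ∀ t ∈ valS D, ∀ t' ∈ valS D,
      (ρ t - 1) * (ρ t' - 1) * (ρ t - 1) * (ρ t' - 1) ∈ V D ρ n := by
    intro n
    induction n with
    | zero => intro t ht t' ht'; exact mulR 0 (hTT t ht t' ht') (by
        refine sub_mem (Subring.subset_closure ⟨t', rfl⟩) (one_mem _))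
    | succ n ih =>
      intro t ht t' ht'
      exact mulT n (V_le ih (hTT t ht t' ht')) t'
  obtain ⟨N, hN⟩ := s.nil
  have hV0 : V D ρ N ≤ ⊥ := by
    rw [V, AddSubgroup.closure_le]
    rintro v ⟨t, ht, t', ht', l, hl, k, rfl⟩
    rw [hN l hl]
    simp
  intro t ht t' ht'
  refine ⟨JT t ht, ?_⟩
  have := hV0 (V_le (hV N) (hTT t ht t' ht'))
  simpa using this

end BCS_

open BCS_ in
/-- (J1) implies the certificate for the law S. -/
theorem cs_of_j1 (h : Stmt_J1) : Stmt_CS := by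
  intro G _ D R _ ρ _ _ hD hR t ht t' ht'
  have hEG : ∀ a ∈ D, EG D a := fun a ha => ⟨hD.inv a ha, fun z hz => hD.pair a ha z hz⟩
  exact boot h ⟨hR.two, hD.conj, fun a ha => hR.sq a (hEG a ha),
    fun a ha b hb => hR.pr a (hEG a ha) b hb, hR.nil⟩ t ht t' ht'

end Pool.Agent.L3E
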