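import Pool.Agent.L3E.BCS

set_option autoImplicit false

/-!
# L3E, module BCU: the universal certificate (U) => Stmt_CS and Stmt_CL (helper49)
-/

namespace Pool.Agent.L3E

open scoped commutatorElement

/-- The conclusion `T * T = 0`, `T * F * T = 0`, `T = (c [x, y]) ^ 4 - 1`, for `x, y` D-letters and
`c, f` good letters (E-letters), in ring form. `D` is the set of all D-letters minus one. -/
def Stmt_U : Prop := ∀ (R : Type) [Ring R] (D : Set R) (C F : R), (2 : R) = 0 →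
  (∀ X ∈ D, X * X = 0) → (∀ X ∈ D, ∀ Y ∈ D, X * Y * X * Y = 0) →
  (∀ X ∈ D, ∀ Y ∈ D, (1 + Y) * X * (1 + Y) ∈ D) →
  (∀ X ∈ D, (1 + C) * X * (1 + C) ∈ D) → (∀ X ∈ D, (1 + F) * X * (1 + F) ∈ D) →
  C * C = 0 → F * F = 0 →
  (∀ X ∈ D, C * X * C * X = 0) → (∀ X ∈ D, X * C * X * C = 0) →
  (∀ X ∈ D, F * X * F * X = 0) → (∀ X ∈ D, X * F * X * F = 0) →
  (∃ N : ℕ, ∀ l : List R, l.length = N → (∀ X ∈ l, X ∈ D ∨ X = C ∨ X = F) → l.prod = 0) →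
  ∀ X ∈ D, ∀ Y ∈ D, tval X Y C * tval X Y C = 0 ∧ tval X Y C * F * tval X Y C = 0

namespace BCU_

open BCS_

section
variable {G R : Type} [Group G] [Ring R] {D : Set G} {ρ : G →* R}

/-- `c` acts as an E-letter. -/
structure EL (D : Set G) (ρ : G →* R) (c : G) : Prop where
  sq : (ρ c - 1) * (ρ c - 1) = 0
  pr : ∀ a ∈ D, (ρ c - 1) * (ρ a - 1) * (ρ c - 1) * (ρ a - 1) = 0
  pr' : ∀ a ∈ D, (ρ a - 1) * (ρ c - 1) * (ρ a - 1) * (ρ c - 1) = 0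

theorem image_conj (h2 : (2 : R) = 0) (hc : ∀ a ∈ D, ∀ g : G, g * a * g⁻¹ ∈ D) {b : G}
    (hb : (ρ b - 1) * (ρ b - 1) = 0) : ∀ X ∈ (fun a => ρ a - 1) '' D,
    (1 + (ρ b - 1)) * X * (1 + (ρ b - 1)) ∈ (fun a => ρ a - 1) '' D := by
  rintro _ ⟨a, ha, rfl⟩
  refine ⟨b * a * b⁻¹, hc a ha b, ?_⟩
  have h1 := rho_inv h2 hb
  have h2 := rho_sq h2 hb
  simp only [map_mul, h1]
  have e : (1 + (ρ b - 1)) * (ρ a - 1) * (1 + (ρ b - 1)) = ρ b * ρ a * ρ b - ρ b * ρ b := by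
    noncomm_ring
  rw [e, h2]

/-- (U) in group form. -/
theorem u_group (h : Stmt_U) (s : DSys D ρ) {c f : G} (hc : EL D ρ c) (hf : EL D ρ f) :
    ∀ x ∈ D, ∀ y ∈ D,
    (ρ ((c * ⁅x, y⁆) ^ 4) - 1) * (ρ ((c * ⁅x, y⁆) ^ 4) - 1) = 0 ∧
    (ρ ((c * ⁅x, y⁆) ^ 4) - 1) * (ρ f - 1) * (ρ ((c * ⁅x, y⁆) ^ 4) - 1) = 0 := by
  have key := h R ((fun a => ρ a - 1) '' D) (ρ c - 1) (ρ f - 1) s.two
    (by rintro _ ⟨a, ha, rfl⟩; exact s.sq a ha)
    (by rintro _ ⟨a, ha, rfl⟩ _ ⟨b, hb, rfl⟩; exact s.pr a ha b hb)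
    (by
      intro X hX Y hY
      obtain ⟨b, hb, rfl⟩ := hY
      exact image_conj s.two s.conj (s.sq b hb) X hX)
    (image_conj s.two s.conj hc.sq) (image_conj s.two s.conj hf.sq) hc.sq hf.sq
    (by rintro _ ⟨a, ha, rfl⟩; exact hc.pr a ha)
    (by rintro _ ⟨a, ha, rfl⟩; exact hc.pr' a ha)
    (by rintro _ ⟨a, ha, rfl⟩; exact hf.pr a ha)
    (by rintro _ ⟨a, ha, rfl⟩; exact hf.pr' a ha)
    (by
      obtain ⟨N, hN⟩ := s.nil
      refine ⟨N, fun l hl hD => ?_⟩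
      obtain ⟨l', rfl⟩ := exists_map (fun a => ρ a - 1) Set.univ l (by
        intro X hX
        rcases hD X hX with ⟨a, _, rfl⟩ | rfl | rfl
        · exact ⟨a, trivial, rfl⟩
        · exact ⟨c, trivial, rfl⟩
        · exact ⟨f, trivial, rfl⟩)
      exact hN l' (by simpa using hl))
  intro x hx y hy
  have k := key _ ⟨x, hx, rfl⟩ _ ⟨y, hy, rfl⟩
  have e : tval (ρ x - 1) (ρ y - 1) (ρ c - 1) = ρ ((c * ⁅x, y⁆) ^ 4) - 1 := by
    simp only [tval, add_sub_cancel, commutatorElement_def, map_pow, map_mul,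
      rho_inv s.two (s.sq x hx), rho_inv s.two (s.sq y hy)]
  rw [e] at k
  exact k

/-- D-letters are E-letters. -/
theorem el_of_mem (s : DSys D ρ) {a : G} (ha : a ∈ D) : EL D ρ a :=
  ⟨s.sq a ha, fun b hb => s.pr a ha b hb, fun b hb => s.pr b hb a ha⟩

/-- The values are E-letters. -/
theorem el_val (h : Stmt_U) (s : DSys D ρ) {c : G} (hc : EL D ρ c) {x y : G} (hx : x ∈ D)
    (hy : y ∈ D) : EL D ρ ((c * ⁅x, y⁆) ^ 4) := by
  refine ⟨(u_group h s hc hc x hx y hy).1, fun a ha => ?_, fun a ha => ?_⟩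
  · rw [(u_group h s hc (el_of_mem s ha) x hx y hy).2, zero_mul]
  · rw [mul_assoc (ρ a - 1), mul_assoc (ρ a - 1), (u_group h s hc (el_of_mem s ha) x hx y hy).2,
      mul_zero]

theorem final (h : Stmt_U) (s : DSys D ρ) {c c' : G} (hc : EL D ρ c) (hc' : EL D ρ c')
    {x y x' y' : G} (hx : x ∈ D) (hy : y ∈ D) (hx' : x' ∈ D) (hy' : y' ∈ D) :
    (ρ ((c * ⁅x, y⁆) ^ 4) - 1) * (ρ ((c * ⁅x, y⁆) ^ 4) - 1) = 0 ∧
    (ρ ((c * ⁅x, y⁆) ^ 4) - 1) * (ρ ((c' * ⁅x', y'⁆) ^ 4) - 1) *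
      (ρ ((c * ⁅x, y⁆) ^ 4) - 1) = 0 :=
  u_group h s hc (el_val h s hc' hx' hy') x hx y hy

end

section
variable {G R : Type} [Group G] [Ring R] {D : Set G} {ρ : G →* R}

theorem dsys (hD : DSet D) (hR : RD D ρ) : DSys D ρ := by
  have hEG : ∀ a ∈ D, EG D a := fun a ha => ⟨hD.inv a ha, fun z hz => hD.pair a ha z hz⟩
  exact ⟨hR.two, hD.conj, fun a ha => hR.sq a (hEG a ha),
    fun a ha b hb => hR.pr a (hEG a ha) b hb, hR.nil⟩

theorem el_of_EG (hR : RD D ρ) {c : G} (hc : EG D c) : EL D ρ c :=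
  ⟨hR.sq c hc, fun a ha => hR.pr c hc a ha, fun a ha => hR.pr' c hc a ha⟩

theorem EG_comm (hD : DSet D) (hS : LawS D) {a b : G} (ha : a ∈ D) (hb : b ∈ D) :
    EG D ⁅a, b⁆ := by
  have ia : a⁻¹ = a := inv_eq_of_mul_eq_one_left (hD.inv a ha)
  have ib : b⁻¹ = b := inv_eq_of_mul_eq_one_left (hD.inv b hb)
  refine ⟨?_, fun z hz => ?_⟩
  · have e := hD.pair a ha b hb
    rw [commutatorElement_def, ia, ib]
    rw [← e]
    simp only [pow_succ, pow_zero, one_mul, mul_assoc]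
  · have e := hS _ ⟨z, hz, a, ha, b, hb, rfl⟩
    have e2 : (⁅a, b⁆ * z) ^ 4 = ⁅a, b⁆ * (z * ⁅a, b⁆) ^ 4 * ⁅a, b⁆⁻¹ := by
      rw [← conj_pow]
      congr 1
      group
    rw [e2, e, mul_one, mul_inv_cancel]

end

end BCU_

open BCU_ in
/-- (U) implies the certificate for the law S. -/
theorem cs_of_u (h : Stmt_U) : Stmt_CS := by
  intro G _ D R _ ρ _ _ hD hR t ht t' ht'
  have s := dsys hD hR
  obtain ⟨c, hc, x, hx, y, hy, rfl⟩ := ht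
  obtain ⟨c', hc', x', hx', y', hy', rfl⟩ := ht'
  exact final h s (el_of_mem s hc) (el_of_mem s hc') hx hy hx' hy'

open BCU_ in
/-- (U) implies the certificate for the law L. -/
theorem cl_of_u (h : Stmt_U) : Stmt_CL := by
  intro G _ D R _ ρ _ _ hD hS hR t ht t' ht'
  have s := dsys hD hR
  obtain ⟨a, ha, b, hb, x, hx, y, hy, rfl⟩ := ht
  obtain ⟨a', ha', b', hb', x', hx', y', hy', rfl⟩ := ht'
  exact final h s (el_of_EG hR (EG_comm hD hS ha hb)) (el_of_EG hR (EG_comm hD hS ha' hb'))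
    hx hy hx' hy'

end Pool.Agent.L3E
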