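import Pool.Agent.L3E.BCS

set_option autoImplicit false
set_option linter.unusedSimpArgs false

/-!
# L3E, module CLB: the certificate `Stmt_CL` from two short identities (helper49, after helper12
and helper6)
-/

namespace Pool.Agent.L3E

open scoped commutatorElement

/-- Good letters, at the level of the ring. -/
structure Gd {G R : Type} [Group G] [Ring R] (D : Set G) (ρ : G →* R) (c : G) : Prop where
  sq : (ρ c - 1) * (ρ c - 1) = 0
  pr : ∀ z ∈ D, (ρ c - 1) * (ρ z - 1) * (ρ c - 1) * (ρ z - 1) = 0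
  pr' : ∀ z ∈ D, (ρ z - 1) * (ρ c - 1) * (ρ z - 1) * (ρ c - 1) = 0

/-- The identity `E C E C E = 0`, `E = [x, y] - 1`, `x, y` in `D`, `C` a good letter. -/
def Stmt_I1 : Prop := ∀ (G : Type) [Group G] (D : Set G) (R : Type) [Ring R] (ρ : G →* R),
  Group.IsNilpotent G → Subgroup.closure D = ⊤ → DSet D → LawS D → RD D ρ →
  ∀ c, Gd D ρ c → ∀ x ∈ D, ∀ y ∈ D,
    (ρ ⁅x, y⁆ - 1) * (ρ c - 1) * (ρ ⁅x, y⁆ - 1) * (ρ c - 1) * (ρ ⁅x, y⁆ - 1) = 0

/-- The expression `C E C E F E + C E F E F C E + C F E F C E C E`. -/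
def r1 {R : Type} [Ring R] (C E F : R) : R :=
  C * E * C * E * F * E + C * E * F * E * F * C * E + C * F * E * F * C * E * C * E

/-- The identity `r1 = 0`. -/
def Stmt_R1 : Prop := ∀ (G : Type) [Group G] (D : Set G) (R : Type) [Ring R] (ρ : G →* R),
  Group.IsNilpotent G → Subgroup.closure D = ⊤ → DSet D → LawS D → RD D ρ →
  ∀ f, Gd D ρ f → ∀ a ∈ D, ∀ b ∈ D, ∀ x ∈ D, ∀ y ∈ D,
    r1 (ρ ⁅a, b⁆ - 1) (ρ ⁅x, y⁆ - 1) (ρ f - 1) = 0

namespace CLB_

section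
variable {R : Type} [Ring R]

theorem z2 (h2 : (2 : R) = 0) (n : ℤ) (h : (2 : ℤ) ∣ n) (a : R) : n • a = 0 := by
  obtain ⟨k, rfl⟩ := h
  rw [mul_comm, mul_smul, two_smul, ← two_mul, h2, zero_mul, smul_zero]

theorem tail {a b : R} (h : a * b = 0) (x : R) : a * (b * x) = 0 := by
  rw [← mul_assoc, h, zero_mul]

theorem tail5 {a b c d e : R} (h : a * b * c * d * e = 0) (x : R) :
    a * (b * (c * (d * (e * x)))) = 0 := by
  have := congrArg (· * x) h
  simpa only [mul_assoc, zero_mul] using this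

theorem as5 {a b c d e : R} (h : a * b * c * d * e = 0) : a * (b * (c * (d * e))) = 0 := by
  simpa only [mul_assoc] using h

/-- `A(F) = 0`. -/
theorem aF (h2 : (2 : R) = 0) (C E F : R) (hE : E * E = 0) (hEC : E * C * E * C * E = 0)
    (hEF : E * F * E * F * E = 0) (h : r1 C E F = 0) (h' : r1 C E ((1 + E) * F * (1 + E)) = 0) :
    C * E * F * E * F * C * E * C * E = 0 := by
  have key : C * E * F * E * F * C * E * C * E =
      r1 C E F + r1 C E ((1 + E) * F * (1 + E)) := by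
    simp only [r1, mul_add, add_mul, mul_one, one_mul, mul_assoc, hE, tail hE, as5 hEC, tail5 hEC,
      as5 hEF, tail5 hEF, mul_zero, zero_mul, add_zero, zero_add]
    rw [← sub_eq_zero]
    abel_nf
    simp only [z2 h2 _ (by norm_num : (2 : ℤ) ∣ -2), z2 h2 _ (by norm_num : (2 : ℤ) ∣ 2), add_zero]
  rw [key, h, h', add_zero]

/-- `W F W = 0`. -/
theorem wfw (h2 : (2 : R) = 0) (C E F : R) (hC : C * C = 0)
    (hCE : C * E * C * E * C = 0) (h : r1 C E F = 0)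
    (h' : r1 C E ((1 + C) * F * (1 + C)) = 0) (a : C * E * F * E * F * C * E * C * E = 0)
    (a' : C * E * ((1 + C) * F * (1 + C)) * E * ((1 + C) * F * (1 + C)) * C * E * C * E = 0) :
    C * E * C * E * F * (C * E * C * E) = 0 := by
  have key : C * E * C * E * F * (C * E * C * E) =
      r1 C E F * C * E + r1 C E ((1 + C) * F * (1 + C)) * C * E +
      C * E * F * E * F * C * E * C * E +
      C * E * ((1 + C) * F * (1 + C)) * E * ((1 + C) * F * (1 + C)) * C * E * C * E := by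
    simp only [r1, mul_add, add_mul, mul_one, one_mul, mul_assoc, hC, tail hC,
      as5 hCE, tail5 hCE, mul_zero, zero_mul, add_zero, zero_add]
    rw [← sub_eq_zero]
    abel_nf
    simp only [z2 h2 _ (by norm_num : (2 : ℤ) ∣ -2), z2 h2 _ (by norm_num : (2 : ℤ) ∣ 2),
      z2 h2 _ (by norm_num : (2 : ℤ) ∣ -4), add_zero]
  rw [key, h, h', a, a']
  simp only [zero_mul, add_zero]

/-- `W F W* = 0`. -/
theorem wfv (C E F : R) (hCE : C * E * C * E * C = 0) (h : r1 C E F = 0) :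
    C * E * C * E * F * (E * C * E * C) = 0 := by
  have key : C * E * C * E * F * (E * C * E * C) = r1 C E F * C * E * C := by
    simp only [r1, add_mul, mul_assoc, as5 hCE, tail5 hCE, mul_zero, zero_mul, add_zero, zero_add]
  rw [key, h]
  simp only [zero_mul]

/-- The value of the law in terms of `W` and `W*`. -/
theorem tval4 (h2 : (2 : R) = 0) (C E : R) (hC : C * C = 0) (hE : E * E = 0)
    (hCE : C * E * C * E * C = 0) (hEC : E * C * E * C * E = 0) :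
    ((1 + C) * (1 + E)) ^ 4 - 1 = C * E * C * E + E * C * E * C := by
  have e2 : ((1 + C) * (1 + E)) ^ 2 = 1 + (C * E + E * C + C * E * C + E * C * E + C * E * C * E)
      := by
    rw [pow_two]
    simp only [mul_add, add_mul, mul_one, one_mul, mul_assoc, hE, tail hE, hC, tail hC,
      as5 hEC, tail5 hEC, as5 hCE, tail5 hCE, mul_zero, zero_mul, add_zero, zero_add]
    rw [← sub_eq_zero]
    abel_nf
    simp only [z2 h2 _ (by norm_num : (2 : ℤ) ∣ -2), z2 h2 _ (by norm_num : (2 : ℤ) ∣ 2), add_zero]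
  have e4 : ((1 + C) * (1 + E)) ^ 4 = ((1 + C) * (1 + E)) ^ 2 * ((1 + C) * (1 + E)) ^ 2 := by
    rw [← pow_add]
  rw [e4, e2]
  simp only [mul_add, add_mul, mul_one, one_mul, mul_assoc, hE, tail hE, hC, tail hC,
      as5 hEC, tail5 hEC, as5 hCE, tail5 hCE, mul_zero, zero_mul, add_zero, zero_add]
  rw [← sub_eq_zero]
  abel_nf
  simp only [z2 h2 _ (by norm_num : (2 : ℤ) ∣ -2), z2 h2 _ (by norm_num : (2 : ℤ) ∣ 2), add_zero]

end

section
variable {G R : Type} [Group G] [Ring R] {D : Set G} {ρ : G →* R}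

theorem comm_eg (hD : DSet D) (hS : LawS D) {a b : G} (ha : a ∈ D) (hb : b ∈ D) :
    EG D ⁅a, b⁆ := by
  have ia : a⁻¹ = a := inv_eq_of_mul_eq_one_left (hD.inv a ha)
  have ib : b⁻¹ = b := inv_eq_of_mul_eq_one_left (hD.inv b hb)
  constructor
  · have := hD.pair a ha b hb
    rw [commutatorElement_def, ia, ib]
    calc a * b * a * b * (a * b * a * b) = (a * b) ^ 4 := by
          simp only [pow_succ, pow_zero, one_mul, mul_assoc]
      _ = 1 := this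
  · intro z hz
    have := hS _ ⟨z, hz, a, ha, b, hb, rfl⟩
    have e : (⁅a, b⁆ * z) ^ 4 = z⁻¹ * (z * ⁅a, b⁆) ^ 4 * z := by
      have := conj_pow (i := 4) (a := z⁻¹) (b := z * ⁅a, b⁆)
      rw [inv_inv] at this
      rw [← this]
      congr 1
      group
    rw [e, this]
    group

theorem gd_of_eg (hR : RD D ρ) {c : G} (hc : EG D c) : Gd D ρ c :=
  ⟨hR.sq c hc, hR.pr c hc, hR.pr' c hc⟩

theorem conj_sub (g c : G) : ρ (g * c * g⁻¹) - 1 = ρ g * (ρ c - 1) * ρ g⁻¹ := by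
  have h : ρ g * ρ g⁻¹ = 1 := by rw [← map_mul, mul_inv_cancel, map_one]
  rw [mul_sub, sub_mul, mul_one, h, map_mul, map_mul]

theorem gd_conj (hD : ∀ a ∈ D, ∀ g : G, g * a * g⁻¹ ∈ D) {c : G} (hc : Gd D ρ c) (g : G) :
    Gd D ρ (g * c * g⁻¹) := by
  have h : ρ g * ρ g⁻¹ = 1 := by rw [← map_mul, mul_inv_cancel, map_one]
  have h' : ρ g⁻¹ * ρ g = 1 := by rw [← map_mul, inv_mul_cancel, map_one]
  have ht : ∀ x, ρ g⁻¹ * (ρ g * x) = x := fun x => by rw [← mul_assoc, h', one_mul]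
  have cj : ∀ z, ρ z - 1 = ρ g * (ρ (g⁻¹ * z * g) - 1) * ρ g⁻¹ := by
    intro z
    rw [← conj_sub]
    congr 2
    group
  have cz : ∀ z ∈ D, g⁻¹ * z * g ∈ D := by
    intro z hz
    have := hD z hz g⁻¹
    rwa [inv_inv] at this
  refine ⟨?_, ?_, ?_⟩
  · rw [conj_sub]
    calc ρ g * (ρ c - 1) * ρ g⁻¹ * (ρ g * (ρ c - 1) * ρ g⁻¹)
        = ρ g * ((ρ c - 1) * (ρ c - 1)) * ρ g⁻¹ := by simp only [mul_assoc, ht]
      _ = 0 := by rw [hc.sq]; simp only [mul_zero, zero_mul]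
  · intro z hz
    rw [conj_sub, cj z]
    calc _ = ρ g * ((ρ c - 1) * (ρ (g⁻¹ * z * g) - 1) * (ρ c - 1) * (ρ (g⁻¹ * z * g) - 1)) *
          ρ g⁻¹ := by simp only [mul_assoc, ht]
      _ = 0 := by rw [hc.pr _ (cz z hz)]; simp only [mul_zero, zero_mul]
  · intro z hz
    rw [conj_sub, cj z]
    calc _ = ρ g * ((ρ (g⁻¹ * z * g) - 1) * (ρ c - 1) * (ρ (g⁻¹ * z * g) - 1) * (ρ c - 1)) *
          ρ g⁻¹ := by simp only [mul_assoc, ht]
      _ = 0 := by rw [hc.pr' _ (cz z hz)]; simp only [mul_zero, zero_mul]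

/-- `T F T = 0`. -/
theorem tft (h1 : Stmt_I1) (h3 : Stmt_R1) (hG : Group.IsNilpotent G)
    (hgen : Subgroup.closure D = ⊤) (hD : DSet D) (hS : LawS D) (hR : RD D ρ) {f : G}
    (hf : Gd D ρ f) {t : G} (ht : t ∈ valL D) :
    (ρ t - 1) * (ρ t - 1) = 0 ∧ (ρ t - 1) * (ρ f - 1) * (ρ t - 1) = 0 := by
  obtain ⟨a, ha, b, hb, x, hx, y, hy, rfl⟩ := ht
  have h2 := hR.two
  -- the two letters
  have gc := gd_of_eg hR (comm_eg hD hS ha hb)
  have ge := gd_of_eg hR (comm_eg hD hS hx hy)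
  set c : G := ⁅a, b⁆ with hc
  set e : G := ⁅x, y⁆ with he
  have hCE := h1 G D R ρ hG hgen hD hS hR e ge a ha b hb
  have hEC := h1 G D R ρ hG hgen hD hS hR c gc x hx y hy
  rw [← hc] at hCE
  rw [← he] at hEC
  have ic : ρ c⁻¹ = ρ c := BCS_.rho_inv h2 gc.sq
  have ie : ρ e⁻¹ = ρ e := BCS_.rho_inv h2 ge.sq
  have cjc : ∀ g, ρ (c * g * c⁻¹) - 1 = (1 + (ρ c - 1)) * (ρ g - 1) * (1 + (ρ c - 1)) := by
    intro g
    rw [conj_sub, ic, add_sub_cancel]
  have cje : ∀ g, ρ (e * g * e⁻¹) - 1 = (1 + (ρ e - 1)) * (ρ g - 1) * (1 + (ρ e - 1)) := by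
    intro g
    rw [conj_sub, ie, add_sub_cancel]
  have R1 : ∀ g, Gd D ρ g → r1 (ρ c - 1) (ρ e - 1) (ρ g - 1) = 0 := fun g hg =>
    h3 G D R ρ hG hgen hD hS hR g hg a ha b hb x hx y hy
  have R1' : ∀ g, Gd D ρ g → r1 (ρ e - 1) (ρ c - 1) (ρ g - 1) = 0 := fun g hg =>
    h3 G D R ρ hG hgen hD hS hR g hg x hx y hy a ha b hb
  have A : ∀ g, Gd D ρ g → (ρ c - 1) * (ρ e - 1) * (ρ g - 1) * (ρ e - 1) * (ρ g - 1) * (ρ c - 1) *
      (ρ e - 1) * (ρ c - 1) * (ρ e - 1) = 0 := by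
    intro g hg
    refine aF h2 _ _ _ ge.sq hEC (h1 G D R ρ hG hgen hD hS hR g hg x hx y hy) (R1 g hg) ?_
    rw [← cje]
    exact R1 _ (gd_conj hD.conj hg e)
  have A' : ∀ g, Gd D ρ g → (ρ e - 1) * (ρ c - 1) * (ρ g - 1) * (ρ c - 1) * (ρ g - 1) *
      (ρ e - 1) * (ρ c - 1) * (ρ e - 1) * (ρ c - 1) = 0 := by
    intro g hg
    refine aF h2 _ _ _ gc.sq hCE (h1 G D R ρ hG hgen hD hS hR g hg a ha b hb) (R1' g hg) ?_
    rw [← cjc]
    exact R1' _ (gd_conj hD.conj hg c)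
  have hfc := gd_conj hD.conj hf c
  have hfe := gd_conj hD.conj hf e
  have w1 := wfw h2 _ _ (ρ f - 1) gc.sq hCE (R1 f hf)
    (by rw [← cjc]; exact R1 _ hfc) (A f hf) (by rw [← cjc]; exact A _ hfc)
  have w2 := wfw h2 _ _ (ρ f - 1) ge.sq hEC (R1' f hf)
    (by rw [← cje]; exact R1' _ hfe) (A' f hf) (by rw [← cje]; exact A' _ hfe)
  have w3 := wfv _ _ (ρ f - 1) hCE (R1 f hf)
  have w4 := wfv _ _ (ρ f - 1) hEC (R1' f hf)
  -- the value
  have et : ρ ((c * e) ^ 4) - 1 = (ρ c - 1) * (ρ e - 1) * (ρ c - 1) * (ρ e - 1) +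
      (ρ e - 1) * (ρ c - 1) * (ρ e - 1) * (ρ c - 1) := by
    rw [← tval4 h2 _ _ gc.sq ge.sq hCE hEC, map_pow, map_mul, add_sub_cancel, add_sub_cancel]
  rw [et]
  constructor
  · simp only [mul_add, add_mul, mul_assoc, ge.sq, tail ge.sq, gc.sq, tail gc.sq,
      as5 hEC, tail5 hEC, as5 hCE, tail5 hCE, mul_zero, zero_mul, add_zero, zero_add]
  · rw [add_mul, add_mul, mul_add, mul_add, w1, w3, w4, w2]
    simp only [add_zero]

end

end CLB_

open CLB_ in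
/-- The certificate for the law L. -/
theorem cl_of_i1_r1 (h1 : Stmt_I1) (h3 : Stmt_R1) : Stmt_CL := by
  intro G _ D R _ ρ hG hgen hD hS hR t ht t' ht'
  have hEG : ∀ a ∈ D, EG D a := fun a ha => ⟨hD.inv a ha, fun z hz => hD.pair a ha z hz⟩
  have T0 := tft h1 h3 hG hgen hD hS hR (gd_of_eg hR (comm_eg hD hS
    (ht.choose_spec.1) (ht.choose_spec.2.choose_spec.1))) ht
  refine ⟨T0.1, ?_⟩
  have gt : Gd D ρ t' := by
    refine ⟨?_, ?_, ?_⟩
    · obtain ⟨a, ha, -⟩ := id ht'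
      exact (tft h1 h3 hG hgen hD hS hR (gd_of_eg hR (hEG a ha)) ht').1
    · intro z hz
      rw [(tft h1 h3 hG hgen hD hS hR (gd_of_eg hR (hEG z hz)) ht').2, zero_mul]
    · intro z hz
      rw [mul_assoc (ρ z - 1), mul_assoc (ρ z - 1),
        (tft h1 h3 hG hgen hD hS hR (gd_of_eg hR (hEG z hz)) ht').2, mul_zero]
  exact (tft h1 h3 hG hgen hD hS hR gt ht).2

end Pool.Agent.L3E
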