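import Pool.Agent.L3E.CLB

set_option autoImplicit false
set_option linter.unusedSimpArgs false

/-!
# L3E, module CLC: `Stmt_CL` from (I1), (H0), (I4), (alpha) and (R1x) (helper61)
-/

namespace Pool.Agent.L3E

open scoped commutatorElement

/-- (H0): `C E C X Y X = 0`. -/
def Stmt_H0 : Prop := ∀ (G : Type) [Group G] (D : Set G) (R : Type) [Ring R] (ρ : G →* R),
  Group.IsNilpotent G → Subgroup.closure D = ⊤ → DSet D → LawS D → RD D ρ →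
  ∀ c, Gd D ρ c → ∀ x ∈ D, ∀ y ∈ D,
    (ρ c - 1) * (ρ ⁅x, y⁆ - 1) * (ρ c - 1) * ((ρ x - 1) * (ρ y - 1) * (ρ x - 1)) = 0

/-- (I4): `C E C E` and `E C E C` lie in the ideal generated by `X Y X`, `Y X Y`. -/
def Stmt_I4 : Prop := ∀ (G : Type) [Group G] (D : Set G) (R : Type) [Ring R] (ρ : G →* R),
  Group.IsNilpotent G → Subgroup.closure D = ⊤ → DSet D → LawS D → RD D ρ →
  ∀ c, Gd D ρ c → ∀ x ∈ D, ∀ y ∈ D, ∀ N : AddSubgroup R,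
    (∀ n ∈ N, ρ x * n ∈ N) → (∀ n ∈ N, ρ y * n ∈ N) → (∀ n ∈ N, ρ c * n ∈ N) →
    (∀ n ∈ N, ∀ r : R, n * r ∈ N) →
    (ρ x - 1) * (ρ y - 1) * (ρ x - 1) ∈ N → (ρ y - 1) * (ρ x - 1) * (ρ y - 1) ∈ N →
    (ρ c - 1) * (ρ ⁅x, y⁆ - 1) * (ρ c - 1) * (ρ ⁅x, y⁆ - 1) ∈ N ∧
    (ρ ⁅x, y⁆ - 1) * (ρ c - 1) * (ρ ⁅x, y⁆ - 1) * (ρ c - 1) ∈ N

/-- (alpha): `C E C E U X Y X = 0` for `u` in `D`. -/
def Stmt_Al : Prop := ∀ (G : Type) [Group G] (D : Set G) (R : Type) [Ring R] (ρ : G →* R),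
  Group.IsNilpotent G → Subgroup.closure D = ⊤ → DSet D → LawS D → RD D ρ →
  ∀ c, Gd D ρ c → ∀ x ∈ D, ∀ y ∈ D, ∀ u ∈ D,
    (ρ c - 1) * (ρ ⁅x, y⁆ - 1) * (ρ c - 1) * (ρ ⁅x, y⁆ - 1) * (ρ u - 1) *
      ((ρ x - 1) * (ρ y - 1) * (ρ x - 1)) = 0

/-- (R1x): `C E C E U E = 0` for `u` in `D` whose image commutes with the image of `x`. -/
def Stmt_R1x : Prop := ∀ (G : Type) [Group G] (D : Set G) (R : Type) [Ring R] (ρ : G →* R),
  Group.IsNilpotent G → Subgroup.closure D = ⊤ → DSet D → LawS D → RD D ρ →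
  ∀ c, Gd D ρ c → ∀ x ∈ D, ∀ y ∈ D, ∀ u ∈ D,
    (ρ u - 1) * (ρ x - 1) = (ρ x - 1) * (ρ u - 1) →
    (ρ c - 1) * (ρ ⁅x, y⁆ - 1) * (ρ c - 1) * (ρ ⁅x, y⁆ - 1) * (ρ u - 1) *
      (ρ ⁅x, y⁆ - 1) = 0

namespace CLC_

open CLB_

section
variable {R : Type} [Ring R]

/-- The commutator in terms of `X` and `Y`. -/
theorem ev_eq (h2 : (2 : R) = 0) (X Y : R) (hX : X * X = 0) (hY : Y * Y = 0)
    (hXY : X * Y * X * Y = 0) :
    (1 + X) * (1 + Y) * (1 + X) * (1 + Y) - 1 = X * Y + Y * X + X * Y * X + Y * X * Y := by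
  have h4 : X * (Y * (X * Y)) = 0 := by simpa only [mul_assoc] using hXY
  simp only [mul_add, add_mul, mul_one, one_mul, mul_assoc, hX, tail hX, hY, tail hY, h4,
    mul_zero, zero_mul, add_zero, zero_add]
  rw [← sub_eq_zero]
  abel_nf
  simp only [z2 h2 _ (by norm_num : (2 : ℤ) ∣ -2), z2 h2 _ (by norm_num : (2 : ℤ) ∣ 2), add_zero,
    zero_add]

theorem ex (X Y : R) (hX : X * X = 0) (hYX : Y * X * Y * X = 0) :
    (X * Y + Y * X + X * Y * X + Y * X * Y) * X = X * Y * X := by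
  have h4 : Y * (X * (Y * X)) = 0 := by simpa only [mul_assoc] using hYX
  simp only [add_mul, mul_assoc, hX, h4, mul_zero, add_zero]

theorem xe (X Y : R) (hX : X * X = 0) (hXY : X * Y * X * Y = 0) :
    X * (X * Y + Y * X + X * Y * X + Y * X * Y) = X * Y * X := by
  have h4 : X * (Y * (X * Y)) = 0 := by simpa only [mul_assoc] using hXY
  simp only [mul_add, mul_assoc, hX, tail hX, h4, mul_zero, add_zero, zero_add]

theorem sym (X Y : R) : Y * X + X * Y + Y * X * Y + X * Y * X =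
    X * Y + Y * X + X * Y * X + Y * X * Y := by abel

end

section
variable {G R : Type} [Group G] [Ring R] {D : Set G} {ρ : G →* R}

theorem gdD (hD : DSet D) (hR : RD D ρ) {a : G} (ha : a ∈ D) : Gd D ρ a :=
  gd_of_eg hR ⟨hD.inv a ha, fun z hz => hD.pair a ha z hz⟩

theorem evr (hD : DSet D) (hR : RD D ρ) {x y : G} (hx : x ∈ D) (hy : y ∈ D) :
    ρ ⁅x, y⁆ - 1 = (ρ x - 1) * (ρ y - 1) + (ρ y - 1) * (ρ x - 1) +
      (ρ x - 1) * (ρ y - 1) * (ρ x - 1) + (ρ y - 1) * (ρ x - 1) * (ρ y - 1) := by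
  have gx := gdD hD hR hx
  have gy := gdD hD hR hy
  rw [← ev_eq hR.two _ _ gx.sq gy.sq (gx.pr y hy), commutatorElement_def]
  simp only [map_mul, BCS_.rho_inv hR.two gx.sq, BCS_.rho_inv hR.two gy.sq, add_sub_cancel]

theorem EX (hD : DSet D) (hR : RD D ρ) {x y : G} (hx : x ∈ D) (hy : y ∈ D) :
    (ρ ⁅x, y⁆ - 1) * (ρ x - 1) = (ρ x - 1) * (ρ y - 1) * (ρ x - 1) := by
  rw [evr hD hR hx hy, ex _ _ (gdD hD hR hx).sq ((gdD hD hR hy).pr x hx)]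

theorem XE (hD : DSet D) (hR : RD D ρ) {x y : G} (hx : x ∈ D) (hy : y ∈ D) :
    (ρ x - 1) * (ρ ⁅x, y⁆ - 1) = (ρ x - 1) * (ρ y - 1) * (ρ x - 1) := by
  rw [evr hD hR hx hy, xe _ _ (gdD hD hR hx).sq ((gdD hD hR hx).pr y hy)]

theorem rc (hD : DSet D) (hR : RD D ρ) {x y : G} (hx : x ∈ D) (hy : y ∈ D) :
    ρ ⁅y, x⁆ - 1 = ρ ⁅x, y⁆ - 1 := by
  rw [evr hD hR hx hy, evr hD hR hy hx, sym]

theorem EY (hD : DSet D) (hR : RD D ρ) {x y : G} (hx : x ∈ D) (hy : y ∈ D) :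
    (ρ ⁅x, y⁆ - 1) * (ρ y - 1) = (ρ y - 1) * (ρ x - 1) * (ρ y - 1) := by
  rw [← rc hD hR hx hy, EX hD hR hy hx]

theorem YE (hD : DSet D) (hR : RD D ρ) {x y : G} (hx : x ∈ D) (hy : y ∈ D) :
    (ρ y - 1) * (ρ ⁅x, y⁆ - 1) = (ρ y - 1) * (ρ x - 1) * (ρ y - 1) := by
  rw [← rc hD hR hx hy, XE hD hR hy hx]

/-- Passing a group element from the right of `F` to the left. -/
theorem pass (W n : R) (f h : G) (hW : W * ρ h = W) :
    W * (ρ f - 1) * (ρ h * n) = W * (ρ (h⁻¹ * f * h) - 1) * n := by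
  have e : (ρ f - 1) * ρ h = ρ h * (ρ (h⁻¹ * f * h) - 1) := by
    rw [sub_mul, mul_sub, ← map_mul, ← map_mul, one_mul, mul_one]
    congr 2
    group
  calc W * (ρ f - 1) * (ρ h * n) = W * ((ρ f - 1) * ρ h) * n := by simp only [mul_assoc]
    _ = W * ρ h * (ρ (h⁻¹ * f * h) - 1) * n := by rw [e]; simp only [mul_assoc]
    _ = _ := by rw [hW]

theorem fixr (W : R) (h : G) (hW : W * (ρ h - 1) = 0) : W * ρ h = W := by
  rw [mul_sub, mul_one] at hW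
  exact sub_eq_zero.1 hW

/-- The key lemma: from `W F X Y X = W F Y X Y = 0` to `W F W = W F W* = 0`. -/
theorem key (h4 : Stmt_I4) (hG : Group.IsNilpotent G)
    (hgen : Subgroup.closure D = ⊤) (hD : DSet D) (hS : LawS D) (hR : RD D ρ) {c x y : G}
    (hc : Gd D ρ c) (hx : x ∈ D) (hy : y ∈ D) (W : R)
    (wx : W * (ρ x - 1) = 0) (wy : W * (ρ y - 1) = 0) (wc : W * (ρ c - 1) = 0)
    (A : Set G) (hA : ∀ f ∈ A, ∀ g : G, g * f * g⁻¹ ∈ A)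
    (h1 : ∀ f ∈ A, W * (ρ f - 1) * ((ρ x - 1) * (ρ y - 1) * (ρ x - 1)) = 0)
    (h1' : ∀ f ∈ A, W * (ρ f - 1) * ((ρ y - 1) * (ρ x - 1) * (ρ y - 1)) = 0) :
    ∀ f ∈ A,
      W * (ρ f - 1) * ((ρ c - 1) * (ρ ⁅x, y⁆ - 1) * (ρ c - 1) * (ρ ⁅x, y⁆ - 1)) = 0 ∧
      W * (ρ f - 1) * ((ρ ⁅x, y⁆ - 1) * (ρ c - 1) * (ρ ⁅x, y⁆ - 1) * (ρ c - 1)) = 0 := by
  let N : AddSubgroup R :=
    { carrier := {r | ∀ f ∈ A, W * (ρ f - 1) * r = 0}
      add_mem' := fun {a b} ha hb f hf => by rw [mul_add, ha f hf, hb f hf, add_zero]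
      zero_mem' := fun f _ => mul_zero _
      neg_mem' := fun {a} ha f hf => by rw [mul_neg, ha f hf, neg_zero] }
  have hN : ∀ r, r ∈ N ↔ ∀ f ∈ A, W * (ρ f - 1) * r = 0 := fun r => Iff.rfl
  have left : ∀ h : G, W * (ρ h - 1) = 0 → ∀ n ∈ N, ρ h * n ∈ N := by
    intro h hh n hn f hf
    rw [pass W n f h (fixr W h hh)]
    have : h⁻¹ * f * h ∈ A := by
      have := hA f hf h⁻¹
      rwa [inv_inv] at this
    exact hn _ this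
  have := h4 G D R ρ hG hgen hD hS hR c hc x hx y hy N (left x wx) (left y wy) (left c wc)
    (fun n hn r f hf => by rw [← mul_assoc, hn f hf, zero_mul]) h1 h1'
  exact fun f hf => ⟨this.1 f hf, this.2 f hf⟩

/-- Everything for one value. -/
structure Val (D : Set G) (ρ : G →* R) (c e a b x y : G) : Prop where
  ma : a ∈ D
  mb : b ∈ D
  mx : x ∈ D
  my : y ∈ D
  hc : c = ⁅a, b⁆
  he : e = ⁅x, y⁆
  gc : Gd D ρ c
  ge : Gd D ρ e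
  cec : (ρ c - 1) * (ρ e - 1) * (ρ c - 1) * (ρ e - 1) * (ρ c - 1) = 0
  ece : (ρ e - 1) * (ρ c - 1) * (ρ e - 1) * (ρ c - 1) * (ρ e - 1) = 0
  wx : (ρ c - 1) * (ρ e - 1) * (ρ c - 1) * (ρ e - 1) * (ρ x - 1) = 0
  wy : (ρ c - 1) * (ρ e - 1) * (ρ c - 1) * (ρ e - 1) * (ρ y - 1) = 0

theorem val (h1 : Stmt_I1) (h0 : Stmt_H0) (hG : Group.IsNilpotent G)
    (hgen : Subgroup.closure D = ⊤) (hD : DSet D) (hS : LawS D) (hR : RD D ρ) {a b x y : G}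
    (ha : a ∈ D) (hb : b ∈ D) (hx : x ∈ D) (hy : y ∈ D) :
    Val D ρ ⁅a, b⁆ ⁅x, y⁆ a b x y := by
  have gc := gd_of_eg hR (comm_eg hD hS ha hb)
  have ge := gd_of_eg hR (comm_eg hD hS hx hy)
  refine ⟨ha, hb, hx, hy, rfl, rfl, gc, ge, h1 G D R ρ hG hgen hD hS hR _ ge a ha b hb,
    h1 G D R ρ hG hgen hD hS hR _ gc x hx y hy, ?_, ?_⟩
  · rw [mul_assoc _ (ρ ⁅x, y⁆ - 1) (ρ x - 1), EX hD hR hx hy]
    exact h0 G D R ρ hG hgen hD hS hR _ gc x hx y hy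
  · rw [mul_assoc _ (ρ ⁅x, y⁆ - 1) (ρ y - 1), EY hD hR hx hy]
    have := h0 G D R ρ hG hgen hD hS hR _ gc y hy x hx
    rwa [rc hD hR hx hy] at this

/-- The value `t - 1`. -/
theorem tv (hR : RD D ρ) {c e a b x y : G} (v : Val D ρ c e a b x y) :
    ρ ((c * e) ^ 4) - 1 = (ρ c - 1) * (ρ e - 1) * (ρ c - 1) * (ρ e - 1) +
      (ρ e - 1) * (ρ c - 1) * (ρ e - 1) * (ρ c - 1) := by
  rw [← tval4 hR.two _ _ v.gc.sq v.ge.sq v.cec v.ece, map_pow, map_mul, add_sub_cancel,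
    add_sub_cancel]

theorem t2 (hR : RD D ρ) {c e a b x y : G} (v : Val D ρ c e a b x y) :
    (ρ ((c * e) ^ 4) - 1) * (ρ ((c * e) ^ 4) - 1) = 0 := by
  rw [tv hR v]
  simp only [mul_add, add_mul, mul_assoc, v.ge.sq, tail v.ge.sq, v.gc.sq, tail v.gc.sq,
      as5 v.ece, tail5 v.ece, as5 v.cec, tail5 v.cec, mul_zero, zero_mul, add_zero, zero_add]

/-- `T F T = 0` for a conjugation invariant set of elements with `W F X Y X = 0`. -/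
theorem tft' (h4 : Stmt_I4) (hG : Group.IsNilpotent G)
    (hgen : Subgroup.closure D = ⊤) (hD : DSet D) (hS : LawS D) (hR : RD D ρ) {c e a b x y : G}
    (v : Val D ρ c e a b x y) (v' : Val D ρ e c x y a b)
    (A : Set G) (hA : ∀ f ∈ A, ∀ g : G, g * f * g⁻¹ ∈ A)
    (hal : ∀ c', Gd D ρ c' → ∀ x' ∈ D, ∀ y' ∈ D, ∀ f ∈ A,
      (ρ c' - 1) * (ρ ⁅x', y'⁆ - 1) * (ρ c' - 1) * (ρ ⁅x', y'⁆ - 1) * (ρ f - 1) *
        ((ρ x' - 1) * (ρ y' - 1) * (ρ x' - 1)) = 0) : ∀ f ∈ A,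
    (ρ ((c * e) ^ 4) - 1) * (ρ f - 1) * (ρ ((c * e) ^ 4) - 1) = 0 := by
  intro f hf
  have k1 := key h4 hG hgen hD hS hR v.gc v.mx v.my _ v.wx v.wy v.cec A hA
    (fun f hf => by rw [v.he]; exact hal c v.gc x v.mx y v.my f hf)
    (fun f hf => by
      have := hal c v.gc y v.my x v.mx f hf
      rw [rc hD hR v.mx v.my] at this
      rw [v.he]; exact this) f hf
  have k2 := key h4 hG hgen hD hS hR v'.gc v'.mx v'.my _ v'.wx v'.wy v'.cec A hA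
    (fun f hf => by rw [v'.he]; exact hal e v'.gc a v'.mx b v'.my f hf)
    (fun f hf => by
      have := hal e v'.gc b v'.my a v'.mx f hf
      rw [rc hD hR v'.mx v'.my] at this
      rw [v'.he]; exact this) f hf
  rw [← v.he] at k1
  rw [← v'.he] at k2
  rw [tv hR v, add_mul, add_mul, mul_add, mul_add, k1.1, k1.2, k2.1, k2.2]
  simp only [add_zero]

/-- `W F X Y X = 0` for a thin letter `F`. -/
theorem thin (h0 : Stmt_H0) (hx1 : Stmt_R1x) (hG : Group.IsNilpotent G)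
    (hgen : Subgroup.closure D = ⊤) (hD : DSet D) (hS : LawS D) (hR : RD D ρ) {f : G}
    (f2 : (ρ f - 1) * (ρ f - 1) = 0)
    (hf : ∀ z ∈ D, (ρ f - 1) * (ρ z - 1) * (ρ f - 1) = 0) :
    ∀ c, Gd D ρ c → ∀ x ∈ D, ∀ y ∈ D,
      (ρ c - 1) * (ρ ⁅x, y⁆ - 1) * (ρ c - 1) * (ρ ⁅x, y⁆ - 1) * (ρ f - 1) *
        ((ρ x - 1) * (ρ y - 1) * (ρ x - 1)) = 0 := by
  intro c hc x hx y hy
  have if' : ρ f⁻¹ = ρ f := BCS_.rho_inv hR.two f2
  have eu : ρ (f * x * f⁻¹) - 1 = (ρ x - 1) + (ρ f - 1) * (ρ x - 1) + (ρ x - 1) * (ρ f - 1) := by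
    rw [conj_sub, if']
    have : ρ f * (ρ x - 1) * ρ f = (ρ x - 1) + (ρ f - 1) * (ρ x - 1) + (ρ x - 1) * (ρ f - 1) +
        (ρ f - 1) * (ρ x - 1) * (ρ f - 1) := by noncomm_ring
    rw [this, hf x hx, add_zero]
  have hxx := (gdD hD hR hx).sq
  have cm : (ρ (f * x * f⁻¹) - 1) * (ρ x - 1) = (ρ x - 1) * (ρ (f * x * f⁻¹) - 1) := by
    rw [eu]
    simp only [mul_add, add_mul, mul_assoc, hxx, tail hxx, mul_zero, zero_mul, add_zero, zero_add]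
  have hu : f * x * f⁻¹ ∈ D := hD.conj x hx f
  have r := hx1 G D R ρ hG hgen hD hS hR c hc x hx y hy _ hu cm
  have wx : (ρ c - 1) * (ρ ⁅x, y⁆ - 1) * (ρ c - 1) * (ρ ⁅x, y⁆ - 1) * (ρ x - 1) = 0 := by
    rw [mul_assoc _ (ρ ⁅x, y⁆ - 1) (ρ x - 1), EX hD hR hx hy]
    exact h0 G D R ρ hG hgen hD hS hR _ hc x hx y hy
  rw [eu, mul_add, mul_add, wx, zero_add, ← mul_assoc _ (ρ x - 1) (ρ f - 1), wx, zero_mul,
    add_zero, ← mul_assoc _ (ρ f - 1) (ρ x - 1), mul_assoc _ (ρ x - 1) (ρ ⁅x, y⁆ - 1),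
    XE hD hR hx hy] at r
  exact r

end

end CLC_

open CLB_ CLC_ in
/-- The certificate for the law L. -/
theorem cl_of_r1x (h1 : Stmt_I1) (h0 : Stmt_H0) (h4 : Stmt_I4) (hal : Stmt_Al)
    (hx1 : Stmt_R1x) : Stmt_CL := by
  intro G _ D R _ ρ hG hgen hD hS hR t ht t' ht'
  have step1 : ∀ s ∈ valL D, (ρ s - 1) * (ρ s - 1) = 0 ∧
      ∀ u ∈ D, (ρ s - 1) * (ρ u - 1) * (ρ s - 1) = 0 := by
    rintro s ⟨a, ha, b, hb, x, hx, y, hy, rfl⟩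
    have v := val h1 h0 hG hgen hD hS hR ha hb hx hy
    have v' := val h1 h0 hG hgen hD hS hR hx hy ha hb
    refine ⟨t2 hR v, tft' h4 hG hgen hD hS hR v v' D hD.conj ?_⟩
    intro c' hc' x' hx' y' hy' f hf
    exact hal G D R ρ hG hgen hD hS hR c' hc' x' hx' y' hy' f hf
  refine ⟨(step1 t ht).1, ?_⟩
  obtain ⟨a, ha, b, hb, x, hx, y, hy, rfl⟩ := ht
  have v := val h1 h0 hG hgen hD hS hR ha hb hx hy
  have v' := val h1 h0 hG hgen hD hS hR hx hy ha hb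
  refine tft' h4 hG hgen hD hS hR v v' (valL D) (DK_.valL_conj D hD) ?_ t' ht'
  intro c' hc' x' hx' y' hy' f hf
  exact thin h0 hx1 hG hgen hD hS hR (step1 f hf).1 (step1 f hf).2 c' hc' x' hx' y' hy'

end Pool.Agent.L3E
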