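import Pool.Agent.L3E.Stmts

set_option autoImplicit false

/-!
# L3E, module COR: assembly of the involution core (helper29)
-/

namespace Pool.Agent.L3E

open Pool.Agent.KOS (ev Com)
open scoped commutatorElement

theorem cor_proof (h1 : Stmt_Ein) (h2 : Stmt_Rel) (h3 : Stmt_Env) (_h4 : Stmt_Sec)
    (h5 : Stmt_Top) (h6 : Stmt_Chn) (h7 : Stmt_Law) : Stmt_Core := by
  intro m
  have hinf : PInf m := by
    obtain ⟨k, hk⟩ := h1 m
    obtain ⟨c, hc⟩ := h3 m k
    refine ⟨c, fun G _ x hn hi hl => hc G x hn hi ?_⟩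
    intro V K M _ s hV hK hKV hVV hsq
    exact hk G x _ s.rho hn hi hl (h2 G m x V K M s hn hi hV hK hKV hsq)
  have step : ∀ n, EE m n → PP m n := by
    intro n hE
    obtain ⟨k, hk⟩ := hE
    obtain ⟨c, hc⟩ := h3 m k
    refine ⟨c, fun G _ x hn hi hl => hc G x hn hi ?_⟩
    intro V K M _ s hV hK hKV hVV hsq
    exact hk G x _ s.rho hn hi hl (h2 G m x V K M s hn hi hV hK hKV hsq)
  obtain ⟨n, hn⟩ := h5 m hinf
  have down : ∀ n, PP m (n + 1) → PP m 1 := by
    intro n
    induction n with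
    | zero => exact id
    | succ n ih =>
      intro h
      exact ih (step (n + 1) (h6 m (n + 1) (by omega) h))
  have hP1 : PP m 1 := by
    cases n with
    | zero =>
      obtain ⟨c, hc⟩ := hn
      exact ⟨c, fun G _ x hn hi hl => hc G x hn hi (fun k hk => hl k (by omega))⟩
    | succ n => exact down n hn
  obtain ⟨c, hc⟩ := hP1
  refine ⟨c, fun G _ x hn hi => hc G x hn hi ?_⟩
  obtain ⟨-, -, -, hL0, hL1, -⟩ := h7 G m x hi
  intro k hk
  interval_cases k
  · exact hL0
  · exact hL1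

end Pool.Agent.L3E
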