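import Pool.Agent.L3E.J1S
import Pool.Agent.L3E.GJ.Br

set_option autoImplicit false
set_option linter.unusedSimpArgs false

/-!
# L3E, module J1P: `Stmt_J1` from the identity `Stmt_UC`, the vanishing of the big words and
`E Z E Z E = 0` (helper49, after helper68)
-/

namespace Pool.Agent.L3E

open GJ Finsupp

namespace J1P_

section
variable {R : Type} [Ring R]

theorem z2 (h2 : (2 : R) = 0) (n : ℤ) (h : (2 : ℤ) ∣ n) (a : R) : n • a = 0 := by
  obtain ⟨k, rfl⟩ := h
  rw [mul_comm, mul_smul, two_smul, ← two_mul, h2, zero_mul, smul_zero]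

theorem tail {a b : R} (h : a * b = 0) (x : R) : a * (b * x) = 0 := by
  rw [← mul_assoc, h, zero_mul]

theorem tail4 {a b c d : R} (h : a * b * c * d = 0) (x : R) :
    a * (b * (c * (d * x))) = 0 := by
  have := congrArg (· * x) h
  simpa only [mul_assoc, zero_mul] using this

theorem tail5 {a b c d e : R} (h : a * b * c * d * e = 0) (x : R) :
    a * (b * (c * (d * (e * x)))) = 0 := by
  have := congrArg (· * x) h
  simpa only [mul_assoc, zero_mul] using this

theorem as4 {a b c d : R} (h : a * b * c * d = 0) : a * (b * (c * d)) = 0 := by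
  simpa only [mul_assoc] using h

theorem as5 {a b c d e : R} (h : a * b * c * d * e = 0) : a * (b * (c * (d * e))) = 0 := by
  simpa only [mul_assoc] using h

theorem evx_one {X Y : R} (h2 : (2 : R) = 0) (hX : X * X = 0) (hY : Y * Y = 0)
    (hXY : X * Y * X * Y = 0) : (1 + X) * (1 + Y) * (1 + X) * (1 + Y) = 1 + evx X Y := by
  simp only [evx, mul_add, add_mul, mul_one, one_mul, mul_assoc, hX, tail hX, hY, tail hY,
    as4 hXY, tail4 hXY, mul_zero, zero_mul, add_zero, zero_add]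
  rw [← sub_eq_zero]
  abel_nf
  simp only [z2 h2 _ (by norm_num : (2 : ℤ) ∣ -2), z2 h2 _ (by norm_num : (2 : ℤ) ∣ 2), add_zero]

theorem evx_comm (X Y : R) : evx Y X = evx X Y := by
  unfold evx; abel

theorem evx_sq {X Y : R} (hX : X * X = 0) (hY : Y * Y = 0)
    (hXY : X * Y * X * Y = 0) (hYX : Y * X * Y * X = 0) : evx X Y * evx X Y = 0 := by
  simp only [evx, mul_add, add_mul, mul_one, one_mul, mul_assoc, hX, tail hX, hY, tail hY,
    as4 hXY, tail4 hXY, as4 hYX, tail4 hYX, mul_zero, zero_mul, add_zero, zero_add]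

theorem law4 (h2 : (2 : R) = 0) {Z E : R} (hZ : Z * Z = 0) (hE : E * E = 0)
    (hA : E * Z * E * Z * E = 0) :
    ((1 + Z) * (1 + E)) ^ 4 - 1 = (E * Z) * (E * Z) + (Z * E) * (Z * E) := by
  have e2 : ((1 + Z) * (1 + E)) ^ 2 = 1 + (Z * E + E * Z + Z * E * Z + E * Z * E + Z * E * Z * E)
      := by
    rw [pow_two]
    simp only [mul_add, add_mul, mul_one, one_mul, mul_assoc, hE, tail hE, hZ, tail hZ,
      as5 hA, tail5 hA, mul_zero, zero_mul, add_zero, zero_add]
    rw [← sub_eq_zero]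
    abel_nf
    simp only [z2 h2 _ (by norm_num : (2 : ℤ) ∣ -2), z2 h2 _ (by norm_num : (2 : ℤ) ∣ 2), add_zero]
  have e4 : ((1 + Z) * (1 + E)) ^ 4 = ((1 + Z) * (1 + E)) ^ 2 * ((1 + Z) * (1 + E)) ^ 2 := by
    rw [← pow_add]
  rw [e4, e2]
  simp only [mul_add, add_mul, mul_one, one_mul, mul_assoc, hE, tail hE, hZ, tail hZ,
      as5 hA, tail5 hA, mul_zero, zero_mul, add_zero, zero_add]
  rw [← sub_eq_zero]
  abel_nf
  simp only [z2 h2 _ (by norm_num : (2 : ℤ) ∣ -2), z2 h2 _ (by norm_num : (2 : ℤ) ∣ 2), add_zero]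

/-! ### Replacing the last letter -/

variable {a : Fin 4 → R}

theorem rep_mem {U' : R} (hU : U' ∈ brW a (single 3 1)) (w : List (Fin 4)) :
    (w.map (Function.update a 3 U')).prod ∈ brW a (brC w) := by
  induction w with
  | nil => exact brW_one
  | cons i w ih =>
    rw [List.map_cons, List.prod_cons, brC_cons]
    refine brW_mul ?_ ih
    by_cases h : i = 3
    · subst h; simpa using hU
    · rw [Function.update_of_ne h]; exact brW_letter i

theorem rep_sub {U' : R} {δ : Fin 4 →₀ ℕ} (hU : U' ∈ brW a (single 3 1))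
    (hs : U' - a 3 ∈ brW a (single 3 1 + δ)) (w : List (Fin 4)) :
    (w.map (Function.update a 3 U')).prod - (w.map a).prod ∈ brW a (brC w + δ) := by
  induction w with
  | nil => simp
  | cons i w ih =>
    rw [List.map_cons, List.prod_cons, List.map_cons, List.prod_cons, brC_cons]
    have e : Function.update a 3 U' i * (List.map (Function.update a 3 U') w).prod -
        a i * (List.map a w).prod =
        (Function.update a 3 U' i - a i) * (List.map (Function.update a 3 U') w).prod +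
        a i * ((List.map (Function.update a 3 U') w).prod - (List.map a w).prod) := by
      noncomm_ring
    rw [e]
    refine add_mem ?_ ?_
    · by_cases h : i = 3
      · subst h
        rw [Function.update_self, show single 3 1 + brC w + δ = single 3 1 + δ + brC w by abel]
        exact brW_mul hs (rep_mem hU w)
      · rw [Function.update_of_ne h, sub_self, zero_mul]; exact zero_mem _
    · rw [add_assoc]
      exact brW_mul (brW_letter i) ih

theorem big_zero {N : Fin 4 →₀ ℕ} (hN : BigC N)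
    (hB : ∀ w : List (Fin 4), BigC (fun i => w.count i) → (w.map a).prod = 0) {x : R}
    (hx : x ∈ brW a N) : x = 0 := by
  induction hx using AddSubgroup.closure_induction with
  | mem x hx =>
    obtain ⟨w, hw, rfl⟩ := hx
    refine hB w ?_
    have h : ∀ i, N i ≤ w.count i := fun i => by
      have := Finsupp.le_def.mp hw i
      rwa [brC_apply] at this
    have h0 := h 0
    have h1 := h 1
    have h2 := h 2
    have h3 := h 3
    change (5 ≤ w.count 0 ∧ 4 ≤ w.count 1 ∧ 4 ≤ w.count 2) ∨ (4 ≤ w.count 0 ∧ 5 ≤ w.count 1 ∧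
      4 ≤ w.count 2) ∨ (4 ≤ w.count 0 ∧ 4 ≤ w.count 1 ∧ 5 ≤ w.count 2) ∨
      (4 ≤ w.count 0 ∧ 4 ≤ w.count 1 ∧ 4 ≤ w.count 2 ∧ 4 ≤ w.count 3)
    unfold BigC at hN
    omega
  | zero => rfl
  | add x y _ _ hx hy => rw [hx, hy, add_zero]
  | neg x _ hx => rw [hx, neg_zero]

/-- The admissible words of (C). -/
def Adm (w : List (Fin 4)) : Prop := 3 ≤ w.count 0 ∧ 3 ≤ w.count 1 ∧ 3 ≤ w.count 2 ∧
    (4 ≤ w.count 0 ∨ 4 ≤ w.count 1 ∨ 4 ≤ w.count 2 ∨ 4 ≤ w.count 3)

theorem evx_mem {X Y Z U : R} :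
    evx X Y ∈ brW ![X, Y, Z, U] (single 0 1 + single 1 1) := by
  have hX : X ∈ brW ![X, Y, Z, U] (single 0 1) := brW_letter (a := ![X, Y, Z, U]) 0
  have hY : Y ∈ brW ![X, Y, Z, U] (single 1 1) := brW_letter (a := ![X, Y, Z, U]) 1
  have hXY := brW_mul hX hY
  have hYX := brW_mul hY hX
  rw [add_comm] at hYX
  unfold evx
  refine add_mem (add_mem (add_mem hXY hYX) ?_) ?_
  · exact brW_W le_self_add (brW_mul hXY hX)
  · exact brW_W le_self_add (brW_mul hYX hY)

theorem Z_mem {X Y Z U : R} : Z ∈ brW ![X, Y, Z, U] (single 2 1) :=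
  brW_letter (a := ![X, Y, Z, U]) 2

theorem U_mem {X Y Z U : R} : U ∈ brW ![X, Y, Z, U] (single 3 1) :=
  brW_letter (a := ![X, Y, Z, U]) 3

/-- Conjugating the last letter by `1 + F`. -/
theorem conj_mem {δ : Fin 4 →₀ ℕ} {F : R} (hF : F ∈ brW a δ) :
    (1 + F) * a 3 * (1 + F) - a 3 ∈ brW a (single 3 1 + δ) := by
  have e : (1 + F) * a 3 * (1 + F) - a 3 = F * a 3 + a 3 * F + F * a 3 * F := by noncomm_ring
  have h3 : a 3 ∈ brW a (single 3 1) := brW_letter 3
  have h1 := brW_mul hF h3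
  have h2 := brW_mul h3 hF
  rw [add_comm δ] at h1
  rw [e]
  refine add_mem (add_mem h1 h2) ?_
  exact brW_W le_self_add (brW_mul h1 hF)

theorem conj_mem' {δ : Fin 4 →₀ ℕ} {F : R} (hF : F ∈ brW a δ) :
    (1 + F) * a 3 * (1 + F) ∈ brW a (single 3 1) := by
  have h := add_mem (brW_W le_self_add (conj_mem hF)) (brW_letter (a := a) 3)
  rwa [sub_add_cancel] at h

end

/-- Comparing the identity (C) for two last letters. -/
theorem kap_rep (hUC : Stmt_UC) {R : Type} [Ring R] {D : Set R} (h2 : (2 : R) = 0)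
    (hsq : ∀ X ∈ D, X * X = 0) (hxy : ∀ X ∈ D, ∀ Y ∈ D, X * Y * X * Y = 0)
    (hcl : ∀ X ∈ D, ∀ Y ∈ D, (1 + Y) * X * (1 + Y) ∈ D) {X Y Z U U' : R} (hX : X ∈ D)
    (hY : Y ∈ D) (hZ : Z ∈ D) (hU : U ∈ D) (hU' : U' ∈ D) :
    kap X Y Z U' - kap X Y Z U ∈ AddSubgroup.closure {x : R | ∃ w, Adm w ∧
      x = (w.map ![X, Y, Z, U']).prod - (w.map ![X, Y, Z, U]).prod} := by
  have h := hUC (R × R) {p | p.1 ∈ D ∧ p.2 ∈ D} (Prod.ext h2 h2)
    (fun p hp => Prod.ext (hsq _ hp.1) (hsq _ hp.2))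
    (fun p hp q hq => Prod.ext (hxy _ hp.1 _ hq.1) (hxy _ hp.2 _ hq.2))
    (fun p hp q hq => ⟨hcl _ hp.1 _ hq.1, hcl _ hp.2 _ hq.2⟩)
    (X, X) ⟨hX, hX⟩ (Y, Y) ⟨hY, hY⟩ (Z, Z) ⟨hZ, hZ⟩ (U, U') ⟨hU, hU'⟩
  have e1 : (kap (X, X) (Y, Y) (Z, Z) (U, U')).1 = kap X Y Z U := rfl
  have e2 : (kap (X, X) (Y, Y) (Z, Z) (U, U')).2 = kap X Y Z U' := rfl
  rw [← e1, ← e2]
  generalize kap (X, X) (Y, Y) (Z, Z) (U, U') = p at h
  unfold Kc at h
  induction h using AddSubgroup.closure_induction with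
  | mem p hp =>
    obtain ⟨w, w0, w1, w2, w3, rfl⟩ := hp
    refine AddSubgroup.subset_closure ⟨w, ⟨w0, w1, w2, w3⟩, ?_⟩
    have f1 : ((w.map ![(X, X), (Y, Y), (Z, Z), (U, U')]).prod).1 =
        (w.map ![X, Y, Z, U]).prod := by
      change RingHom.fst R R _ = _
      rw [map_list_prod, List.map_map]
      congr 2
      funext i
      fin_cases i <;> rfl
    have f2 : ((w.map ![(X, X), (Y, Y), (Z, Z), (U, U')]).prod).2 =
        (w.map ![X, Y, Z, U']).prod := by
      change RingHom.snd R R _ = _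
      rw [map_list_prod, List.map_map]
      congr 2
      funext i
      fin_cases i <;> rfl
    rw [f1, f2]
  | zero => simp
  | add p q _ _ hp hq =>
    rw [Prod.fst_add, Prod.snd_add, add_sub_add_comm]
    exact add_mem hp hq
  | neg p _ hp =>
    rw [Prod.fst_neg, Prod.snd_neg, neg_sub_neg, ← neg_sub]
    exact neg_mem hp

/-- A nilpotent D-system of a ring. -/
structure NS {R : Type} [Ring R] (D : Set R) : Prop where
  two : (2 : R) = 0
  sq : ∀ X ∈ D, X * X = 0
  xy : ∀ X ∈ D, ∀ Y ∈ D, X * Y * X * Y = 0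
  cl : ∀ X ∈ D, ∀ Y ∈ D, (1 + Y) * X * (1 + Y) ∈ D
  nil : ∃ N : ℕ, ∀ l : List R, l.length = N → (∀ X ∈ l, X ∈ D) → l.prod = 0

section
variable {R : Type} [Ring R] {D : Set R} {X Y Z U : R}

theorem adm_zero (hBig : Stmt_Big) (s : NS D) (hX : X ∈ D) (hY : Y ∈ D) (hZ : Z ∈ D) (hU : U ∈ D)
    {w : List (Fin 4)} (hw : Adm w) {x : R}
    (hx : x ∈ brW ![X, Y, Z, U] (brC w + (single 0 1 + single 1 1 + single 2 1))) : x = 0 := by
  refine big_zero ?_ (hBig R D s.two s.sq s.xy s.cl s.nil ![X, Y, Z, U] ?_) hx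
  · have c0 : (brC w + (single 0 1 + single 1 1 + single 2 1) : Fin 4 →₀ ℕ) 0 = w.count 0 + 1 := by
      simp [brC_apply, Finsupp.single_apply]
    have c1 : (brC w + (single 0 1 + single 1 1 + single 2 1) : Fin 4 →₀ ℕ) 1 = w.count 1 + 1 := by
      simp [brC_apply, Finsupp.single_apply]
    have c2 : (brC w + (single 0 1 + single 1 1 + single 2 1) : Fin 4 →₀ ℕ) 2 = w.count 2 + 1 := by
      simp [brC_apply, Finsupp.single_apply]
    have c3 : (brC w + (single 0 1 + single 1 1 + single 2 1) : Fin 4 →₀ ℕ) 3 = w.count 3 := by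
      simp [brC_apply, Finsupp.single_apply]
    unfold BigC
    rw [c0, c1, c2, c3]
    obtain ⟨a0, a1, a2, a3⟩ := hw
    omega
  · intro i
    fin_cases i
    · exact hX
    · exact hY
    · exact hZ
    · exact hU

theorem kc_zero (hBig : Stmt_Big) (s : NS D) (hX : X ∈ D) (hY : Y ∈ D) (hZ : Z ∈ D) (hU : U ∈ D)
    {x : R} (hx : x ∈ Kc X Y Z U) : x * (evx X Y * Z) = 0 := by
  unfold Kc at hx
  induction hx using AddSubgroup.closure_induction with
  | mem x hx =>
    obtain ⟨w, w0, w1, w2, w3, rfl⟩ := hx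
    refine adm_zero hBig s hX hY hZ hU (w := w) ⟨w0, w1, w2, w3⟩ ?_
    exact brW_mul (AddSubgroup.subset_closure ⟨w, le_rfl, rfl⟩) (brW_mul evx_mem Z_mem)
  | zero => rw [zero_mul]
  | add x y _ _ hx hy => rw [add_mul, hx, hy, add_zero]
  | neg x _ hx => rw [neg_mul, hx, neg_zero]

omit [Ring R] in
theorem upd (U' : R) : ![X, Y, Z, U'] = Function.update ![X, Y, Z, U] 3 U' := by
  funext i
  fin_cases i <;> rfl

theorem rep_zero (hUC : Stmt_UC) (hBig : Stmt_Big) (s : NS D) (hX : X ∈ D) (hY : Y ∈ D)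
    (hZ : Z ∈ D) (hU : U ∈ D) {F : R} (hFD : (1 + F) * U * (1 + F) ∈ D) {δ δ₁ δ₂ : Fin 4 →₀ ℕ}
    (hF : F ∈ brW ![X, Y, Z, U] δ) {p q : R} (hp : p ∈ brW ![X, Y, Z, U] δ₁)
    (hq : q ∈ brW ![X, Y, Z, U] δ₂)
    (hδ : δ₁ + δ + δ₂ = single 0 1 + single 1 1 + single 2 1) :
    p * (kap X Y Z ((1 + F) * U * (1 + F)) - kap X Y Z U) * q = 0 := by
  have h := kap_rep hUC s.two s.sq s.xy s.cl hX hY hZ hU hFD
  generalize kap X Y Z ((1 + F) * U * (1 + F)) - kap X Y Z U = k at h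
  induction h using AddSubgroup.closure_induction with
  | mem x hx =>
    obtain ⟨w, hw, rfl⟩ := hx
    refine adm_zero hBig s hX hY hZ hU hw ?_
    rw [← hδ, upd (X := X) (Y := Y) (Z := Z) (U := U) ((1 + F) * U * (1 + F))]
    have h1 : (1 + F) * U * (1 + F) ∈ brW ![X, Y, Z, U] (single 3 1) :=
      conj_mem' (a := ![X, Y, Z, U]) hF
    have h2 : (1 + F) * U * (1 + F) - (![X, Y, Z, U] : Fin 4 → R) 3 ∈
        brW ![X, Y, Z, U] (single 3 1 + δ) := conj_mem (a := ![X, Y, Z, U]) hF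
    have h3 := brW_mul (brW_mul hp (rep_sub h1 h2 w)) hq
    rwa [show δ₁ + (brC w + δ) + δ₂ = brC w + (δ₁ + δ + δ₂) by abel] at h3
  | zero => rw [mul_zero, zero_mul]
  | add x y _ _ hx hy => rw [mul_add, add_mul, hx, hy, add_zero]
  | neg x _ hx => rw [mul_neg, neg_mul, hx, neg_zero]

theorem step1 (hUC : Stmt_UC) (hBig : Stmt_Big) (hA : Stmt_A) (s : NS D) (hX : X ∈ D) (hY : Y ∈ D)
    (hZ : Z ∈ D) (hU : U ∈ D) :
    (evx X Y * Z) * (evx X Y * Z) * U * ((evx X Y * Z) * (evx X Y * Z)) = 0 := by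
  have h := kc_zero hBig s hX hY hZ hU (hUC R D s.two s.sq s.xy s.cl X hX Y hY Z hZ U hU)
  have h5 := hA R D s.two s.sq s.xy s.cl s.nil X hX Y hY Z hZ
  unfold kap at h
  generalize evx X Y = E at *
  simp only [add_mul, mul_assoc, as5 h5, tail5 h5, mul_zero, add_zero] at h ⊢
  exact h

theorem step3 (hUC : Stmt_UC) (hBig : Stmt_Big) (hA : Stmt_A) (s : NS D) (hX : X ∈ D) (hY : Y ∈ D)
    (hZ : Z ∈ D) (hU : U ∈ D) :
    (evx X Y * Z) * (evx X Y * Z) * U * ((Z * evx X Y) * (Z * evx X Y)) = 0 := by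
  have h := rep_zero hUC hBig s hX hY hZ hU (F := Z) (s.cl U hU Z hZ) Z_mem brW_one
    (evx_mem (X := X) (Y := Y)) (by abel)
  have h5 := hA R D s.two s.sq s.xy s.cl s.nil X hX Y hY Z hZ
  have hZZ := s.sq Z hZ
  unfold kap at h
  generalize evx X Y = E at *
  simp only [one_mul, add_mul, mul_add, sub_mul, mul_one, mul_assoc, as5 h5, tail5 h5, hZZ,
    tail hZZ, mul_zero, zero_mul, add_zero, zero_add, sub_zero, add_sub_cancel_left] at h ⊢
  exact h

theorem step4 (hUC : Stmt_UC) (hBig : Stmt_Big) (hA : Stmt_A) (s : NS D) (hX : X ∈ D) (hY : Y ∈ D)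
    (hZ : Z ∈ D) (hU : U ∈ D) :
    (Z * evx X Y) * (Z * evx X Y) * U * ((evx X Y * Z) * (evx X Y * Z)) = 0 := by
  have hXX := s.sq X hX
  have hYY := s.sq Y hY
  have hXY := s.xy X hX Y hY
  have hYX := s.xy Y hY X hX
  have e1 := evx_one s.two hXX hYY hXY
  have e2 := evx_one s.two hYY hXX hYX
  rw [evx_comm] at e2
  have hD : (1 + evx X Y) * U * (1 + evx X Y) ∈ D := by
    nth_rw 1 [← e1]
    rw [← e2]
    have := s.cl _ (s.cl _ (s.cl _ (s.cl U hU Y hY) X hX) Y hY) X hX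
    simpa only [mul_assoc] using this
  have h := rep_zero hUC hBig s hX hY hZ hU (F := evx X Y) hD evx_mem (Z_mem (Z := Z)) brW_one
    (by abel)
  have h5 := hA R D s.two s.sq s.xy s.cl s.nil X hX Y hY Z hZ
  have hEE := evx_sq hXX hYY hXY hYX
  unfold kap at h
  generalize evx X Y = E at *
  simp only [one_mul, add_mul, mul_add, mul_sub, mul_one, mul_assoc, as5 h5, tail5 h5, hEE,
    tail hEE, mul_zero, zero_mul, add_zero, zero_add, sub_zero, add_sub_cancel_left] at h ⊢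
  rw [← add_assoc, add_sub_cancel_left] at h
  exact h

end

open MulOpposite in
theorem NS.op {R : Type} [Ring R] {D : Set R} (s : NS D) : NS {x : Rᵐᵒᵖ | x.unop ∈ D} where
  two := unop_injective (by simpa using s.two)
  sq X hX := unop_injective (by simpa using s.sq _ hX)
  xy X hX Y hY := unop_injective (by
    have := s.xy _ hY _ hX
    simpa [mul_assoc] using this)
  cl X hX Y hY := by
    have := s.cl _ hX _ hY
    simpa [mul_assoc] using this
  nil := by
    obtain ⟨N, hN⟩ := s.nil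
    refine ⟨N, fun l hl hlD => unop_injective ?_⟩
    rw [unop_list_prod, unop_zero]
    refine hN _ (by simpa using hl) ?_
    intro x hx
    simp only [List.mem_reverse, List.mem_map] at hx
    obtain ⟨y, hy, rfl⟩ := hx
    exact hlD y hy

open MulOpposite in
theorem step2 (hUC : Stmt_UC) (hBig : Stmt_Big) (hA : Stmt_A) {R : Type} [Ring R] {D : Set R}
    {X Y Z U : R} (s : NS D) (hX : X ∈ D) (hY : Y ∈ D) (hZ : Z ∈ D) (hU : U ∈ D) :
    (Z * evx X Y) * (Z * evx X Y) * U * ((Z * evx X Y) * (Z * evx X Y)) = 0 := by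
  have h := step1 hUC hBig hA s.op (X := op X) (Y := op Y) (Z := op Z) (U := op U) hX hY hZ hU
  have e : evx (op X) (op Y) = op (evx X Y) := by
    apply unop_injective
    simp only [evx, unop_add, unop_mul, unop_op, mul_assoc]
    abel
  rw [e] at h
  have h' := congrArg unop h
  simpa only [unop_mul, unop_op, unop_zero, mul_assoc] using h'

end J1P_

open J1P_ in
/-- (J1) from (C), the vanishing of the big words and (A). -/
theorem j1_of_uc (hUC : Stmt_UC) (hBig : Stmt_Big) (hA : Stmt_A) : Stmt_J1 := by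
  intro R _ D h2 hsq hxy hcl hnil X hX Y hY Z hZ U hU
  have s : NS D := ⟨h2, hsq, hxy, hcl, hnil⟩
  have hXX := hsq X hX
  have hYY := hsq Y hY
  have hZZ := hsq Z hZ
  have hXY := hxy X hX Y hY
  have hYX := hxy Y hY X hX
  have hEE := evx_sq hXX hYY hXY hYX
  have h5 := hA R D h2 hsq hxy hcl hnil X hX Y hY Z hZ
  have ht : tval X Y Z =
      (evx X Y * Z) * (evx X Y * Z) + (Z * evx X Y) * (Z * evx X Y) := by
    unfold tval
    rw [evx_one h2 hXX hYY hXY]
    exact law4 h2 hZZ hEE h5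
  have s1 := step1 hUC hBig hA s hX hY hZ hU
  have s2 := step2 hUC hBig hA s hX hY hZ hU
  have s3 := step3 hUC hBig hA s hX hY hZ hU
  have s4 := step4 hUC hBig hA s hX hY hZ hU
  rw [ht]
  generalize evx X Y = E at *
  constructor
  · simp only [mul_add, add_mul, mul_assoc, hEE, tail hEE, hZZ, tail hZZ, as5 h5, tail5 h5,
      mul_zero, add_zero]
  · rw [mul_add, add_mul, add_mul, add_mul, s1, s2, s3, s4]
    simp

end Pool.Agent.L3E
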