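import Pool.Agent.L3E.BCS

set_option autoImplicit false

/-!
# L3E, module J1S: statements of the parts of (J1) (helper49, after helper68 and helper24)
-/

namespace Pool.Agent.L3E

/-- The commutator `[x, y] - 1` of two D-letters. -/
def evx {R : Type} [Ring R] (X Y : R) : R := X * Y + Y * X + X * Y * X + Y * X * Y

/-- The expression `n n U n + n U n n`, `n = E Z`. -/
def kap {R : Type} [Ring R] (X Y Z U : R) : R :=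
  (evx X Y * Z) * (evx X Y * Z) * U * (evx X Y * Z) +
    (evx X Y * Z) * U * ((evx X Y * Z) * (evx X Y * Z))

/-- The span of the words of content larger than `(3, 3, 3)` (or with four letters `U`). -/
def Kc {R : Type} [Ring R] (X Y Z U : R) : AddSubgroup R :=
  AddSubgroup.closure {x | ∃ w : List (Fin 4), 3 ≤ w.count 0 ∧ 3 ≤ w.count 1 ∧ 3 ≤ w.count 2 ∧
    (4 ≤ w.count 0 ∨ 4 ≤ w.count 1 ∨ 4 ≤ w.count 2 ∨ 4 ≤ w.count 3) ∧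
    x = (w.map ![X, Y, Z, U]).prod}

/-- The identity (C). -/
def Stmt_UC : Prop := ∀ (R : Type) [Ring R] (D : Set R), (2 : R) = 0 →
  (∀ X ∈ D, X * X = 0) → (∀ X ∈ D, ∀ Y ∈ D, X * Y * X * Y = 0) →
  (∀ X ∈ D, ∀ Y ∈ D, (1 + Y) * X * (1 + Y) ∈ D) →
  ∀ X ∈ D, ∀ Y ∈ D, ∀ Z ∈ D, ∀ U ∈ D, kap X Y Z U ∈ Kc X Y Z U

/-- The identity (A). -/
def Stmt_A : Prop := ∀ (R : Type) [Ring R] (D : Set R), (2 : R) = 0 →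
  (∀ X ∈ D, X * X = 0) → (∀ X ∈ D, ∀ Y ∈ D, X * Y * X * Y = 0) →
  (∀ X ∈ D, ∀ Y ∈ D, (1 + Y) * X * (1 + Y) ∈ D) →
  (∃ N : ℕ, ∀ l : List R, l.length = N → (∀ X ∈ l, X ∈ D) → l.prod = 0) →
  ∀ X ∈ D, ∀ Y ∈ D, ∀ Z ∈ D, evx X Y * Z * evx X Y * Z * evx X Y = 0

/-- The big contents. -/
def BigC (n : Fin 4 → ℕ) : Prop :=
  (5 ≤ n 0 ∧ 4 ≤ n 1 ∧ 4 ≤ n 2) ∨ (4 ≤ n 0 ∧ 5 ≤ n 1 ∧ 4 ≤ n 2) ∨
    (4 ≤ n 0 ∧ 4 ≤ n 1 ∧ 5 ≤ n 2) ∨ (4 ≤ n 0 ∧ 4 ≤ n 1 ∧ 4 ≤ n 2 ∧ 4 ≤ n 3)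

/-- The big words vanish. -/
def Stmt_Big : Prop := ∀ (R : Type) [Ring R] (D : Set R), (2 : R) = 0 →
  (∀ X ∈ D, X * X = 0) → (∀ X ∈ D, ∀ Y ∈ D, X * Y * X * Y = 0) →
  (∀ X ∈ D, ∀ Y ∈ D, (1 + Y) * X * (1 + Y) ∈ D) →
  (∃ N : ℕ, ∀ l : List R, l.length = N → (∀ X ∈ l, X ∈ D) → l.prod = 0) →
  ∀ a : Fin 4 → R, (∀ i, a i ∈ D) → ∀ w : List (Fin 4), BigC (fun i => w.count i) →
    (w.map a).prod = 0

end Pool.Agent.L3E
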