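import Pool.Agent.L3E.NQI
import Pool.Agent.L3E.J1S
import Pool.Agent.L3E.CLC

set_option autoImplicit false

/-!
# L3E, module NQA: `Stmt_A` from the table of the 175-dimensional algebra (helper6)
-/

namespace Pool.Agent.L3E

namespace NQA_

/-- The letters. -/
def lt {R : Type} (X Y Z : R) (i : ℕ) : R := if i = 0 then X else if i = 1 then Y else Z

/-- Admissible words: conjugates by one letter. -/
def ty : List ℕ → Bool
  | [_] => true
  | [p, _, q] => p == q
  | _ => false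

/-- Admissible relations. -/
def okr : List (List ℕ) → Bool
  | [g, h] => (g == h) && ty g
  | [g, h, g', h'] => (g == g') && (h == h') && ty g && ty h
  | _ => false

theorem ok_ev : (NQD.ev.all fun e => okr e.2) = true := by decide +kernel

section
variable {R : Type} [Ring R] {D : Set R} {X Y Z : R}

omit [Ring R] in
theorem lt_mem (hX : X ∈ D) (hY : Y ∈ D) (hZ : Z ∈ D) (i : ℕ) : lt X Y Z i ∈ D := by
  rw [lt]
  split_ifs
  · exact hX
  · exact hY
  · exact hZ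

theorem ty_spec (h2 : (2 : R) = 0) (hsq : ∀ X ∈ D, X * X = 0)
    (hcl : ∀ X ∈ D, ∀ Y ∈ D, (1 + Y) * X * (1 + Y) ∈ D) (hX : X ∈ D) (hY : Y ∈ D) (hZ : Z ∈ D)
    {w : List ℕ} (hw : ty w = true) : NQC.hw (lt X Y Z) w ∈ D := by
  match w, hw with
  | [m], _ =>
    have : NQC.hw (lt X Y Z) [m] = lt X Y Z m := by simp [NQC.hw, NQC.gw]
    rw [this]
    exact lt_mem hX hY hZ m
  | [p, m, q], hw =>
    have hpq : p = q := by simpa [ty] using hw
    subst hpq
    have hp := hsq _ (lt_mem hX hY hZ p)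
    have e1 : (1 + lt X Y Z p) * (1 + lt X Y Z p) = 1 := by
      have : (1 + lt X Y Z p) * (1 + lt X Y Z p) = 1 + (2 : R) * lt X Y Z p +
          lt X Y Z p * lt X Y Z p := by noncomm_ring
      rw [this, hp, h2]
      simp
    have e2 : NQC.hw (lt X Y Z) [p, m, p] =
        (1 + lt X Y Z p) * lt X Y Z m * (1 + lt X Y Z p) := by
      have : NQC.hw (lt X Y Z) [p, m, p] = (1 + lt X Y Z p) * lt X Y Z m * (1 + lt X Y Z p) +
          ((1 + lt X Y Z p) * (1 + lt X Y Z p) - 1) := by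
        simp only [NQC.hw, NQC.gw, List.map_cons, List.map_nil, List.prod_cons, List.prod_nil,
          mul_one]
        noncomm_ring
      rw [this, e1, sub_self, add_zero]
    rw [e2]
    exact hcl _ (lt_mem hX hY hZ m) _ (lt_mem hX hY hZ p)
  | [], hw => exact absurd hw (by simp [ty])
  | [_, _], hw => exact absurd hw (by simp [ty])
  | _ :: _ :: _ :: _ :: _, hw => exact absurd hw (by simp [ty])

theorem okr_spec (h2 : (2 : R) = 0) (hsq : ∀ X ∈ D, X * X = 0)
    (hxy : ∀ X ∈ D, ∀ Y ∈ D, X * Y * X * Y = 0)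
    (hcl : ∀ X ∈ D, ∀ Y ∈ D, (1 + Y) * X * (1 + Y) ∈ D) (hX : X ∈ D) (hY : Y ∈ D) (hZ : Z ∈ D)
    {l : List (List ℕ)} (hl : okr l = true) : (l.map (NQC.hw (lt X Y Z))).prod = 0 := by
  match l, hl with
  | [g, h], hl =>
    simp only [okr, Bool.and_eq_true, beq_iff_eq] at hl
    obtain ⟨rfl, h3⟩ := hl
    simp only [List.map_cons, List.map_nil, List.prod_cons, List.prod_nil, mul_one]
    exact hsq _ (ty_spec h2 hsq hcl hX hY hZ h3)
  | [g, h, g', h'], hl =>
    simp only [okr, Bool.and_eq_true, beq_iff_eq] at hl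
    obtain ⟨⟨⟨rfl, rfl⟩, h3⟩, h4⟩ := hl
    simp only [List.map_cons, List.map_nil, List.prod_cons, List.prod_nil, mul_one, ← mul_assoc]
    exact hxy _ (ty_spec h2 hsq hcl hX hY hZ h3) _ (ty_spec h2 hsq hcl hX hY hZ h4)
  | [], hl => exact absurd hl (by simp [okr])
  | [_], hl => exact absurd hl (by simp [okr])
  | [_, _, _], hl => exact absurd hl (by simp [okr])
  | _ :: _ :: _ :: _ :: _ :: _, hl => exact absurd hl (by simp [okr])

/-- Identities of three D-letters, ring form. -/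
theorem zero (h2 : (2 : R) = 0) (hsq : ∀ X ∈ D, X * X = 0)
    (hxy : ∀ X ∈ D, ∀ Y ∈ D, X * Y * X * Y = 0)
    (hcl : ∀ X ∈ D, ∀ Y ∈ D, (1 + Y) * X * (1 + Y) ∈ D)
    (hnil : ∃ N : ℕ, ∀ l : List R, l.length = N → (∀ X ∈ l, X ∈ D) → l.prod = 0)
    (hX : X ∈ D) (hY : Y ∈ D) (hZ : Z ∈ D) (l : List (List ℕ))
    (hl : (l.all (NQC.okw 3)) = true) (hf : NQI_.fz l = true) :
    (l.map (NQC.hw (lt X Y Z))).prod = 0 := by
  have hnil' : ∃ N : ℕ, ∀ w : List ℕ, w.length = N → (∀ i ∈ w, i < NQD.tab.m) →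
      NQC.pw (lt X Y Z) w = 0 := by
    obtain ⟨N, hN⟩ := hnil
    refine ⟨N, fun w hw _ => hN (w.map (lt X Y Z)) (by simpa using hw) fun A hA => ?_⟩
    obtain ⟨i, _, rfl⟩ := List.mem_map.1 hA
    exact lt_mem hX hY hZ i
  have hrel : ∀ e ∈ NQD.ev, (e.2.map (NQC.hw (lt X Y Z))).prod = 0 := by
    intro e he
    exact okr_spec h2 hsq hxy hcl hX hY hZ (List.all_eq_true.1 ok_ev e he)
  have key := NQC.main h2 (lt X Y Z) NQD.tab NQD.sy NQD.ev NQD.sol NQD.chk_ok hrel hnil' l hl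
  rw [NQI_.fz_spec hf, NQC.val_zero] at key
  exact key

end

end NQA_

open NQA_ in
/-- `E Z E Z E = 0`. -/
theorem stmt_a : Stmt_A := by
  intro R _ D h2 hsq hxy hcl hnil X hX Y hY Z hZ
  have h := zero h2 hsq hxy hcl hnil hX hY hZ [[0, 1, 0, 1], [2], [0, 1, 0, 1], [2], [0, 1, 0, 1]]
    (by decide) (by decide +kernel)
  have e1 : NQC.hw (lt X Y Z) [0, 1, 0, 1] = evx X Y := by
    have e3 : NQC.hw (lt X Y Z) [0, 1, 0, 1] = (1 + X) * (1 + Y) * (1 + X) * (1 + Y) - 1 := by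
      simp [NQC.hw, NQC.gw, lt, mul_assoc]
    rw [e3]
    exact CLC_.ev_eq h2 X Y (hsq X hX) (hsq Y hY) (hxy X hX Y hY)
  have e2 : NQC.hw (lt X Y Z) [2] = Z := by simp [NQC.hw, NQC.gw, lt]
  simp only [List.map_cons, List.map_nil, List.prod_cons, List.prod_nil, mul_one, e1, e2,
    ← mul_assoc] at h
  exact h

end Pool.Agent.L3E
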