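import Pool.Agent.L3E.BCS
import Pool.Agent.L3E.J1P
import Pool.Agent.L3E.NQA
import Pool.Agent.L3E.GJ.Big
import Pool.Agent.L3E.UX.UCP

/-!
# L3E, module CSP: the certificate `Stmt_CS` (assembly)
-/

set_option autoImplicit false

namespace Pool.Agent.L3E

theorem cs_proof : Stmt_CS := cs_of_j1 (j1_of_uc UX.uc_proof stmt_big stmt_a)

end Pool.Agent.L3E
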