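import Pool.Agent.L3E.Stmts

set_option autoImplicit false

/-!
# L3E, module CUB: left 3-Engel elements act on abelian sections with `X ^ 3 = 0`
-/

namespace Pool.Agent.L3E

open scoped commutatorElement

namespace Cub_

variable {G : Type} [Group G] {V K : Subgroup G} {M : Type} [AddCommGroup M]

theorem pi_one (s : Sec G V K M) : s.pi 1 = 0 := by
  have h := s.mul 1 1
  rw [mul_one] at h
  exact left_eq_add.mp h

theorem pi_inv (s : Sec G V K M) (v : V) : s.pi v⁻¹ = -s.pi v := by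
  have h := s.mul v v⁻¹
  rw [mul_inv_cancel, pi_one] at h
  exact (neg_eq_of_add_eq_zero_right h.symm).symm

theorem X_pi (s : Sec G V K M) (x : G) (v c : V) (hc : (c : G) = ⁅x, (v : G)⁆)
    (hV : V.Normal) : (s.rho x - 1) (s.pi v) = s.pi c := by
  have hmem : x * (v : G) * x⁻¹ ∈ V := hV.conj_mem _ v.2 x
  have h1 : s.pi ⟨x * (v : G) * x⁻¹, hmem⟩ = s.rho x (s.pi v) := s.act x v _ rfl
  have h2 : c = ⟨x * (v : G) * x⁻¹, hmem⟩ * v⁻¹ := by
    apply Subtype.ext
    rw [hc]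
    rfl
  rw [h2, s.mul, pi_inv, h1]
  show s.rho x (s.pi v) - s.pi v = _
  rw [sub_eq_add_neg]

end Cub_

open Cub_ in
theorem cub_proof : Stmt_Cub := by
  intro G _ V K M _ s hV hK hKV x hx
  ext m
  obtain ⟨v, rfl⟩ := s.surj m
  -- the commutators
  have hn : ⁅(v : G), x⁆ ∈ V := by
    have h1 : ⁅(v : G), x⁆ = (v : G) * (x * (v : G)⁻¹ * x⁻¹) := by
      rw [commutatorElement_def]; group
    rw [h1]
    exact V.mul_mem v.2 (hV.conj_mem _ (V.inv_mem v.2) x)
  set n : V := ⟨⁅(v : G), x⁆, hn⟩ with hnn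
  have hc : ⁅x, (n : G)⁆ ∈ V := by
    have h1 : ⁅x, (n : G)⁆ = (x * (n : G) * x⁻¹) * (n : G)⁻¹ := by
      rw [commutatorElement_def]
    rw [h1]
    exact V.mul_mem (hV.conj_mem _ n.2 x) (V.inv_mem n.2)
  set c : V := ⟨⁅x, (n : G)⁆, hc⟩ with hcc
  have e1 : (s.rho x - 1) (s.pi v) = s.pi n⁻¹ := by
    apply X_pi s x v n⁻¹ _ hV
    show (⁅(v : G), x⁆)⁻¹ = _
    rw [commutatorElement_inv]
  have e2 : (s.rho x - 1) (s.pi n) = s.pi c := X_pi s x n c rfl hV
  -- `c` commutes with `x`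
  have h3 : (c : G) = ⁅x, (v : G) * x * (v : G)⁻¹⁆ := by
    show ⁅x, ⁅(v : G), x⁆⁆ = _
    simp only [commutatorElement_def]
    group
  have h4 : Commute (c : G) x := by rw [h3]; exact hx v
  have e3 : (s.rho x - 1) (s.pi c) = 0 := by
    have h5 : s.pi c = s.rho x (s.pi c) := by
      apply s.act x c c
      rw [← h4.eq, mul_inv_cancel_right]
    show s.rho x (s.pi c) - s.pi c = 0
    rw [← h5, sub_self]
  have h6 : (s.rho x - 1) ^ 3 = (s.rho x - 1) * ((s.rho x - 1) * (s.rho x - 1)) := by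
    rw [pow_succ, pow_two, mul_assoc]
  rw [h6]
  show (s.rho x - 1) ((s.rho x - 1) ((s.rho x - 1) (s.pi v))) = 0
  rw [e1, pi_inv, map_neg, e2, map_neg, e3, neg_zero]

end Pool.Agent.L3E
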