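import Pool.Agent.L3E.Stmts

set_option autoImplicit false

/-!
# L3E, module LAW
-/

namespace Pool.Agent.L3E

open scoped commutatorElement

namespace LAW_

variable {G : Type} [Group G] {m : ℕ} {x : Fin m → G}

theorem conj_DD {z : G} (hz : z ∈ DD x) (g : G) : g * z * g⁻¹ ∈ DD x := by
  obtain ⟨i, h, rfl⟩ := hz
  exact ⟨i, g * h, by group⟩

theorem conj_LL (n : ℕ) : ∀ d ∈ LL x n, ∀ g : G, g * d * g⁻¹ ∈ LL x n := by
  induction n with
  | zero => intro d hd g; exact conj_DD hd g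
  | succ n ih =>
    rintro d ⟨c, hc, z, hz, rfl⟩ g
    refine ⟨g * c * g⁻¹, ih c hc g, g * z * g⁻¹, conj_DD hz g, ?_⟩
    simp only [commutatorElement_def]
    group

theorem conj_pow4 (g a : G) : (g * a * g⁻¹) ^ 4 = g * a ^ 4 * g⁻¹ := by
  simp [conj_pow]

theorem good_conj {c : G} (hc : Good x c) (g : G) : Good x (g * c * g⁻¹) := by
  refine ⟨?_, fun z hz => ?_⟩
  · have h : g * c * g⁻¹ * (g * c * g⁻¹) = g * (c * c) * g⁻¹ := by group
    rw [h, hc.1]
    group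
  · have h1 := hc.2 (g⁻¹ * z * g) (by simpa using conj_DD hz g⁻¹)
    have h : g * c * g⁻¹ * z = g * (c * (g⁻¹ * z * g)) * g⁻¹ := by group
    rw [h, conj_pow4, h1]
    group

theorem DD_sq (hx : Inv x) {z : G} (hz : z ∈ DD x) : z * z = 1 := by
  obtain ⟨i, g, rfl⟩ := hz
  have h : g * x i * g⁻¹ * (g * x i * g⁻¹) = g * (x i * x i) * g⁻¹ := by group
  rw [h, hx.inv i]
  group

theorem DD_good (hx : Inv x) {z : G} (hz : z ∈ DD x) : Good x z := by
  refine ⟨DD_sq hx hz, ?_⟩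
  obtain ⟨i, g, rfl⟩ := hz
  rintro _ ⟨j, h, rfl⟩
  have h1 : g * x i * g⁻¹ * (h * x j * h⁻¹)
      = g * (x i * ((g⁻¹ * h) * x j * (g⁻¹ * h)⁻¹)) * g⁻¹ := by group
  rw [h1, conj_pow4, hx.pair i j]
  group

theorem inv_of_sq {a : G} (h : a * a = 1) : a⁻¹ = a := inv_eq_of_mul_eq_one_left h

theorem comm_sq {c z : G} (hc : c * c = 1) (hz : z * z = 1) :
    ⁅c, z⁆ * ⁅c, z⁆ = (c * z) ^ 4 := by
  rw [commutatorElement_def, inv_of_sq hc, inv_of_sq hz]
  simp only [pow_succ, pow_zero, one_mul, mul_assoc]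

end LAW_

open LAW_ in
/-- LAW. -/
theorem law_proof : Stmt_Law := by
  intro G _ m x hx
  have h0 : Law x 0 := fun d hd => DD_sq hx hd
  refine ⟨conj_LL, fun c hc g => good_conj hc g, fun z hz => DD_good hx hz, h0, ?_, ?_, ?_⟩
  · rintro d ⟨c, hc, z, hz, rfl⟩
    rw [comm_sq (DD_sq hx hc) (DD_sq hx hz)]
    exact (DD_good hx hc).2 z hz
  · intro n hn hn1 c hc
    refine ⟨hn c hc, fun z hz => ?_⟩
    rw [← comm_sq (hn c hc) (DD_sq hx hz)]
    exact hn1 _ ⟨c, hc, z, hz, rfl⟩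
  · intro n
    induction n with
    | zero => intro d _; exact Subgroup.mem_top d
    | succ n ih =>
      rintro d ⟨c, hc, z, hz, rfl⟩
      exact Subgroup.commutator_mem_commutator (ih c hc) (Subgroup.mem_top z)

end Pool.Agent.L3E
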