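import Pool.Agent.L3E.Stmts

set_option autoImplicit false

/-!
# L3E, module QUO: words modulo the ideal generated by the values of the next law
-/

namespace Pool.Agent.L3E

open Pool.Agent.KOS (ev Com)
open scoped commutatorElement

namespace QUO_

lemma ev_map {R S F : Type} [Monoid R] [Monoid S] [FunLike F R S] [MonoidHomClass F R S]
    {m : ℕ} (f : F) (g : Fin m → R) (w : List (Fin m)) :
    ev (fun i => f (g i)) w = f (ev g w) := by
  unfold ev
  rw [map_list_prod, List.map_map]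
  rfl

lemma LL_image {G H : Type} [Group G] [Group H] (f : G →* H) (hf : Function.Surjective f)
    {m : ℕ} (x : Fin m → G) : ∀ (k : ℕ) (d' : H), d' ∈ LL (fun i => f (x i)) k →
      ∃ d ∈ LL x k, f d = d' := by
  have hDD : ∀ d' : H, d' ∈ DD (fun i => f (x i)) → ∃ d ∈ DD x, f d = d' := by
    rintro d' ⟨i, g', rfl⟩
    obtain ⟨g, rfl⟩ := hf g'
    exact ⟨g * x i * g⁻¹, ⟨i, g, rfl⟩, by simp⟩
  intro k
  induction k with
  | zero => exact hDD
  | succ k ih =>
    rintro d' ⟨c', hc', z', hz', rfl⟩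
    obtain ⟨c, hc, rfl⟩ := ih c' hc'
    obtain ⟨z, hz, rfl⟩ := hDD z' hz'
    exact ⟨⁅c, z⁆, ⟨c, hc, z, hz, rfl⟩, by simp [commutatorElement_def]⟩

/-- The commutator of two involutions whose product has order dividing 4. -/
lemma comm_inv {G : Type} [Group G] (a b : G) (ha : a * a = 1) (hb : b * b = 1)
    (h4 : (a * b) ^ 4 = 1) : Commute ⁅a, b⁆ a := by
  have ha' : a⁻¹ = a := inv_eq_of_mul_eq_one_left ha
  have hb' : b⁻¹ = b := inv_eq_of_mul_eq_one_left hb
  have hc : ⁅a, b⁆ = a * b * a * b := by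
    rw [commutatorElement_def, ha', hb']
  have h8 : (a * b * a * b) * (a * b * a * b) = 1 := by
    have : (a * b) ^ 4 = (a * b * a * b) * (a * b * a * b) := by
      simp only [pow_succ, pow_zero, one_mul, mul_assoc]
    rw [← this, h4]
  -- (abab)⁻¹ = baba
  have hinv : (a * b * a * b) * (b * a * b * a) = 1 := by
    have e1 : (a * b * a * b) * (b * a * b * a) = a * (b * (a * (b * b) * a) * b) * a := by
      simp only [mul_assoc]
    rw [e1, hb, mul_one, ha, mul_one, hb, mul_one, ha]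
  have heq : a * b * a * b = b * a * b * a := mul_left_cancel (h8.trans hinv.symm)
  rw [hc]
  show (a * b * a * b) * a = a * (a * b * a * b)
  rw [heq]
  have e2 : (b * a * b * a) * a = b * a * b := by
    rw [mul_assoc (b * a * b) a a, ha, mul_one]
  have e3 : a * (b * a * b * a) = (a * b * a * b) * a := by simp only [mul_assoc]
  rw [e3, heq, e2]

end QUO_

open QUO_ in
theorem quo_proof (h1 : Stmt_UR) (h2 : Stmt_Law) : Stmt_Quo := by
  intro m n hPP
  obtain ⟨c, hc⟩ := hPP
  obtain ⟨k₀, hk₀⟩ := h1 m c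
  refine ⟨k₀, ?_⟩
  intro G _ x R _ ρ hnil hinv hlaw hrs
  obtain ⟨hLconj, -, hgood, -, -, -, -⟩ := h2 G m x hinv
  set S : Set R := {s : R | ∃ d ∈ LL x (n + 1), s = ρ (d * d) - 1} with hS
  set A : AddSubgroup R := AddSubgroup.closure {y | ∃ (g : G), ∃ s ∈ S, y = ρ g * s} with hA
  intro w hw
  -- conjugation invariance
  have hSconj : ∀ s ∈ S, ∀ g : G, ρ g * s * ρ g⁻¹ ∈ S := by
    rintro s ⟨d, hd, rfl⟩ g
    refine ⟨g * d * g⁻¹, hLconj _ d hd g, ?_⟩
    have e : g * d * g⁻¹ * (g * d * g⁻¹) = g * (d * d) * g⁻¹ := by group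
    rw [e, map_mul ρ (g * (d * d)) g⁻¹, map_mul ρ g (d * d), mul_sub, sub_mul, mul_one,
      ← map_mul ρ g g⁻¹, mul_inv_cancel, map_one]
  have hleft : ∀ (h : G) (a : R), a ∈ A → ρ h * a ∈ A := by
    intro h a ha
    induction ha using AddSubgroup.closure_induction with
    | mem y hy =>
      obtain ⟨g, s, hs, rfl⟩ := hy
      exact AddSubgroup.subset_closure ⟨h * g, s, hs, by rw [map_mul, mul_assoc]⟩
    | zero => rw [mul_zero]; exact A.zero_mem
    | add a b _ _ iha ihb => rw [mul_add]; exact A.add_mem iha ihb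
    | neg a _ iha => rw [mul_neg]; exact A.neg_mem iha
  have hright : ∀ (h : G) (a : R), a ∈ A → a * ρ h ∈ A := by
    intro h a ha
    induction ha using AddSubgroup.closure_induction with
    | mem y hy =>
      obtain ⟨g, s, hs, rfl⟩ := hy
      refine AddSubgroup.subset_closure ⟨g * h, ρ h⁻¹ * s * ρ (h⁻¹)⁻¹, hSconj s hs h⁻¹, ?_⟩
      rw [inv_inv, map_mul]
      have e : ρ g * ρ h * (ρ h⁻¹ * s * ρ h) = ρ g * ((ρ h * ρ h⁻¹) * s) * ρ h := by
        simp only [mul_assoc]
      rw [e, ← map_mul ρ h h⁻¹, mul_inv_cancel, map_one, one_mul]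
    | zero => rw [zero_mul]; exact A.zero_mem
    | add a b _ _ iha ihb => rw [add_mul]; exact A.add_mem iha ihb
    | neg a _ iha => rw [neg_mul]; exact A.neg_mem iha
  set P : Subring R := Subring.closure (Set.range ρ) with hP
  have hPl : ∀ p : R, p ∈ P → ∀ a ∈ A, p * a ∈ A ∧ a * p ∈ A := by
    intro p hp
    induction hp using Subring.closure_induction with
    | mem y hy =>
      obtain ⟨g, rfl⟩ := hy
      exact fun a ha => ⟨hleft g a ha, hright g a ha⟩
    | zero => intro a _; rw [zero_mul, mul_zero]; exact ⟨A.zero_mem, A.zero_mem⟩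
    | one => intro a ha; rw [one_mul, mul_one]; exact ⟨ha, ha⟩
    | add p q _ _ ihp ihq =>
      intro a ha
      rw [add_mul, mul_add]
      exact ⟨A.add_mem (ihp a ha).1 (ihq a ha).1, A.add_mem (ihp a ha).2 (ihq a ha).2⟩
    | neg p _ ihp =>
      intro a ha
      rw [neg_mul, mul_neg]
      exact ⟨A.neg_mem (ihp a ha).1, A.neg_mem (ihp a ha).2⟩
    | mul p q _ _ ihp ihq =>
      intro a ha
      refine ⟨?_, ?_⟩
      · rw [mul_assoc]; exact (ihp _ (ihq a ha).1).1
      · rw [← mul_assoc]; exact (ihq _ (ihp a ha).2).2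
  have hρP : ∀ g : G, ρ g ∈ P := fun g => Subring.subset_closure ⟨g, rfl⟩
  -- the ideal
  let I : Ideal P :=
    { carrier := {p : P | (p : R) ∈ A}
      add_mem' := fun {a b} ha hb => by
        show ((a + b : P) : R) ∈ A
        rw [Subring.coe_add]; exact A.add_mem ha hb
      zero_mem' := by
        show ((0 : P) : R) ∈ A
        rw [Subring.coe_zero]; exact A.zero_mem
      smul_mem' := fun p a ha => by
        show ((p * a : P) : R) ∈ A
        rw [Subring.coe_mul]; exact (hPl p p.2 a ha).1 }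
  have hmemI : ∀ p : P, p ∈ I ↔ (p : R) ∈ A := fun p => Iff.rfl
  have hI2 : I.IsTwoSided := ⟨fun {a} b ha => by
    rw [hmemI] at ha ⊢
    rw [Subring.coe_mul]
    exact (hPl b b.2 _ ha).2⟩
  let σ : G →* P :=
    { toFun := fun g => ⟨ρ g, hρP g⟩
      map_one' := by apply Subtype.ext; simp
      map_mul' := fun a b => by apply Subtype.ext; simp }
  have hσ : ∀ g, ((σ g : P) : R) = ρ g := fun g => rfl
  let τ : G →* (P ⧸ I) := ((Ideal.Quotient.mk I : P →+* P ⧸ I) : P →* P ⧸ I).comp σ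
  have hτ : ∀ g, τ g = Ideal.Quotient.mk I (σ g) := fun g => rfl
  let Φ : G →* (P ⧸ I)ˣ := MonoidHom.toHomUnits τ
  have hΦ : ∀ g, ((Φ g : (P ⧸ I)ˣ) : P ⧸ I) = Ideal.Quotient.mk I (σ g) := by
    intro g
    rw [← hτ]; rfl
  -- the normal subgroup
  let N : Subgroup G := Subgroup.normalClosure {e | ∃ d ∈ LL x (n + 1), e = d * d}
  have hNker : N ≤ Φ.ker := by
    refine Subgroup.normalClosure_le_normal ?_
    rintro e ⟨d, hd, rfl⟩
    show d * d ∈ Φ.ker
    rw [MonoidHom.mem_ker]
    apply Units.ext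
    rw [hΦ, Units.val_one, ← map_one (Ideal.Quotient.mk I), Ideal.Quotient.eq, hmemI]
    have e : (((σ (d * d) : P) - 1 : P) : R) = ρ 1 * (ρ (d * d) - 1) := by
      rw [map_one, one_mul]
      rfl
    rw [e]
    exact AddSubgroup.subset_closure ⟨1, ρ (d * d) - 1, ⟨d, hd, rfl⟩, rfl⟩
  -- the quotient group
  let π : G →* G ⧸ N := QuotientGroup.mk' N
  have hπs : Function.Surjective π := QuotientGroup.mk'_surjective N
  have hQinv : Inv (fun i => π (x i)) := by
    refine ⟨?_, ?_, ?_⟩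
    · have : Set.range (fun i => π (x i)) = π '' Set.range x := by
        rw [← Set.range_comp]; rfl
      rw [this, ← MonoidHom.map_closure, hinv.gen, ← MonoidHom.range_eq_map]
      exact MonoidHom.range_eq_top.mpr hπs
    · intro i
      show π (x i) * π (x i) = 1
      rw [← map_mul, hinv.inv, map_one]
    · intro i j g'
      obtain ⟨g, rfl⟩ := hπs g'
      show (π (x i) * (π g * π (x j) * (π g)⁻¹)) ^ 4 = 1
      rw [← map_inv, ← map_mul, ← map_mul, ← map_mul, ← map_pow, hinv.pair, map_one]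
  have hQlaw : ∀ k ≤ n + 1, Law (fun i => π (x i)) k := by
    intro k hk d' hd'
    obtain ⟨d, hd, rfl⟩ := LL_image π hπs x k d' hd'
    rw [← map_mul]
    rcases Nat.lt_or_ge n k with h | h
    · have hk' : k = n + 1 := by omega
      subst hk'
      have : d * d ∈ N := Subgroup.subset_normalClosure ⟨d, hd, rfl⟩
      have h' : d * d ∈ π.ker := by rw [QuotientGroup.ker_mk']; exact this
      exact (MonoidHom.mem_ker).mp h'
    · rw [hlaw k h d hd, map_one]
  have hQnil : Group.IsNilpotent (G ⧸ N) := by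
    have := hnil
    infer_instance
  have hbot := hc (G ⧸ N) (fun i => π (x i)) hQnil hQinv hQlaw
  have hgamN : gam G c ≤ N := by
    have hm : (gam G c).map π = gam (G ⧸ N) c := by
      unfold gam
      rw [Subgroup.map_lowerCentralSeries, ← MonoidHom.range_eq_map,
        MonoidHom.range_eq_top.mpr hπs]
    rw [hbot] at hm
    have := (Subgroup.map_eq_bot_iff (gam G c)).mp hm
    rwa [QuotientGroup.ker_mk'] at this
  -- the units
  have hcl : Subgroup.closure (Set.range (fun i => Φ (x i))) = (⊤ : Subgroup G).map Φ := by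
    have : Set.range (fun i => Φ (x i)) = Φ '' Set.range x := by
      rw [← Set.range_comp]; rfl
    rw [this, ← MonoidHom.map_closure, hinv.gen]
  have hnw := hk₀ (P ⧸ I) (fun i => Φ (x i)) ?_ ?_ ?_
  · -- conclusion
    have h0 := hnw w hw
    have e1 : ev (fun i => ((Φ (x i) : (P ⧸ I)ˣ) : P ⧸ I) - 1) w
        = Ideal.Quotient.mk I (ev (fun i => (σ (x i) : P) - 1) w) := by
      rw [← ev_map (Ideal.Quotient.mk I)]
      rfl
    rw [e1, Ideal.Quotient.eq_zero_iff_mem, hmemI] at h0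
    have e2 : ev (ops x ρ) w = ((ev (fun i => (σ (x i) : P) - 1) w : P) : R) := by
      have := ev_map P.subtype (fun i => (σ (x i) : P) - 1) w
      rw [Subring.subtype_apply] at this
      rw [← this]
      rfl
    rw [e2]
    exact h0
  · intro i
    show (((Φ (x i) : (P ⧸ I)ˣ) : P ⧸ I) - 1) ^ 3 = 0
    have hsq : (ρ (x i) - 1) * (ρ (x i) - 1) = 0 :=
      hrs.sq (x i) (hgood _ ⟨i, 1, by simp⟩)
    have hsqP : ((σ (x i) : P) - 1) ^ 3 = 0 := by
      apply Subtype.ext
      have : ((((σ (x i) : P) - 1) ^ 3 : P) : R) = (ρ (x i) - 1) ^ 3 := by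
        push_cast
        rfl
      rw [this, pow_succ, pow_two, hsq, zero_mul]
      rfl
    rw [hΦ, ← map_one (Ideal.Quotient.mk I), ← map_sub, ← map_pow, hsqP, map_zero]
  · intro i g hg
    rw [hcl] at hg
    obtain ⟨g0, -, rfl⟩ := hg
    show Commute ⁅Φ (x i), Φ g0 * Φ (x i) * (Φ g0)⁻¹⁆ (Φ (x i))
    have e : ⁅Φ (x i), Φ g0 * Φ (x i) * (Φ g0)⁻¹⁆ = Φ ⁅x i, g0 * x i * g0⁻¹⁆ := by
      simp [commutatorElement_def]
    rw [e]
    refine Commute.map ?_ Φ
    refine comm_inv _ _ (hinv.inv i) ?_ (hinv.pair i i g0)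
    have : g0 * x i * g0⁻¹ * (g0 * x i * g0⁻¹) = g0 * (x i * x i) * g0⁻¹ := by group
    rw [this, hinv.inv, mul_one, mul_inv_cancel]
  · rw [hcl, ← Subgroup.map_lowerCentralSeries, Subgroup.map_eq_bot_iff]
    exact hgamN.trans hNker

end Pool.Agent.L3E
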