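import Pool.Agent.L3E.Stmts

set_option autoImplicit false
set_option linter.unusedSimpArgs false

/-!
# L3E, module REL: relations on elementary abelian sections
-/

namespace Pool.Agent.L3E

open Pool.Agent.KOS (ev Com)
open scoped commutatorElement

namespace REL_

/-- The dihedral identity in characteristic two. -/
theorem ring_id {R : Type} [Ring R] (c z : R) (two : ∀ a : R, a + a = 0) (hc : c * c = 1)
    (hz : z * z = 1) (h4 : c * z * (c * z) * (c * z) * (c * z) = 1)
    (h : (1 + c * z + c * z * (c * z) + c * z * (c * z) * (c * z)) * (c * (z + 1)) = 0) :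
    (c + 1) * (z + 1) * (c + 1) * (z + 1) = 0 ∧ (z + 1) * (c + 1) * (z + 1) * (c + 1) = 0 := by
  have hc' : ∀ a : R, c * (c * a) = a := fun a => by rw [← mul_assoc, hc, one_mul]
  have hz' : ∀ a : R, z * (z * a) = a := fun a => by rw [← mul_assoc, hz, one_mul]
  have r1 : z * (c * (z * c)) = c * (z * (c * z)) := by
    have e : z * (c * (z * c)) * (c * z * (c * z) * (c * z) * (c * z)) =
        c * (z * (c * z)) := by
      simp only [mul_assoc, hc', hz']
    rw [h4, mul_one] at e
    exact e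
  have r2 : ∀ a : R, z * (c * (z * (c * a))) = c * (z * (c * (z * a))) := fun a => by
    have e := congrArg (fun t => t * a) r1
    simp only [mul_assoc] at e
    exact e
  have key : (1 + c * z + c * z * (c * z) + c * z * (c * z) * (c * z)) * (c * (z + 1)) =
      1 + c + z + c * z + z * c + c * (z * c) + z * (c * z) + c * (z * (c * z)) := by
    simp only [mul_add, add_mul, mul_one, one_mul, mul_assoc, hc, hz, hc', hz', r1, r2]
    abel
  have e1 : (c + 1) * (z + 1) * (c + 1) * (z + 1) =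
      (1 + c + z + c * z + z * c + c * (z * c) + z * (c * z) + c * (z * (c * z))) +
      ((1 + 1) + (c + c) + (z + z) + (c * z + c * z)) := by
    simp only [mul_add, add_mul, mul_one, one_mul, mul_assoc, hc, hz, hc', hz', r1, r2]
    abel
  have e2 : (z + 1) * (c + 1) * (z + 1) * (c + 1) =
      (1 + c + z + c * z + z * c + c * (z * c) + z * (c * z) + c * (z * (c * z))) +
      ((1 + 1) + (c + c) + (z + z) + (z * c + z * c)) := by
    simp only [mul_add, add_mul, mul_one, one_mul, mul_assoc, hc, hz, hc', hz', r1, r2]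
    abel
  rw [← key, h, two, two, two, two] at e1
  rw [← key, h, two, two, two, two] at e2
  exact ⟨by rw [e1]; simp [two], by rw [e2]; simp [two]⟩

section
variable {G : Type} [Group G] {V K : Subgroup G} {M : Type} [AddCommGroup M]

theorem emul (f g : AddMonoid.End M) (a : M) : (f * g) a = f (g a) := rfl

theorem eadd (f g : AddMonoid.End M) (a : M) : (f + g) a = f a + g a := rfl

theorem eone (a : M) : (1 : AddMonoid.End M) a = a := rfl

theorem pi_one (s : Sec G V K M) : s.pi 1 = 0 := (s.ker 1).2 K.one_mem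

theorem pi_inv (s : Sec G V K M) (v : V) : s.pi v⁻¹ = - s.pi v := by
  have h := s.mul v⁻¹ v
  rw [inv_mul_cancel, pi_one] at h
  exact eq_neg_of_add_eq_zero_left h.symm

theorem conj_mem (hV : V.Normal) (v : V) (g : G) : g * v * g⁻¹ ∈ V := hV.conj_mem v v.2 g

theorem act' (hV : V.Normal) (s : Sec G V K M) (g : G) (v : V) :
    s.rho g (s.pi v) = s.pi ⟨g * v * g⁻¹, conj_mem hV v g⟩ :=
  (s.act g v ⟨g * v * g⁻¹, conj_mem hV v g⟩ rfl).symm

/-- Words and iterated commutators. -/
theorem word_mem (hV : V.Normal) (s : Sec G V K M) {m : ℕ} (x : Fin m → G)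
    (w : List (Fin m)) : ∀ v : V, ∃ u : V, (u : G) ∈ gam G w.length ∧
      ev (ops x s.rho) w (s.pi v) = s.pi u := by
  induction w with
  | nil => intro v; exact ⟨v, Subgroup.mem_top _, by simp [ev]⟩
  | cons i w ih =>
    intro v
    obtain ⟨u, hu, e⟩ := ih v
    refine ⟨⟨x i * u * (x i)⁻¹, conj_mem hV u (x i)⟩ * u⁻¹, ?_, ?_⟩
    · have h1 : x i * (u : G) * (x i)⁻¹ * (u : G)⁻¹ = ⁅(u : G), x i⁆⁻¹ := by
        rw [commutatorElement_def]
        group
      have h2 : ⁅(u : G), x i⁆ ∈ gam G (w.length + 1) := by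
        exact Subgroup.commutator_mem_commutator hu (Subgroup.mem_top _)
      have h3 : x i * (u : G) * (x i)⁻¹ * (u : G)⁻¹ ∈ gam G (w.length + 1) := by
        rw [h1]
        exact Subgroup.inv_mem _ h2
      simpa using h3
    · have h1 : ev (ops x s.rho) (i :: w) = ops x s.rho i * ev (ops x s.rho) w := by
        simp [ev]
      rw [h1, emul, e, s.mul, pi_inv, ← act' hV s (x i) u]
      have h2 : ops x s.rho i = s.rho (x i) + (-1) := sub_eq_add_neg _ _
      rw [h2, eadd]
      rfl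

/-- The basic relation. -/
theorem rel_fun (hV : V.Normal) (s : Sec G V K M) (c z : G) (h0 : (c * z) ^ 4 = 1)
    (v : V) (h1 : (c * ((v : G) * z * (v : G)⁻¹)) ^ 4 = 1) (two : ∀ a : M, a + a = 0) :
    (1 + s.rho (c * z) + s.rho (c * z) * s.rho (c * z) +
      s.rho (c * z) * s.rho (c * z) * s.rho (c * z)) (s.rho c ((s.rho z + 1) (s.pi v))) = 0 := by
  have neg' : ∀ a : M, -a = a := fun a => neg_eq_of_add_eq_zero_left (two a)
  -- n = v z v⁻¹ z⁻¹
  have hn : (v : G) * (z * (v : G)⁻¹ * z⁻¹) ∈ V := by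
    refine V.mul_mem v.2 ?_
    exact hV.conj_mem _ (V.inv_mem v.2) z
  obtain ⟨n, hn'⟩ : ∃ n : V, (n : G) = (v : G) * (z * (v : G)⁻¹ * z⁻¹) := ⟨⟨_, hn⟩, rfl⟩
  have pin : s.pi n = (s.rho z + 1) (s.pi v) := by
    have e : n = v * ⟨z * ((v⁻¹ : V) : G) * z⁻¹, conj_mem hV v⁻¹ z⟩ := by
      apply Subtype.ext
      rw [hn']
      simp
    rw [e, s.mul, ← act' hV s z v⁻¹, pi_inv, map_neg, neg', eadd, eone, add_comm]
  obtain ⟨n', hn''⟩ : ∃ n' : V, (n' : G) = c * n * c⁻¹ := ⟨⟨_, conj_mem hV n c⟩, rfl⟩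
  have pin' : s.pi n' = s.rho c (s.pi n) := s.act c n n' hn''
  set w := c * z with hw
  obtain ⟨n1, hn1⟩ : ∃ n1 : V, (n1 : G) = w * n' * w⁻¹ := ⟨⟨_, conj_mem hV n' w⟩, rfl⟩
  obtain ⟨n2, hn2⟩ : ∃ n2 : V, (n2 : G) = w * n1 * w⁻¹ := ⟨⟨_, conj_mem hV n1 w⟩, rfl⟩
  obtain ⟨n3, hn3⟩ : ∃ n3 : V, (n3 : G) = w * n2 * w⁻¹ := ⟨⟨_, conj_mem hV n2 w⟩, rfl⟩
  have prod1 : n' * n1 * n2 * n3 = 1 := by
    apply Subtype.ext
    have e0 : c * ((v : G) * z * (v : G)⁻¹) = (n' : G) * w := by
      rw [hn'', hn', hw]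
      group
    have e : ((n' : G) * w) ^ 4 = (n' : G) * n1 * n2 * n3 * w ^ 4 := by
      rw [hn3, hn2, hn1]
      simp only [pow_succ, pow_zero, one_mul]
      group
    rw [← e0, h1, h0, mul_one] at e
    rw [Subgroup.coe_mul, Subgroup.coe_mul, Subgroup.coe_mul, Subgroup.coe_one]
    exact e.symm
  have h := congrArg s.pi prod1
  rw [s.mul, s.mul, s.mul, pi_one, s.act w n2 n3 hn3, s.act w n1 n2 hn2, s.act w n' n1 hn1] at h
  rw [← pin, ← pin']
  simp only [eadd, emul, eone]
  exact h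

end

end REL_

open REL_ in
theorem rel_proof : Stmt_Rel := by
  intro G _ m x V K M _ s hG hI hV hK hKV hsq
  have twoM : ∀ a : M, a + a = 0 := by
    intro a
    obtain ⟨v, rfl⟩ := s.surj a
    rw [← s.mul]
    exact (s.ker _).2 (hsq v v.2)
  have two : (2 : AddMonoid.End M) = 0 := by
    ext a
    rw [← one_add_one_eq_two, eadd, eone]
    exact twoM a
  have twoE : ∀ a : AddMonoid.End M, a + a = 0 := by
    intro a
    rw [← two_mul, two, zero_mul]
  have sub' : ∀ a : AddMonoid.End M, a - 1 = a + 1 := by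
    intro a
    rw [sub_eq_add_neg, neg_eq_of_add_eq_zero_left (twoE 1)]
  have main : ∀ c, Good x c → ∀ z ∈ DD x,
      (s.rho c + 1) * (s.rho z + 1) * (s.rho c + 1) * (s.rho z + 1) = 0 ∧
      (s.rho z + 1) * (s.rho c + 1) * (s.rho z + 1) * (s.rho c + 1) = 0 := by
    intro c hc z hz
    have hz2 : z * z = 1 := by
      obtain ⟨i, g, rfl⟩ := hz
      have := hI.inv i
      calc g * x i * g⁻¹ * (g * x i * g⁻¹) = g * (x i * x i) * g⁻¹ := by group
        _ = 1 := by rw [this]; group
    have hcz : (c * z) ^ 4 = 1 := hc.2 z hz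
    have hr : s.rho (c * z) = s.rho c * s.rho z := map_mul _ _ _
    refine ring_id (s.rho c) (s.rho z) twoE ?_ ?_ ?_ ?_
    · rw [← map_mul, hc.1, map_one]
    · rw [← map_mul, hz2, map_one]
    · have e : c * z * (c * z) * (c * z) * (c * z) = 1 := by
        rw [← hcz]
        simp only [pow_succ, pow_zero, one_mul]
      rw [← map_mul, ← map_mul, ← map_mul, ← map_mul, e, map_one]
    · ext a
      obtain ⟨v, rfl⟩ := s.surj a
      have hz' : (v : G) * z * (v : G)⁻¹ ∈ DD x := by
        obtain ⟨i, g, rfl⟩ := hz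
        exact ⟨i, v * g, by group⟩
      have := rel_fun hV s c z hcz v (hc.2 _ hz') twoM
      rw [hr] at this
      simp only [emul, eadd, eone] at this ⊢
      exact this
  refine ⟨two, ?_, ?_, ?_, ?_⟩
  · intro c hc
    have h1 : s.rho c * s.rho c = 1 := by rw [← map_mul, hc.1, map_one]
    rw [sub']
    have : (s.rho c + 1) * (s.rho c + 1) = (s.rho c * s.rho c + 1) + (s.rho c + s.rho c) := by
      simp only [mul_add, add_mul, mul_one, one_mul]
      abel
    rw [this, h1, twoE, twoE, add_zero]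
  · intro c hc z hz
    rw [sub', sub']
    exact (main c hc z hz).1
  · intro c hc z hz
    rw [sub', sub']
    exact (main c hc z hz).2
  · obtain ⟨N, hN⟩ := Subgroup.nilpotent_iff_lowerCentralSeries.1 hG
    refine ⟨N, fun w hw => ?_⟩
    ext a
    obtain ⟨v, rfl⟩ := s.surj a
    obtain ⟨u, hu, e⟩ := word_mem hV s x w v
    rw [e]
    have : (u : G) = 1 := by
      rw [hw] at hu
      have h2 : (u : G) ∈ (⊤ : Subgroup G).lowerCentralSeries N := hu
      rw [hN] at h2
      exact Subgroup.mem_bot.1 h2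
    have h3 : u = 1 := Subtype.ext this
    rw [h3, pi_one]
    rfl

end Pool.Agent.L3E
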