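import Pool.Agent.L3E.Stmts

set_option autoImplicit false

/-!
# L3E, module TOP: all laws to finitely many laws (helper81)
-/

namespace Pool.Agent.L3E

open Pool.Agent.KOS (ev Com)
open scoped commutatorElement

namespace TOP_

lemma LL_image {G H : Type} [Group G] [Group H] (f : G →* H) (hf : Function.Surjective f)
    {m : ℕ} (x : Fin m → G) : ∀ (k : ℕ) (d' : H), d' ∈ LL (fun i => f (x i)) k →
      ∃ d ∈ LL x k, f d = d' := by
  have hDD : ∀ d' : H, d' ∈ DD (fun i => f (x i)) → ∃ d ∈ DD x, f d = d' := by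
    rintro d' ⟨i, g', rfl⟩
    obtain ⟨g, rfl⟩ := hf g'
    exact ⟨g * x i * g⁻¹, ⟨i, g, rfl⟩, by simp⟩
  intro k
  induction k with
  | zero => exact hDD
  | succ k ih =>
    rintro d' ⟨c', hc', z', hz', rfl⟩
    obtain ⟨c, hc, rfl⟩ := ih c' hc'
    obtain ⟨z, hz, rfl⟩ := hDD z' hz'
    exact ⟨⁅c, z⁆, ⟨c, hc, z, hz, rfl⟩, by simp [commutatorElement_def]⟩

lemma gam_anti {G : Type} [Group G] {i j : ℕ} (h : i ≤ j) : gam G j ≤ gam G i :=
  (⊤ : Subgroup G).lowerCentralSeries_antitone h

lemma gam_succ {G : Type} [Group G] (n : ℕ) : gam G (n + 1) = ⁅gam G n, (⊤ : Subgroup G)⁆ := rfl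

lemma gam_stab {G : Type} [Group G] (hn : Group.IsNilpotent G) (c : ℕ)
    (h : gam G c ≤ gam G (c + 1)) : gam G c = ⊥ := by
  have key : ∀ k, gam G c ≤ gam G (c + k) := by
    intro k
    induction k with
    | zero => exact le_rfl
    | succ k ih =>
      calc gam G c ≤ gam G (c + 1) := h
        _ = ⁅gam G c, (⊤ : Subgroup G)⁆ := gam_succ c
        _ ≤ ⁅gam G (c + k), (⊤ : Subgroup G)⁆ := Subgroup.commutator_mono ih le_rfl
        _ = gam G (c + k + 1) := (gam_succ (c + k)).symm
  obtain ⟨N, hN⟩ := Subgroup.nilpotent_iff_lowerCentralSeries.mp hn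
  have h1 := key N
  have h2 : gam G (c + N) ≤ gam G N := gam_anti (by omega)
  have h3 : gam G N = ⊥ := hN
  rw [h3] at h2
  exact le_bot_iff.mp (h1.trans h2)

lemma gam_map {G H : Type} [Group G] [Group H] (f : G →* H) (hf : Function.Surjective f)
    (c : ℕ) : (gam G c).map f = gam H c := by
  unfold gam
  rw [Subgroup.map_lowerCentralSeries, Subgroup.map_top_of_surjective f hf]

lemma inv_image {G H : Type} [Group G] [Group H] (f : G →* H) (hf : Function.Surjective f)
    {m : ℕ} (x : Fin m → G) (hx : Inv x) : Inv (fun i => f (x i)) := by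
  refine ⟨?_, ?_, ?_⟩
  · have e : Set.range (fun i => f (x i)) = f '' Set.range x := by
      rw [← Set.range_comp]
      rfl
    rw [e, ← MonoidHom.map_closure, hx.gen]
    exact Subgroup.map_top_of_surjective f hf
  · intro i
    show f (x i) * f (x i) = 1
    rw [← map_mul, hx.inv i, map_one]
  · intro i j g'
    obtain ⟨g, rfl⟩ := hf g'
    show (f (x i) * (f g * f (x j) * (f g)⁻¹)) ^ 4 = 1
    rw [← map_inv, ← map_mul, ← map_mul, ← map_mul, ← map_pow, hx.pair i j g, map_one]

end TOP_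

open TOP_ in
theorem top_proof (h1 : Stmt_Law) : Stmt_Top := by
  intro m hm
  obtain ⟨c, hc⟩ := hm
  refine ⟨c, c, ?_⟩
  intro G _ x hn hi hl
  obtain ⟨-, -, -, -, -, -, hLg⟩ := h1 G m x hi
  have hnorm : (gam G (c + 1)).Normal := by
    unfold gam
    infer_instance
  have hsurj : Function.Surjective (QuotientGroup.mk' (gam G (c + 1))) :=
    QuotientGroup.mk'_surjective _
  set f : G →* G ⧸ gam G (c + 1) := QuotientGroup.mk' (gam G (c + 1)) with hf
  have hinv : Inv (fun i => f (x i)) := inv_image f hsurj x hi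
  have hnil : Group.IsNilpotent (G ⧸ gam G (c + 1)) := by
    have := hn
    exact Group.nilpotent_of_surjective f hsurj
  have hlaw : ∀ k, Law (fun i => f (x i)) k := by
    intro k d' hd'
    obtain ⟨d, hd, rfl⟩ := LL_image f hsurj x k d' hd'
    by_cases hk : k ≤ c
    · rw [← map_mul, hl k hk d hd, map_one]
    · have h2 : d ∈ gam G (c + 1) := gam_anti (by omega) (hLg k d hd)
      have h3 : f d = 1 := by
        rw [hf]
        exact (QuotientGroup.eq_one_iff d).mpr h2
      rw [h3, one_mul]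
  have hb := hc (G ⧸ gam G (c + 1)) (fun i => f (x i)) hnil hinv hlaw
  apply gam_stab hn c
  intro u hu
  have h4 : f u ∈ gam (G ⧸ gam G (c + 1)) c := by
    rw [← gam_map f hsurj c]
    exact ⟨u, hu, rfl⟩
  rw [hb, Subgroup.mem_bot] at h4
  exact (QuotientGroup.eq_one_iff u).mp h4

end Pool.Agent.L3E
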