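import Pool.Agent.L3E.Stmts
import Pool.Agent.L3E.REL
import Pool.Agent.L3E.QUO
import Pool.Agent.L3E.TOP
import Pool.Agent.L3E.LAW

set_option autoImplicit false
set_option linter.unusedSimpArgs false

/-!
# L3E, module DK: the restated reduction for arbitrary D-sets (helper31)

`Stmt_CS` and `Stmt_CL` are the two certificates; everything else of the chain is here.
-/

namespace Pool.Agent.L3E

open Pool.Agent.KOS (ev Com)
open scoped commutatorElement

/-- A D-set: closed under conjugation, involutions, products of two elements have order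
dividing 4. -/
structure DSet {G : Type} [Group G] (D : Set G) : Prop where
  conj : ∀ a ∈ D, ∀ g : G, g * a * g⁻¹ ∈ D
  inv : ∀ a ∈ D, a * a = 1
  pair : ∀ a ∈ D, ∀ b ∈ D, (a * b) ^ 4 = 1

/-- Good involutions with respect to `D` (E-letters). -/
def EG {G : Type} [Group G] (D : Set G) (c : G) : Prop := c * c = 1 ∧ ∀ z ∈ D, (c * z) ^ 4 = 1

/-- The relations of the images in the endomorphism ring of an elementary abelian section. -/
structure RD {G : Type} [Group G] {R : Type} [Ring R] (D : Set G) (ρ : G →* R) : Prop where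
  two : (2 : R) = 0
  sq : ∀ c, EG D c → (ρ c - 1) * (ρ c - 1) = 0
  pr : ∀ c, EG D c → ∀ z ∈ D, (ρ c - 1) * (ρ z - 1) * (ρ c - 1) * (ρ z - 1) = 0
  pr' : ∀ c, EG D c → ∀ z ∈ D, (ρ z - 1) * (ρ c - 1) * (ρ z - 1) * (ρ c - 1) = 0
  nil : ∃ N : ℕ, ∀ l : List G, l.length = N → (l.map fun g => ρ g - 1).prod = 0

/-- Values of the law S. -/
def valS {G : Type} [Group G] (D : Set G) : Set G :=
  {t | ∃ c ∈ D, ∃ x ∈ D, ∃ y ∈ D, t = (c * ⁅x, y⁆) ^ 4}

/-- Values of the law L. -/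
def valL {G : Type} [Group G] (D : Set G) : Set G :=
  {t | ∃ a ∈ D, ∃ b ∈ D, ∃ x ∈ D, ∃ y ∈ D, t = (⁅a, b⁆ * ⁅x, y⁆) ^ 4}

/-- The law S. -/
def LawS {G : Type} [Group G] (D : Set G) : Prop := ∀ t ∈ valS D, t = 1

/-- The certificate for the law S. -/
def Stmt_CS : Prop := ∀ (G : Type) [Group G] (D : Set G) (R : Type) [Ring R] (ρ : G →* R),
  Group.IsNilpotent G → Subgroup.closure D = ⊤ → DSet D → RD D ρ →
  ∀ t ∈ valS D, ∀ t' ∈ valS D,
    (ρ t - 1) * (ρ t - 1) = 0 ∧ (ρ t - 1) * (ρ t' - 1) * (ρ t - 1) = 0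

/-- The certificate for the law L. -/
def Stmt_CL : Prop := ∀ (G : Type) [Group G] (D : Set G) (R : Type) [Ring R] (ρ : G →* R),
  Group.IsNilpotent G → Subgroup.closure D = ⊤ → DSet D → LawS D → RD D ρ →
  ∀ t ∈ valL D, ∀ t' ∈ valL D,
    (ρ t - 1) * (ρ t - 1) = 0 ∧ (ρ t - 1) * (ρ t' - 1) * (ρ t - 1) = 0

/-- The sets `D_k`. -/
def Dk {G : Type} [Group G] {m : ℕ} (x : Fin m → G) : ℕ → Set G
  | 0 => DD x
  | k + 1 => Dk x k ∪ {d | ∃ a ∈ Dk x k, ∃ b ∈ Dk x k, d = ⁅a, b⁆}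

/-- Class bound when `D_k` is a D-set. -/
def PD (m k : ℕ) : Prop := ∃ c : ℕ, ∀ (G : Type) [Group G] (x : Fin m → G),
  Group.IsNilpotent G → Subgroup.closure (Set.range x) = ⊤ → DSet (Dk x k) → gam G c = ⊥

/-- Class bound when `D_k` is a D-set with the law S. -/
def PDS (m k : ℕ) : Prop := ∃ c : ℕ, ∀ (G : Type) [Group G] (x : Fin m → G),
  Group.IsNilpotent G → Subgroup.closure (Set.range x) = ⊤ → DSet (Dk x k) → LawS (Dk x k) →
  gam G c = ⊥

namespace DK_

/-! ### REL for D-sets -/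

section
variable {G : Type} [Group G] {V K : Subgroup G} {M : Type} [AddCommGroup M]

open REL_

/-- Products of `ρ g - 1` and commutators. -/
theorem list_mem (hV : V.Normal) (s : Sec G V K M) (w : List G) : ∀ v : V, ∃ u : V,
    (u : G) ∈ gam G w.length ∧ (w.map fun g => s.rho g - 1).prod (s.pi v) = s.pi u := by
  induction w with
  | nil => intro v; exact ⟨v, Subgroup.mem_top _, by simp⟩
  | cons y w ih =>
    intro v
    obtain ⟨u, hu, e⟩ := ih v
    refine ⟨⟨y * u * y⁻¹, conj_mem hV u y⟩ * u⁻¹, ?_, ?_⟩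
    · have h1 : y * (u : G) * y⁻¹ * (u : G)⁻¹ = ⁅(u : G), y⁆⁻¹ := by
        rw [commutatorElement_def]
        group
      have h2 : ⁅(u : G), y⁆ ∈ gam G (w.length + 1) := by
        exact Subgroup.commutator_mem_commutator hu (Subgroup.mem_top _)
      have h3 : y * (u : G) * y⁻¹ * (u : G)⁻¹ ∈ gam G (w.length + 1) := by
        rw [h1]
        exact Subgroup.inv_mem _ h2
      simpa using h3
    · rw [List.map_cons, List.prod_cons, emul, e, s.mul, pi_inv, ← act' hV s y u]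
      have h2 : s.rho y - 1 = s.rho y + (-1) := sub_eq_add_neg _ _
      rw [h2, eadd]
      rfl

end

open REL_ in
theorem rel2 (G : Type) [Group G] (D : Set G) (V K : Subgroup G)
    (M : Type) [AddCommGroup M] (s : Sec G V K M) (hG : Group.IsNilpotent G) (hD : DSet D)
    (hV : V.Normal) (hsq : ∀ v ∈ V, v * v ∈ K) : RD D s.rho := by
  have twoM : ∀ a : M, a + a = 0 := by
    intro a
    obtain ⟨v, rfl⟩ := s.surj a
    rw [← s.mul]
    exact (s.ker _).2 (hsq v v.2)
  have two : (2 : AddMonoid.End M) = 0 := by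
    ext a
    rw [← one_add_one_eq_two, eadd, eone]
    exact twoM a
  have twoE : ∀ a : AddMonoid.End M, a + a = 0 := by
    intro a
    rw [← two_mul, two, zero_mul]
  have sub' : ∀ a : AddMonoid.End M, a - 1 = a + 1 := by
    intro a
    rw [sub_eq_add_neg, neg_eq_of_add_eq_zero_left (twoE 1)]
  have main : ∀ c, EG D c → ∀ z ∈ D,
      (s.rho c + 1) * (s.rho z + 1) * (s.rho c + 1) * (s.rho z + 1) = 0 ∧
      (s.rho z + 1) * (s.rho c + 1) * (s.rho z + 1) * (s.rho c + 1) = 0 := by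
    intro c hc z hz
    have hz2 : z * z = 1 := hD.inv z hz
    have hcz : (c * z) ^ 4 = 1 := hc.2 z hz
    have hr : s.rho (c * z) = s.rho c * s.rho z := map_mul _ _ _
    refine ring_id (s.rho c) (s.rho z) twoE ?_ ?_ ?_ ?_
    · rw [← map_mul, hc.1, map_one]
    · rw [← map_mul, hz2, map_one]
    · have e : c * z * (c * z) * (c * z) * (c * z) = 1 := by
        rw [← hcz]
        simp only [pow_succ, pow_zero, one_mul]
      rw [← map_mul, ← map_mul, ← map_mul, ← map_mul, e, map_one]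
    · ext a
      obtain ⟨v, rfl⟩ := s.surj a
      have hz' : (v : G) * z * (v : G)⁻¹ ∈ D := hD.conj z hz v
      have := rel_fun hV s c z hcz v (hc.2 _ hz') twoM
      rw [hr] at this
      simp only [emul, eadd, eone] at this ⊢
      exact this
  refine ⟨two, ?_, ?_, ?_, ?_⟩
  · intro c hc
    have h1 : s.rho c * s.rho c = 1 := by rw [← map_mul, hc.1, map_one]
    rw [sub']
    have : (s.rho c + 1) * (s.rho c + 1) = (s.rho c * s.rho c + 1) + (s.rho c + s.rho c) := by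
      simp only [mul_add, add_mul, mul_one, one_mul]
      abel
    rw [this, h1, twoE, twoE, add_zero]
  · intro c hc z hz
    rw [sub', sub']
    exact (main c hc z hz).1
  · intro c hc z hz
    rw [sub', sub']
    exact (main c hc z hz).2
  · obtain ⟨N, hN⟩ := Subgroup.nilpotent_iff_lowerCentralSeries.1 hG
    refine ⟨N, fun w hw => ?_⟩
    ext a
    obtain ⟨v, rfl⟩ := s.surj a
    obtain ⟨u, hu, e⟩ := list_mem hV s w v
    rw [e]
    have : (u : G) = 1 := by
      rw [hw] at hu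
      have h2 : (u : G) ∈ (⊤ : Subgroup G).lowerCentralSeries N := hu
      rw [hN] at h2
      exact Subgroup.mem_bot.1 h2
    have h3 : u = 1 := Subtype.ext this
    rw [h3, pi_one]
    rfl

/-! ### QUO for conjugation invariant sets -/

open QUO_ in
theorem quo2 (h1 : Stmt_UR) (m c : ℕ) : ∃ k₀ : ℕ, ∀ (G : Type) [Group G]
    (x : Fin m → G) (R : Type) [Ring R] (ρ : G →* R) (V : Set G), Inv x →
    (∀ i, (ρ (x i) - 1) * (ρ (x i) - 1) = 0) →
    (∀ t ∈ V, ∀ g : G, g * t * g⁻¹ ∈ V) → gam G c ≤ Subgroup.normalClosure V →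
    ∀ w : List (Fin m), w.length = k₀ →
    ev (ops x ρ) w ∈ AddSubgroup.closure {y | ∃ (g : G), ∃ s ∈ {s : R | ∃ t ∈ V,
      s = ρ t - 1}, y = ρ g * s} := by
  obtain ⟨k₀, hk₀⟩ := h1 m c
  refine ⟨k₀, ?_⟩
  intro G _ x R _ ρ V hinv hrs hVc hgamN w hw
  set S : Set R := {s : R | ∃ t ∈ V, s = ρ t - 1} with hS
  set A : AddSubgroup R := AddSubgroup.closure {y | ∃ (g : G), ∃ s ∈ S, y = ρ g * s} with hA
  -- conjugation invariance
  have hSconj : ∀ s ∈ S, ∀ g : G, ρ g * s * ρ g⁻¹ ∈ S := by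
    rintro s ⟨d, hd, rfl⟩ g
    refine ⟨g * d * g⁻¹, hVc d hd g, ?_⟩
    rw [map_mul ρ (g * d) g⁻¹, map_mul ρ g d, mul_sub, sub_mul, mul_one,
      ← map_mul ρ g g⁻¹, mul_inv_cancel, map_one]
  have hleft : ∀ (h : G) (a : R), a ∈ A → ρ h * a ∈ A := by
    intro h a ha
    induction ha using AddSubgroup.closure_induction with
    | mem y hy =>
      obtain ⟨g, s, hs, rfl⟩ := hy
      exact AddSubgroup.subset_closure ⟨h * g, s, hs, by rw [map_mul, mul_assoc]⟩
    | zero => rw [mul_zero]; exact A.zero_mem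
    | add a b _ _ iha ihb => rw [mul_add]; exact A.add_mem iha ihb
    | neg a _ iha => rw [mul_neg]; exact A.neg_mem iha
  have hright : ∀ (h : G) (a : R), a ∈ A → a * ρ h ∈ A := by
    intro h a ha
    induction ha using AddSubgroup.closure_induction with
    | mem y hy =>
      obtain ⟨g, s, hs, rfl⟩ := hy
      refine AddSubgroup.subset_closure ⟨g * h, ρ h⁻¹ * s * ρ (h⁻¹)⁻¹, hSconj s hs h⁻¹, ?_⟩
      rw [inv_inv, map_mul]
      have e : ρ g * ρ h * (ρ h⁻¹ * s * ρ h) = ρ g * ((ρ h * ρ h⁻¹) * s) * ρ h := by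
        simp only [mul_assoc]
      rw [e, ← map_mul ρ h h⁻¹, mul_inv_cancel, map_one, one_mul]
    | zero => rw [zero_mul]; exact A.zero_mem
    | add a b _ _ iha ihb => rw [add_mul]; exact A.add_mem iha ihb
    | neg a _ iha => rw [neg_mul]; exact A.neg_mem iha
  set P : Subring R := Subring.closure (Set.range ρ) with hP
  have hPl : ∀ p : R, p ∈ P → ∀ a ∈ A, p * a ∈ A ∧ a * p ∈ A := by
    intro p hp
    induction hp using Subring.closure_induction with
    | mem y hy =>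
      obtain ⟨g, rfl⟩ := hy
      exact fun a ha => ⟨hleft g a ha, hright g a ha⟩
    | zero => intro a _; rw [zero_mul, mul_zero]; exact ⟨A.zero_mem, A.zero_mem⟩
    | one => intro a ha; rw [one_mul, mul_one]; exact ⟨ha, ha⟩
    | add p q _ _ ihp ihq =>
      intro a ha
      rw [add_mul, mul_add]
      exact ⟨A.add_mem (ihp a ha).1 (ihq a ha).1, A.add_mem (ihp a ha).2 (ihq a ha).2⟩
    | neg p _ ihp =>
      intro a ha
      rw [neg_mul, mul_neg]
      exact ⟨A.neg_mem (ihp a ha).1, A.neg_mem (ihp a ha).2⟩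
    | mul p q _ _ ihp ihq =>
      intro a ha
      refine ⟨?_, ?_⟩
      · rw [mul_assoc]; exact (ihp _ (ihq a ha).1).1
      · rw [← mul_assoc]; exact (ihq _ (ihp a ha).2).2
  have hρP : ∀ g : G, ρ g ∈ P := fun g => Subring.subset_closure ⟨g, rfl⟩
  -- the ideal
  let I : Ideal P :=
    { carrier := {p : P | (p : R) ∈ A}
      add_mem' := fun {a b} ha hb => by
        show ((a + b : P) : R) ∈ A
        rw [Subring.coe_add]; exact A.add_mem ha hb
      zero_mem' := by
        show ((0 : P) : R) ∈ A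
        rw [Subring.coe_zero]; exact A.zero_mem
      smul_mem' := fun p a ha => by
        show ((p * a : P) : R) ∈ A
        rw [Subring.coe_mul]; exact (hPl p p.2 a ha).1 }
  have hmemI : ∀ p : P, p ∈ I ↔ (p : R) ∈ A := fun p => Iff.rfl
  have hI2 : I.IsTwoSided := ⟨fun {a} b ha => by
    rw [hmemI] at ha ⊢
    rw [Subring.coe_mul]
    exact (hPl b b.2 _ ha).2⟩
  let σ : G →* P :=
    { toFun := fun g => ⟨ρ g, hρP g⟩
      map_one' := by apply Subtype.ext; simp
      map_mul' := fun a b => by apply Subtype.ext; simp }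
  have hσ : ∀ g, ((σ g : P) : R) = ρ g := fun g => rfl
  let τ : G →* (P ⧸ I) := ((Ideal.Quotient.mk I : P →+* P ⧸ I) : P →* P ⧸ I).comp σ
  have hτ : ∀ g, τ g = Ideal.Quotient.mk I (σ g) := fun g => rfl
  let Φ : G →* (P ⧸ I)ˣ := MonoidHom.toHomUnits τ
  have hΦ : ∀ g, ((Φ g : (P ⧸ I)ˣ) : P ⧸ I) = Ideal.Quotient.mk I (σ g) := by
    intro g
    rw [← hτ]; rfl
  -- the normal subgroup
  have hNker : Subgroup.normalClosure V ≤ Φ.ker := by
    refine Subgroup.normalClosure_le_normal ?_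
    intro d hd
    show d ∈ Φ.ker
    rw [MonoidHom.mem_ker]
    apply Units.ext
    rw [hΦ, Units.val_one, ← map_one (Ideal.Quotient.mk I), Ideal.Quotient.eq, hmemI]
    have e : (((σ d : P) - 1 : P) : R) = ρ 1 * (ρ d - 1) := by
      rw [map_one, one_mul]
      rfl
    rw [e]
    exact AddSubgroup.subset_closure ⟨1, ρ d - 1, ⟨d, hd, rfl⟩, rfl⟩
  -- the units
  have hcl : Subgroup.closure (Set.range (fun i => Φ (x i))) = (⊤ : Subgroup G).map Φ := by
    have : Set.range (fun i => Φ (x i)) = Φ '' Set.range x := by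
      rw [← Set.range_comp]; rfl
    rw [this, ← MonoidHom.map_closure, hinv.gen]
  have hnw := hk₀ (P ⧸ I) (fun i => Φ (x i)) ?_ ?_ ?_
  · -- conclusion
    have h0 := hnw w hw
    have e1 : ev (fun i => ((Φ (x i) : (P ⧸ I)ˣ) : P ⧸ I) - 1) w
        = Ideal.Quotient.mk I (ev (fun i => (σ (x i) : P) - 1) w) := by
      rw [← ev_map (Ideal.Quotient.mk I)]
      rfl
    rw [e1, Ideal.Quotient.eq_zero_iff_mem, hmemI] at h0
    have e2 : ev (ops x ρ) w = ((ev (fun i => (σ (x i) : P) - 1) w : P) : R) := by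
      have := ev_map P.subtype (fun i => (σ (x i) : P) - 1) w
      rw [Subring.subtype_apply] at this
      rw [← this]
      rfl
    rw [e2]
    exact h0
  · intro i
    show (((Φ (x i) : (P ⧸ I)ˣ) : P ⧸ I) - 1) ^ 3 = 0
    have hsq : (ρ (x i) - 1) * (ρ (x i) - 1) = 0 := hrs i
    have hsqP : ((σ (x i) : P) - 1) ^ 3 = 0 := by
      apply Subtype.ext
      have : ((((σ (x i) : P) - 1) ^ 3 : P) : R) = (ρ (x i) - 1) ^ 3 := by
        push_cast
        rfl
      rw [this, pow_succ, pow_two, hsq, zero_mul]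
      rfl
    rw [hΦ, ← map_one (Ideal.Quotient.mk I), ← map_sub, ← map_pow, hsqP, map_zero]
  · intro i g hg
    rw [hcl] at hg
    obtain ⟨g0, -, rfl⟩ := hg
    show Commute ⁅Φ (x i), Φ g0 * Φ (x i) * (Φ g0)⁻¹⁆ (Φ (x i))
    have e : ⁅Φ (x i), Φ g0 * Φ (x i) * (Φ g0)⁻¹⁆ = Φ ⁅x i, g0 * x i * g0⁻¹⁆ := by
      simp [commutatorElement_def]
    rw [e]
    refine Commute.map ?_ Φ
    refine comm_inv _ _ (hinv.inv i) ?_ (hinv.pair i i g0)
    have : g0 * x i * g0⁻¹ * (g0 * x i * g0⁻¹) = g0 * (x i * x i) * g0⁻¹ := by group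
    rw [this, hinv.inv, mul_one, mul_inv_cancel]
  · rw [hcl, ← Subgroup.map_lowerCentralSeries, Subgroup.map_eq_bot_iff]
    exact hgamN.trans hNker

/-! ### The kill lemma -/

/-- The commutator of two thick elements of the form `ρ t - 1`. -/
theorem thick_comm {G : Type} [Group G] {R : Type} [Ring R] (ρ : G →* R) (t t' : G)
    (h2 : (ρ t - 1) * (ρ t - 1) = 0) (h3 : (ρ t - 1) * (ρ t' - 1) * (ρ t - 1) = 0) :
    (ρ t - 1) * (ρ t' - 1) - (ρ t' - 1) * (ρ t - 1) =
      (ρ (t * t' * t⁻¹) - 1) - (ρ t' - 1) := by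
  have hi : ρ t * ρ t⁻¹ = 1 := by rw [← map_mul, mul_inv_cancel, map_one]
  have hi' : ρ t⁻¹ * ρ t = 1 := by rw [← map_mul, inv_mul_cancel, map_one]
  -- ρ t⁻¹ = 2 - ρ t
  have h2' : ρ t * (2 - ρ t) = 1 := by
    have : (ρ t - 1) * (ρ t - 1) = 1 - ρ t * (2 - ρ t) := by noncomm_ring
    rw [this] at h2
    exact (sub_eq_zero.1 h2).symm
  have hinv : ρ t⁻¹ = 2 - ρ t := by
    calc ρ t⁻¹ = ρ t⁻¹ * (ρ t * (2 - ρ t)) := by rw [h2', mul_one]
      _ = 2 - ρ t := by rw [← mul_assoc, hi', one_mul]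
  rw [map_mul, map_mul, hinv]
  have e : ρ t * ρ t' * (2 - ρ t) - 1 - (ρ t' - 1) - ((ρ t - 1) * (ρ t' - 1) -
      (ρ t' - 1) * (ρ t - 1)) = - ((ρ t - 1) * (ρ t' - 1) * (ρ t - 1)) -
      (ρ t - 1) * (ρ t - 1) := by
    noncomm_ring
  rw [h3, h2, neg_zero, sub_zero] at e
  exact (sub_eq_zero.1 e).symm

/-- Kill lemma. -/
theorem kl (hUR : Stmt_UR) (hNak : Stmt_Nak) (hEnv : Stmt_Env) (hSWU : Stmt_SWU) (m c : ℕ) :
    ∃ c' : ℕ, ∀ (G : Type) [Group G] (x : Fin m → G) (D V : Set G), Group.IsNilpotent G →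
      Subgroup.closure (Set.range x) = ⊤ → (∀ i, x i ∈ D) → DSet D →
      (∀ t ∈ V, ∀ g : G, g * t * g⁻¹ ∈ V) → gam G c ≤ Subgroup.normalClosure V →
      (∀ (R : Type) [Ring R] (ρ : G →* R), RD D ρ → ∀ t ∈ V, ∀ t' ∈ V,
        (ρ t - 1) * (ρ t - 1) = 0 ∧ (ρ t - 1) * (ρ t' - 1) * (ρ t - 1) = 0) →
      gam G c' = ⊥ := by
  obtain ⟨k₀, hk₀⟩ := quo2 hUR m c
  choose f hf using hSWU
  obtain ⟨k₁, hk₁⟩ := hNak m k₀ f
  obtain ⟨c', hc'⟩ := hEnv m k₁
  refine ⟨c', ?_⟩
  intro G _ x D V hnil hgen hxD hD hVc hgam hthick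
  have hinv : Inv x := ⟨hgen, fun i => hD.inv _ (hxD i), fun i j g =>
    hD.pair _ (hxD i) _ (hD.conj _ (hxD j) g)⟩
  refine hc' G x hnil hinv ?_
  intro V' K M _ s hV' hK hKV hVV hsq
  have hRD : RD D s.rho := rel2 G D V' K M s hnil hD hV' hsq
  have hEG : ∀ i, EG D (x i) := fun i => ⟨hD.inv _ (hxD i), fun z hz => hD.pair _ (hxD i) z hz⟩
  have hT := hthick _ s.rho hRD
  refine hk₁ G x _ s.rho {s' | ∃ t ∈ V, s' = s.rho t - 1} hgen hRD.two ?_ ?_ ?_ ?_ ?_
  · obtain ⟨N, hN⟩ := hRD.nil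
    refine ⟨N, fun w hw => ?_⟩
    have := hN (w.map x) (by rw [List.length_map, hw])
    rw [List.map_map] at this
    exact this
  · rintro _ ⟨t, ht, rfl⟩ g
    refine ⟨g * t * g⁻¹, hVc t ht g, ?_⟩
    rw [mul_sub, sub_mul, mul_one, ← map_mul, ← map_mul, ← map_mul, mul_inv_cancel, map_one]
  · rintro _ ⟨t, ht, rfl⟩
    refine AddSubgroup.sub_mem _ (AddSubgroup.subset_closure ⟨t, rfl⟩)
      (AddSubgroup.subset_closure ⟨1, map_one _⟩)
  · intro w hw
    exact hk₀ G x _ s.rho V hinv (fun i => hRD.sq _ (hEG i)) hVc hgam w hw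
  · intro r s' hs'
    set S : Set (AddMonoid.End M) := {s' | ∃ t ∈ V, s' = s.rho t - 1} with hS
    have hST : ∀ a ∈ S, ∀ b ∈ S, a * a = 0 ∧ a * b * a = 0 := by
      rintro a ⟨t, ht, rfl⟩ b ⟨t', ht', rfl⟩
      exact hT t ht t' ht'
    have hSTM : ∀ a ∈ S, ∀ l ∈ AddSubgroup.closure S, a * l * a = 0 := by
      intro a ha l hl
      induction hl using AddSubgroup.closure_induction with
      | mem y hy => exact (hST a ha y hy).2
      | zero => rw [mul_zero, zero_mul]
      | add u v _ _ hu hv => rw [mul_add, add_mul, hu, hv, add_zero]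
      | neg u _ hu => rw [mul_neg, neg_mul, hu, neg_zero]
    have hSS : ∀ a ∈ S, ∀ b ∈ S, a * b - b * a ∈ AddSubgroup.closure S := by
      rintro a ⟨t, ht, rfl⟩ b ⟨t', ht', rfl⟩
      rw [thick_comm s.rho t t' (hT t ht t' ht').1 (hT t ht t' ht').2]
      exact AddSubgroup.sub_mem _ (AddSubgroup.subset_closure ⟨_, hVc t' ht' t, rfl⟩)
        (AddSubgroup.subset_closure ⟨t', ht', rfl⟩)
    have hSM : ∀ a ∈ S, ∀ b ∈ AddSubgroup.closure S, a * b - b * a ∈ AddSubgroup.closure S := by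
      intro a ha b hb
      induction hb using AddSubgroup.closure_induction with
      | mem y hy => exact hSS a ha y hy
      | zero => rw [mul_zero, zero_mul, sub_zero]; exact AddSubgroup.zero_mem _
      | add u v _ _ hu hv =>
        have e : a * (u + v) - (u + v) * a = (a * u - u * a) + (a * v - v * a) := by
          noncomm_ring
        rw [e]
        exact AddSubgroup.add_mem _ hu hv
      | neg u _ hu =>
        have e : a * (-u) - (-u) * a = -(a * u - u * a) := by noncomm_ring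
        rw [e]
        exact AddSubgroup.neg_mem _ hu
    have hMM : ∀ a ∈ AddSubgroup.closure S, ∀ b ∈ AddSubgroup.closure S,
        a * b - b * a ∈ AddSubgroup.closure S := by
      intro a ha b hb
      induction ha using AddSubgroup.closure_induction with
      | mem y hy => exact hSM y hy b hb
      | zero => rw [mul_zero, zero_mul, sub_zero]; exact AddSubgroup.zero_mem _
      | add u v _ _ hu hv =>
        have e : (u + v) * b - b * (u + v) = (u * b - b * u) + (v * b - b * v) := by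
          noncomm_ring
        rw [e]
        exact AddSubgroup.add_mem _ hu hv
      | neg u _ hu =>
        have e : (-u) * b - b * (-u) = -(u * b - b * u) := by noncomm_ring
        rw [e]
        exact AddSubgroup.neg_mem _ hu
    apply hf r _ s'
    · intro i
      exact (hST _ (hs' i) _ (hs' i)).1
    · intro i l hl
      have hlM : l ∈ AddSubgroup.closure S := by
        induction hl with
        | gen j => exact AddSubgroup.subset_closure (hs' j)
        | br a b _ _ iha ihb => exact hMM a iha b ihb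
      exact hSTM _ (hs' i) l hlM

/-! ### The sets `D_k` -/

section
variable {G : Type} [Group G] {m : ℕ}

theorem Dk_image {H : Type} [Group H] (f : G →* H) (hf : Function.Surjective f)
    (x : Fin m → G) : ∀ (k : ℕ) (d' : H), d' ∈ Dk (fun i => f (x i)) k →
      ∃ d ∈ Dk x k, f d = d' := by
  intro k
  induction k with
  | zero => exact TOP_.LL_image f hf x 0
  | succ k ih =>
    rintro d' (hd' | ⟨a', ha', b', hb', rfl⟩)
    · obtain ⟨d, hd, rfl⟩ := ih d' hd'
      exact ⟨d, Or.inl hd, rfl⟩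
    · obtain ⟨a, ha, rfl⟩ := ih a' ha'
      obtain ⟨b, hb, rfl⟩ := ih b' hb'
      exact ⟨⁅a, b⁆, Or.inr ⟨a, ha, b, hb, rfl⟩, by simp [commutatorElement_def]⟩

theorem Dk_succ (x : Fin m → G) (k : ℕ) : Dk x k ⊆ Dk x (k + 1) := fun _ h => Or.inl h

theorem Dk_mono (x : Fin m → G) {k l : ℕ} (h : k ≤ l) : Dk x k ⊆ Dk x l := by
  induction h with
  | refl => exact fun _ h => h
  | step _ ih => exact ih.trans (Dk_succ x _)

theorem Dk_gen (x : Fin m → G) (k : ℕ) (i : Fin m) : x i ∈ Dk x k :=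
  Dk_mono x (Nat.zero_le k) ⟨i, 1, by simp⟩

theorem LL_sub (x : Fin m → G) (k : ℕ) : LL x k ⊆ Dk x k := by
  induction k with
  | zero => exact fun _ h => h
  | succ k ih =>
    rintro d ⟨c, hc, z, hz, rfl⟩
    exact Or.inr ⟨c, ih hc, z, Dk_mono x (Nat.zero_le k) hz, rfl⟩

theorem Dk_conj (x : Fin m → G) (k : ℕ) : ∀ d ∈ Dk x k, ∀ g : G, g * d * g⁻¹ ∈ Dk x k := by
  induction k with
  | zero => exact fun d hd g => LAW_.conj_DD hd g
  | succ k ih =>
    rintro d (hd | ⟨a, ha, b, hb, rfl⟩) g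
    · exact Or.inl (ih d hd g)
    · refine Or.inr ⟨g * a * g⁻¹, ih a ha g, g * b * g⁻¹, ih b hb g, ?_⟩
      simp only [commutatorElement_def]
      group

theorem closure_Dk (x : Fin m → G) (h : Subgroup.closure (Set.range x) = ⊤) (k : ℕ) :
    Subgroup.closure (Dk x k) = ⊤ := by
  refine top_le_iff.1 ?_
  rw [← h]
  refine Subgroup.closure_mono ?_
  rintro _ ⟨i, rfl⟩
  exact Dk_gen x k i

theorem closure_image {H : Type} [Group H] (f : G →* H) (hf : Function.Surjective f)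
    (x : Fin m → G) (h : Subgroup.closure (Set.range x) = ⊤) :
    Subgroup.closure (Set.range fun i => f (x i)) = ⊤ := by
  have e : Set.range (fun i => f (x i)) = f '' Set.range x := by
    rw [← Set.range_comp]
    rfl
  rw [e, ← MonoidHom.map_closure, h]
  exact Subgroup.map_top_of_surjective f hf

theorem swap4 (u v : G) (h : (v * u) ^ 4 = 1) : (u * v) ^ 4 = 1 := by
  have e : (u * v) ^ 4 = v⁻¹ * (v * u) ^ 4 * v := by
    simp only [pow_succ, pow_zero, one_mul]
    group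
  rw [e, h, mul_one, inv_mul_cancel]

/-- From the quotient to the group. -/
theorem gam_quot (N : Subgroup G) [N.Normal] (c : ℕ) (h : gam (G ⧸ N) c = ⊥) : gam G c ≤ N := by
  have hm := TOP_.gam_map (QuotientGroup.mk' N) (QuotientGroup.mk'_surjective N) c
  rw [h] at hm
  have := (Subgroup.map_eq_bot_iff (gam G c)).mp hm
  rwa [QuotientGroup.ker_mk'] at this

theorem comm_one {a b : G} (ha : a * a = 1) (hb : b * b = 1) (h : (a * b) ^ 4 = 1) :
    ⁅a, b⁆ * ⁅a, b⁆ = 1 := by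
  rw [LAW_.comm_sq ha hb, h]

theorem valS_conj (D : Set G) (hD : DSet D) : ∀ t ∈ valS D, ∀ g : G, g * t * g⁻¹ ∈ valS D := by
  rintro t ⟨c, hc, x, hx, y, hy, rfl⟩ g
  refine ⟨g * c * g⁻¹, hD.conj c hc g, g * x * g⁻¹, hD.conj x hx g, g * y * g⁻¹,
    hD.conj y hy g, ?_⟩
  rw [← LAW_.conj_pow4]
  congr 1
  simp only [commutatorElement_def]
  group

theorem valL_conj (D : Set G) (hD : DSet D) : ∀ t ∈ valL D, ∀ g : G, g * t * g⁻¹ ∈ valL D := by
  rintro t ⟨a, ha, b, hb, x, hx, y, hy, rfl⟩ g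
  refine ⟨g * a * g⁻¹, hD.conj a ha g, g * b * g⁻¹, hD.conj b hb g, g * x * g⁻¹,
    hD.conj x hx g, g * y * g⁻¹, hD.conj y hy g, ?_⟩
  rw [← LAW_.conj_pow4]
  congr 1
  simp only [commutatorElement_def]
  group

end

/-! ### The steps -/

theorem base (hTop : Stmt_Top) (m : ℕ) (h : PInf m) : ∃ k, PD m k := by
  obtain ⟨n, c, hc⟩ := hTop m h
  refine ⟨n, c, ?_⟩
  intro G _ x hn hg hD
  refine hc G x hn ?_ ?_
  · exact ⟨hg, fun i => hD.inv _ (Dk_gen x n i), fun i j g =>
      hD.pair _ (Dk_gen x n i) _ (hD.conj _ (Dk_gen x n j) g)⟩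
  · intro k hk d hd
    exact hD.inv d (Dk_mono x hk (LL_sub x k hd))

theorem stepL (hUR : Stmt_UR) (hNak : Stmt_Nak) (hEnv : Stmt_Env) (hSWU : Stmt_SWU)
    (hCL : Stmt_CL) (m k : ℕ) (h : PD m (k + 1)) : PDS m k := by
  obtain ⟨c, hc⟩ := h
  obtain ⟨c', hc'⟩ := kl hUR hNak hEnv hSWU m c
  refine ⟨c', ?_⟩
  intro G _ x hn hg hD hS
  refine hc' G x (Dk x k) (valL (Dk x k)) hn hg (Dk_gen x k) hD (valL_conj _ hD) ?_ ?_
  · apply gam_quot
    set N : Subgroup G := Subgroup.normalClosure (valL (Dk x k)) with hN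
    have hπs := QuotientGroup.mk'_surjective N
    have hQnil : Group.IsNilpotent (G ⧸ N) := by
      have := hn
      infer_instance
    refine hc (G ⧸ N) (fun i => QuotientGroup.mk' N (x i)) hQnil (closure_image _ hπs x hg) ?_
    have hker : ∀ t ∈ valL (Dk x k), QuotientGroup.mk' N t = 1 := fun t ht =>
      (QuotientGroup.eq_one_iff t).mpr (Subgroup.subset_normalClosure ht)
    refine ⟨Dk_conj _ _, ?_, ?_⟩
    · intro d' hd'
      obtain ⟨d, hd, rfl⟩ := Dk_image _ hπs x _ _ hd'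
      rw [← map_mul]
      rcases hd with hd | ⟨a, ha, b, hb, rfl⟩
      · rw [hD.inv d hd, map_one]
      · rw [comm_one (hD.inv a ha) (hD.inv b hb) (hD.pair a ha b hb), map_one]
    · intro d' hd' e' he'
      obtain ⟨d, hd, rfl⟩ := Dk_image _ hπs x _ _ hd'
      obtain ⟨e, he, rfl⟩ := Dk_image _ hπs x _ _ he'
      rw [← map_mul, ← map_pow]
      rcases hd with hd | ⟨a, ha, b, hb, rfl⟩
      · rcases he with he | ⟨a, ha, b, hb, rfl⟩
        · rw [hD.pair d hd e he, map_one]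
        · rw [hS _ ⟨d, hd, a, ha, b, hb, rfl⟩, map_one]
      · rcases he with he | ⟨a', ha', b', hb', rfl⟩
        · rw [swap4 _ _ (hS _ ⟨e, he, a, ha, b, hb, rfl⟩), map_one]
        · exact hker _ ⟨a, ha, b, hb, a', ha', b', hb', rfl⟩
  · intro R _ ρ hR t ht t' ht'
    exact hCL G (Dk x k) R ρ hn (closure_Dk x hg k) hD hS hR t ht t' ht'

theorem stepS (hUR : Stmt_UR) (hNak : Stmt_Nak) (hEnv : Stmt_Env) (hSWU : Stmt_SWU)
    (hCS : Stmt_CS) (m k : ℕ) (h : PDS m k) : PD m k := by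
  obtain ⟨c, hc⟩ := h
  obtain ⟨c', hc'⟩ := kl hUR hNak hEnv hSWU m c
  refine ⟨c', ?_⟩
  intro G _ x hn hg hD
  refine hc' G x (Dk x k) (valS (Dk x k)) hn hg (Dk_gen x k) hD (valS_conj _ hD) ?_ ?_
  · apply gam_quot
    set N : Subgroup G := Subgroup.normalClosure (valS (Dk x k)) with hN
    have hπs := QuotientGroup.mk'_surjective N
    have hQnil : Group.IsNilpotent (G ⧸ N) := by
      have := hn
      infer_instance
    refine hc (G ⧸ N) (fun i => QuotientGroup.mk' N (x i)) hQnil (closure_image _ hπs x hg)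
      ?_ ?_
    · refine ⟨Dk_conj _ _, ?_, ?_⟩
      · intro d' hd'
        obtain ⟨d, hd, rfl⟩ := Dk_image _ hπs x _ _ hd'
        rw [← map_mul, hD.inv d hd, map_one]
      · intro d' hd' e' he'
        obtain ⟨d, hd, rfl⟩ := Dk_image _ hπs x _ _ hd'
        obtain ⟨e, he, rfl⟩ := Dk_image _ hπs x _ _ he'
        rw [← map_mul, ← map_pow, hD.pair d hd e he, map_one]
    · rintro t' ⟨c', hc', a', ha', b', hb', rfl⟩
      obtain ⟨c, hc, rfl⟩ := Dk_image _ hπs x _ _ hc'
      obtain ⟨a, ha, rfl⟩ := Dk_image _ hπs x _ _ ha'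
      obtain ⟨b, hb, rfl⟩ := Dk_image _ hπs x _ _ hb'
      have e : (QuotientGroup.mk' N c * ⁅QuotientGroup.mk' N a, QuotientGroup.mk' N b⁆) ^ 4 =
          QuotientGroup.mk' N ((c * ⁅a, b⁆) ^ 4) := by
        simp [commutatorElement_def]
      rw [e]
      exact (QuotientGroup.eq_one_iff _).mpr
        (Subgroup.subset_normalClosure ⟨c, hc, a, ha, b, hb, rfl⟩)
  · intro R _ ρ hR t ht t' ht'
    exact hCS G (Dk x k) R ρ hn (closure_Dk x hg k) hD hR t ht t' ht'

end DK_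

open DK_ in
/-- The involution core from the two certificates. -/
theorem dk_proof (hUR : Stmt_UR) (hNak : Stmt_Nak) (hEnv : Stmt_Env) (hSWU : Stmt_SWU)
    (hTop : Stmt_Top) (hEin : Stmt_Ein) (hRel : Stmt_Rel)
    (hCS : Stmt_CS) (hCL : Stmt_CL) : Stmt_Core := by
  intro m
  have hinf : PInf m := by
    obtain ⟨k, hk⟩ := hEin m
    obtain ⟨c, hc⟩ := hEnv m k
    refine ⟨c, fun G _ x hn hi hl => hc G x hn hi ?_⟩
    intro V K M _ s hV hK hKV hVV hsq
    exact hk G x _ s.rho hn hi hl (hRel G m x V K M s hn hi hV hK hKV hsq)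
  obtain ⟨k, hk⟩ := base hTop m hinf
  have down : ∀ k, PD m k → PD m 0 := by
    intro k
    induction k with
    | zero => exact id
    | succ k ih =>
      intro h
      exact ih (stepS hUR hNak hEnv hSWU hCS m k (stepL hUR hNak hEnv hSWU hCL m k h))
  obtain ⟨c, hc⟩ := down k hk
  refine ⟨c, fun G _ x hn hi => hc G x hn hi.gen ?_⟩
  refine ⟨Dk_conj x 0, fun a ha => LAW_.DD_sq hi ha, fun a ha b hb => ?_⟩
  exact (LAW_.DD_good hi ha).2 b hb

end Pool.Agent.L3E
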