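import Pool.Agent.L3E.Stmts

set_option autoImplicit false

/-!
# L3E, module EIN: the case of all laws
-/

namespace Pool.Agent.L3E

open Pool.Agent.KOS (ev Com)
open scoped commutatorElement

namespace EIN_

/-- The sandwiches `X Y X`. -/
def SS {G : Type} [Group G] {m : ℕ} {R : Type} [Ring R] (x : Fin m → G) (ρ : G →* R) : Set R :=
  {s : R | ∃ a ∈ DD x, ∃ b ∈ DD x, s = (ρ a - 1) * (ρ b - 1) * (ρ a - 1)}

/-- The span of the `ρ c - 1`. -/
def MM {G : Type} [Group G] {m : ℕ} {R : Type} [Ring R] (x : Fin m → G) (ρ : G →* R) :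
    AddSubgroup R :=
  AddSubgroup.closure {y | ∃ n, ∃ c ∈ LL x n, y = ρ c - 1}

theorem conj_rho {G : Type} [Group G] {R : Type} [Ring R] (ρ : G →* R) (g a : G) :
    ρ g * (ρ a - 1) * ρ g⁻¹ = ρ (g * a * g⁻¹) - 1 := by
  rw [mul_sub, sub_mul, mul_one, ← map_mul, ← map_mul, ← map_mul, mul_inv_cancel, map_one]

theorem conj_prod {G : Type} [Group G] {R : Type} [Ring R] (ρ : G →* R) (g a b : G) :
    ρ g * ((ρ a - 1) * (ρ b - 1) * (ρ a - 1)) * ρ g⁻¹ =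
      (ρ (g * a * g⁻¹) - 1) * (ρ (g * b * g⁻¹) - 1) * (ρ (g * a * g⁻¹) - 1) := by
  rw [← conj_rho ρ g a, ← conj_rho ρ g b]
  have h : ρ g⁻¹ * ρ g = 1 := by rw [← map_mul, inv_mul_cancel, map_one]
  have key : ∀ u v w : R, ρ g * u * ρ g⁻¹ * (ρ g * v * ρ g⁻¹) * (ρ g * w * ρ g⁻¹) =
      ρ g * (u * v * w) * ρ g⁻¹ := by
    intro u v w
    calc ρ g * u * ρ g⁻¹ * (ρ g * v * ρ g⁻¹) * (ρ g * w * ρ g⁻¹)
        = ρ g * u * (ρ g⁻¹ * ρ g) * v * (ρ g⁻¹ * ρ g) * w * ρ g⁻¹ := by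
          simp only [mul_assoc]
      _ = ρ g * (u * v * w) * ρ g⁻¹ := by
          rw [h, mul_one, mul_one]
          simp only [mul_assoc]
  rw [key]

theorem mem_span {G : Type} [Group G] {R : Type} [Ring R] (ρ : G →* R) (a b : G) :
    (ρ a - 1) * (ρ b - 1) * (ρ a - 1) ∈ AddSubgroup.closure (Set.range ρ) := by
  have hm : ∀ g : G, ρ g ∈ AddSubgroup.closure (Set.range ρ) := fun g =>
    AddSubgroup.subset_closure ⟨g, rfl⟩
  have h : (ρ a - 1) * (ρ b - 1) * (ρ a - 1) =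
      ρ (a * b * a) - ρ (a * b) - ρ (a * a) + ρ a - ρ (b * a) + ρ b + ρ a - ρ 1 := by
    rw [map_mul, map_mul, map_mul, map_mul, map_one]
    noncomm_ring
  rw [h]
  exact AddSubgroup.sub_mem _ (AddSubgroup.add_mem _ (AddSubgroup.add_mem _
    (AddSubgroup.sub_mem _ (AddSubgroup.add_mem _ (AddSubgroup.sub_mem _
      (AddSubgroup.sub_mem _ (hm _) (hm _)) (hm _)) (hm _)) (hm _)) (hm _)) (hm _)) (hm _)

end EIN_

open EIN_ in
theorem ein_proof (hFS : Stmt_FS) (hMli : Stmt_Mli) (hQxy : Stmt_Qxy) (hNak : Stmt_Nak)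
    (hSWU : Stmt_SWU) (hLaw : Stmt_Law) : Stmt_Ein := by
  intro m
  obtain ⟨k₀, hk₀⟩ := hQxy m
  choose f hf using hSWU
  obtain ⟨k₁, hk₁⟩ := hNak m k₀ f
  refine ⟨k₁, ?_⟩
  intro G _ x R _ ρ hnil hinv hlaw hR
  obtain ⟨L1, L2, L3, L4, L5, L6, L7⟩ := hLaw G m x hinv
  have hDDc : ∀ d ∈ DD x, ∀ g : G, g * d * g⁻¹ ∈ DD x := L1 0
  obtain ⟨hM1, hM2⟩ := hMli G m x R ρ hinv hlaw hR
  refine hk₁ G x R ρ (SS x ρ) hinv.gen hR.two hR.nil ?_ ?_ ?_ ?_
  · rintro s ⟨a, ha, b, hb, rfl⟩ g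
    exact ⟨_, hDDc a ha g, _, hDDc b hb g, conj_prod ρ g a b⟩
  · rintro s ⟨a, ha, b, hb, rfl⟩
    exact mem_span ρ a b
  · intro w hw
    exact hk₀ G x R ρ hinv hR w hw
  · intro r s hs
    apply hf r R s
    · intro i
      obtain ⟨a, ha, b, hb, h⟩ := hs i
      rw [h]
      have hsq := hR.sq a (L3 a ha)
      calc (ρ a - 1) * (ρ b - 1) * (ρ a - 1) * ((ρ a - 1) * (ρ b - 1) * (ρ a - 1))
          = (ρ a - 1) * (ρ b - 1) * ((ρ a - 1) * (ρ a - 1)) * (ρ b - 1) * (ρ a - 1) := by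
            simp only [mul_assoc]
        _ = 0 := by rw [hsq]; simp
    · intro i l hl
      have hlM : l ∈ MM x ρ := by
        induction hl with
        | gen j =>
          obtain ⟨a, ha, b, hb, h⟩ := hs j
          rw [h]
          exact hM2 a ha b hb
        | br a b _ _ iha ihb => exact hM1 a iha b ihb
      obtain ⟨a, ha, b, hb, h⟩ := hs i
      rw [h]
      unfold MM at hlM
      clear hl
      induction hlM using AddSubgroup.closure_induction with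
      | mem y hy =>
        obtain ⟨n, c, hc, rfl⟩ := hy
        refine hFS G m x R ρ hinv hR a ha b hb c (L6 n (hlaw n) (hlaw (n + 1)) c hc) ?_
        intro z hz
        exact L6 (n + 1) (hlaw (n + 1)) (hlaw (n + 2)) _ ⟨c, hc, z, hz, rfl⟩
      | zero => rw [mul_zero, zero_mul]
      | add u v _ _ hu hv => rw [mul_add, add_mul, hu, hv, add_zero]
      | neg u _ hu => rw [mul_neg, neg_mul, hu, neg_zero]

end Pool.Agent.L3E
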