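import Pool.Agent.L3E.Stmts

set_option autoImplicit false

/-!
# L3E, module ENG: left 3-Engel elements
-/

namespace Pool.Agent.L3E

open scoped commutatorElement

theorem eng_proof : Stmt_Eng := by
  intro G _ x h g
  have h3 := h g⁻¹
  simp only [Function.iterate_succ, Function.iterate_zero, Function.comp_apply, id_eq] at h3
  set c1 : G := (g⁻¹)⁻¹ * x⁻¹ * g⁻¹ * x with hc1
  set c2 : G := c1⁻¹ * x⁻¹ * c1 * x with hc2
  have hc : Commute c2 x := by
    have h4 : c2⁻¹ * x⁻¹ * c2 * x = 1 := h3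
    have h5 : c2 * x = x * c2 := by
      have : c2 * x = x * c2 * (c2⁻¹ * x⁻¹ * c2 * x) := by group
      rw [this, h4, mul_one]
    exact h5
  have hw : (g * x * g⁻¹) * x⁻¹ * (g * x * g⁻¹)⁻¹ = x * c2 * x⁻¹ * x⁻¹ := by
    rw [hc2, hc1]
    group
  have hx : Commute x x := Commute.refl x
  have h6 : Commute ((g * x * g⁻¹) * x⁻¹ * (g * x * g⁻¹)⁻¹) x := by
    rw [hw]
    exact ((hx.mul_left hc).mul_left hx.inv_left).mul_left hx.inv_left
  have h7 : ⁅x, g * x * g⁻¹⁆ = x * ((g * x * g⁻¹) * x⁻¹ * (g * x * g⁻¹)⁻¹) := by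
    rw [commutatorElement_def]
    simp only [mul_assoc]
  rw [h7]
  exact hx.mul_left h6

end Pool.Agent.L3E
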