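import Pool.Agent.L3E.Stmts

set_option autoImplicit false

/-!
# L3E, module ENV: from elementary abelian sections to the class
-/

namespace Pool.Agent.L3E

open Pool.Agent.KOS (ev Com)
open scoped commutatorElement

theorem ENV_it (G : Type) [Group G] (n k : ℕ) : it (gam G n) k = gam G (n + k) := by
  induction k with
  | zero => rfl
  | succ k ih =>
    have h : it (gam G n) (k + 1) = ⁅it (gam G n) k, (⊤ : Subgroup G)⁆ := rfl
    rw [h, ih]
    rfl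

theorem ENV_succ (G : Type) [Group G] (n : ℕ) :
    gam G (n + 1) = ⁅gam G n, (⊤ : Subgroup G)⁆ := rfl

theorem ENV_anti (G : Type) [Group G] {a b : ℕ} (h : a ≤ b) : gam G b ≤ gam G a :=
  Subgroup.lowerCentralSeries_antitone _ h

theorem ENV_normal (G : Type) [Group G] (n : ℕ) : (gam G n).Normal := by
  unfold gam
  infer_instance

theorem ENV_L3 {G : Type} [Group G] {m : ℕ} (x : Fin m → G) (hx : Inv x) (i : Fin m) :
    L3 (x i) := by
  intro g
  have h1 : x i * x i = 1 := hx.inv i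
  have h1' : (x i)⁻¹ = x i := inv_eq_of_mul_eq_one_left h1
  set y := g * x i * g⁻¹ with hy
  have h2 : y * y = 1 := by
    rw [hy]
    have : g * x i * g⁻¹ * (g * x i * g⁻¹) = g * (x i * x i) * g⁻¹ := by group
    rw [this, h1]
    group
  have h2' : y⁻¹ = y := inv_eq_of_mul_eq_one_left h2
  have h4 : (x i * y) ^ 4 = 1 := hx.pair i i g
  rw [commutatorElement_def, h1', h2']
  have h5 : x i * y * x i * y * (x i * y * x i * y) = 1 := by
    rw [← h4]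
    simp only [pow_succ, pow_zero, one_mul, mul_assoc]
  have h6 : x i * (y * x i * y) * (x i * (y * x i * y)) = 1 := by
    rw [← h5]
    simp only [mul_assoc]
  have h7 : (x i * (y * x i * y))⁻¹ = x i * (y * x i * y) := inv_eq_of_mul_eq_one_left h6
  have h8 : (y * x i * y) * x i = x i * (y * x i * y) := by
    rw [← h7]
    simp only [mul_inv_rev, h1', h2']
    group
  show x i * y * x i * y * x i = x i * (x i * y * x i * y)
  have e1 : x i * y * x i * y * x i = x i * ((y * x i * y) * x i) := by group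
  rw [e1, h8]
  group

section

variable {G : Type} [Group G] {V K : Subgroup G} {M : Type} [AddCommGroup M] (s : Sec G V K M)

theorem ENV_pi_one : s.pi 1 = 0 := by
  have h := s.mul 1 1
  rw [one_mul] at h
  simpa using h

theorem ENV_pi_inv (v : V) : s.pi v⁻¹ = - s.pi v := by
  have h := s.mul v⁻¹ v
  rw [inv_mul_cancel, ENV_pi_one] at h
  exact eq_neg_of_add_eq_zero_left h.symm

/-- Preimage of an additive subgroup of `M`. -/
def ENV_pre (T : AddSubgroup M) : Subgroup G where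
  carrier := {v | ∃ h : v ∈ V, s.pi ⟨v, h⟩ ∈ T}
  mul_mem' := by
    rintro a b ⟨ha, ha'⟩ ⟨hb, hb'⟩
    refine ⟨V.mul_mem ha hb, ?_⟩
    have := s.mul ⟨a, ha⟩ ⟨b, hb⟩
    have e : (⟨a * b, V.mul_mem ha hb⟩ : V) = ⟨a, ha⟩ * ⟨b, hb⟩ := rfl
    rw [e, this]
    exact T.add_mem ha' hb'
  one_mem' := ⟨V.one_mem, by
    have e : (⟨1, V.one_mem⟩ : V) = 1 := rfl
    rw [e, ENV_pi_one]
    exact T.zero_mem⟩
  inv_mem' := by
    rintro a ⟨ha, ha'⟩
    refine ⟨V.inv_mem ha, ?_⟩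
    have e : (⟨a⁻¹, V.inv_mem ha⟩ : V) = (⟨a, ha⟩ : V)⁻¹ := rfl
    rw [e, ENV_pi_inv]
    exact T.neg_mem ha'

/-- Image of a subgroup. -/
def ENV_im (A : Subgroup G) : AddSubgroup M where
  carrier := {y | ∃ (v : G) (h : v ∈ V), v ∈ A ∧ s.pi ⟨v, h⟩ = y}
  add_mem' := by
    rintro a b ⟨v, hv, hA, rfl⟩ ⟨w, hw, hA', rfl⟩
    refine ⟨v * w, V.mul_mem hv hw, A.mul_mem hA hA', ?_⟩
    exact s.mul ⟨v, hv⟩ ⟨w, hw⟩
  zero_mem' := ⟨1, V.one_mem, A.one_mem, ENV_pi_one s⟩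
  neg_mem' := by
    rintro a ⟨v, hv, hA, rfl⟩
    exact ⟨v⁻¹, V.inv_mem hv, A.inv_mem hA, ENV_pi_inv s ⟨v, hv⟩⟩

/-- Twice the image. -/
def ENV_two (T : AddSubgroup M) : AddSubgroup M := T.map (nsmulAddMonoidHom 2)

theorem ENV_comm (hV : V.Normal) (v : G) (hv : v ∈ V) (g : G) (hc : ⁅v, g⁆ ∈ V) :
    s.pi ⟨⁅v, g⁆, hc⟩ = s.pi ⟨v, hv⟩ - s.rho g (s.pi ⟨v, hv⟩) := by
  have hw : g * v * g⁻¹ ∈ V := hV.conj_mem v hv g
  have h1 : s.pi ⟨g * v * g⁻¹, hw⟩ = s.rho g (s.pi ⟨v, hv⟩) := s.act g ⟨v, hv⟩ ⟨_, hw⟩ rfl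
  have e : (⟨⁅v, g⁆, hc⟩ : V) = ⟨v, hv⟩ * (⟨g * v * g⁻¹, hw⟩ : V)⁻¹ := by
    apply Subtype.ext
    show ⁅v, g⁆ = v * (g * v * g⁻¹)⁻¹
    rw [commutatorElement_def]
    group
  rw [e, s.mul, ENV_pi_inv, h1, sub_eq_add_neg]

theorem ENV_comm_mem (hV : V.Normal) (v : G) (hv : v ∈ V) (g : G) : ⁅v, g⁆ ∈ V := by
  have hw : g * v * g⁻¹ ∈ V := hV.conj_mem v hv g
  have e : ⁅v, g⁆ = v * (g * v * g⁻¹)⁻¹ := by
    rw [commutatorElement_def]
    group
  rw [e]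
  exact V.mul_mem hv (V.inv_mem hw)

theorem ENV_pre_normal (hV : V.Normal) (T : AddSubgroup M)
    (hT : ∀ g : G, ∀ t ∈ T, s.rho g t ∈ T) : (ENV_pre s T).Normal := by
  constructor
  rintro v ⟨hv, hvT⟩ g
  have hw : g * v * g⁻¹ ∈ V := hV.conj_mem v hv g
  have h1 : s.pi ⟨g * v * g⁻¹, hw⟩ = s.rho g (s.pi ⟨v, hv⟩) := s.act g ⟨v, hv⟩ ⟨_, hw⟩ rfl
  exact ⟨hw, by rw [h1]; exact hT g _ hvT⟩

theorem ENV_im_stable (hV : V.Normal) (A : Subgroup G) (hA : A.Normal) :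
    ∀ g : G, ∀ t ∈ ENV_im s A, s.rho g t ∈ ENV_im s A := by
  rintro g t ⟨v, hv, hvA, rfl⟩
  have hw : g * v * g⁻¹ ∈ V := hV.conj_mem v hv g
  have h1 : s.pi ⟨g * v * g⁻¹, hw⟩ = s.rho g (s.pi ⟨v, hv⟩) := s.act g ⟨v, hv⟩ ⟨_, hw⟩ rfl
  exact ⟨g * v * g⁻¹, hw, hA.conj_mem v hvA g, h1⟩

theorem ENV_two_stable (T : AddSubgroup M)
    (hT : ∀ g : G, ∀ t ∈ T, s.rho g t ∈ T) : ∀ g : G, ∀ t ∈ ENV_two T, s.rho g t ∈ ENV_two T := by
  rintro g t ⟨u, hu, rfl⟩
  refine ⟨s.rho g u, hT g u hu, ?_⟩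
  show (2 : ℕ) • (s.rho g u) = s.rho g ((2 : ℕ) • u)
  rw [map_nsmul]

/-- One step: `[v, g]` for `v` with `pi v = 2 pi w`. -/
theorem ENV_step (hV : V.Normal) (A B : Subgroup G) (_hAV : A ≤ V)
    (hB : B ≤ ENV_pre s (ENV_two (ENV_im s A))) :
    ⁅B, (⊤ : Subgroup G)⁆ ≤ ENV_pre s (ENV_two (ENV_im s ⁅A, (⊤ : Subgroup G)⁆)) := by
  rw [Subgroup.commutator_le]
  intro v hvB g _
  obtain ⟨hv, t, ⟨w, hw, hwA, rfl⟩, ht⟩ := hB hvB
  have hc := ENV_comm_mem hV v hv g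
  have hc' := ENV_comm_mem hV w hw g
  refine ⟨hc, s.pi ⟨⁅w, g⁆, hc'⟩, ⟨⁅w, g⁆, hc',
    Subgroup.commutator_mem_commutator hwA (Subgroup.mem_top g), rfl⟩, ?_⟩
  rw [ENV_comm s hV v hv g hc, ENV_comm s hV w hw g hc', ← ht]
  show (2 : ℕ) • (s.pi ⟨w, hw⟩ - s.rho g (s.pi ⟨w, hw⟩)) =
    (2 : ℕ) • (s.pi ⟨w, hw⟩) - s.rho g ((2 : ℕ) • (s.pi ⟨w, hw⟩))
  rw [map_nsmul, nsmul_sub]

end

theorem ENV_bot (G : Type) [Group G] (hG : Group.IsNilpotent G) (n : ℕ)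
    (h : gam G n ≤ gam G (n + 1)) : gam G n = ⊥ := by
  have h1 : ∀ k, gam G n ≤ gam G (n + k) := by
    intro k
    induction k with
    | zero => exact le_rfl
    | succ k ih =>
      have h2 : gam G (n + 1) ≤ gam G (n + k + 1) := by
        rw [ENV_succ, ENV_succ]
        exact Subgroup.commutator_mono ih le_rfl
      exact h.trans h2
  obtain ⟨N, hN⟩ := Subgroup.nilpotent_iff_lowerCentralSeries.mp hG
  have h3 : gam G (n + N) ≤ gam G N := ENV_anti G (Nat.le_add_left _ _)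
  have h4 : gam G N = ⊥ := hN
  exact le_bot_iff.mp (((h1 N).trans h3).trans h4.le)

/-- In a section of an `Inv` system `4 ρ(g) = 4`. -/
theorem ENV_four {G : Type} [Group G] {m : ℕ} (x : Fin m → G) (hx : Inv x) (V K : Subgroup G)
    (hV : V.Normal) (hK : K.Normal) (hKV : K ≤ V) (M : Type) [AddCommGroup M] (s : Sec G V K M)
    (hcub : Stmt_Cub) (g : G) (y : M) : (4 : ℕ) • (s.rho g y) = (4 : ℕ) • y := by
  have hg : g ∈ Subgroup.closure (Set.range x) := by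
    rw [hx.gen]
    exact Subgroup.mem_top g
  revert y
  induction hg using Subgroup.closure_induction with
  | mem u hu =>
    obtain ⟨i, rfl⟩ := hu
    intro y
    have h1 : s.rho (x i) * s.rho (x i) = 1 := by
      rw [← map_mul, hx.inv i, map_one]
    have h2 := hcub G V K M s hV hK hKV (x i) (ENV_L3 x hx i)
    have h3 : (s.rho (x i) - 1) ^ 3 = 4 * s.rho (x i) - 4 := by
      have h3' : (s.rho (x i) - 1) ^ 3 = s.rho (x i) * s.rho (x i) * s.rho (x i)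
          - 3 * (s.rho (x i) * s.rho (x i)) + 3 * s.rho (x i) - 1 := by noncomm_ring
      rw [h3', h1, one_mul, mul_one]
      have h9 : (4 : AddMonoid.End M) * s.rho (x i) = 3 * s.rho (x i) + s.rho (x i) := by
        rw [show (4 : AddMonoid.End M) = 3 + 1 by norm_num, add_mul, one_mul]
      have h10 : (4 : AddMonoid.End M) = 3 + 1 := by norm_num
      rw [h9, h10]
      abel
    rw [h3] at h2
    have h4 : (4 : AddMonoid.End M) * s.rho (x i) = 4 := sub_eq_zero.mp h2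
    have h5 := DFunLike.congr_fun h4 y
    have h6 : ∀ z : M, (4 : AddMonoid.End M) z = (4 : ℕ) • z := fun z => by
      simp
    have h11 : ((4 : AddMonoid.End M) * s.rho (x i)) y = (4 : AddMonoid.End M) (s.rho (x i) y) :=
      rfl
    rw [h11, h6, h6] at h5
    exact h5
  | one => intro y; simp
  | mul a b _ _ ha hb =>
    intro y
    rw [map_mul]
    show (4 : ℕ) • (s.rho a (s.rho b y)) = _
    rw [ha, hb]
  | inv a _ ha =>
    intro y
    have h7 := ha (s.rho a⁻¹ y)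
    have h8 : s.rho a (s.rho a⁻¹ y) = y := by
      have h9 : (s.rho a * s.rho a⁻¹) y = y := by
        rw [← map_mul, mul_inv_cancel, map_one]
        rfl
      exact h9
    rw [h8] at h7
    exact h7.symm

theorem env_proof (hsec : Stmt_Sec) (hcub : Stmt_Cub) (hsit : Stmt_Sit) (hcg : Stmt_CG) :
    Stmt_Env := by
  intro m k
  refine ⟨4 * k + 2, ?_⟩
  intro G _ x hG hx hNW
  apply ENV_bot G hG
  set n := 2 * k + 1 with hn
  -- the first section
  have hVn : (gam G n).Normal := ENV_normal G n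
  have hKn : (gam G (n + n + 1)).Normal := ENV_normal G _
  have hKV : gam G (n + n + 1) ≤ gam G n := ENV_anti G (by omega)
  obtain ⟨M, _, ⟨s⟩⟩ := hsec G (gam G n) (gam G (n + n + 1)) hVn hKn hKV (hcg G n n)
  have h4 := ENV_four x hx (gam G n) (gam G (n + n + 1)) hVn hKn hKV M s hcub
  -- `4 M_1 = 0`
  have hM1 : ∀ v (hv : v ∈ gam G n), v ∈ gam G (n + 1) → (4 : ℕ) • s.pi ⟨v, hv⟩ = 0 := by
    have : gam G (n + 1) ≤ ENV_pre s (nsmulAddMonoidHom (α := M) 4).ker := by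
      rw [ENV_succ, Subgroup.commutator_le]
      intro v hv g _
      have hc := ENV_comm_mem hVn v hv g
      refine ⟨hc, ?_⟩
      rw [AddMonoidHom.mem_ker, ENV_comm s hVn v hv g hc]
      show (4 : ℕ) • (s.pi ⟨v, hv⟩ - s.rho g (s.pi ⟨v, hv⟩)) = 0
      rw [nsmul_sub, h4, sub_self]
    intro v hv hv1
    obtain ⟨_, h⟩ := this hv1
    exact h
  -- the second section
  set T : AddSubgroup M := ENV_two (ENV_im s (gam G (n + 1))) with hT
  have hTs : ∀ g : G, ∀ t ∈ T, s.rho g t ∈ T :=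
    ENV_two_stable s _ (ENV_im_stable s hVn _ (ENV_normal G _))
  have hPn : (ENV_pre s T).Normal := ENV_pre_normal s hVn T hTs
  have hV'n : (gam G (n + 1)).Normal := ENV_normal G _
  have hK'n : (gam G (n + 1) ⊓ ENV_pre s T).Normal := by
    have := hPn
    have := hV'n
    infer_instance
  have hKpre : gam G (n + n + 1) ≤ ENV_pre s T := by
    intro v hv
    refine ⟨hKV hv, ?_⟩
    rw [(s.ker ⟨v, hKV hv⟩).mpr hv]
    exact T.zero_mem
  have hcomm : ⁅gam G (n + 1), gam G (n + 1)⁆ ≤ gam G (n + 1) ⊓ ENV_pre s T := by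
    have h1 := hcg G (n + 1) (n + 1)
    refine le_inf (h1.trans (ENV_anti G (by omega))) (h1.trans ((ENV_anti G (by omega)).trans hKpre))
  obtain ⟨M', _, ⟨s'⟩⟩ := hsec G (gam G (n + 1)) (gam G (n + 1) ⊓ ENV_pre s T) hV'n hK'n
    inf_le_left hcomm
  have hsq : ∀ v ∈ gam G (n + 1), v * v ∈ gam G (n + 1) ⊓ ENV_pre s T := by
    intro v hv
    have hvV : v ∈ gam G n := ENV_anti G (Nat.le_succ n) hv
    refine ⟨(gam G (n + 1)).mul_mem hv hv, (gam G n).mul_mem hvV hvV, ?_⟩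
    refine ⟨s.pi ⟨v, hvV⟩, ⟨v, hvV, hv, rfl⟩, ?_⟩
    have := s.mul ⟨v, hvV⟩ ⟨v, hvV⟩
    show (2 : ℕ) • (s.pi ⟨v, hvV⟩) = _
    rw [two_nsmul]
    exact this.symm
  have hNW' := hNW (gam G (n + 1)) (gam G (n + 1) ⊓ ENV_pre s T) M' s' hV'n hK'n inf_le_left
    hcomm hsq
  have hit := (hsit G m x (gam G (n + 1)) (gam G (n + 1) ⊓ ENV_pre s T) M' s' hV'n hK'n
    inf_le_left hx.gen).1 k hNW'
  rw [ENV_it] at hit
  -- descent
  have hd : ∀ j, gam G (n + 1 + k + j) ≤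
      ENV_pre s (ENV_two (ENV_im s (gam G (n + 1 + j)))) := by
    intro j
    induction j with
    | zero => exact hit.trans inf_le_right
    | succ j ih =>
      exact ENV_step s hVn (gam G (n + 1 + j)) (gam G (n + 1 + k + j))
        (ENV_anti G (by omega)) ih
  have hfin : gam G (n + 1 + k + k) ≤ gam G (n + n + 1) := by
    intro v hv
    obtain ⟨hvV, t, ⟨w, hwV, hw, rfl⟩, ht⟩ := hd k hv
    have hw' : w ∈ gam G (n + 1 + k + 0) := hw
    obtain ⟨_, t', ⟨w', hwV', hw1, rfl⟩, ht'⟩ := hd 0 hw'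
    have ht2 : (2 : ℕ) • s.pi ⟨w, hwV⟩ = s.pi ⟨v, hvV⟩ := ht
    have ht3 : (2 : ℕ) • s.pi ⟨w', hwV'⟩ = s.pi ⟨w, hwV⟩ := ht'
    have h0 := hM1 w' hwV' hw1
    have h5 : s.pi ⟨v, hvV⟩ = 0 := by
      rw [← ht2, ← ht3, ← mul_nsmul]
      exact h0
    exact (s.ker ⟨v, hvV⟩).mp h5
  have e1 : n + 1 + k + k = 4 * k + 2 := by omega
  have e2 : n + n + 1 = 4 * k + 2 + 1 := by omega
  rw [e1, e2] at hfin
  exact hfin

end Pool.Agent.L3E
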