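import Pool.Agent.L3E.Stmts

set_option autoImplicit false

/-!
# L3E module FIN: class bound for groups generated by left 3-Engel elements
-/

namespace Pool.Agent.L3E

open Pool.Agent.KOS (ev Com)
open scoped commutatorElement

namespace FIN_

variable {G : Type} [Group G]

theorem it_mono {A B : Subgroup G} (h : A ≤ B) (k : ℕ) : it A k ≤ it B k := by
  induction k with
  | zero => exact h
  | succ n ih => exact Subgroup.commutator_mono ih le_rfl

theorem it_add (A : Subgroup G) (a b : ℕ) : it A (a + b) = it (it A a) b := by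
  induction b with
  | zero => rfl
  | succ n ih =>
    show ⁅it A (a + n), (⊤ : Subgroup G)⁆ = ⁅it (it A a) n, (⊤ : Subgroup G)⁆
    rw [ih]

theorem gam_it (N : Subgroup G) (c : ℕ) (h : gam G c ≤ N) (j : ℕ) :
    gam G (c + j) ≤ it N j := by
  induction j with
  | zero => exact h
  | succ n ih =>
    show ⁅gam G (c + n), (⊤ : Subgroup G)⁆ ≤ ⁅it N n, (⊤ : Subgroup G)⁆
    exact Subgroup.commutator_mono ih le_rfl

theorem lcs_normal (N : Subgroup G) (hN : N.Normal) (i : ℕ) :
    (N.lowerCentralSeries i).Normal := by
  induction i with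
  | zero => exact hN
  | succ n ih =>
    rw [Subgroup.lowerCentralSeries_succ]
    haveI := ih
    haveI := hN
    exact Subgroup.commutator_normal _ _

theorem L3_map {H : Type} [Group H] (f : G →* H) (hf : Function.Surjective f) (x : G)
    (hx : L3 x) : L3 (f x) := by
  intro h
  obtain ⟨g, rfl⟩ := hf h
  have h1 := (hx g).map f
  rw [map_commutatorElement, map_mul, map_mul, map_inv] at h1
  exact h1

/-- conjugates of a left 3-Engel element form a sandwich set -/
theorem sand_comm (x : G) (hx : L3 x) (g h : G) :
    Commute ⁅g * x * g⁻¹, h * x * h⁻¹⁆ (g * x * g⁻¹) := by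
  have h1 := (hx (g⁻¹ * h)).map (MulAut.conj g).toMonoidHom
  have e1 : (MulAut.conj g).toMonoidHom ⁅x, g⁻¹ * h * x * (g⁻¹ * h)⁻¹⁆ =
      ⁅g * x * g⁻¹, h * x * h⁻¹⁆ := by
    rw [map_commutatorElement]
    simp only [MulEquiv.toMonoidHom_eq_coe, MonoidHom.coe_coe, MulAut.conj_apply]
    congr 1
    group
  have e2 : (MulAut.conj g).toMonoidHom x = g * x * g⁻¹ := by
    simp
  rw [e1, e2] at h1
  exact h1

end FIN_

theorem fin_proof (h1 : Stmt_Snd) (h2 : Stmt_US) (h3 : Stmt_Gen) : Stmt_Fin := by
  intro d
  induction d with
  | zero =>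
    refine ⟨0, fun G _ x _ hx _ => ?_⟩
    have hr : Set.range x = ∅ := Set.range_eq_empty x
    rw [hr, Subgroup.closure_empty] at hx
    show (⊤ : Subgroup G) = ⊥
    exact hx.symm
  | succ d ih =>
    obtain ⟨c, hc⟩ := ih
    obtain ⟨k, hk⟩ := h2 (d + 1) c
    obtain ⟨M, hM⟩ := h3 (d + 1) 1 k
    obtain ⟨s, hs⟩ := h1 M
    refine ⟨c + k * s, fun G _ x hnil hgen hL => ?_⟩
    set N : Subgroup G := Subgroup.normalClosure {x 0} with hN
    have hNn : N.Normal := Subgroup.normalClosure_normal
    have hx0 : x 0 ∈ N := Subgroup.subset_normalClosure rfl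
    -- the quotient
    have hq : gam (G ⧸ N) c = ⊥ := by
      apply hc (G ⧸ N) (fun i => QuotientGroup.mk' N (x i.succ))
      · infer_instance
      · rw [eq_top_iff]
        have e1 : (⊤ : Subgroup (G ⧸ N)) = Subgroup.map (QuotientGroup.mk' N) ⊤ := by
          rw [Subgroup.map_top_of_surjective _ (QuotientGroup.mk'_surjective N)]
        rw [e1, ← hgen, MonoidHom.map_closure, Subgroup.closure_le]
        rintro _ ⟨_, ⟨i, rfl⟩, rfl⟩
        refine Fin.cases ?_ (fun j => ?_) i
        · have : QuotientGroup.mk' N (x 0) = 1 := (QuotientGroup.eq_one_iff _).mpr hx0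
          rw [this]
          exact Subgroup.one_mem _
        · exact Subgroup.subset_closure ⟨j, rfl⟩
      · intro i
        exact FIN_.L3_map _ (QuotientGroup.mk'_surjective N) _ (hL i.succ)
    have hgN : gam G c ≤ N := by
      have e1 : (gam G c).map (QuotientGroup.mk' N) = ⊥ := by
        unfold gam at hq ⊢
        rw [Subgroup.map_lowerCentralSeries,
          Subgroup.map_top_of_surjective _ (QuotientGroup.mk'_surjective N)]
        exact hq
      rw [Subgroup.map_eq_bot_iff, QuotientGroup.ker_mk'] at e1
      exact e1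
    -- the section `N / [N, N]`
    have hNN : it N k ≤ ⁅N, N⁆ := by
      apply hk G x hgen hL N ⁅N, N⁆ hNn
      · haveI := hNn
        exact Subgroup.commutator_normal _ _
      · haveI := hNn
        exact Subgroup.commutator_le_left N N
      · exact le_rfl
      · exact Subgroup.commutator_mono le_rfl hgN
    obtain ⟨y, hy1, hy2⟩ := hM G x (fun _ => x 0) N hnil hgen (by
      rw [hN, Set.range_const]) hNN
    -- the class of `N`
    have hyN : ∀ l, y l ∈ N := by
      intro l
      obtain ⟨_, g, hg⟩ := hy1 l
      rw [hg]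
      exact hNn.conj_mem _ hx0 g
    have hNs : N.lowerCentralSeries s = ⊥ := by
      have e1 : gam N s = ⊥ := by
        apply hs N {u : N | ∃ g : G, (u : G) = g * x 0 * g⁻¹} (fun l => ⟨y l, hyN l⟩)
        · infer_instance
        · constructor
          · rintro u ⟨g, hg⟩ n
            refine ⟨n * g, ?_⟩
            push_cast
            rw [hg]
            group
          · rintro u ⟨g, hg⟩ v ⟨h, hh⟩
            have := FIN_.sand_comm (x 0) (hL 0) g h
            rw [← hg, ← hh] at this
            apply Subtype.ext
            have e := this.eq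
            simpa [commutatorElement_def] using e
        · intro l
          obtain ⟨_, g, hg⟩ := hy1 l
          exact ⟨g, hg⟩
        · apply Subgroup.map_injective N.subtype_injective
          rw [MonoidHom.map_closure, ← Set.range_comp]
          have e2 : (N.subtype ∘ fun l => (⟨y l, hyN l⟩ : N)) = y := by
            funext l; rfl
          rw [e2, hy2, ← MonoidHom.range_eq_map, Subgroup.range_subtype]
      rw [← Subgroup.top_subtype_lowerCentralSeries]
      unfold gam at e1
      rw [e1, Subgroup.map_bot]
    -- the steps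
    have hstep : ∀ i, it (N.lowerCentralSeries i) k ≤ N.lowerCentralSeries (i + 1) := by
      intro i
      apply hk G x hgen hL _ _ (FIN_.lcs_normal N hNn i) (FIN_.lcs_normal N hNn (i + 1))
      · exact N.lowerCentralSeries_antitone (Nat.le_succ i)
      · rw [Subgroup.lowerCentralSeries_succ]
        exact Subgroup.commutator_mono le_rfl (N.lowerCentralSeries_le_self i)
      · rw [Subgroup.lowerCentralSeries_succ]
        exact Subgroup.commutator_mono le_rfl hgN
    have hit : ∀ i, it N (k * i) ≤ N.lowerCentralSeries i := by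
      intro i
      induction i with
      | zero => exact le_rfl
      | succ n ihn =>
        rw [Nat.mul_succ, FIN_.it_add]
        exact (FIN_.it_mono ihn k).trans (hstep n)
    rw [eq_bot_iff]
    calc gam G (c + k * s) ≤ it N (k * s) := FIN_.gam_it N c hgN _
      _ ≤ N.lowerCentralSeries s := hit s
      _ = ⊥ := hNs

end Pool.Agent.L3E
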