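import Pool.Agent.L3E.Stmts

set_option autoImplicit false

/-!
# L3E, module FS: the exact identity `X Y X C X Y X = 0`
-/

namespace Pool.Agent.L3E

open Pool.Agent.KOS (ev Com)
open scoped commutatorElement

namespace FS_

theorem form {R : Type} [Ring R] (h2 : (2 : R) = 0) (Z C : R) (hZ : Z * Z = 0) (hC : C * C = 0)
    (hZC : Z * C * Z * C = 0) :
    Z * C * Z = Z + ((C + 1) * (Z + 1) * (C + 1) - 1) +
      ((Z + 1) * (C + 1) * (Z + 1) * (C + 1) - 1) := by
  have e : Z + ((C + 1) * (Z + 1) * (C + 1) - 1) +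
      ((Z + 1) * (C + 1) * (Z + 1) * (C + 1) - 1) =
      Z * C * Z + Z * C * Z * C + Z * (C * C) + (Z * Z) * C + Z * Z +
        2 * (C * C + C * Z * C + C * Z + 2 * (Z * C) + 2 * C + 2 * Z) := by noncomm_ring
  rw [e, h2, zero_mul, hZC, hZ, hC, mul_zero, zero_mul]
  simp only [add_zero]

theorem formL {R : Type} [Ring R] (h2 : (2 : R) = 0) (A B : R) (hA : A * A = 0) (hB : B * B = 0)
    (hAB : A * B * A * B = 0) : A * ((B + 1) * (A + 1) * (B + 1) - 1) = A * B * A := by
  have e : A * ((B + 1) * (A + 1) * (B + 1) - 1) =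
      A * B * A + A * B * A * B + A * (B * B) + (A * A) * B + A * A + 2 * (A * B) := by
    noncomm_ring
  rw [e, h2, zero_mul, hAB, hA, hB, mul_zero, zero_mul]
  simp only [add_zero]

theorem formR {R : Type} [Ring R] (h2 : (2 : R) = 0) (A B : R) (hA : A * A = 0) (hB : B * B = 0)
    (hAB : B * A * B * A = 0) : ((B + 1) * (A + 1) * (B + 1) - 1) * A = A * B * A := by
  have e : ((B + 1) * (A + 1) * (B + 1) - 1) * A =
      A * B * A + B * A * B * A + (B * B) * A + B * (A * A) + A * A + 2 * (B * A) := by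
    noncomm_ring
  rw [e, h2, zero_mul, hAB, hA, hB, mul_zero, zero_mul]
  simp only [add_zero]

variable {G : Type} [Group G]

theorem dd_conj {m : ℕ} (x : Fin m → G) (z : G) (hz : z ∈ DD x) (g : G) :
    g * z * g⁻¹ ∈ DD x := by
  obtain ⟨i, h, rfl⟩ := hz
  exact ⟨i, g * h, by group⟩

theorem dd_inv {m : ℕ} (x : Fin m → G) (hx : Inv x) (z : G) (hz : z ∈ DD x) : z * z = 1 := by
  obtain ⟨i, h, rfl⟩ := hz
  calc h * x i * h⁻¹ * (h * x i * h⁻¹) = h * (x i * x i) * h⁻¹ := by group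
    _ = 1 := by rw [hx.inv i]; group

theorem dd_good {m : ℕ} (x : Fin m → G) (hx : Inv x) (z : G) (hz : z ∈ DD x) : Good x z := by
  refine ⟨dd_inv x hx z hz, ?_⟩
  obtain ⟨i, h, rfl⟩ := hz
  rintro _ ⟨j, g, rfl⟩
  have e : h * x i * h⁻¹ * (g * x j * g⁻¹) =
      h * (x i * ((h⁻¹ * g) * x j * (h⁻¹ * g)⁻¹)) * h⁻¹ := by group
  rw [e, conj_pow, hx.pair i j (h⁻¹ * g)]
  group

/-- the basic identity `Z C Z = Z + Z^c + ([z, c] - 1)`. -/
theorem zcz {m : ℕ} (x : Fin m → G) {R : Type} [Ring R] (ρ : G →* R) (hx : Inv x)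
    (hR : RSys x ρ) (z : G) (hz : z ∈ DD x) (c : G) (hc : Good x c) :
    (ρ z - 1) * (ρ c - 1) * (ρ z - 1) =
      (ρ z - 1) + (ρ (c * z * c) - 1) + (ρ (z * c * z * c) - 1) := by
  have h := form hR.two (ρ z - 1) (ρ c - 1) (hR.sq z (dd_good x hx z hz)) (hR.sq c hc)
    (hR.pr' c hc z hz)
  rw [sub_add_cancel, sub_add_cancel] at h
  rw [h]
  simp only [map_mul]

end FS_

open FS_

theorem fs_proof : Stmt_FS := by
  intro G _ m x R _ ρ hx hR a ha b hb c hc hcz
  have h2 := hR.two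
  have ga := dd_good x hx a ha
  have gb := dd_good x hx b hb
  have ia : a * a = 1 := ga.1
  have ib : b * b = 1 := gb.1
  have ic : c * c = 1 := hc.1
  have ib' : b⁻¹ = b := inv_eq_of_mul_eq_one_left ib
  have ic' : c⁻¹ = c := inv_eq_of_mul_eq_one_left ic
  -- y = b a b commutes with a
  have hy : b * a * b ∈ DD x := by
    have := dd_conj x a ha b
    rwa [ib'] at this
  have gy := dd_good x hx _ hy
  have iy : (b * a * b) * (b * a * b) = 1 := gy.1
  have hcomm : a * (b * a * b) = (b * a * b) * a := by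
    have h4 := ga.2 b hb
    have e4 : (a * b) ^ 4 = (a * (b * a * b)) * (a * (b * a * b)) := by
      simp only [pow_succ, pow_zero, one_mul, mul_assoc]
    rw [e4] at h4
    have h5 : (a * (b * a * b))⁻¹ = a * (b * a * b) := inv_eq_of_mul_eq_one_left h4
    rw [← h5, mul_inv_rev]
    have ia' : a⁻¹ = a := inv_eq_of_mul_eq_one_left ia
    have iy' : (b * a * b)⁻¹ = b * a * b := inv_eq_of_mul_eq_one_left iy
    rw [ia', iy']
  have hL : (ρ a - 1) * (ρ (b * a * b) - 1) = (ρ a - 1) * (ρ b - 1) * (ρ a - 1) := by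
    have h := formL h2 (ρ a - 1) (ρ b - 1) (hR.sq a ga) (hR.sq b gb) (hR.pr a ga b hb)
    rw [sub_add_cancel, sub_add_cancel] at h
    rw [map_mul, map_mul]
    exact h
  have hRr : (ρ (b * a * b) - 1) * (ρ a - 1) = (ρ a - 1) * (ρ b - 1) * (ρ a - 1) := by
    have h := formR h2 (ρ a - 1) (ρ b - 1) (hR.sq a ga) (hR.sq b gb) (hR.pr' a ga b hb)
    rw [sub_add_cancel, sub_add_cancel] at h
    rw [map_mul, map_mul]
    exact h
  set y := b * a * b with hydef
  have iy' : y⁻¹ = y := inv_eq_of_mul_eq_one_left iy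
  -- z = c y c
  have hz : c * y * c ∈ DD x := by
    have := dd_conj x y hy c
    rwa [ic'] at this
  have gz := dd_good x hx _ hz
  -- w = y (c y c) = [y, c] is good
  have gw : Good x (y * c * y * c) := by
    have h := hcz y hy
    have e : ⁅c, y⁆ = (y * c * y * c)⁻¹ := by
      rw [commutatorElement_def]
      simp only [mul_inv_rev, iy', ic', mul_assoc]
    rw [e] at h
    have h1 : (y * c * y * c) * (y * c * y * c) = 1 := by
      have := congrArg (fun t => t⁻¹) h.1
      simpa only [mul_inv_rev, inv_inv, inv_one] using this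
    have h3 : (y * c * y * c)⁻¹ = y * c * y * c := inv_eq_of_mul_eq_one_left h1
    rw [h3] at h
    exact h
  set z := c * y * c with hzdef
  set w := y * c * y * c with hwdef
  have iz : z * z = 1 := gz.1
  have iw : w * w = 1 := gw.1
  have hwyz : w = y * z := by rw [hwdef, hzdef]; simp only [mul_assoc]
  have hwzy : w = z * y := by
    have h3 : w⁻¹ = w := inv_eq_of_mul_eq_one_left iw
    have iz' : z⁻¹ = z := inv_eq_of_mul_eq_one_left iz
    rw [← h3, hwyz, mul_inv_rev, iz', iy']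
  have hwaw : w * a * w = z * a * z := by
    calc w * a * w = (z * y) * a * (y * z) := by
          conv_lhs => rw [← hwyz.symm.trans rfl]
          rw [← hwzy, ← hwyz]
      _ = z * (y * a * y) * z := by simp only [mul_assoc]
      _ = z * (a * (y * y)) * z := by rw [← hcomm]; simp only [mul_assoc]
      _ = z * a * z := by rw [iy, mul_one]
  have f1 := zcz x ρ hx hR y hy c hc
  have f2 := zcz x ρ hx hR a ha z gz
  have f3 := zcz x ρ hx hR a ha w gw
  have e5 : a * w * a * w = a * z * a * z := by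
    calc a * w * a * w = a * (w * a * w) := by simp only [mul_assoc]
      _ = a * (z * a * z) := by rw [hwaw]
      _ = a * z * a * z := by simp only [mul_assoc]
  rw [hwaw, e5] at f3
  have dbl : ∀ t : R, t + t = 0 := fun t => by rw [← two_mul, h2, zero_mul]
  have e6 : (ρ a - 1) * (ρ y - 1) * (ρ a - 1) = 0 := by
    rw [hL, mul_assoc, hR.sq a ga, mul_zero]
  calc (ρ a - 1) * (ρ b - 1) * (ρ a - 1) * (ρ c - 1) * ((ρ a - 1) * (ρ b - 1) * (ρ a - 1))
      = ((ρ a - 1) * (ρ y - 1)) * (ρ c - 1) * ((ρ y - 1) * (ρ a - 1)) := by rw [hL, hRr]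
    _ = (ρ a - 1) * ((ρ y - 1) * (ρ c - 1) * (ρ y - 1)) * (ρ a - 1) := by
        simp only [mul_assoc]
    _ = (ρ a - 1) * (ρ y - 1) * (ρ a - 1) + (ρ a - 1) * (ρ z - 1) * (ρ a - 1) +
        (ρ a - 1) * (ρ w - 1) * (ρ a - 1) := by
        rw [f1, ← hzdef, ← hwdef, mul_add, mul_add, add_mul, add_mul]
    _ = 0 := by rw [e6, f2, f3, zero_add, dbl]

end Pool.Agent.L3E
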