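import Pool.Agent.L3E.Stmts

set_option autoImplicit false

/-!
# L3E: GAM, generators of the lower central factors
-/

namespace Pool.Agent.L3E

open Pool.Agent.KOS (ev Com)
open scoped commutatorElement

namespace GAM_

variable {G : Type} [Group G]

theorem gam_succ (n : ℕ) : gam G (n + 1) = ⁅gam G n, (⊤ : Subgroup G)⁆ := rfl

theorem gam_anti (n : ℕ) : gam G (n + 1) ≤ gam G n :=
  (Subgroup.lowerCentralSeries_antitone (⊤ : Subgroup G)) (Nat.le_succ n)

/-- subgroups between two consecutive terms are normal. -/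
theorem normal_of (n : ℕ) (W : Subgroup G) (h1 : gam G (n + 1) ≤ W) (h2 : W ≤ gam G n) :
    W.Normal := by
  refine ⟨fun w hw g => ?_⟩
  have h3 : ⁅w, g⁆ ∈ W :=
    h1 (Subgroup.commutator_mem_commutator (h2 hw) (Subgroup.mem_top g))
  have e : g * w * g⁻¹ = ⁅w, g⁆⁻¹ * w := by
    rw [commutatorElement_def]; group
  rw [e]
  exact W.mul_mem (W.inv_mem h3) hw

/-- centraliser modulo a normal subgroup. -/
def cen (W : Subgroup G) [W.Normal] (g : G) : Subgroup G :=
  (Subgroup.centralizer {(QuotientGroup.mk g : G ⧸ W)}).comap (QuotientGroup.mk' W)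

theorem mem_cen (W : Subgroup G) [W.Normal] (g a : G) : a ∈ cen W g ↔ ⁅a, g⁆ ∈ W := by
  have h1 : a ∈ cen W g ↔ (QuotientGroup.mk a : G ⧸ W) * QuotientGroup.mk g =
      QuotientGroup.mk g * QuotientGroup.mk a := by
    rw [cen, Subgroup.mem_comap, Subgroup.mem_centralizer_singleton_iff, QuotientGroup.mk'_apply]
  have h2 : (QuotientGroup.mk ⁅a, g⁆ : G ⧸ W) =
      ⁅(QuotientGroup.mk a : G ⧸ W), (QuotientGroup.mk g : G ⧸ W)⁆ :=
    map_commutatorElement (QuotientGroup.mk' W) a g
  rw [h1, ← QuotientGroup.eq_one_iff, h2, commutatorElement_eq_one_iff_mul_comm]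

theorem step {m r : ℕ} (x : Fin m → G) (hx : Subgroup.closure (Set.range x) = ⊤) (t : ℕ)
    (v : Fin r → G) (hv : Subgroup.closure (Set.range v) ⊔ gam G (t + 1) = gam G t)
    (v' : Fin (r * m) → G) (hv' : ∀ l, v' l = ⁅v (finProdFinEquiv.symm l).1,
      x (finProdFinEquiv.symm l).2⁆) :
    Subgroup.closure (Set.range v') ⊔ gam G (t + 2) = gam G (t + 1) := by
  have hvt : ∀ l, v l ∈ gam G t := by
    intro l
    rw [← hv]
    exact (le_sup_left : Subgroup.closure (Set.range v) ≤ _)
      (Subgroup.subset_closure (Set.mem_range_self l))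
  have hle : Subgroup.closure (Set.range v') ⊔ gam G (t + 2) ≤ gam G (t + 1) := by
    refine sup_le ?_ (gam_anti (t + 1))
    rw [Subgroup.closure_le]
    rintro _ ⟨l, rfl⟩
    rw [hv' l]
    exact Subgroup.commutator_mem_commutator (hvt _) (Subgroup.mem_top _)
  apply le_antisymm hle
  set W := Subgroup.closure (Set.range v') ⊔ gam G (t + 2) with hW
  have hWn : W.Normal := normal_of (t + 1) W le_sup_right hle
  rw [gam_succ, Subgroup.commutator_le]
  have h1 : ∀ i, gam G t ≤ cen W (x i) := by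
    intro i
    rw [← hv]
    refine sup_le ?_ ?_
    · rw [Subgroup.closure_le]
      rintro _ ⟨l, rfl⟩
      change v l ∈ cen W (x i)
      rw [mem_cen]
      have : v' (finProdFinEquiv (l, i)) ∈ W :=
        (le_sup_left : Subgroup.closure (Set.range v') ≤ _)
          (Subgroup.subset_closure (Set.mem_range_self _))
      rw [hv', Equiv.symm_apply_apply] at this
      exact this
    · intro a ha
      rw [mem_cen]
      exact (le_sup_right : gam G (t + 2) ≤ _)
        (Subgroup.commutator_mem_commutator ha (Subgroup.mem_top _))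
  intro a ha g _
  have h2 : (⊤ : Subgroup G) ≤ cen W a := by
    rw [← hx, Subgroup.closure_le]
    rintro _ ⟨i, rfl⟩
    change x i ∈ cen W a
    rw [mem_cen]
    have := (mem_cen W (x i) a).1 (h1 i ha)
    rw [← commutatorElement_inv]
    exact W.inv_mem this
  have h3 := (mem_cen W a g).1 (h2 (Subgroup.mem_top g))
  rw [← commutatorElement_inv]
  exact W.inv_mem h3

end GAM_

open GAM_ in
theorem gam_proof : Stmt_Gam := by
  intro m t
  induction t with
  | zero =>
    refine ⟨m, fun G _ x hx => ⟨x, fun l => Or.inl ⟨l, rfl⟩, ?_⟩⟩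
    rw [hx]
    apply le_antisymm
    · exact sup_le le_rfl le_top
    · exact le_sup_left
  | succ t ih =>
    obtain ⟨r, hr⟩ := ih
    refine ⟨r * m, fun G _ x hx => ?_⟩
    obtain ⟨v, -, hv⟩ := hr G x hx
    exact ⟨fun l => ⁅v (finProdFinEquiv.symm l).1, x (finProdFinEquiv.symm l).2⁆,
      fun l => Or.inr ⟨_, _, rfl⟩, step x hx t v hv _ fun l => rfl⟩

end Pool.Agent.L3E
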