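import Pool.Agent.L3E.Stmts

set_option autoImplicit false

/-!
# L3E, module GEN: boundedly many conjugates generate
-/

namespace Pool.Agent.L3E

open Pool.Agent.KOS (ev Com)
open scoped commutatorElement

namespace GEN_

/-- In a nilpotent normal subgroup `N`, `N = H [N, N]` implies `N = H`. -/
theorem frattini {G : Type} [Group G] (N H : Subgroup G) (hNn : N.Normal) (hHN : H ≤ N)
    (hN : ∃ c, N.lowerCentralSeries c = ⊥) (h : N ≤ H ⊔ ⁅N, N⁆) : N ≤ H := by
  obtain ⟨c, hc⟩ := hN
  have key : ∀ j, N ≤ H ⊔ N.lowerCentralSeries j := by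
    intro j
    induction j with
    | zero => exact le_sup_right
    | succ j ih =>
      have hn0 : (N.lowerCentralSeries j).Normal := inferInstance
      have hn1 : (N.lowerCentralSeries (j + 1)).Normal := inferInstance
      have h1 : ⁅N, N⁆ ≤ H ⊔ N.lowerCentralSeries (j + 1) := by
        rw [Subgroup.commutator_le]
        intro a ha b hb
        obtain ⟨a1, ha1, l1, hl1, rfl⟩ := Subgroup.mem_sup_of_normal_right.1 (ih ha)
        obtain ⟨a2, ha2, l2, hl2, rfl⟩ := Subgroup.mem_sup_of_normal_right.1 (ih hb)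
        have hcen : ∀ l ∈ N.lowerCentralSeries j, ∀ n ∈ N,
            Commute (QuotientGroup.mk' (N.lowerCentralSeries (j + 1)) l)
              (QuotientGroup.mk' (N.lowerCentralSeries (j + 1)) n) := by
          intro l hl n hn
          rw [← commutatorElement_eq_one_iff_commute, ← map_commutatorElement]
          rw [QuotientGroup.mk'_apply, QuotientGroup.eq_one_iff]
          exact Subgroup.commutator_mem_commutator hl hn
        have hl1N : l1 ∈ N := Subgroup.lowerCentralSeries_le_self N j hl1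
        have hl2N : l2 ∈ N := Subgroup.lowerCentralSeries_le_self N j hl2
        have c1 := hcen l1 hl1 a2 (hHN ha2)
        have c2 := hcen l2 hl2 a1 (hHN ha1)
        have c3 := hcen l1 hl1 l2 hl2N
        have c4 := hcen l1 hl1 a1 (hHN ha1)
        have c5 := hcen l2 hl2 a2 (hHN ha2)
        have heq : QuotientGroup.mk' (N.lowerCentralSeries (j + 1)) ⁅a1 * l1, a2 * l2⁆ =
            QuotientGroup.mk' (N.lowerCentralSeries (j + 1)) ⁅a1, a2⁆ := by
          rw [map_commutatorElement, map_commutatorElement, map_mul, map_mul]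
          generalize QuotientGroup.mk' (N.lowerCentralSeries (j + 1)) l1 = z1 at *
          generalize QuotientGroup.mk' (N.lowerCentralSeries (j + 1)) l2 = z2 at *
          generalize QuotientGroup.mk' (N.lowerCentralSeries (j + 1)) a1 = b1 at *
          generalize QuotientGroup.mk' (N.lowerCentralSeries (j + 1)) a2 = b2 at *
          rw [commutatorElement_def, commutatorElement_def]
          have e1 : b1 * z1 * (b2 * z2) = b1 * b2 * (z1 * z2) := by
            rw [mul_assoc, ← mul_assoc z1, c1.eq]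
            simp only [mul_assoc]
          have e2 : (b1 * z1)⁻¹ * (b2 * z2)⁻¹ = (z1 * z2)⁻¹ * (b1⁻¹ * b2⁻¹) := by
            rw [← mul_inv_rev, ← mul_inv_rev, ← mul_inv_rev]
            congr 1
            have f1 : b2 * z2 * (b1 * z1) = b2 * b1 * (z2 * z1) := by
              rw [mul_assoc, ← mul_assoc z2, c2.eq]
              simp only [mul_assoc]
            rw [f1, c3.eq]
          calc b1 * z1 * (b2 * z2) * (b1 * z1)⁻¹ * (b2 * z2)⁻¹
              = (b1 * z1 * (b2 * z2)) * ((b1 * z1)⁻¹ * (b2 * z2)⁻¹) := by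
                simp only [mul_assoc]
            _ = b1 * b2 * b1⁻¹ * b2⁻¹ := by
                rw [e1, e2]
                group
        have hmem : ⁅a1 * l1, a2 * l2⁆ * ⁅a1, a2⁆⁻¹ ∈ N.lowerCentralSeries (j + 1) := by
          rw [← QuotientGroup.eq_one_iff]
          have : (QuotientGroup.mk' (N.lowerCentralSeries (j + 1)))
              (⁅a1 * l1, a2 * l2⁆ * ⁅a1, a2⁆⁻¹) = 1 := by
            rw [map_mul, heq, ← map_mul, mul_inv_cancel, map_one]
          exact this
        have hcomm : ⁅a1, a2⁆ ∈ H := by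
          rw [commutatorElement_def]
          exact H.mul_mem (H.mul_mem (H.mul_mem ha1 ha2) (H.inv_mem ha1)) (H.inv_mem ha2)
        have : ⁅a1 * l1, a2 * l2⁆ = (⁅a1 * l1, a2 * l2⁆ * ⁅a1, a2⁆⁻¹) * ⁅a1, a2⁆ := by
          rw [inv_mul_cancel_right]
        rw [this]
        exact Subgroup.mul_mem _ ((le_sup_right : _ ≤ H ⊔ _) hmem) ((le_sup_left : H ≤ H ⊔ _) hcomm)
      refine h.trans (sup_le le_sup_left h1)
  have := key c
  rwa [hc, sup_bot_eq] at this

section Words

variable {M : Type} [AddCommGroup M] {m : ℕ}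

theorem ev_cons {R : Type} [Monoid R] (g : Fin m → R) (i : Fin m) (w : List (Fin m)) :
    ev g (i :: w) = g i * ev g w := by
  simp [ev]

theorem ev_long {R : Type} [Ring R] (X : Fin m → R) (k : ℕ) (h : NW X k) (w : List (Fin m))
    (hw : k ≤ w.length) : ev X w = 0 := by
  have h1 : ev X w = ev X (w.take k) * ev X (w.drop k) := by
    unfold ev
    rw [← List.prod_append, ← List.map_append, List.take_append_drop]
  rw [h1, h (w.take k) (by rw [List.length_take]; exact min_eq_left hw), zero_mul]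

/-- The additive span of the values of short words. -/
def SP {G : Type} [Group G] (rho : G →* AddMonoid.End M) (x : Fin m → G) (v : M) (n : ℕ) :
    AddSubgroup M :=
  AddSubgroup.closure {t | ∃ l : List (Fin m), l.length ≤ n ∧ t = rho (l.map x).prod v}

theorem SP_mono {G : Type} [Group G] (rho : G →* AddMonoid.End M) (x : Fin m → G) (v : M)
    {a b : ℕ} (h : a ≤ b) : SP rho x v a ≤ SP rho x v b := by
  apply AddSubgroup.closure_mono
  rintro t ⟨l, hl, rfl⟩
  exact ⟨l, hl.trans h, rfl⟩

theorem SP_step {G : Type} [Group G] (rho : G →* AddMonoid.End M) (x : Fin m → G) (v : M)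
    (n : ℕ) (i : Fin m) (t : M) (ht : t ∈ SP rho x v n) : rho (x i) t ∈ SP rho x v (n + 1) := by
  unfold SP at ht
  induction ht using AddSubgroup.closure_induction with
  | mem t ht =>
    obtain ⟨l, hl, rfl⟩ := ht
    apply AddSubgroup.subset_closure
    refine ⟨i :: l, by simpa using hl, ?_⟩
    rw [List.map_cons, List.prod_cons, map_mul]
    rfl
  | zero => rw [map_zero]; exact AddSubgroup.zero_mem _
  | add a b _ _ ha hb => rw [map_add]; exact AddSubgroup.add_mem _ ha hb
  | neg a _ ha => rw [map_neg]; exact AddSubgroup.neg_mem _ ha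

/-- The operator words are combinations of the values of short words. -/
theorem ev_mem_SP {G : Type} [Group G] (rho : G →* AddMonoid.End M) (x : Fin m → G) (v : M)
    (w : List (Fin m)) : ev (ops x rho) w v ∈ SP rho x v w.length := by
  induction w with
  | nil =>
    apply AddSubgroup.subset_closure
    refine ⟨[], le_rfl, ?_⟩
    simp [ev]
  | cons i w ih =>
    rw [ev_cons]
    have h1 : (ops x rho i * ev (ops x rho) w) v =
        rho (x i) (ev (ops x rho) w v) - ev (ops x rho) w v := by
      unfold ops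
      rw [sub_mul, one_mul]
      rfl
    rw [h1, List.length_cons]
    exact AddSubgroup.sub_mem _ (SP_step rho x v _ i _ ih)
      (SP_mono rho x v (Nat.le_succ _) ih)

/-- The additive span of all operator words on the `v l`. -/
def SOW {R : ℕ} {G : Type} [Group G] (rho : G →* AddMonoid.End M) (x : Fin m → G)
    (v : Fin R → M) : AddSubgroup M :=
  AddSubgroup.closure {t | ∃ (w : List (Fin m)) (l : Fin R), t = ev (ops x rho) w (v l)}

theorem ST_ops {R : ℕ} {G : Type} [Group G] (rho : G →* AddMonoid.End M) (x : Fin m → G)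
    (v : Fin R → M) (i : Fin m) (t : M) (ht : t ∈ SOW rho x v) :
    ops x rho i t ∈ SOW rho x v := by
  unfold SOW at ht
  induction ht using AddSubgroup.closure_induction with
  | mem t ht =>
    obtain ⟨w, l, rfl⟩ := ht
    apply AddSubgroup.subset_closure
    refine ⟨i :: w, l, ?_⟩
    rw [ev_cons]
    rfl
  | zero => rw [map_zero]; exact AddSubgroup.zero_mem _
  | add a b _ _ ha hb => rw [map_add]; exact AddSubgroup.add_mem _ ha hb
  | neg a _ ha => rw [map_neg]; exact AddSubgroup.neg_mem _ ha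

theorem ST_gen {R : ℕ} {G : Type} [Group G] (rho : G →* AddMonoid.End M) (x : Fin m → G)
    (v : Fin R → M) (i : Fin m) (t : M) (ht : t ∈ SOW rho x v) :
    rho (x i) t ∈ SOW rho x v := by
  have h1 : rho (x i) t = ops x rho i t + t := by
    unfold ops
    have : (rho (x i) - 1 : AddMonoid.End M) t = rho (x i) t - t := rfl
    rw [this, sub_add_cancel]
  rw [h1]
  exact AddSubgroup.add_mem _ (ST_ops rho x v i t ht) ht

theorem ST_pow {R : ℕ} {G : Type} [Group G] (rho : G →* AddMonoid.End M) (x : Fin m → G)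
    (v : Fin R → M) (i : Fin m) (n : ℕ) (t : M) (ht : t ∈ SOW rho x v) :
    ((-ops x rho i) ^ n : AddMonoid.End M) t ∈ SOW rho x v := by
  induction n with
  | zero => rw [pow_zero]; exact ht
  | succ n ih =>
    rw [pow_succ']
    have h1 : ((-ops x rho i) * (-ops x rho i) ^ n : AddMonoid.End M) t =
        -(ops x rho i (((-ops x rho i) ^ n : AddMonoid.End M) t)) := rfl
    rw [h1]
    exact AddSubgroup.neg_mem _ (ST_ops rho x v i _ ih)

theorem ST_inv {R : ℕ} {G : Type} [Group G] (rho : G →* AddMonoid.End M) (x : Fin m → G)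
    (v : Fin R → M) (k : ℕ) (hk : NW (ops x rho) k) (i : Fin m) (t : M)
    (ht : t ∈ SOW rho x v) : rho (x i)⁻¹ t ∈ SOW rho x v := by
  have hz : (ops x rho i) ^ k = 0 := by
    have := hk (List.replicate k i) (List.length_replicate)
    unfold ev at this
    rwa [List.map_replicate, List.prod_replicate] at this
  have hz' : (-ops x rho i) ^ k = 0 := by
    rw [neg_pow, hz, mul_zero]
  have h1 := mul_neg_geom_sum (-ops x rho i) k
  rw [hz', sub_zero, sub_neg_eq_add] at h1
  have h2 : 1 + ops x rho i = rho (x i) := by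
    unfold ops
    abel
  rw [h2] at h1
  have h3 : rho (x i)⁻¹ = ∑ n ∈ Finset.range k, (-ops x rho i) ^ n := by
    have h4 : rho (x i)⁻¹ * rho (x i) = 1 := by rw [← map_mul, inv_mul_cancel, map_one]
    calc rho (x i)⁻¹ = rho (x i)⁻¹ * (rho (x i) * ∑ n ∈ Finset.range k, (-ops x rho i) ^ n) := by
          rw [h1, mul_one]
      _ = _ := by rw [← mul_assoc, h4, one_mul]
  rw [h3]
  have h5 : (∑ n ∈ Finset.range k, (-ops x rho i) ^ n : AddMonoid.End M) t =
      ∑ n ∈ Finset.range k, ((-ops x rho i) ^ n : AddMonoid.End M) t := by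
    exact AddMonoidHom.finsetSum_apply _ _ _
  rw [h5]
  exact AddSubgroup.sum_mem _ (fun n _ => ST_pow rho x v i n t ht)

theorem ST_all {R : ℕ} {G : Type} [Group G] (rho : G →* AddMonoid.End M) (x : Fin m → G)
    (v : Fin R → M) (k : ℕ) (hk : NW (ops x rho) k)
    (hx : Subgroup.closure (Set.range x) = ⊤) (g : G) :
    (∀ t ∈ SOW rho x v, rho g t ∈ SOW rho x v) ∧ ∀ t ∈ SOW rho x v, rho g⁻¹ t ∈ SOW rho x v := by
  have hg : g ∈ Subgroup.closure (Set.range x) := by rw [hx]; trivial
  induction hg using Subgroup.closure_induction with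
  | mem g hg =>
    obtain ⟨i, rfl⟩ := hg
    exact ⟨fun t ht => ST_gen rho x v i t ht, fun t ht => ST_inv rho x v k hk i t ht⟩
  | one =>
    rw [inv_one, map_one]
    exact ⟨fun t ht => ht, fun t ht => ht⟩
  | mul a b _ _ ha hb =>
    rw [mul_inv_rev, map_mul, map_mul]
    exact ⟨fun t ht => ha.1 _ (hb.1 _ ht), fun t ht => hb.2 _ (ha.2 _ ht)⟩
  | inv a _ ha =>
    rw [inv_inv]
    exact ⟨ha.2, ha.1⟩

end Words

end GEN_

open GEN_ in
theorem gen_proof (hSec : Stmt_Sec) (hSit : Stmt_Sit) : Stmt_Gen := by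
  intro m r k
  have hfin : Finite {l : List (Fin m) // l.length ≤ k} :=
    (List.finite_length_le (Fin m) k).to_subtype
  refine ⟨Nat.card (Fin r × {l : List (Fin m) // l.length ≤ k}), ?_⟩
  intro G _ x y N hnil hx hNdef hit
  have hNn : N.Normal := by rw [hNdef]; infer_instance
  have hKn : (⁅N, N⁆).Normal := inferInstance
  have hKN : ⁅N, N⁆ ≤ N := Subgroup.commutator_le_self N
  have e := Finite.equivFin (Fin r × {l : List (Fin m) // l.length ≤ k})
  have hyN : ∀ i, y i ∈ N := fun i => by
    rw [hNdef]; exact Subgroup.subset_normalClosure ⟨i, rfl⟩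
  refine ⟨fun a => ((e.symm a).2.1.map x).prod * y (e.symm a).1 * ((e.symm a).2.1.map x).prod⁻¹,
    fun l => ⟨_, _, rfl⟩, ?_⟩
  set y' : Fin (Nat.card (Fin r × {l : List (Fin m) // l.length ≤ k})) → G :=
    fun a => ((e.symm a).2.1.map x).prod * y (e.symm a).1 * ((e.symm a).2.1.map x).prod⁻¹ with hy'
  have hHN : Subgroup.closure (Set.range y') ≤ N := by
    rw [Subgroup.closure_le]
    rintro _ ⟨a, rfl⟩
    exact hNn.conj_mem _ (hyN _) _
  have hmemH : ∀ (i : Fin r) (l : List (Fin m)), l.length ≤ k →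
      (l.map x).prod * y i * (l.map x).prod⁻¹ ∈ Subgroup.closure (Set.range y') := by
    intro i l hl
    apply Subgroup.subset_closure
    refine ⟨e (i, ⟨l, hl⟩), ?_⟩
    simp only [hy', Equiv.symm_apply_apply]
  apply le_antisymm hHN
  apply frattini N _ hNn hHN
  · -- nilpotency
    have := (Subgroup.isNilpotent_iff_lowerCentralSeries N).1 inferInstance
    exact this
  -- the section
  obtain ⟨M, instM, ⟨s⟩⟩ := hSec G N ⁅N, N⁆ hNn hKn hKN le_rfl
  have hNW : NW (ops x s.rho) k := (hSit G m x N ⁅N, N⁆ M s hNn hKn hKN hx).2 k hit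
  set v : Fin r → M := fun i => s.pi ⟨y i, hyN i⟩ with hv
  have pi_one : s.pi 1 = 0 := by
    have := s.mul 1 1
    rw [mul_one] at this
    exact left_eq_add.1 this
  have pi_inv : ∀ a : N, s.pi a⁻¹ = - s.pi a := by
    intro a
    have := s.mul a⁻¹ a
    rw [inv_mul_cancel, pi_one] at this
    exact eq_neg_of_add_eq_zero_left this.symm
  -- the image of `H`
  let P : AddSubgroup M :=
    { carrier := {t | ∃ h : N, (h : G) ∈ Subgroup.closure (Set.range y') ∧ s.pi h = t}
      zero_mem' := ⟨1, Subgroup.one_mem _, pi_one⟩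
      add_mem' := by
        rintro a b ⟨h1, hh1, rfl⟩ ⟨h2, hh2, rfl⟩
        exact ⟨h1 * h2, Subgroup.mul_mem _ hh1 hh2, s.mul h1 h2⟩
      neg_mem' := by
        rintro a ⟨h1, hh1, rfl⟩
        exact ⟨h1⁻¹, Subgroup.inv_mem _ hh1, pi_inv h1⟩ }
  have hSP : ∀ i : Fin r, SP s.rho x (v i) k ≤ P := by
    intro i
    unfold SP
    rw [AddSubgroup.closure_le]
    rintro t ⟨l, hl, rfl⟩
    refine ⟨⟨(l.map x).prod * y i * (l.map x).prod⁻¹, hNn.conj_mem _ (hyN i) _⟩, hmemH i l hl, ?_⟩
    exact s.act _ ⟨y i, hyN i⟩ _ rfl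
  have hST : SOW s.rho x v ≤ P := by
    unfold SOW
    rw [AddSubgroup.closure_le]
    rintro t ⟨w, i, rfl⟩
    by_cases hw : w.length ≤ k
    · exact hSP i (SP_mono s.rho x (v i) hw (ev_mem_SP s.rho x (v i) w))
    · rw [ev_long _ k hNW w (by omega)]
      exact P.zero_mem
  have htop : ∀ n (hn : n ∈ N), s.pi ⟨n, hn⟩ ∈ SOW s.rho x v := by
    have h0 : ∀ n, n ∈ Subgroup.normalClosure (Set.range y) → ∀ hn : n ∈ N,
        s.pi ⟨n, hn⟩ ∈ SOW s.rho x v := by
      intro n hn0
      unfold Subgroup.normalClosure at hn0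
      induction hn0 using Subgroup.closure_induction with
      | mem n hn1 =>
        intro hn
        rw [Group.mem_conjugatesOfSet_iff] at hn1
        obtain ⟨_, ⟨i, rfl⟩, hc⟩ := hn1
        rw [isConj_iff] at hc
        obtain ⟨c, hc⟩ := hc
        have h1 := s.act c ⟨y i, hyN i⟩ ⟨n, hn⟩ hc.symm
        rw [h1]
        apply (ST_all s.rho x v k hNW hx c).1
        apply AddSubgroup.subset_closure
        exact ⟨[], i, by simp [ev, hv]⟩
      | one =>
        intro hn
        have : (⟨1, hn⟩ : N) = 1 := rfl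
        rw [this, pi_one]
        exact AddSubgroup.zero_mem _
      | mul a b ha hb iha ihb =>
        intro hn
        have ha' : a ∈ N := by rw [hNdef]; exact ha
        have hb' : b ∈ N := by rw [hNdef]; exact hb
        have : (⟨a * b, hn⟩ : N) = ⟨a, ha'⟩ * ⟨b, hb'⟩ := rfl
        rw [this, s.mul]
        exact AddSubgroup.add_mem _ (iha ha') (ihb hb')
      | inv a ha iha =>
        intro hn
        have ha' : a ∈ N := by rw [hNdef]; exact ha
        have : (⟨a⁻¹, hn⟩ : N) = (⟨a, ha'⟩ : N)⁻¹ := rfl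
        rw [this, pi_inv]
        exact AddSubgroup.neg_mem _ (iha ha')
    intro n hn
    exact h0 n (by rw [← hNdef]; exact hn) hn
  intro n hn
  obtain ⟨h, hh, hhe⟩ := hST (htop n hn)
  have h1 : s.pi (⟨n, hn⟩ * h⁻¹) = 0 := by
    rw [s.mul, pi_inv, hhe, add_neg_cancel]
  have h2 := (s.ker _).1 h1
  have h3 : n = (n * (h : G)⁻¹) * h := by rw [inv_mul_cancel_right]
  rw [h3]
  exact Subgroup.mul_mem _ ((le_sup_right : ⁅N, N⁆ ≤ _ ⊔ ⁅N, N⁆) h2)
    ((le_sup_left : _ ≤ _ ⊔ ⁅N, N⁆) hh)

end Pool.Agent.L3E
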