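import Pool.Agent.L3E.Stmts

set_option autoImplicit false

/-! # MAIN: the frozen statement from the class bound -/

namespace Pool.Agent.L3E

theorem main_proof (h1 : Stmt_Fin) (h2 : Stmt_Eng) : Stmt_Main := by
  choose f hf using h1
  refine ⟨f, fun d G _ g hG hgen hL => ?_⟩
  have h3 := hf d G g hG hgen (fun i => h2 G (g i) (hL i))
  exact Subgroup.lowerCentralSeries_eq_bot_iff_upperCentralSeries_eq_top.mp h3

end Pool.Agent.L3E
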