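import Pool.Agent.L3E.Stmts

set_option autoImplicit false

/-!
# L3E module MLI: the span of all `ρ c - 1` is a Lie ring
-/

namespace Pool.Agent.L3E

open Pool.Agent.KOS (ev Com)
open scoped commutatorElement

namespace MLI_

section ring

variable {R : Type} [Ring R]

theorem add_self (h2 : (2 : R) = 0) (a : R) : a + a = 0 := by
  rw [← two_mul, h2, zero_mul]

/-- the commutator of two involutions -/
theorem dd (h2 : (2 : R) = 0) {C Z : R} (hC : C * C = 0) (hZ : Z * Z = 0)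
    (hp : C * Z * C * Z = 0) :
    (1 + C) * (1 + Z) * (1 + C) * (1 + Z) - 1 = C * Z + Z * C + Z * C * Z + C * Z * C := by
  have e : (1 + C) * (1 + Z) * (1 + C) * (1 + Z) - 1 -
      (C * Z + Z * C + Z * C * Z + C * Z * C) =
      2 * (C + Z + C * Z) + C * C + C * C * Z + Z * Z + C * (Z * Z) + C * Z * C * Z := by
    noncomm_ring
  rw [h2, hC, hZ, hp] at e
  simp only [zero_mul, mul_zero, add_zero] at e
  exact sub_eq_zero.mp e

theorem conj (h2 : (2 : R) = 0) {C Z : R} (hZ : Z * Z = 0) :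
    (1 + Z) * (1 + C) * (1 + Z) - 1 = (1 + Z) * C * (1 + Z) := by
  have e : (1 + Z) * (1 + C) * (1 + Z) - 1 - (1 + Z) * C * (1 + Z) = 2 * Z + Z * Z := by
    noncomm_ring
  rw [h2, hZ, zero_mul, add_zero] at e
  exact sub_eq_zero.mp e

theorem zcz (h2 : (2 : R) = 0) {C Z : R} (hC : C * C = 0) (hZ : Z * Z = 0)
    (hp : C * Z * C * Z = 0) :
    Z * C * Z = Z + ((1 + C) * (1 + Z) * (1 + C) - 1) +
      ((1 + C) * (1 + Z) * (1 + C) * (1 + Z) - 1) := by
  rw [dd h2 hC hZ hp, conj h2 hC]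
  have e : Z + (1 + C) * Z * (1 + C) + (C * Z + Z * C + Z * C * Z + C * Z * C) - Z * C * Z =
      2 * (Z + C * Z + Z * C + C * Z * C) := by
    noncomm_ring
  rw [h2, zero_mul] at e
  exact (sub_eq_zero.mp e).symm

theorem comm (h2 : (2 : R) = 0) {C Z : R} (hZ : Z * Z = 0) :
    C * Z - Z * C = C + ((1 + Z) * (1 + C) * (1 + Z) - 1) + Z * C * Z := by
  rw [conj h2 hZ]
  have e : C + (1 + Z) * C * (1 + Z) + Z * C * Z - (C * Z - Z * C) =
      2 * (C + Z * C + Z * C * Z) := by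
    noncomm_ring
  rw [h2, zero_mul] at e
  exact (sub_eq_zero.mp e).symm

end ring

end MLI_

theorem mli_proof (h1 : Stmt_Law) : Stmt_Mli := by
  intro G _ m x R _ ρ hx hlaw hR
  obtain ⟨l1, l2, l3, -, -, l6, -⟩ := h1 G m x hx
  set S : Set R := {y | ∃ n, ∃ c ∈ LL x n, y = ρ c - 1} with hS
  set M : AddSubgroup R := AddSubgroup.closure S with hM
  have hgood : ∀ n, ∀ c ∈ LL x n, Good x c := fun n c hc => l6 n (hlaw n) (hlaw (n + 1)) c hc
  have hmem : ∀ n, ∀ c ∈ LL x n, ρ c - 1 ∈ M := fun n c hc =>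
    AddSubgroup.subset_closure ⟨n, c, hc, rfl⟩
  have hmemD : ∀ z ∈ DD x, ρ z - 1 ∈ M := fun z hz => hmem 0 z hz
  have hinv : ∀ c : G, c * c = 1 → c⁻¹ = c := fun c hc => inv_eq_of_mul_eq_one_left hc
  have h2 := hR.two
  have hρ : ∀ c : G, ρ c = 1 + (ρ c - 1) := fun c => by rw [add_sub_cancel]
  -- the two basic formulas
  have f1 : ∀ n, ∀ c ∈ LL x n, ∀ z ∈ DD x, (ρ z - 1) * (ρ c - 1) * (ρ z - 1) =
      (ρ z - 1) + (ρ (c * z * c⁻¹) - 1) + (ρ ⁅c, z⁆ - 1) := by
    intro n c hc z hz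
    have gc := hgood n c hc
    have gz := l3 z hz
    have := MLI_.zcz h2 (hR.sq c gc) (hR.sq z gz) (hR.pr c gc z hz)
    rw [this]
    have e1 : ρ (c * z * c⁻¹) = (1 + (ρ c - 1)) * (1 + (ρ z - 1)) * (1 + (ρ c - 1)) := by
      rw [hinv c gc.1, map_mul, map_mul, ← hρ, ← hρ]
    have e2 : ρ ⁅c, z⁆ =
        (1 + (ρ c - 1)) * (1 + (ρ z - 1)) * (1 + (ρ c - 1)) * (1 + (ρ z - 1)) := by
      rw [commutatorElement_def, hinv c gc.1, hinv z gz.1, map_mul, map_mul, map_mul, ← hρ, ← hρ]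
    rw [e1, e2]
  have f2 : ∀ n, ∀ c ∈ LL x n, ∀ z ∈ DD x, (ρ c - 1) * (ρ z - 1) - (ρ z - 1) * (ρ c - 1) =
      (ρ c - 1) + (ρ (z * c * z⁻¹) - 1) + (ρ z - 1) * (ρ c - 1) * (ρ z - 1) := by
    intro n c hc z hz
    have gz := l3 z hz
    rw [MLI_.comm h2 (hR.sq z gz)]
    have e1 : ρ (z * c * z⁻¹) = (1 + (ρ z - 1)) * (1 + (ρ c - 1)) * (1 + (ρ z - 1)) := by
      rw [hinv z gz.1, map_mul, map_mul, ← hρ, ← hρ]
    rw [e1]
  have hDc : ∀ z ∈ DD x, ∀ g : G, g * z * g⁻¹ ∈ DD x := fun z hz g => l1 0 z hz g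
  have f3 : ∀ n, ∀ c ∈ LL x n, ∀ z ∈ DD x, (ρ z - 1) * (ρ c - 1) * (ρ z - 1) ∈ M := by
    intro n c hc z hz
    rw [f1 n c hc z hz]
    exact M.add_mem (M.add_mem (hmemD z hz) (hmemD _ (hDc z hz c)))
      (hmem (n + 1) _ ⟨c, hc, z, hz, rfl⟩)
  refine ⟨?_, fun a ha b hb => f3 0 b hb a ha⟩
  -- the normaliser
  let NN : AddSubgroup R :=
    { carrier := {b | ∀ a ∈ M, a * b - b * a ∈ M}
      zero_mem' := fun a _ => by simp [M.zero_mem]
      add_mem' := fun {b b'} hb hb' a ha => by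
        have := M.add_mem (hb a ha) (hb' a ha)
        have e : a * (b + b') - (b + b') * a = (a * b - b * a) + (a * b' - b' * a) := by
          noncomm_ring
        rw [e]; exact this
      neg_mem' := fun {b} hb a ha => by
        have := M.neg_mem (hb a ha)
        have e : a * (-b) - (-b) * a = -(a * b - b * a) := by noncomm_ring
        rw [e]; exact this }
  have hNmem : ∀ b, b ∈ NN ↔ ∀ a ∈ M, a * b - b * a ∈ M := fun b => Iff.rfl
  have hcomm : ∀ b ∈ NN, ∀ b' ∈ NN, b * b' - b' * b ∈ NN := by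
    intro b hb b' hb' a ha
    have g1 := hb' _ (hb a ha)
    have g2 := hb _ (hb' a ha)
    have e : a * (b * b' - b' * b) - (b * b' - b' * b) * a =
        ((a * b - b * a) * b' - b' * (a * b - b * a)) -
          ((a * b' - b' * a) * b - b * (a * b' - b' * a)) := by noncomm_ring
    rw [e]
    exact M.sub_mem g1 g2
  have hNN : ∀ n, ∀ c ∈ LL x n, ρ c - 1 ∈ NN := by
    intro n
    induction n with
    | zero =>
      intro z hz a ha
      induction ha using AddSubgroup.closure_induction with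
      | mem y hy =>
        obtain ⟨n, c, hc, rfl⟩ := hy
        rw [f2 n c hc z hz]
        exact M.add_mem (M.add_mem (hmem n c hc) (hmem n _ (l1 n c hc z))) (f3 n c hc z hz)
      | zero => simp [M.zero_mem]
      | add a b _ _ ha hb =>
        have e : (a + b) * (ρ z - 1) - (ρ z - 1) * (a + b) =
            (a * (ρ z - 1) - (ρ z - 1) * a) + (b * (ρ z - 1) - (ρ z - 1) * b) := by
          noncomm_ring
        rw [e]; exact M.add_mem ha hb
      | neg a _ ha =>
        have e : (-a) * (ρ z - 1) - (ρ z - 1) * (-a) = -(a * (ρ z - 1) - (ρ z - 1) * a) := by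
          noncomm_ring
        rw [e]; exact M.neg_mem ha
    | succ n ih =>
      rintro _ ⟨c, hc, z, hz, rfl⟩
      have hZ0 : ∀ z ∈ DD x, ρ z - 1 ∈ NN := by
        intro z hz a ha
        induction ha using AddSubgroup.closure_induction with
        | mem y hy =>
          obtain ⟨n, c, hc, rfl⟩ := hy
          rw [f2 n c hc z hz]
          exact M.add_mem (M.add_mem (hmem n c hc) (hmem n _ (l1 n c hc z))) (f3 n c hc z hz)
        | zero => simp [M.zero_mem]
        | add a b _ _ ha hb =>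
          have e : (a + b) * (ρ z - 1) - (ρ z - 1) * (a + b) =
              (a * (ρ z - 1) - (ρ z - 1) * a) + (b * (ρ z - 1) - (ρ z - 1) * b) := by
            noncomm_ring
          rw [e]; exact M.add_mem ha hb
        | neg a _ ha =>
          have e : (-a) * (ρ z - 1) - (ρ z - 1) * (-a) = -(a * (ρ z - 1) - (ρ z - 1) * a) := by
            noncomm_ring
          rw [e]; exact M.neg_mem ha
      have g1 := f1 n c hc z hz
      have g2 := f2 n c hc z hz
      have e : ρ ⁅c, z⁆ - 1 = ((ρ c - 1) * (ρ z - 1) - (ρ z - 1) * (ρ c - 1)) -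
          (ρ c - 1) - (ρ (z * c * z⁻¹) - 1) - (ρ z - 1) - (ρ (c * z * c⁻¹) - 1) := by
        rw [g2, g1]
        abel
      rw [e]
      exact NN.sub_mem (NN.sub_mem (NN.sub_mem (NN.sub_mem
        (hcomm _ (ih c hc) _ (hZ0 z hz)) (ih c hc)) (ih _ (l1 n c hc z))) (hZ0 z hz))
        (hZ0 _ (hDc z hz c))
  intro a ha b hb
  have hle : M ≤ NN := by
    rw [hM, AddSubgroup.closure_le]
    rintro _ ⟨n, c, hc, rfl⟩
    exact hNN n c hc
  exact hle hb a ha

end Pool.Agent.L3E
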