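import Pool.Agent.L3E.Stmts

set_option autoImplicit false

/-!
# L3E, module NAK: Nakayama argument with sandwiches
-/

namespace Pool.Agent.L3E

open Pool.Agent.KOS (ev Com)
open scoped commutatorElement

namespace NAK_

section words

variable {K R : Type} [Field K] [Ring R] [Algebra K R] {r : ℕ}

theorem ev_nil (y : Fin r → R) : ev y [] = 1 := by simp [ev]

theorem ev_cons (y : Fin r → R) (i : Fin r) (w : List (Fin r)) :
    ev y (i :: w) = y i * ev y w := by simp [ev]

theorem ev_append (y : Fin r → R) (w w' : List (Fin r)) :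
    ev y (w ++ w') = ev y w * ev y w' := by simp [ev]

theorem mr {N N' : Submodule K R} (h : N ≤ N') (M : Submodule K R) : M * N ≤ M * N' :=
  mul_le_mul' le_rfl h

theorem ml {N N' : Submodule K R} (h : N ≤ N') (M : Submodule K R) : N * M ≤ N' * M :=
  mul_le_mul' h le_rfl

theorem one_mem : (1 : R) ∈ (1 : Submodule K R) := Submodule.one_le.1 le_rfl

theorem pow_le (K : Type) [Field K] [Algebra K R] (y : Fin r → R) (n : ℕ) :
    Submodule.span K (Set.range y) ^ n ≤
      Submodule.span K {z | ∃ w : List (Fin r), w.length = n ∧ z = ev y w} := by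
  induction n with
  | zero =>
    rw [pow_zero, Submodule.one_eq_span, Submodule.span_le]
    rintro _ rfl
    exact Submodule.subset_span ⟨[], rfl, (ev_nil y).symm⟩
  | succ n ih =>
    rw [pow_succ']
    refine (mr ih _).trans ?_
    rw [Submodule.span_mul_span, Submodule.span_le]
    rintro _ ⟨_, ⟨i, rfl⟩, _, ⟨w, hw, rfl⟩, rfl⟩
    exact Submodule.subset_span ⟨i :: w, by simp [hw], (ev_cons y i w).symm⟩

theorem ev_mem_pow (K : Type) [Field K] [Algebra K R] (y : Fin r → R) (w : List (Fin r)) :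
    ev y w ∈ Submodule.span K (Set.range y) ^ w.length := by
  induction w with
  | nil => rw [ev_nil, List.length_nil, pow_zero]; exact one_mem
  | cons i w ih =>
    rw [ev_cons, List.length_cons, pow_succ']
    exact Submodule.mul_mem_mul (Submodule.subset_span ⟨i, rfl⟩) ih

theorem pow_eq_bot (K : Type) [Field K] [Algebra K R] (y : Fin r → R) (n : ℕ) (h : NW y n) :
    Submodule.span K (Set.range y) ^ n = ⊥ := by
  rw [eq_bot_iff]
  refine (pow_le K y n).trans ?_
  rw [Submodule.span_le]
  rintro _ ⟨w, hw, rfl⟩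
  simpa using h w hw

theorem nw_mono (y : Fin r → R) (n n' : ℕ) (h : NW y n) (hn : n ≤ n') : NW y n' := by
  intro w hw
  have h1 : ev y (w.take n) = 0 := h _ (by rw [List.length_take]; omega)
  rw [← List.take_append_drop n w, ev_append, h1, zero_mul]

end words

section main

variable {K R : Type} [Field K] [Ring R] [Algebra K R]

/-- choice of few spanning elements modulo a subspace. -/
theorem choose_few (J Q W : Submodule K R) (S : Set R) (B : ℕ) (T : Finset R)
    (hW : W = Submodule.span K (T : Set R)) (hT : T.card ≤ B) (hS : ∀ s ∈ S, s ∈ W ⊔ Q)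
    (hJ : J ≤ Submodule.span K S ⊔ Q) :
    ∃ r ≤ B, ∃ s : Fin r → R, (∀ l, s l ∈ S) ∧ J ≤ Submodule.span K (Set.range s) ⊔ Q := by
  classical
  have h1 : Submodule.span K (Q.mkQ '' S) ≤ Submodule.span K ((T.image Q.mkQ : Finset (R ⧸ Q)) : Set (R ⧸ Q)) := by
    rw [Submodule.span_le]
    rintro _ ⟨s, hs, rfl⟩
    have h2 := hS s hs
    rw [Finset.coe_image, ← Submodule.map_span, ← hW]
    obtain ⟨a, ha, b, hb, rfl⟩ := Submodule.mem_sup.1 h2
    have h3 : Q.mkQ b = 0 := by rw [Submodule.mkQ_apply, Submodule.Quotient.mk_eq_zero]; exact hb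
    rw [map_add, h3, add_zero]
    exact ⟨a, ha, rfl⟩
  have : Module.Finite K (Submodule.span K ((T.image Q.mkQ : Finset (R ⧸ Q)) : Set (R ⧸ Q))) :=
    Module.Finite.span_finset K _
  have : Module.Finite K (Submodule.span K (Q.mkQ '' S)) :=
    Submodule.finiteDimensional_of_le h1
  have h4 : Module.finrank K (Submodule.span K (Q.mkQ '' S)) ≤ B :=
    ((Submodule.finrank_mono h1).trans (finrank_span_finset_le_card _)).trans
      (Finset.card_image_le.trans hT)
  obtain ⟨f, hf, hspan, -⟩ := Submodule.exists_fun_fin_finrank_span_eq K (Q.mkQ '' S)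
  choose s hs hsf using hf
  refine ⟨_, h4, s, hs, hJ.trans (sup_le ?_ le_sup_right)⟩
  rw [Submodule.span_le]
  intro z hz
  have h5 : Q.mkQ z ∈ Submodule.span K (Set.range f) := by
    rw [hspan]; exact Submodule.subset_span ⟨z, hz, rfl⟩
  have h6 : Set.range f = Q.mkQ '' Set.range s := by
    ext t
    constructor
    · rintro ⟨i, rfl⟩
      exact ⟨s i, ⟨i, rfl⟩, hsf i⟩
    · rintro ⟨_, ⟨i, rfl⟩, rfl⟩
      exact ⟨i, (hsf i).symm⟩
  rw [h6, ← Submodule.map_span] at h5
  obtain ⟨a, ha, hab⟩ := h5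
  have h7 : z - a ∈ Q := by
    have : Q.mkQ (z - a) = 0 := by rw [map_sub, hab, sub_self]
    rwa [Submodule.mkQ_apply, Submodule.Quotient.mk_eq_zero] at this
  have h8 : z = a + (z - a) := by abel
  rw [SetLike.mem_coe, h8]
  exact Submodule.add_mem_sup ha h7

end main

theorem core (K : Type) [Field K] (m k₀ : ℕ) (f : ℕ → ℕ) (G : Type) [Group G] (x : Fin m → G)
    (R : Type) [Ring R] [Algebra K R] (ρ : G →* R) (S : Set R)
    (hgen : Subgroup.closure (Set.range x) = ⊤) (hnil : ∃ N, NW (ops x ρ) N)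
    (hconj : ∀ s ∈ S, ∀ g : G, ρ g * s * ρ g⁻¹ ∈ S)
    (hSA : ∀ s ∈ S, s ∈ Submodule.span K (Set.range ρ))
    (hwJ : ∀ w : List (Fin m), w.length = k₀ →
      ev (ops x ρ) w ∈ Submodule.span K {y | ∃ (g : G), ∃ s ∈ S, y = ρ g * s})
    (hf : ∀ (r : ℕ) (s : Fin r → R), (∀ l, s l ∈ S) → NW s (f r)) :
    ∃ r ≤ (List.finite_length_lt (Fin m) (k₀ + 1)).toFinset.card,
      NW (ops x ρ) (k₀ * f r) := by
  classical
  set A : Submodule K R := Submodule.span K (Set.range ρ) with hA
  set X := ops x ρ with hX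
  set M : Submodule K R := Submodule.span K (Set.range X) with hM
  set J : Submodule K R := A * Submodule.span K S with hJ
  -- A is a subring
  have hAA : A * A ≤ A := by
    rw [hA, Submodule.span_mul_span, Submodule.span_le]
    rintro _ ⟨_, ⟨g, rfl⟩, _, ⟨h, rfl⟩, rfl⟩
    exact Submodule.subset_span ⟨g * h, map_mul ρ g h⟩
  have h1A : (1 : Submodule K R) ≤ A := by
    rw [Submodule.one_eq_span, Submodule.span_le]
    rintro _ rfl
    exact Submodule.subset_span ⟨1, map_one ρ⟩
  -- augmentation ideal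
  have haug : ∀ g : G, ρ g - 1 ∈ A * M := by
    intro g
    have hg : g ∈ Subgroup.closure (Set.range x) := by rw [hgen]; trivial
    induction hg using Subgroup.closure_induction with
    | mem y hy =>
      obtain ⟨i, rfl⟩ := hy
      have : X i ∈ 1 * M := by rw [one_mul]; exact Submodule.subset_span ⟨i, rfl⟩
      exact ml h1A _ this
    | one => rw [map_one, sub_self]; exact Submodule.zero_mem _
    | mul a b _ _ ha hb =>
      have h1 : ρ (a * b) - 1 = ρ a * (ρ b - 1) + (ρ a - 1) := by rw [map_mul]; noncomm_ring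
      rw [h1]
      refine Submodule.add_mem _ ?_ ha
      have h2 : ρ a * (ρ b - 1) ∈ A * (A * M) :=
        Submodule.mul_mem_mul (Submodule.subset_span ⟨a, rfl⟩) hb
      rw [← mul_assoc] at h2
      exact ml hAA _ h2
    | inv a _ ha =>
      have h1 : ρ a⁻¹ - 1 = - (ρ a⁻¹ * (ρ a - 1)) := by
        have : ρ a⁻¹ * ρ a = 1 := by rw [← map_mul, inv_mul_cancel, map_one]
        rw [mul_sub, this, mul_one]; abel
      rw [h1]
      refine Submodule.neg_mem _ ?_
      have h2 : ρ a⁻¹ * (ρ a - 1) ∈ A * (A * M) :=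
        Submodule.mul_mem_mul (Submodule.subset_span ⟨a⁻¹, rfl⟩) ha
      rw [← mul_assoc] at h2
      exact ml hAA _ h2
  have hA1 : A ≤ 1 ⊔ A * M := by
    rw [hA, Submodule.span_le, ← hA]
    rintro _ ⟨g, rfl⟩
    have h1 : ρ g = 1 + (ρ g - 1) := by abel
    rw [SetLike.mem_coe, h1]
    exact Submodule.add_mem_sup one_mem (haug g)
  have hMA : M * A ≤ A * M := by
    rw [hM, hA, Submodule.span_mul_span, Submodule.span_le, ← hA, ← hM]
    rintro _ ⟨_, ⟨i, rfl⟩, _, ⟨g, rfl⟩, rfl⟩
    have h1 : X i * ρ g = (ρ (x i * g) - 1) - (ρ g - 1) := by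
      rw [hX, ops, map_mul]; noncomm_ring
    change X i * ρ g ∈ A * M
    rw [h1]
    exact Submodule.sub_mem _ (haug _) (haug _)
  have hMnA : ∀ n : ℕ, M ^ n * A ≤ A * M ^ n := by
    intro n
    induction n with
    | zero => rw [pow_zero, one_mul, mul_one]
    | succ n ih =>
      calc M ^ (n + 1) * A = M ^ n * (M * A) := by rw [pow_succ, mul_assoc]
        _ ≤ M ^ n * (A * M) := mr hMA _
        _ = (M ^ n * A) * M := by rw [mul_assoc]
        _ ≤ (A * M ^ n) * M := ml ih _
        _ = A * M ^ (n + 1) := by rw [mul_assoc, pow_succ]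
  have hIn : ∀ n : ℕ, A * (A * M) ^ n ≤ A * M ^ n := by
    intro n
    induction n with
    | zero => rw [pow_zero, pow_zero]
    | succ n ih =>
      calc A * (A * M) ^ (n + 1) = (A * (A * M) ^ n) * (A * M) := by rw [pow_succ, mul_assoc]
        _ ≤ (A * M ^ n) * (A * M) := ml ih _
        _ = A * (M ^ n * A) * M := by simp only [mul_assoc]
        _ ≤ A * (A * M ^ n) * M :=
          ml (mr (hMnA n) _) _
        _ = (A * A) * M ^ (n + 1) := by simp only [mul_assoc, pow_succ]
        _ ≤ A * M ^ (n + 1) := ml hAA _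
  -- A modulo A M^k is spanned by the words of length < k
  have hAW : ∀ k : ℕ, A ≤ Submodule.span K {z | ∃ w : List (Fin m), w.length < k ∧ z = ev X w} ⊔
      A * M ^ k := by
    intro k
    induction k with
    | zero => rw [pow_zero, mul_one]; exact le_sup_right
    | succ k ih =>
      refine ih.trans (sup_le ?_ ?_)
      · refine le_sup_of_le_left (Submodule.span_mono ?_)
        rintro _ ⟨w, hw, rfl⟩
        exact ⟨w, by omega, rfl⟩
      · have h1 : A * M ^ k ≤ (1 ⊔ A * M) * M ^ k := ml hA1 _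
        refine h1.trans ?_
        rw [Submodule.sup_mul, one_mul]
        refine sup_le ?_ ?_
        · refine le_sup_of_le_left ((pow_le K X k).trans (Submodule.span_mono ?_))
          rintro _ ⟨w, hw, rfl⟩
          exact ⟨w, by omega, rfl⟩
        · refine le_sup_of_le_right ?_
          rw [mul_assoc, ← pow_succ']
  -- the ideal J
  have hSA' : Submodule.span K S ≤ A := by
    rw [Submodule.span_le]; exact hSA
  have hJ' : J = Submodule.span K {y | ∃ (g : G), ∃ s ∈ S, y = ρ g * s} := by
    rw [hJ, hA, Submodule.span_mul_span]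
    congr 1
    ext y
    constructor
    · rintro ⟨_, ⟨g, rfl⟩, s, hs, rfl⟩
      exact ⟨g, s, hs, rfl⟩
    · rintro ⟨g, s, hs, rfl⟩
      exact ⟨_, ⟨g, rfl⟩, s, hs, rfl⟩
  have hSAJ : Submodule.span K S * A ≤ A * Submodule.span K S := by
    rw [hA, Submodule.span_mul_span, Submodule.span_le, ← hA]
    rintro _ ⟨s, hs, _, ⟨g, rfl⟩, rfl⟩
    have h1 : s * ρ g = ρ g * (ρ g⁻¹ * s * ρ g⁻¹⁻¹) := by
      have : ρ g * ρ g⁻¹ = 1 := by rw [← map_mul, mul_inv_cancel, map_one]
      rw [inv_inv]
      calc s * ρ g = 1 * (s * ρ g) := by rw [one_mul]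
        _ = _ := by rw [← this]; simp only [mul_assoc]
    change s * ρ g ∈ A * Submodule.span K S
    rw [h1]
    exact Submodule.mul_mem_mul (Submodule.subset_span ⟨g, rfl⟩)
      (Submodule.subset_span (hconj s hs g⁻¹))
  have hJA : J * A ≤ J := by
    calc J * A = A * (Submodule.span K S * A) := by rw [hJ, mul_assoc]
      _ ≤ A * (A * Submodule.span K S) := mr hSAJ _
      _ = (A * A) * Submodule.span K S := by rw [mul_assoc]
      _ ≤ A * Submodule.span K S := ml hAA _
  have hAJ : A * J ≤ J := by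
    calc A * J = (A * A) * Submodule.span K S := by rw [hJ, mul_assoc]
      _ ≤ A * Submodule.span K S := ml hAA _
  have hSJ : Submodule.span K S ≤ J := by
    calc Submodule.span K S = 1 * Submodule.span K S := by rw [one_mul]
      _ ≤ J := ml h1A _
  have hJS : J ≤ Submodule.span K S ⊔ (A * M) * J := by
    have h1 : J ≤ (1 ⊔ A * M) * Submodule.span K S := ml hA1 _
    refine h1.trans ?_
    rw [Submodule.sup_mul, one_mul]
    exact sup_le_sup_left (mr hSJ _) _
  have hMk : M ^ k₀ ≤ J := by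
    refine (pow_le K X k₀).trans ?_
    rw [hJ', Submodule.span_le]
    rintro _ ⟨w, hw, rfl⟩
    exact hwJ w hw
  have hMk1 : A * M ^ (k₀ + 1) ≤ (A * M) * J := by
    rw [pow_succ', ← mul_assoc]
    exact mr hMk _
  -- choose few elements
  set F := (List.finite_length_lt (Fin m) (k₀ + 1)).toFinset with hF
  obtain ⟨r, hr, s, hs, hJs⟩ := choose_few J ((A * M) * J)
    (Submodule.span K ((F.image (ev X) : Finset R) : Set R)) S F.card (F.image (ev X)) rfl
    Finset.card_image_le (by
      intro s hs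
      have h1 := hAW (k₀ + 1) (hSA s hs)
      refine sup_le_sup ?_ hMk1 h1
      refine Submodule.span_mono ?_
      rintro _ ⟨w, hw, rfl⟩
      rw [Finset.coe_image]
      exact ⟨w, by rw [hF]; simpa using hw, rfl⟩) hJS
  refine ⟨r, hr, ?_⟩
  set T := Submodule.span K (Set.range s) with hT
  have hTA : T ≤ A * T := by
    calc T = 1 * T := by rw [one_mul]
      _ ≤ A * T := ml h1A _
  -- Nakayama
  have hNak : ∀ n : ℕ, J ≤ A * T ⊔ (A * M) ^ n * J := by
    intro n
    induction n with
    | zero => rw [pow_zero, one_mul]; exact le_sup_right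
    | succ n ih =>
      refine ih.trans (sup_le le_sup_left ?_)
      have h1 : (A * M) ^ n * J ≤ (A * M) ^ n * (T ⊔ A * M * J) :=
        mr hJs _
      refine h1.trans ?_
      rw [Submodule.mul_sup]
      refine sup_le ?_ ?_
      · refine le_sup_of_le_left ?_
        have hIA : (A * M) ^ n ≤ A := by
          have h3 : ∀ n : ℕ, (A * M) ^ n ≤ A := by
            have hMA' : M ≤ A := by
              rw [hM, Submodule.span_le]
              rintro _ ⟨i, rfl⟩
              exact Submodule.sub_mem _ (Submodule.subset_span ⟨x i, rfl⟩)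
                (Submodule.subset_span ⟨1, map_one ρ⟩)
            intro n
            induction n with
            | zero => rw [pow_zero]; exact h1A
            | succ n ih =>
              rw [pow_succ]
              exact (mul_le_mul' ih ((mr hMA' _).trans hAA)).trans hAA
          exact h3 n
        exact ml hIA _
      · refine le_sup_of_le_right ?_
        rw [← mul_assoc, ← pow_succ]
  obtain ⟨N, hN⟩ := hnil
  have hMN : M ^ N = ⊥ := pow_eq_bot K X N hN
  have hJT : J ≤ A * T := by
    refine (hNak N).trans (sup_le le_rfl ?_)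
    have h1 : (A * M) ^ N ≤ A * (A * M) ^ N := by
      calc (A * M) ^ N = 1 * (A * M) ^ N := by rw [one_mul]
        _ ≤ A * (A * M) ^ N := ml h1A _
    have h2 : (A * M) ^ N ≤ ⊥ := by
      refine (h1.trans (hIn N)).trans ?_
      rw [hMN, Submodule.mul_bot]
    have h3 : (A * M) ^ N * J ≤ ⊥ * J := ml h2 _
    rw [Submodule.bot_mul] at h3
    exact h3.trans bot_le
  have hpow : ∀ n : ℕ, J ^ n * A ≤ A * T ^ n := by
    intro n
    induction n with
    | zero => rw [pow_zero, pow_zero, one_mul, mul_one]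
    | succ n ih =>
      calc J ^ (n + 1) * A = J ^ n * (J * A) := by rw [pow_succ, mul_assoc]
        _ ≤ J ^ n * J := mr hJA _
        _ ≤ J ^ n * (A * T) := mr hJT _
        _ = (J ^ n * A) * T := by rw [mul_assoc]
        _ ≤ (A * T ^ n) * T := ml ih _
        _ = A * T ^ (n + 1) := by rw [mul_assoc, pow_succ]
  have hTf : T ^ f r = ⊥ := pow_eq_bot K s (f r) (hf r s hs)
  have hJf : J ^ f r ≤ ⊥ := by
    calc J ^ f r = J ^ f r * 1 := by rw [mul_one]
      _ ≤ J ^ f r * A := mr h1A _
      _ ≤ A * T ^ f r := hpow _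
      _ = ⊥ := by rw [hTf, Submodule.mul_bot]
  have hfin : M ^ (k₀ * f r) ≤ ⊥ := by
    rw [pow_mul]
    exact (pow_le_pow_left' hMk _).trans hJf
  intro w hw
  have h1 := ev_mem_pow K X w
  rw [hw] at h1
  simpa using hfin h1

end NAK_

theorem nak_proof : Stmt_Nak := by
  intro m k₀ f
  refine ⟨k₀ * ∑ r ∈ Finset.range ((List.finite_length_lt (Fin m) (k₀ + 1)).toFinset.card + 1), f r,
    ?_⟩
  intro G _ x R _ ρ S hgen h2 hnil hconj hSA hwJ hf
  have : Fact (Nat.Prime 2) := ⟨Nat.prime_two⟩
  let _ : Algebra (ZMod 2) R := ZMod.algebra' R (ringChar R) ((ringChar.spec R 2).1 (by exact_mod_cast h2))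
  have hcl : ∀ T : Set R, ∀ y ∈ AddSubgroup.closure T, y ∈ Submodule.span (ZMod 2) T := by
    intro T y hy
    have h1 : AddSubgroup.closure T ≤ (Submodule.span (ZMod 2) T).toAddSubgroup := by
      rw [AddSubgroup.closure_le]
      exact Submodule.subset_span
    exact h1 hy
  obtain ⟨r, hr, h⟩ := NAK_.core (ZMod 2) m k₀ f G x R ρ S hgen hnil hconj
    (fun s hs => hcl _ _ (hSA s hs)) (fun w hw => hcl _ _ (hwJ w hw)) hf
  refine NAK_.nw_mono _ _ _ h (Nat.mul_le_mul_left _ ?_)
  exact Finset.single_le_sum (f := f) (fun _ _ => Nat.zero_le _) (Finset.mem_range.2 (by omega))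

end Pool.Agent.L3E
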