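import Pool.Agent.L3E.Stmts

set_option autoImplicit false

/-!
# L3E, module NKC: commutators of the subgroups `N_k`
-/

namespace Pool.Agent.L3E

open scoped commutatorElement

namespace NKC_

variable {G : Type} [Group G]

theorem conj_eq {u v c : G} (hc : c = ⁅u, v⁆) (hu : Commute c u) (a : ℕ) :
    u ^ a * v * (u ^ a)⁻¹ = c ^ a * v := by
  have h0 : u * v * u⁻¹ = c * v := by
    rw [hc, commutatorElement_def, inv_mul_cancel_right]
  induction a with
  | zero => simp
  | succ a ih =>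
    have h1 : u ^ (a + 1) * v * (u ^ (a + 1))⁻¹ = u * (u ^ a * v * (u ^ a)⁻¹) * u⁻¹ := by
      rw [pow_succ', mul_inv_rev]
      simp only [mul_assoc]
    have h2 : u * c ^ a = c ^ a * u := ((hu.pow_left a).eq).symm
    rw [h1, ih, ← mul_assoc u, h2, mul_assoc (c ^ a), mul_assoc (c ^ a), h0, pow_succ]
    simp only [mul_assoc]

theorem comm_pow {u v c : G} (hc : c = ⁅u, v⁆) (hu : Commute c u) (hv : Commute c v) (a b : ℕ) :
    ⁅u ^ a, v ^ b⁆ = c ^ (a * b) := by
  have h1 := conj_eq hc hu a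
  have h2 : u ^ a * v ^ b * (u ^ a)⁻¹ = c ^ (a * b) * v ^ b := by
    rw [← conj_pow, h1, (hv.pow_left a).mul_pow, pow_mul]
  rw [commutatorElement_def, h2, mul_inv_cancel_right]

theorem step {D : Set G} {m : ℕ} {x : Fin m → G} (hD : Sand D) (hx : ∀ i, x i ∈ D) (k l : ℕ)
    {a b : G} (ha : a ∈ Group.conjugatesOfSet (Set.range fun i => x i ^ 2 ^ k))
    (hb : b ∈ Group.conjugatesOfSet (Set.range fun i => x i ^ 2 ^ l)) :
    ⁅a, b⁆ ∈ Nk x (k + l) := by
  rw [Group.mem_conjugatesOfSet_iff] at ha hb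
  obtain ⟨_, ⟨i, rfl⟩, ha⟩ := ha
  obtain ⟨_, ⟨j, rfl⟩, hb⟩ := hb
  rw [isConj_iff] at ha hb
  obtain ⟨g, rfl⟩ := ha
  obtain ⟨h, rfl⟩ := hb
  have hu : g * x i * g⁻¹ ∈ D := hD.conj _ (hx i) g
  have hv : h * x j * h⁻¹ ∈ D := hD.conj _ (hx j) h
  have c1 : Commute ⁅g * x i * g⁻¹, h * x j * h⁻¹⁆ (g * x i * g⁻¹) := hD.comm _ hu _ hv
  have c2 : Commute ⁅g * x i * g⁻¹, h * x j * h⁻¹⁆ (h * x j * h⁻¹) := by
    have := (hD.comm _ hv _ hu).inv_left
    rwa [commutatorElement_inv] at this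
  have e1 : ⁅g * x i ^ 2 ^ k * g⁻¹, h * x j ^ 2 ^ l * h⁻¹⁆ =
      ⁅(g * x i * g⁻¹) ^ 2 ^ (k + l), h * x j * h⁻¹⁆ := by
    rw [← conj_pow, ← conj_pow, comm_pow rfl c1 c2]
    have := comm_pow rfl c1 c2 (2 ^ (k + l)) 1
    rw [pow_one] at this
    rw [this, mul_one, pow_add]
  simp only at e1 ⊢
  rw [e1]
  have hn : (Nk x (k + l)).Normal := by unfold Nk; infer_instance
  have hmem : (g * x i * g⁻¹) ^ 2 ^ (k + l) ∈ Nk x (k + l) := by
    rw [conj_pow]
    exact hn.conj_mem _ (Subgroup.subset_normalClosure ⟨i, rfl⟩) g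
  rw [commutatorElement_def, mul_assoc, mul_assoc]
  refine Subgroup.mul_mem _ hmem ?_
  rw [← mul_assoc]
  exact hn.conj_mem _ (Subgroup.inv_mem _ hmem) _

theorem comm_iff {N : Subgroup G} (hn : N.Normal) (a b : G) :
    ⁅a, b⁆ ∈ N ↔ Commute (QuotientGroup.mk' N a) (QuotientGroup.mk' N b) := by
  rw [← commutatorElement_eq_one_iff_commute, ← map_commutatorElement,
    QuotientGroup.mk'_apply, QuotientGroup.eq_one_iff]

end NKC_

open NKC_ in
theorem nkc_proof : Stmt_NKC := by
  intro G _ D m x hD hx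
  constructor
  · intro k l
    have hn : (Nk x (k + l)).Normal := by unfold Nk; infer_instance
    rw [Subgroup.commutator_le]
    intro a ha b hb
    rw [comm_iff hn]
    unfold Nk Subgroup.normalClosure at ha hb
    have h1 : ∀ b ∈ Group.conjugatesOfSet (Set.range fun i => x i ^ 2 ^ l),
        Commute (QuotientGroup.mk' (Nk x (k + l)) a) (QuotientGroup.mk' (Nk x (k + l)) b) := by
      intro b hb
      induction ha using Subgroup.closure_induction with
      | mem a ha => exact (comm_iff hn a b).1 (step hD hx k l ha hb)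
      | one => rw [map_one]; exact Commute.one_left _
      | mul a a' _ _ h h' => rw [map_mul]; exact h.mul_left h'
      | inv a _ h => rw [map_inv]; exact h.inv_left
    induction hb using Subgroup.closure_induction with
    | mem b hb => exact h1 b hb
    | one => rw [map_one]; exact Commute.one_right _
    | mul b b' _ _ h h' => rw [map_mul]; exact h.mul_right h'
    | inv b _ h => rw [map_inv]; exact h.inv_right
  · intro k
    have hn : (Nk x k).Normal := by unfold Nk; infer_instance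
    unfold Nk
    apply Subgroup.normalClosure_le_normal
    rintro _ ⟨i, rfl⟩
    have h : x i ^ 2 ^ (k + 1) = (x i ^ 2 ^ k) ^ 2 := by rw [← pow_mul, pow_succ]
    simp only [SetLike.mem_coe]
    rw [h]
    have hm : x i ^ 2 ^ k ∈ Subgroup.normalClosure (Set.range fun i => x i ^ 2 ^ k) :=
      Subgroup.subset_normalClosure ⟨i, rfl⟩
    exact Subgroup.pow_mem _ hm 2

end Pool.Agent.L3E
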