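import Pool.Agent.L3E.Stmts

set_option autoImplicit false

/-!
# L3E, module P8: subgroups generated by eighth powers
-/

namespace Pool.Agent.L3E

open Pool.Agent.KOS (ev Com)
open scoped commutatorElement

namespace P8_

section ring
variable {R : Type} [Ring R]

lemma pow8 (r : R) (h : (r - 1) ^ 3 = 0) : ∃ s : R, r ^ 8 - 1 = 4 * s := by
  obtain ⟨X, rfl⟩ : ∃ X, r = 1 + X := ⟨r - 1, by abel⟩
  have hX : X * (X * X) = 0 := by
    have : (1 + X - 1) ^ 3 = X * (X * X) := by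
      rw [add_sub_cancel_left, pow_succ, pow_two, mul_assoc]
    rw [← this, h]
  have hX4 : X * (X * (X * X)) = 0 := by rw [hX, mul_zero]
  have e2 : (1 + X) * (1 + X) = 1 + 2 * X + X * X := by
    simp only [mul_add, add_mul, one_mul, mul_one, two_mul]; abel
  have e4 : (1 + X) ^ 4 = 1 + 4 * X + 6 * (X * X) := by
    have : (1 + X) ^ 4 = ((1 + X) * (1 + X)) * ((1 + X) * (1 + X)) := by
      simp only [pow_succ, pow_zero, one_mul, mul_assoc]
    rw [this, e2]
    have : (1 + 2 * X + X * X) * (1 + 2 * X + X * X) =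
        1 + 4 * X + 6 * (X * X) + 4 * (X * (X * X)) + X * (X * (X * X)) := by
      simp only [show (2 : R) = 1 + 1 by norm_num, show (4 : R) = 1 + 1 + 1 + 1 by norm_num,
        show (6 : R) = 1 + 1 + 1 + 1 + 1 + 1 by norm_num, mul_add, add_mul, one_mul, mul_one,
        mul_assoc]
      abel
    rw [this, hX, mul_zero, mul_zero, add_zero, add_zero]
  have e8 : (1 + X) ^ 8 = 1 + 8 * X + 28 * (X * X) := by
    have : (1 + X) ^ 8 = (1 + X) ^ 4 * (1 + X) ^ 4 := by rw [← pow_add]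
    rw [this, e4]
    have c4 : ∀ a : R, a * 4 = 4 * a := fun a => ((Nat.cast_commute 4 a).eq).symm
    have c6 : ∀ a : R, a * 6 = 6 * a := fun a => ((Nat.cast_commute 6 a).eq).symm
    have : (1 + 4 * X + 6 * (X * X)) * (1 + 4 * X + 6 * (X * X)) =
        1 + 8 * X + 28 * (X * X) + 48 * (X * (X * X)) + 36 * (X * (X * (X * X))) := by
      have a1 : (4 * X) * (4 * X) = 16 * (X * X) := by
        rw [mul_assoc, ← mul_assoc X 4 X, c4, mul_assoc, ← mul_assoc]; norm_num
      have a2 : (4 * X) * (6 * (X * X)) = 24 * (X * (X * X)) := by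
        rw [mul_assoc, ← mul_assoc X 6, c6, mul_assoc, ← mul_assoc]; norm_num
      have a3 : (6 * (X * X)) * (4 * X) = 24 * (X * (X * X)) := by
        rw [mul_assoc, ← mul_assoc (X * X) 4, c4, mul_assoc, ← mul_assoc, mul_assoc X X X]
        norm_num
      have a4 : (6 * (X * X)) * (6 * (X * X)) = 36 * (X * (X * (X * X))) := by
        rw [mul_assoc, ← mul_assoc (X * X) 6, c6, mul_assoc, ← mul_assoc, mul_assoc X X (X * X)]
        norm_num
      have b1 : (8 : R) * X = 4 * X + 4 * X := by rw [← add_mul]; norm_num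
      have b2 : (28 : R) * (X * X) = 6 * (X * X) + 16 * (X * X) + 6 * (X * X) := by
        rw [← add_mul, ← add_mul]; norm_num
      have b3 : (48 : R) * (X * (X * X)) = 24 * (X * (X * X)) + 24 * (X * (X * X)) := by
        rw [← add_mul]; norm_num
      rw [b1, b2, b3]
      simp only [add_mul, mul_add, one_mul, mul_one, a1, a2, a3, a4]
      abel
    rw [this, hX, mul_zero, mul_zero, mul_zero, add_zero, add_zero]
  refine ⟨2 * X + 7 * (X * X), ?_⟩
  have f1 : (4 : R) * (2 * X) = 8 * X := by rw [← mul_assoc]; norm_num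
  have f2 : (4 : R) * (7 * (X * X)) = 28 * (X * X) := by rw [← mul_assoc]; norm_num
  rw [e8, mul_add, f1, f2]
  abel

end ring

section grp
variable {G : Type} [Group G]

lemma normal_lcs (P : Subgroup G) (hP : P.Normal) (n : ℕ) : (P.lowerCentralSeries n).Normal := by
  induction n with
  | zero => exact hP
  | succ n ih => rw [Subgroup.lowerCentralSeries_succ]; exact Subgroup.commutator_normal _ _

lemma lcs_le (P : Subgroup G) (n : ℕ) :
    P.lowerCentralSeries n ≤ (⊤ : Subgroup G).lowerCentralSeries n := by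
  induction n with
  | zero => exact le_top
  | succ n ih =>
    rw [Subgroup.lowerCentralSeries_succ, Subgroup.lowerCentralSeries_succ]
    exact Subgroup.commutator_mono ih le_top

lemma mem_succ {P : Subgroup G} {n : ℕ} {a p : G} (ha : a ∈ P.lowerCentralSeries n)
    (hp : p ∈ P) : ⁅a, p⁆ ∈ P.lowerCentralSeries (n + 1) := by
  rw [Subgroup.lowerCentralSeries_succ]
  exact Subgroup.commutator_mem_commutator ha hp

lemma mem_succ' {P : Subgroup G} {n : ℕ} {a p : G} (ha : a ∈ P.lowerCentralSeries n)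
    (hp : p ∈ P) : ⁅p, a⁆ ∈ P.lowerCentralSeries (n + 1) := by
  rw [← commutatorElement_inv]
  exact inv_mem (mem_succ ha hp)

/-- `[L_j, L_1] ≤ L_{j+2}`. -/
lemma com_one (P : Subgroup G) (hP : P.Normal) (j : ℕ) :
    ⁅P.lowerCentralSeries j, P.lowerCentralSeries 1⁆ ≤ P.lowerCentralSeries (j + 2) := by
  have hN := normal_lcs P hP (j + 2)
  have h1 : P.lowerCentralSeries 1 = ⁅P, P⁆ := rfl
  rw [h1, Subgroup.commutator_le]
  intro a ha w hw
  rw [Subgroup.commutator_def] at hw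
  induction hw using Subgroup.closure_induction with
  | mem w hw =>
    obtain ⟨p, hp, q, hq, rfl⟩ := hw
    have e : ⁅a, ⁅p, q⁆⁆ = (p * a * ⁅q, ⁅a⁻¹, p⁻¹⁆⁆⁻¹ * a⁻¹ * p⁻¹ *
        (p * q * ⁅p⁻¹, ⁅q⁻¹, a⁆⁆⁻¹ * q⁻¹ * p⁻¹)) := by
      simp only [commutatorElement_def]; group
    rw [e]
    refine mul_mem ?_ ?_
    · have m1 : ⁅q, ⁅a⁻¹, p⁻¹⁆⁆⁻¹ ∈ P.lowerCentralSeries (j + 2) :=
        inv_mem (mem_succ' (mem_succ (inv_mem ha) (inv_mem hp)) hq)
      have := hN.conj_mem _ m1 (p * a)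
      rw [mul_inv_rev, ← mul_assoc] at this
      exact this
    · have m1 : ⁅p⁻¹, ⁅q⁻¹, a⁆⁆⁻¹ ∈ P.lowerCentralSeries (j + 2) :=
        inv_mem (mem_succ' (mem_succ' ha (inv_mem hq)) (inv_mem hp))
      have := hN.conj_mem _ m1 (p * q)
      rw [mul_inv_rev, ← mul_assoc] at this
      exact this
  | one => rw [commutatorElement_one_right]; exact one_mem _
  | mul w w' _ _ i1 i2 =>
    have e : ⁅a, w * w'⁆ = ⁅a, w⁆ * (w * ⁅a, w'⁆ * w⁻¹) := by
      simp only [commutatorElement_def]; group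
    rw [e]
    exact mul_mem i1 (hN.conj_mem _ i2 _)
  | inv w _ i1 =>
    have e : ⁅a, w⁻¹⁆ = w⁻¹ * ⁅a, w⁆⁻¹ * (w⁻¹)⁻¹ := by
      simp only [commutatorElement_def]; group
    rw [e]
    exact hN.conj_mem _ (inv_mem i1) _

lemma sand_pow {x y : G} (h1 : Commute ⁅x, y⁆ x) (h2 : Commute ⁅x, y⁆ y) (a b : ℕ) :
    ⁅x ^ a, y ^ b⁆ = ⁅x, y⁆ ^ (a * b) := by
  have hx : ∀ a : ℕ, ⁅x ^ a, y⁆ = ⁅x, y⁆ ^ a := by
    intro a
    induction a with
    | zero => simp
    | succ a ih =>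
      have e : ⁅x ^ (a + 1), y⁆ = x * ⁅x ^ a, y⁆ * x⁻¹ * ⁅x, y⁆ := by
        rw [pow_succ']; simp only [commutatorElement_def]; group
      rw [e, ih, ← (h1.pow_left a).eq, mul_inv_cancel_right, pow_succ]
  have hy : ∀ b : ℕ, ⁅x ^ a, y ^ b⁆ = ⁅x ^ a, y⁆ ^ b := by
    intro b
    induction b with
    | zero => simp
    | succ b ih =>
      have e : ⁅x ^ a, y ^ (b + 1)⁆ = ⁅x ^ a, y⁆ * (y * ⁅x ^ a, y ^ b⁆ * y⁻¹) := by
        rw [pow_succ']; simp only [commutatorElement_def]; group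
      have hc : Commute (⁅x ^ a, y⁆ ^ b) y := by
        rw [hx]; exact (h2.pow_left a).pow_left b
      rw [e, ih, ← hc.eq, mul_inv_cancel_right, pow_succ']
  rw [hy, hx, pow_mul]

end grp

end P8_

open P8_ in
theorem p8_proof (h1 : Stmt_S1) (h2 : Stmt_Cub) (h3 : Stmt_Sec) : Stmt_P8 := by
  intro r
  obtain ⟨N, hN⟩ := h1 r
  refine ⟨N + 1 + 1, ?_⟩
  intro G _ D P y hnil hD hP hy hgen
  -- the sandwich set in `P`
  have comm2 : ∀ a ∈ D, ∀ b ∈ D, Commute ⁅a, b⁆ b := by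
    intro a ha b hb
    have := hD.comm b hb a ha
    rw [← commutatorElement_inv] at this
    exact Commute.inv_left_iff.1 this
  have hyP : ∀ l, y l ∈ P := fun l => by
    rw [← hgen]; exact Subgroup.subset_closure ⟨l, rfl⟩
  let D' : Set P := {u | ∃ x ∈ D, (u : G) = x ^ 8}
  have hD' : Sand D' := by
    constructor
    · rintro u ⟨x, hx, hu⟩ g
      refine ⟨(g : G) * x * (g : G)⁻¹, hD.conj x hx g, ?_⟩
      rw [conj_pow]
      show (g : G) * u * (g : G)⁻¹ = _
      rw [hu]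
    · rintro u ⟨x, hx, hu⟩ v ⟨z, hz, hv⟩
      have : Commute ⁅(u : G), (v : G)⁆ (u : G) := by
        rw [hu, hv, sand_pow (hD.comm x hx z hz) (comm2 x hx z hz)]
        exact ((hD.comm x hx z hz).pow_left _).pow_right _
      exact Subtype.ext this
  have hgen' : Subgroup.closure (Set.range fun l => (⟨y l, hyP l⟩ : P)) = ⊤ := by
    apply Subgroup.map_injective P.subtype_injective
    rw [MonoidHom.map_closure, ← Set.range_comp, ← MonoidHom.range_eq_map, Subgroup.range_subtype]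
    exact hgen
  have hS := hN P D' (fun l => ⟨y l, hyP l⟩) hD' (fun l => by
    obtain ⟨x, hx, he⟩ := hy l
    exact ⟨x, hx, he⟩) hgen'
  have hsq : ∀ j, N ≤ j → ∀ v ∈ P.lowerCentralSeries j, v * v ∈ P.lowerCentralSeries (j + 1) := by
    intro j hj v hv
    rw [← Subgroup.top_subtype_lowerCentralSeries] at hv
    obtain ⟨u, hu, rfl⟩ := hv
    have := hS j hj u hu
    rw [← Subgroup.top_subtype_lowerCentralSeries]
    exact ⟨u * u, this, rfl⟩
  -- one step
  set L := P.lowerCentralSeries with hL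
  have step : L (N + 1 + 1) ≤ L (N + 1 + 1 + 1) := by
    set j := N + 1 with hj
    have hV : (L j).Normal := normal_lcs P hP j
    have hK : (L (j + 2)).Normal := normal_lcs P hP (j + 2)
    have hanti : Antitone L := P.lowerCentralSeries_antitone
    have hKV : L (j + 2) ≤ L j := hanti (by omega)
    have hVV : ⁅L j, L j⁆ ≤ L (j + 2) := by
      refine le_trans (Subgroup.commutator_mono le_rfl (hanti (show 1 ≤ j by omega))) ?_
      exact com_one P hP j
    obtain ⟨M, iM, ⟨s⟩⟩ := h3 G (L j) (L (j + 2)) hV hK hKV hVV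
    have hrho : ∀ p ∈ P, ∃ S : AddMonoid.End M, s.rho p - 1 = 4 * S := by
      intro p hp
      rw [← hgen] at hp
      induction hp using Subgroup.closure_induction with
      | mem p hp =>
        obtain ⟨l, rfl⟩ := hp
        obtain ⟨x, hx, he⟩ := hy l
        rw [he, map_pow]
        exact pow8 _ (h2 G (L j) (L (j + 2)) M s hV hK hKV x
          (fun g => hD.comm x hx _ (hD.conj x hx g)))
      | one => exact ⟨0, by simp⟩
      | mul p q _ _ ip iq =>
        obtain ⟨S, hS⟩ := ip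
        obtain ⟨T, hT⟩ := iq
        refine ⟨S * s.rho q + T, ?_⟩
        rw [mul_add, ← hT, ← mul_assoc, ← hS, map_mul, sub_mul, one_mul]
        abel
      | inv p _ ip =>
        obtain ⟨S, hS⟩ := ip
        refine ⟨-(s.rho p⁻¹ * S), ?_⟩
        have c4' : s.rho p⁻¹ * 4 = 4 * s.rho p⁻¹ := ((Nat.cast_commute 4 (s.rho p⁻¹)).eq).symm
        have c4 : s.rho p⁻¹ * (4 * S) = 4 * (s.rho p⁻¹ * S) := by
          rw [← mul_assoc, c4', mul_assoc]
        rw [mul_neg, ← c4, ← hS, mul_sub, mul_one, ← map_mul, inv_mul_cancel, map_one]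
        abel
    -- the projection
    have pi_one : s.pi 1 = 0 := (s.ker 1).2 (one_mem _)
    have pi_inv : ∀ v : L j, s.pi v⁻¹ = - s.pi v := by
      intro v
      rw [eq_neg_iff_add_eq_zero, ← s.mul, inv_mul_cancel, pi_one]
    -- elements of `L (j+1)` are divisible by 4
    have hdiv : L (j + 1) ≤
        { carrier := {w | ∃ hw : w ∈ L j, ∃ m : M, s.pi ⟨w, hw⟩ = 4 • m}
          one_mem' := ⟨one_mem _, 0, by
            rw [smul_zero]; exact pi_one⟩
          mul_mem' := by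
            rintro a b ⟨ha, m, hm⟩ ⟨hb, m', hm'⟩
            refine ⟨mul_mem ha hb, m + m', ?_⟩
            rw [smul_add, ← hm, ← hm', ← s.mul]; rfl
          inv_mem' := by
            rintro a ⟨ha, m, hm⟩
            refine ⟨inv_mem ha, -m, ?_⟩
            rw [smul_neg, ← hm, ← pi_inv]; rfl } := by
      have : L (j + 1) = ⁅L j, P⁆ := rfl
      rw [this, Subgroup.commutator_le]
      intro v hv p hp
      have hvp : ⁅v, p⁆ ∈ L j := hanti (Nat.le_succ j) (mem_succ hv hp)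
      refine ⟨hvp, ?_⟩
      obtain ⟨S, hS⟩ := hrho p hp
      refine ⟨-(S (s.pi ⟨v, hv⟩)), ?_⟩
      have hcv : p * v⁻¹ * p⁻¹ ∈ L j := hV.conj_mem _ (inv_mem hv) _
      have e1 : (⟨⁅v, p⁆, hvp⟩ : L j) = ⟨v, hv⟩ * ⟨p * v⁻¹ * p⁻¹, hcv⟩ := by
        apply Subtype.ext
        show ⁅v, p⁆ = v * (p * v⁻¹ * p⁻¹)
        rw [commutatorElement_def]; group
      have e2 : s.pi ⟨p * v⁻¹ * p⁻¹, hcv⟩ = s.rho p (s.pi (⟨v, hv⟩ : L j)⁻¹) :=
        s.act p (⟨v, hv⟩ : L j)⁻¹ ⟨p * v⁻¹ * p⁻¹, hcv⟩ rfl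
      rw [e1, s.mul, e2, pi_inv, map_neg]
      have e3 : s.rho p (s.pi ⟨v, hv⟩) = s.pi ⟨v, hv⟩ + 4 • S (s.pi ⟨v, hv⟩) := by
        have e4 : (s.rho p - 1) (s.pi ⟨v, hv⟩) = (4 * S) (s.pi ⟨v, hv⟩) := by rw [hS]
        have e5 : (s.rho p - 1) (s.pi ⟨v, hv⟩) = s.rho p (s.pi ⟨v, hv⟩) - s.pi ⟨v, hv⟩ := rfl
        have e6 : (4 * S : AddMonoid.End M) (s.pi ⟨v, hv⟩) = 4 • S (s.pi ⟨v, hv⟩) := by
          have : (4 : AddMonoid.End M) * S = (4 : ℕ) • S := by
            rw [nsmul_eq_mul]; norm_num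
          rw [this]; rfl
        rw [e5, e6] at e4
        rw [← e4]; abel
      rw [e3, smul_neg]
      abel
    intro w hw
    obtain ⟨hwj, m, hm⟩ := hdiv hw
    obtain ⟨v, hv⟩ := s.surj m
    have q1 : (v : G) * v ∈ L (j + 1) := hsq j (by omega) v v.2
    have q2 : ((v : G) * v) * ((v : G) * v) ∈ L (j + 2) := hsq (j + 1) (by omega) _ q1
    have e : s.pi ((v * v) * (v * v)) = 4 • m := by
      rw [s.mul, s.mul, hv]
      have : (4 : ℕ) • m = m + m + (m + m) := by
        rw [show (4 : ℕ) = 2 + 2 by norm_num, add_smul, two_nsmul]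
      rw [this]
    have e0 : s.pi ((v * v) * (v * v)) = 0 := (s.ker _).2 q2
    rw [← e, e0] at hm
    exact (s.ker _).1 hm
  have hall : ∀ t, L (N + 1 + 1) ≤ L (N + 1 + 1 + t) := by
    intro t
    induction t with
    | zero => exact le_rfl
    | succ t ih =>
      refine le_trans step ?_
      have e1 : L (N + 1 + 1 + 1) = ⁅L (N + 1 + 1), P⁆ := rfl
      have e2 : L (N + 1 + 1 + (t + 1)) = ⁅L (N + 1 + 1 + t), P⁆ := rfl
      rw [e1, e2]
      exact Subgroup.commutator_mono ih le_rfl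
  obtain ⟨n, hn⟩ := Subgroup.nilpotent_iff_lowerCentralSeries.1 hnil
  rw [eq_bot_iff]
  refine le_trans (hall n) (le_trans (P.lowerCentralSeries_antitone (show n ≤ N + 1 + 1 + n by omega)) ?_)
  rw [← hn]
  exact lcs_le P n

end Pool.Agent.L3E
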