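import Pool.Agent.L3E.Stmts

set_option autoImplicit false

/-!
# L3E, module QXY: modulo the ideal generated by all `X Y X` words of bounded length vanish
-/

namespace Pool.Agent.L3E

open Pool.Agent.KOS (ev Com)
open scoped commutatorElement

namespace QXY_

variable {G : Type} [Group G] {R : Type} [Ring R] (ρ : G →* R)

/-- Additive span of the `ρ g * s`. -/
def JJ (S : Set R) : AddSubgroup R := AddSubgroup.closure {y | ∃ (g : G), ∃ s ∈ S, y = ρ g * s}

/-- Subring generated by `ρ(G)`. -/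
def PR : Subring R := Subring.closure (Set.range ρ)

theorem mem_PR (g : G) : ρ g ∈ PR ρ := Subring.subset_closure ⟨g, rfl⟩

theorem left_mul (S : Set R) (c : R) (hc : c ∈ PR ρ) : ∀ p ∈ JJ ρ S, c * p ∈ JJ ρ S := by
  unfold PR at hc
  induction hc using Subring.closure_induction with
  | mem c hc =>
    obtain ⟨h, rfl⟩ := hc
    intro p hp
    unfold JJ at hp
    induction hp using AddSubgroup.closure_induction with
    | mem p hp =>
      obtain ⟨g, s, hs, rfl⟩ := hp
      apply AddSubgroup.subset_closure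
      exact ⟨h * g, s, hs, by rw [map_mul, mul_assoc]⟩
    | zero => rw [mul_zero]; exact zero_mem _
    | add a b _ _ ha hb => rw [mul_add]; exact add_mem ha hb
    | neg a _ ha => rw [mul_neg]; exact neg_mem ha
  | zero => intro p _; rw [zero_mul]; exact zero_mem _
  | one => intro p hp; rw [one_mul]; exact hp
  | add a b _ _ ha hb => intro p hp; rw [add_mul]; exact add_mem (ha p hp) (hb p hp)
  | neg a _ ha => intro p hp; rw [neg_mul]; exact neg_mem (ha p hp)
  | mul a b _ _ ha hb => intro p hp; rw [mul_assoc]; exact ha _ (hb p hp)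

theorem right_mul (S : Set R) (hS : ∀ s ∈ S, ∀ g : G, ρ g * s * ρ g⁻¹ ∈ S) (c : R)
    (hc : c ∈ PR ρ) : ∀ p ∈ JJ ρ S, p * c ∈ JJ ρ S := by
  unfold PR at hc
  induction hc using Subring.closure_induction with
  | mem c hc =>
    obtain ⟨h, rfl⟩ := hc
    intro p hp
    unfold JJ at hp
    induction hp using AddSubgroup.closure_induction with
    | mem p hp =>
      obtain ⟨g, s, hs, rfl⟩ := hp
      apply AddSubgroup.subset_closure
      refine ⟨g * h, _, hS s hs h⁻¹, ?_⟩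
      have e : ρ h * ρ h⁻¹ = 1 := by rw [← map_mul, mul_inv_cancel, map_one]
      rw [inv_inv, map_mul]
      calc ρ g * s * ρ h = ρ g * 1 * s * ρ h := by rw [mul_one]
        _ = ρ g * (ρ h * ρ h⁻¹) * s * ρ h := by rw [e]
        _ = ρ g * ρ h * (ρ h⁻¹ * s * ρ h) := by noncomm_ring
    | zero => rw [zero_mul]; exact zero_mem _
    | add a b _ _ ha hb => rw [add_mul]; exact add_mem ha hb
    | neg a _ ha => rw [neg_mul]; exact neg_mem ha
  | zero => intro p _; rw [mul_zero]; exact zero_mem _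
  | one => intro p hp; rw [mul_one]; exact hp
  | add a b _ _ ha hb => intro p hp; rw [mul_add]; exact add_mem (ha p hp) (hb p hp)
  | neg a _ ha => intro p hp; rw [mul_neg]; exact neg_mem (ha p hp)
  | mul a b _ _ ha hb => intro p hp; rw [← mul_assoc]; exact hb _ (ha p hp)

/-- The ideal of `PR ρ` spanned by the `ρ g * s`. -/
def JI (S : Set R) : Ideal (PR ρ) where
  carrier := {p | (p : R) ∈ JJ ρ S}
  add_mem' := fun {a b} ha hb => by
    show ((a + b : PR ρ) : R) ∈ JJ ρ S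
    rw [Subring.coe_add]; exact add_mem ha hb
  zero_mem' := by
    show ((0 : PR ρ) : R) ∈ JJ ρ S
    rw [Subring.coe_zero]; exact zero_mem _
  smul_mem' := fun c p hp => by
    show ((c * p : PR ρ) : R) ∈ JJ ρ S
    rw [Subring.coe_mul]; exact left_mul ρ S c c.2 p hp

theorem mem_JI (S : Set R) (p : PR ρ) : p ∈ JI ρ S ↔ (p : R) ∈ JJ ρ S := Iff.rfl

theorem JI_two (S : Set R) (hS : ∀ s ∈ S, ∀ g : G, ρ g * s * ρ g⁻¹ ∈ S) :
    (JI ρ S).IsTwoSided := ⟨fun {a} b ha => by
  show ((a * b : PR ρ) : R) ∈ JJ ρ S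
  rw [Subring.coe_mul]
  exact right_mul ρ S hS b b.2 a ha⟩

theorem ev_map {A B : Type} [Ring A] [Ring B] (f : A →+* B) {r : ℕ} (g : Fin r → A)
    (w : List (Fin r)) : ev (fun i => f (g i)) w = f (ev g w) := by
  unfold ev
  rw [map_list_prod, List.map_map]
  rfl

/-- Conjugation of `ρ a - 1`. -/
theorem conj_sub (a g : G) : ρ g * (ρ a - 1) * ρ g⁻¹ = ρ (g * a * g⁻¹) - 1 := by
  rw [mul_sub, sub_mul, mul_one, ← map_mul, ← map_mul, ← map_mul, mul_inv_cancel, map_one]

theorem conj3 (a b g : G) : ρ g * ((ρ a - 1) * (ρ b - 1) * (ρ a - 1)) * ρ g⁻¹ =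
    (ρ (g * a * g⁻¹) - 1) * (ρ (g * b * g⁻¹) - 1) * (ρ (g * a * g⁻¹) - 1) := by
  rw [← conj_sub, ← conj_sub]
  have e : ρ g⁻¹ * ρ g = 1 := by rw [← map_mul, inv_mul_cancel, map_one]
  symm
  calc ρ g * (ρ a - 1) * ρ g⁻¹ * (ρ g * (ρ b - 1) * ρ g⁻¹) * (ρ g * (ρ a - 1) * ρ g⁻¹)
      = ρ g * (ρ a - 1) * (ρ g⁻¹ * ρ g) * (ρ b - 1) * (ρ g⁻¹ * ρ g) * (ρ a - 1) * ρ g⁻¹ := by
        simp only [mul_assoc]
    _ = _ := by rw [e]; simp only [mul_one, mul_assoc]

/-- The ring theoretic core: in a ring of characteristic 2 where all `U V U` vanish the hypotheses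
of the sandwich theorem are satisfied. -/
theorem core {Q : Type} [Ring Q] (σ : G →* Q) (DDx : Set G) (h2 : (2 : Q) = 0)
    (hc : ∀ a ∈ DDx, ∀ g : G, g * a * g⁻¹ ∈ DDx) (hi : ∀ a ∈ DDx, a * a = 1)
    (hu : ∀ a ∈ DDx, ∀ b ∈ DDx, (σ a - 1) * (σ b - 1) * (σ a - 1) = 0)
    {m : ℕ} (x : Fin m → G) (hx : ∀ i, x i ∈ DDx) (l : Q) (hl : Com (fun i => σ (x i) - 1) l) :
    ∀ i, (σ (x i) - 1) * l * (σ (x i) - 1) = 0 := by
  have hspan : l ∈ AddSubgroup.closure {y | ∃ a ∈ DDx, y = σ a - 1} := by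
    have neg2 : ∀ q : Q, q + q = 0 := fun q => by rw [← two_mul, h2, zero_mul]
    -- bracket of two generators
    have hbr : ∀ a ∈ DDx, ∀ b ∈ DDx, (σ a - 1) * (σ b - 1) - (σ b - 1) * (σ a - 1) =
        (σ a - 1) + (σ (b * a * b⁻¹) - 1) := by
      intro a ha b hb
      rw [← conj_sub σ a b]
      have hb' : b⁻¹ = b := inv_eq_of_mul_eq_one_left (hi b hb)
      rw [hb']
      have h0 := hu b hb a ha
      have e1 : σ b * (σ a - 1) * σ b = (σ b - 1) * (σ a - 1) * (σ b - 1) +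
        ((σ b - 1) * (σ a - 1) + (σ a - 1) * (σ b - 1) + (σ a - 1)) := by noncomm_ring
      rw [e1, h0, zero_add]
      have e2 : (σ a - 1) * (σ b - 1) - (σ b - 1) * (σ a - 1) =
        ((σ b - 1) * (σ a - 1) + (σ a - 1) * (σ b - 1)) -
          ((σ b - 1) * (σ a - 1) + (σ b - 1) * (σ a - 1)) := by abel
      have e3 : (σ a - 1) + ((σ b - 1) * (σ a - 1) + (σ a - 1) * (σ b - 1) + (σ a - 1)) =
        ((σ b - 1) * (σ a - 1) + (σ a - 1) * (σ b - 1)) + ((σ a - 1) + (σ a - 1)) := by abel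
      rw [e2, e3, neg2, neg2, sub_zero, add_zero]
    have hgen : ∀ a ∈ AddSubgroup.closure {y | ∃ a ∈ DDx, y = σ a - 1},
        ∀ b ∈ AddSubgroup.closure {y | ∃ a ∈ DDx, y = σ a - 1},
        a * b - b * a ∈ AddSubgroup.closure {y | ∃ a ∈ DDx, y = σ a - 1} := by
      intro a ha
      induction ha using AddSubgroup.closure_induction with
      | mem a ha =>
        obtain ⟨a, ha, rfl⟩ := ha
        intro b hb
        induction hb using AddSubgroup.closure_induction with
        | mem b hb =>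
          obtain ⟨b, hb, rfl⟩ := hb
          rw [hbr a ha b hb]
          exact add_mem (AddSubgroup.subset_closure ⟨a, ha, rfl⟩)
            (AddSubgroup.subset_closure ⟨_, hc a ha b, rfl⟩)
        | zero => rw [mul_zero, zero_mul, sub_zero]; exact zero_mem _
        | add u v _ _ hu' hv' =>
          have : (σ a - 1) * (u + v) - (u + v) * (σ a - 1) =
            ((σ a - 1) * u - u * (σ a - 1)) + ((σ a - 1) * v - v * (σ a - 1)) := by noncomm_ring
          rw [this]; exact add_mem hu' hv'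
        | neg u _ hu' =>
          have : (σ a - 1) * (-u) - (-u) * (σ a - 1) = - ((σ a - 1) * u - u * (σ a - 1)) := by
            noncomm_ring
          rw [this]; exact neg_mem hu'
      | zero => intro b _; rw [mul_zero, zero_mul, sub_zero]; exact zero_mem _
      | add u v _ _ hu' hv' =>
        intro b hb
        have : (u + v) * b - b * (u + v) = (u * b - b * u) + (v * b - b * v) := by noncomm_ring
        rw [this]; exact add_mem (hu' b hb) (hv' b hb)
      | neg u _ hu' =>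
        intro b hb
        have : (-u) * b - b * (-u) = - (u * b - b * u) := by noncomm_ring
        rw [this]; exact neg_mem (hu' b hb)
    induction hl with
    | gen i => exact AddSubgroup.subset_closure ⟨x i, hx i, rfl⟩
    | br a b _ _ ha hb => exact hgen a ha b hb
  intro i
  clear hl
  induction hspan using AddSubgroup.closure_induction with
  | mem b hb =>
    obtain ⟨b, hb, rfl⟩ := hb
    exact hu (x i) (hx i) b hb
  | zero => rw [mul_zero, zero_mul]
  | add u v _ _ hu' hv' => rw [mul_add, add_mul, hu', hv', add_zero]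
  | neg u _ hu' => rw [mul_neg, neg_mul, hu', neg_zero]

end QXY_

open QXY_

theorem qxy_proof (h1 : Stmt_SWU) (h2 : Stmt_Law) : Stmt_Qxy := by
  intro m
  obtain ⟨N, hN⟩ := h1 m
  refine ⟨N, ?_⟩
  intro G _ x R _ ρ hinv hR w hw
  obtain ⟨hconj, -, hgood, -, -, -, -⟩ := h2 G m x hinv
  have hDD : ∀ a ∈ DD x, ∀ g : G, g * a * g⁻¹ ∈ DD x := hconj 0
  have hDi : ∀ a ∈ DD x, a * a = 1 := fun a ha => (hgood a ha).1
  have hxD : ∀ i, x i ∈ DD x := fun i => ⟨i, 1, by group⟩
  set S : Set R := {s : R | ∃ a ∈ DD x, ∃ b ∈ DD x, s = (ρ a - 1) * (ρ b - 1) * (ρ a - 1)} with hSdef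
  have hS : ∀ s ∈ S, ∀ g : G, ρ g * s * ρ g⁻¹ ∈ S := by
    rintro s ⟨a, ha, b, hb, rfl⟩ g
    exact ⟨_, hDD a ha g, _, hDD b hb g, conj3 ρ a b g⟩
  have : (JI ρ S).IsTwoSided := JI_two ρ S hS
  let σ' : G →* PR ρ :=
    { toFun := fun g => ⟨ρ g, mem_PR ρ g⟩
      map_one' := by apply Subtype.ext; exact map_one ρ
      map_mul' := fun a b => by apply Subtype.ext; exact map_mul ρ a b }
  let q : PR ρ →+* (PR ρ ⧸ JI ρ S) := Ideal.Quotient.mk (JI ρ S)
  let σ : G →* (PR ρ ⧸ JI ρ S) := (q : PR ρ →* (PR ρ ⧸ JI ρ S)).comp σ'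
  have hσ : ∀ g, σ g = q (σ' g) := fun g => rfl
  have hq : ∀ p : PR ρ, (p : R) ∈ JJ ρ S → q p = 0 := fun p hp =>
    Ideal.Quotient.eq_zero_iff_mem.mpr hp
  have hq' : ∀ p : PR ρ, q p = 0 → (p : R) ∈ JJ ρ S := fun p hp =>
    Ideal.Quotient.eq_zero_iff_mem.mp hp
  have h20 : (2 : PR ρ ⧸ JI ρ S) = 0 := by
    have e : (2 : PR ρ) = 0 := by
      apply Subtype.ext
      have := hR.two
      exact this
    have := congrArg q e
    rwa [map_ofNat, map_zero] at this
  have hu : ∀ a ∈ DD x, ∀ b ∈ DD x, (σ a - 1) * (σ b - 1) * (σ a - 1) = 0 := by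
    intro a ha b hb
    rw [hσ, hσ, ← map_one q, ← map_sub, ← map_sub, ← map_mul, ← map_mul]
    apply hq
    apply AddSubgroup.subset_closure
    refine ⟨1, _, ⟨a, ha, b, hb, rfl⟩, ?_⟩
    rw [map_one, one_mul]
    rfl
  have hsq : ∀ a ∈ DD x, (σ a - 1) * (σ a - 1) = 0 := by
    intro a ha
    rw [hσ, ← map_one q, ← map_sub, ← map_mul]
    apply hq
    have e := hR.sq a (hgood a ha)
    have : (((σ' a - 1) * (σ' a - 1) : PR ρ) : R) = (ρ a - 1) * (ρ a - 1) := rfl
    rw [this, e]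
    exact zero_mem _
  have key := hN (PR ρ ⧸ JI ρ S) (fun i => σ (x i) - 1) (fun i => hsq (x i) (hxD i))
    (fun i l hl => core σ (DD x) h20 hDD hDi hu x hxD l hl i) w hw
  have e1 : (fun i => σ (x i) - 1) = fun i => q (σ' (x i) - 1) := by
    funext i
    rw [map_sub, map_one, hσ]
  rw [e1, ev_map] at key
  have key2 := hq' _ key
  have e2 : ((ev (fun i => σ' (x i) - 1) w : PR ρ) : R) = ev (ops x ρ) w := by
    have := ev_map (PR ρ).subtype (fun i => σ' (x i) - 1) w
    rw [Subring.coe_subtype] at this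
    rw [← this]
    rfl
  rw [e2] at key2
  exact key2

end Pool.Agent.L3E
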