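import Pool.Agent.L3E.Stmts

/-!
# SIT: vanishing words in the operators and iterated commutators
-/

set_option autoImplicit false

namespace Pool.Agent.L3E

open Pool.Agent.KOS (ev Com)
open scoped commutatorElement

namespace SIT_

variable {G : Type} [Group G] {m : ℕ} {x : Fin m → G} {V K : Subgroup G} {M : Type}
  [AddCommGroup M]

theorem ops_apply (s : Sec G V K M) (i : Fin m) (a : M) :
    ops x s.rho i a = s.rho (x i) a - a := rfl

theorem ev_cons (X : Fin m → AddMonoid.End M) (i : Fin m) (w : List (Fin m)) (a : M) :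
    ev X (i :: w) a = X i (ev X w a) := by
  unfold ev
  rw [List.map_cons, List.prod_cons]
  rfl

theorem ev_append (X : Fin m → AddMonoid.End M) (i : Fin m) (w : List (Fin m)) (a : M) :
    ev X (w ++ [i]) a = ev X w (X i a) := by
  unfold ev
  rw [List.map_append, List.prod_append, List.map_singleton, List.prod_singleton]
  rfl

/-- the span of the images of the words of length `j` -/
def MJ (X : Fin m → AddMonoid.End M) (j : ℕ) : AddSubgroup M :=
  AddSubgroup.closure {b | ∃ (w : List (Fin m)) (a : M), w.length = j ∧ b = ev X w a}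

theorem mj_zero (X : Fin m → AddMonoid.End M) (a : M) : a ∈ MJ X 0 :=
  AddSubgroup.subset_closure ⟨[], a, rfl, rfl⟩

theorem mj_succ_le (X : Fin m → AddMonoid.End M) (j : ℕ) : MJ X (j + 1) ≤ MJ X j := by
  unfold MJ
  rw [AddSubgroup.closure_le]
  rintro b ⟨w, a, hw, rfl⟩
  have hne : w ≠ [] := by
    intro h
    rw [h] at hw
    simp at hw
  obtain ⟨w', i, rfl⟩ : ∃ w' i, w = w' ++ [i] :=
    ⟨w.dropLast, w.getLast hne, (List.dropLast_append_getLast hne).symm⟩
  rw [List.length_append, List.length_singleton] at hw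
  rw [ev_append]
  exact AddSubgroup.subset_closure ⟨w', X i a, by omega, rfl⟩

theorem mj_step (X : Fin m → AddMonoid.End M) (j : ℕ) (i : Fin m) {a : M} (ha : a ∈ MJ X j) :
    X i a ∈ MJ X (j + 1) := by
  unfold MJ at ha
  induction ha using AddSubgroup.closure_induction with
  | mem b hb =>
    obtain ⟨w, c, hw, rfl⟩ := hb
    rw [← ev_cons]
    exact AddSubgroup.subset_closure ⟨i :: w, c, by rw [List.length_cons, hw], rfl⟩
  | zero => rw [map_zero]; exact AddSubgroup.zero_mem _
  | add b c _ _ hb hc => rw [map_add]; exact AddSubgroup.add_mem _ hb hc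
  | neg b _ hb => rw [map_neg]; exact AddSubgroup.neg_mem _ hb

theorem rho_mul (s : Sec G V K M) (g h : G) (a : M) :
    s.rho (g * h) a = s.rho g (s.rho h a) := by
  rw [map_mul]
  rfl

theorem rho_one (s : Sec G V K M) (a : M) : s.rho 1 a = a := by
  rw [map_one]
  rfl

/-- if `M_{j+1}` is stable then `G` acts trivially on `M_j / M_{j+1}` -/
theorem triv (s : Sec G V K M) (hx : Subgroup.closure (Set.range x) = ⊤) (j : ℕ)
    (hst : ∀ g : G, ∀ a ∈ MJ (ops x s.rho) (j + 1), s.rho g a ∈ MJ (ops x s.rho) (j + 1)) :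
    ∀ g : G, ∀ a ∈ MJ (ops x s.rho) j, s.rho g a - a ∈ MJ (ops x s.rho) (j + 1) := by
  intro g
  have hg : g ∈ Subgroup.closure (Set.range x) := by rw [hx]; trivial
  induction hg using Subgroup.closure_induction with
  | mem y hy =>
    obtain ⟨i, rfl⟩ := hy
    intro a ha
    have := mj_step (ops x s.rho) j i ha
    rw [ops_apply] at this
    exact this
  | one =>
    intro a _
    rw [rho_one, sub_self]
    exact AddSubgroup.zero_mem _
  | mul y z _ _ hy hz =>
    intro a ha
    have e : s.rho (y * z) a - a = s.rho y (s.rho z a - a) + (s.rho y a - a) := by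
      rw [rho_mul, map_sub]
      abel
    rw [e]
    exact AddSubgroup.add_mem _ (hst y _ (hz a ha)) (hy a ha)
  | inv y _ hy =>
    intro a ha
    have e : s.rho y⁻¹ a - a = -(s.rho y⁻¹ (s.rho y a - a)) := by
      rw [map_sub, ← rho_mul, inv_mul_cancel, rho_one]
      abel
    rw [e]
    exact AddSubgroup.neg_mem _ (hst y⁻¹ _ (hy a ha))

theorem stable (s : Sec G V K M) (hx : Subgroup.closure (Set.range x) = ⊤) (k : ℕ)
    (hk : NW (ops x s.rho) k) : ∀ n j : ℕ, j + n = k →
    ∀ g : G, ∀ a ∈ MJ (ops x s.rho) j, s.rho g a ∈ MJ (ops x s.rho) j := by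
  intro n
  induction n with
  | zero =>
    intro j hj g a ha
    have h0 : a = 0 := by
      unfold MJ at ha
      induction ha using AddSubgroup.closure_induction with
      | mem b hb =>
        obtain ⟨w, c, hw, rfl⟩ := hb
        rw [hk w (by omega)]
        rfl
      | zero => rfl
      | add b c _ _ hb hc => rw [hb, hc, add_zero]
      | neg b _ hb => rw [hb, neg_zero]
    rw [h0, map_zero]
    exact AddSubgroup.zero_mem _
  | succ n ih =>
    intro j hj g a ha
    have h1 := triv s hx j (ih (j + 1) (by omega)) g a ha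
    have h2 : s.rho g a = (s.rho g a - a) + a := by abel
    rw [h2]
    exact AddSubgroup.add_mem _ (mj_succ_le _ _ h1) ha

theorem pi_one (s : Sec G V K M) : s.pi 1 = 0 := (s.ker 1).2 K.one_mem

theorem pi_inv (s : Sec G V K M) (v : V) : s.pi v⁻¹ = -s.pi v := by
  have h := s.mul v v⁻¹
  rw [mul_inv_cancel, pi_one] at h
  exact (neg_eq_of_add_eq_zero_right h.symm).symm

end SIT_

open SIT_ in
theorem sit_proof : Stmt_Sit := by
  intro G _ m x V K M _ s hV _ _ hx
  constructor
  · intro k hk
    -- every iterated commutator subgroup lies in `V` and maps into `M_j`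
    have key : ∀ j ≤ k, ∀ u ∈ it V j, ∃ hu : u ∈ V, s.pi ⟨u, hu⟩ ∈ MJ (ops x s.rho) j := by
      intro j
      induction j with
      | zero =>
        intro _ u hu
        exact ⟨hu, mj_zero _ _⟩
      | succ j ih =>
        intro hj u hu
        have htriv := triv s hx j (stable s hx k hk (k - (j + 1)) (j + 1) (by omega))
        let W : Subgroup G :=
          { carrier := {u | ∃ hu : u ∈ V, s.pi ⟨u, hu⟩ ∈ MJ (ops x s.rho) (j + 1)}
            mul_mem' := by
              rintro a b ⟨ha, ha'⟩ ⟨hb, hb'⟩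
              refine ⟨V.mul_mem ha hb, ?_⟩
              have := s.mul ⟨a, ha⟩ ⟨b, hb⟩
              have e : (⟨a, ha⟩ * ⟨b, hb⟩ : V) = ⟨a * b, V.mul_mem ha hb⟩ := rfl
              rw [e] at this
              rw [this]
              exact AddSubgroup.add_mem _ ha' hb'
            one_mem' := by
              refine ⟨V.one_mem, ?_⟩
              have : s.pi ⟨1, V.one_mem⟩ = 0 := pi_one s
              rw [this]
              exact AddSubgroup.zero_mem _
            inv_mem' := by
              rintro a ⟨ha, ha'⟩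
              refine ⟨V.inv_mem ha, ?_⟩
              have : s.pi ⟨a⁻¹, V.inv_mem ha⟩ = -s.pi ⟨a, ha⟩ := pi_inv s ⟨a, ha⟩
              rw [this]
              exact AddSubgroup.neg_mem _ ha' }
        have hle : it V (j + 1) ≤ W := by
          have : it V (j + 1) = ⁅it V j, (⊤ : Subgroup G)⁆ := rfl
          rw [this, Subgroup.commutator_le]
          intro v hv g _
          obtain ⟨hvV, hv'⟩ := ih (by omega) v hv
          have hgv : g * v⁻¹ * g⁻¹ ∈ V := hV.conj_mem _ (V.inv_mem hvV) g
          have e1 : ⁅v, g⁆ = v * (g * v⁻¹ * g⁻¹) := by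
            rw [commutatorElement_def]
            group
          have hmem : ⁅v, g⁆ ∈ V := by
            rw [e1]
            exact V.mul_mem hvV hgv
          refine ⟨hmem, ?_⟩
          have e2 : (⟨⁅v, g⁆, hmem⟩ : V) = ⟨v, hvV⟩ * ⟨g * v⁻¹ * g⁻¹, hgv⟩ :=
            Subtype.ext e1
          have e3 := s.act g (⟨v, hvV⟩⁻¹ : V) ⟨g * v⁻¹ * g⁻¹, hgv⟩ rfl
          rw [e2, s.mul, e3, pi_inv, map_neg]
          have e4 : s.pi ⟨v, hvV⟩ + -(s.rho g (s.pi ⟨v, hvV⟩)) =
              -(s.rho g (s.pi ⟨v, hvV⟩) - s.pi ⟨v, hvV⟩) := by abel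
          rw [e4]
          exact AddSubgroup.neg_mem _ (htriv g _ hv')
        exact hle hu
    intro u hu
    obtain ⟨huV, hu'⟩ := key k le_rfl u hu
    have h0 : s.pi ⟨u, huV⟩ = 0 := by
      generalize s.pi ⟨u, huV⟩ = b at hu'
      unfold MJ at hu'
      induction hu' using AddSubgroup.closure_induction with
      | mem b hb =>
        obtain ⟨w, c, hw, rfl⟩ := hb
        rw [hk w hw]
        rfl
      | zero => rfl
      | add b c _ _ hb hc => rw [hb, hc, add_zero]
      | neg b _ hb => rw [hb, neg_zero]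
    exact (s.ker _).1 h0
  · intro k hk w hw
    have key : ∀ (w : List (Fin m)) (v : V), ∃ u : V, (u : G) ∈ it V w.length ∧
        ev (ops x s.rho) w (s.pi v) = s.pi u := by
      intro w
      induction w with
      | nil =>
        intro v
        exact ⟨v, v.2, rfl⟩
      | cons i w ih =>
        intro v
        obtain ⟨u, hu, he⟩ := ih v
        have hgu : x i * (u : G) * (x i)⁻¹ ∈ V := hV.conj_mem _ u.2 (x i)
        refine ⟨⟨x i * (u : G) * (x i)⁻¹, hgu⟩ * u⁻¹, ?_, ?_⟩
        · have e1 : ((⟨x i * (u : G) * (x i)⁻¹, hgu⟩ * u⁻¹ : V) : G) = ⁅(u : G), x i⁆⁻¹ := by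
            rw [commutatorElement_inv, commutatorElement_def]
            rfl
          rw [e1]
          have e2 : it V (i :: w).length = ⁅it V w.length, (⊤ : Subgroup G)⁆ := rfl
          rw [e2]
          exact Subgroup.inv_mem _ (Subgroup.commutator_mem_commutator hu (Subgroup.mem_top _))
        · rw [ev_cons, he, ops_apply, s.mul, pi_inv, s.act (x i) u ⟨x i * (u : G) * (x i)⁻¹, hgu⟩
            rfl, sub_eq_add_neg]
    have hall : ∀ a : M, ev (ops x s.rho) w a = 0 := by
      intro a
      obtain ⟨v, rfl⟩ := s.surj a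
      obtain ⟨u, hu, he⟩ := key w v
      rw [he]
      rw [hw] at hu
      exact (s.ker u).2 (hk hu)
    exact AddMonoidHom.ext hall

end Pool.Agent.L3E
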