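import Pool.Agent.L3E.Stmts

set_option autoImplicit false

/-!
# L3E, module SND: class bound for groups generated by elements of a sandwich set
-/

namespace Pool.Agent.L3E

open Pool.Agent.KOS (ev Com)
open scoped commutatorElement

namespace SND_

variable {G : Type} [Group G]

theorem it_mono {A B : Subgroup G} (h : A ≤ B) (k : ℕ) : it A k ≤ it B k := by
  induction k with
  | zero => exact h
  | succ n ih => exact Subgroup.commutator_mono ih le_rfl

theorem gam_succ (n : ℕ) : gam G (n + 1) = ⁅gam G n, (⊤ : Subgroup G)⁆ := rfl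

theorem gam_add (a k : ℕ) : gam G (a + k) = it (gam G a) k := by
  induction k with
  | zero => rfl
  | succ n ih =>
    show gam G (a + n + 1) = ⁅it (gam G a) n, (⊤ : Subgroup G)⁆
    rw [gam_succ, ih]

theorem lcs_normal (N : Subgroup G) (hN : N.Normal) (i : ℕ) : (N.lowerCentralSeries i).Normal := by
  induction i with
  | zero => exact hN
  | succ n ih =>
    rw [Subgroup.lowerCentralSeries_succ]
    have := ih
    have := hN
    exact Subgroup.commutator_normal _ _

theorem nk_normal {m : ℕ} (x : Fin m → G) (k : ℕ) : (Nk x k).Normal :=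
  Subgroup.normalClosure_normal

/-- Two involutions whose commutator commutes with the first: the product has order dividing 4. -/
theorem pair4 {H : Type} [Group H] (u v : H) (hu : u * u = 1) (hv : v * v = 1)
    (hc : Commute ⁅u, v⁆ u) : (u * v) ^ 4 = 1 := by
  have hu' : u⁻¹ = u := inv_eq_of_mul_eq_one_left hu
  have hv' : v⁻¹ = v := inv_eq_of_mul_eq_one_left hv
  have hc1 : ⁅u, v⁆ * u = u * ⁅u, v⁆ := hc
  rw [commutatorElement_def, hu', hv'] at hc1
  -- u v u v u = u u v u v = v u v
  have h1 : u * v * u * v * u = v * u * v := by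
    rw [hc1]
    calc u * (u * v * u * v) = (u * u) * (v * u * v) := by group
      _ = v * u * v := by rw [hu, one_mul]
  calc (u * v) ^ 4 = (u * v * u * v * u) * (v * u * v) := by
        simp only [pow_succ, pow_zero, one_mul, mul_assoc]
    _ = (v * u * v) * (v * u * v) := by rw [h1]
    _ = v * u * (v * v) * u * v := by group
    _ = v * (u * u) * v := by rw [hv]; group
    _ = 1 := by rw [hu, mul_one, hv]

theorem quot_inv {m : ℕ} (D : Set G) (x : Fin m → G) (hD : Sand D) (hx : ∀ i, x i ∈ D)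
    (hg : Subgroup.closure (Set.range x) = ⊤) (N : Subgroup G) [hN : N.Normal]
    (h2 : ∀ i, x i * x i ∈ N) : Inv (fun i => (QuotientGroup.mk' N (x i) : G ⧸ N)) := by
  have hsq : ∀ i, QuotientGroup.mk' N (x i) * QuotientGroup.mk' N (x i) = 1 := by
    intro i
    rw [← map_mul]
    exact (QuotientGroup.eq_one_iff _).mpr (h2 i)
  refine ⟨?_, hsq, ?_⟩
  · have : Set.range (fun i => (QuotientGroup.mk' N (x i) : G ⧸ N)) =
        (QuotientGroup.mk' N) '' (Set.range x) := by
      rw [← Set.range_comp]; rfl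
    rw [this, ← MonoidHom.map_closure, hg]
    exact Subgroup.map_top_of_surjective _ (QuotientGroup.mk'_surjective N)
  · intro i j g
    obtain ⟨g, rfl⟩ := QuotientGroup.mk'_surjective N g
    have e : QuotientGroup.mk' N g * QuotientGroup.mk' N (x j) * (QuotientGroup.mk' N g)⁻¹ =
        QuotientGroup.mk' N (g * x j * g⁻¹) := by
      rw [map_mul, map_mul, map_inv]
    apply pair4
    · exact hsq i
    · calc QuotientGroup.mk' N g * QuotientGroup.mk' N (x j) * (QuotientGroup.mk' N g)⁻¹ *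
            (QuotientGroup.mk' N g * QuotientGroup.mk' N (x j) * (QuotientGroup.mk' N g)⁻¹)
          = QuotientGroup.mk' N g * (QuotientGroup.mk' N (x j) * QuotientGroup.mk' N (x j)) *
            (QuotientGroup.mk' N g)⁻¹ := by group
        _ = 1 := by rw [hsq j]; group
    · show Commute ⁅QuotientGroup.mk' N (x i),
        QuotientGroup.mk' N g * QuotientGroup.mk' N (x j) * (QuotientGroup.mk' N g)⁻¹⁆
        (QuotientGroup.mk' N (x i))
      rw [e, ← map_commutatorElement]
      exact (hD.comm (x i) (hx i) (g * x j * g⁻¹) (hD.conj _ (hx j) g)).map (QuotientGroup.mk' N)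

theorem gam_le_of_quot (N : Subgroup G) [hN : N.Normal] (c : ℕ) (h : gam (G ⧸ N) c = ⊥) :
    gam G c ≤ N := by
  have h1 : (gam G c).map (QuotientGroup.mk' N) = gam (G ⧸ N) c := by
    unfold gam
    rw [Subgroup.map_lowerCentralSeries,
      Subgroup.map_top_of_surjective _ (QuotientGroup.mk'_surjective N)]
  rw [h, Subgroup.map_eq_bot_iff, QuotientGroup.ker_mk'] at h1
  exact h1

end SND_

open SND_

theorem snd_proof (h1 : Stmt_Core) (h2 : Stmt_US) (h3 : Stmt_NKC) (h4 : Stmt_Gen)
    (h5 : Stmt_P8) : Stmt_Snd := by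
  intro m
  obtain ⟨c1, hc1⟩ := h1 m
  obtain ⟨k1, hk1⟩ := h2 m c1
  obtain ⟨k2, hk2⟩ := h2 m (c1 + k1 + k1)
  obtain ⟨M, hM⟩ := h4 m m k2
  obtain ⟨c3, hc3⟩ := h5 M
  refine ⟨c1 + k1 + k1 + c3 * k2, ?_⟩
  intro G _ D x hnil hD hx hgen
  have hL3 : ∀ i, L3 (x i) := fun i g =>
    hD.comm (x i) (hx i) (g * x i * g⁻¹) (hD.conj _ (hx i) g)
  obtain ⟨hcomm, hdesc⟩ := h3 G D m x hD hx
  have n1 := nk_normal x 1
  have n2 := nk_normal x 2
  have n3 := nk_normal x 3
  -- step 1
  have s1 : gam G c1 ≤ Nk x 1 := by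
    have := n1
    apply gam_le_of_quot (Nk x 1) c1
    apply hc1 (G ⧸ Nk x 1) (fun i => QuotientGroup.mk' (Nk x 1) (x i)) inferInstance
    apply quot_inv D x hD hx hgen
    intro i
    have : x i * x i = x i ^ 2 ^ 1 := by rw [pow_one, pow_two]
    rw [this]
    exact Subgroup.subset_normalClosure ⟨i, rfl⟩
  -- step 2
  have s2 : gam G (c1 + k1) ≤ Nk x 2 := by
    rw [gam_add]
    refine (it_mono s1 k1).trans ?_
    refine hk1 G x hgen hL3 (Nk x 1) (Nk x 2) n1 n2 (hdesc 1) (hcomm 1 1) ?_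
    exact (Subgroup.commutator_mono le_rfl s1).trans (hcomm 1 1)
  have s3 : gam G (c1 + k1 + k1) ≤ Nk x 3 := by
    rw [gam_add]
    refine (it_mono s2 k1).trans ?_
    refine hk1 G x hgen hL3 (Nk x 2) (Nk x 3) n2 n3 (hdesc 2)
      ((hcomm 2 2).trans (hdesc 3)) ?_
    exact (Subgroup.commutator_mono le_rfl s1).trans (hcomm 2 1)
  -- boundedly many conjugates generate
  have n33 : (⁅Nk x 3, Nk x 3⁆ : Subgroup G).Normal := by
    have := n3
    exact Subgroup.commutator_normal _ _
  have n33le : ⁅Nk x 3, Nk x 3⁆ ≤ Nk x 3 := by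
    have := n3
    exact Subgroup.commutator_le_left _ _
  have s4 : it (Nk x 3) k2 ≤ ⁅Nk x 3, Nk x 3⁆ :=
    hk2 G x hgen hL3 (Nk x 3) ⁅Nk x 3, Nk x 3⁆ n3 n33 n33le le_rfl
      (Subgroup.commutator_mono le_rfl s3)
  obtain ⟨y', hy', hcl⟩ := hM G x (fun i => x i ^ 2 ^ 3) (Nk x 3) hnil hgen rfl s4
  have s5 : (Nk x 3).lowerCentralSeries c3 = ⊥ := by
    refine hc3 G D (Nk x 3) y' hnil hD n3 ?_ hcl
    intro l
    obtain ⟨i, g, e⟩ := hy' l
    refine ⟨g * x i * g⁻¹, hD.conj _ (hx i) g, ?_⟩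
    rw [e, conj_pow]
    norm_num
  -- final step
  have s6 : ∀ i, gam G (c1 + k1 + k1 + i * k2) ≤ (Nk x 3).lowerCentralSeries i := by
    intro i
    induction i with
    | zero => rw [Nat.zero_mul, Nat.add_zero]; exact s3
    | succ n ih =>
      have e : c1 + k1 + k1 + (n + 1) * k2 = (c1 + k1 + k1 + n * k2) + k2 := by ring
      rw [e, gam_add]
      refine (it_mono ih k2).trans ?_
      have hle : (Nk x 3).lowerCentralSeries (n + 1) ≤ (Nk x 3).lowerCentralSeries n :=
        Subgroup.lowerCentralSeries_antitone _ (Nat.le_succ n)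
      refine hk2 G x hgen hL3 _ _ (lcs_normal _ n3 n) (lcs_normal _ n3 (n + 1)) hle ?_ ?_
      · rw [Subgroup.lowerCentralSeries_succ]
        exact Subgroup.commutator_mono le_rfl (Subgroup.lowerCentralSeries_le_self _ _)
      · rw [Subgroup.lowerCentralSeries_succ]
        exact Subgroup.commutator_mono le_rfl s3
  have := s6 c3
  rw [s5] at this
  exact le_bot_iff.mp this

end Pool.Agent.L3E
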