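import Pool.Agent.L3E.Stmts

set_option autoImplicit false

/-!
# L3E, module UNI: unipotent elements generating a group of class 2 (helper29)
-/

namespace Pool.Agent.L3E

open Pool.Agent.KOS (ev Com)
open scoped commutatorElement

namespace UNI_

variable {R : Type} [Ring R]

theorem pow_five {a b : R} (hc : Commute a b) (ha : (a - 1) ^ 3 = 0) (hb : (b - 1) ^ 3 = 0) :
    (a * b - 1) ^ 5 = 0 := by
  have e : a * b - 1 = (a - 1) * b + (b - 1) := by noncomm_ring
  have hab : Commute (a - 1) b := hc.sub_left (Commute.one_left b)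
  have h1 : ((a - 1) * b) ^ 3 = 0 := by rw [hab.mul_pow, ha, zero_mul]
  have h2 : Commute ((a - 1) * b) (b - 1) :=
    (hab.mul_left (Commute.refl b)).sub_right (Commute.one_right _)
  rw [e]
  exact h2.add_pow_eq_zero_of_add_le_succ_of_pow_eq_zero h1 hb (by norm_num)

theorem inv_cube (y : Rˣ) (hy : ((y : R) - 1) ^ 3 = 0) : (((y⁻¹ : Rˣ) : R) - 1) ^ 3 = 0 := by
  have e : ((y⁻¹ : Rˣ) : R) - 1 = (-((y⁻¹ : Rˣ) : R)) * ((y : R) - 1) := by
    rw [mul_sub, neg_mul, Units.inv_mul, mul_one]
    noncomm_ring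
  have hc : Commute (-((y⁻¹ : Rˣ) : R)) ((y : R) - 1) := by
    refine Commute.sub_right ?_ (Commute.one_right _)
    refine Commute.neg_left ?_
    exact (Commute.refl (y : R)).units_inv_left
  rw [e, hc.mul_pow, hy, mul_zero]

/-- the commutative case -/
theorem comm_case {y z i : R} (hyz : Commute y z) (hiz : i * z = 1) (hzi : z * i = 1)
    (hy : (y - 1) ^ 3 = 0) (hz : (z - 1) ^ 3 = 0) : (i * y - 1) ^ 5 = 0 := by
  have hiy : Commute i y := by
    have : i * y * z = y * i * z := by
      rw [mul_assoc i y z, hyz.eq, ← mul_assoc, hiz, one_mul, mul_assoc, hiz, mul_one]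
    calc i * y = i * y * (z * i) := by rw [hzi, mul_one]
      _ = i * y * z * i := by rw [mul_assoc (i * y)]
      _ = y * i * z * i := by rw [this]
      _ = y * i := by rw [mul_assoc (y * i), hzi, mul_one]
  have hiz' : Commute i z := by
    change i * z = z * i
    rw [hiz, hzi]
  have e : i * y - 1 = i * ((y - 1) + -(z - 1)) := by
    rw [mul_add, mul_sub, mul_neg, mul_sub, hiz, mul_one]
    noncomm_ring
  have h1 : Commute (y - 1) (-(z - 1)) := by
    refine Commute.neg_right ?_
    refine Commute.sub_right (Commute.sub_left hyz (Commute.one_left _)) ?_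
    exact Commute.one_right _
  have h2 : (-(z - 1)) ^ 3 = 0 := by
    rw [Odd.neg_pow (by decide), hz, neg_zero]
  have h3 := h1.add_pow_eq_zero_of_add_le_succ_of_pow_eq_zero hy h2
    (show 3 + 3 ≤ 5 + 1 by norm_num)
  have h4 : Commute i ((y - 1) + -(z - 1)) := by
    refine Commute.add_right ?_ ?_
    · exact Commute.sub_right hiy (Commute.one_right _)
    · exact Commute.neg_right (Commute.sub_right hiz' (Commute.one_right _))
  rw [e, h4.mul_pow, h3, mul_zero]

end UNI_

open UNI_ in
theorem uni_proof : Stmt_Uni := by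
  intro R _ y z hy hz hcy hcz
  -- the commutator
  have hc0 : (((⁅y, z⁆ : Rˣ) : R) - 1) ^ 5 = 0 := by
    have e : ((⁅y, z⁆ : Rˣ) : R) = (y : R) * ((z * y⁻¹ * z⁻¹ : Rˣ) : R) := by
      rw [← Units.val_mul]
      congr 1
      rw [commutatorElement_def]
      group
    have hc : Commute (y : R) ((z * y⁻¹ * z⁻¹ : Rˣ) : R) := by
      have h1 : Commute y (z * y⁻¹ * z⁻¹) := by
        have h2 : z * y⁻¹ * z⁻¹ = y⁻¹ * ⁅y, z⁆ := by
          rw [commutatorElement_def]
          group
        rw [h2]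
        exact ((Commute.refl y).inv_right).mul_right hcy.symm
      exact h1.units_val
    have hb : (((z * y⁻¹ * z⁻¹ : Rˣ) : R) - 1) ^ 3 = 0 := by
      have h1 : ((z * y⁻¹ * z⁻¹ : Rˣ) : R) - 1 = z * (((y⁻¹ : Rˣ) : R) - 1) * ((z⁻¹ : Rˣ) : R) := by
        rw [Units.val_mul, Units.val_mul, mul_sub, sub_mul, mul_one, Units.mul_inv]
      have h2 : (z * (((y⁻¹ : Rˣ) : R) - 1) * ((z⁻¹ : Rˣ) : R)) ^ 3 =
          z * (((y⁻¹ : Rˣ) : R) - 1) ^ 3 * ((z⁻¹ : Rˣ) : R) := by
        rw [pow_succ, pow_succ, pow_one, pow_succ (((y⁻¹ : Rˣ) : R) - 1),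
          pow_succ (((y⁻¹ : Rˣ) : R) - 1), pow_one]
        simp only [mul_assoc, Units.inv_mul_cancel_left]
      rw [h1, h2, inv_cube y hy, mul_zero, zero_mul]
    rw [e]
    exact pow_five hc hy hb
  set Q : R := ((⁅y, z⁆ : Rˣ) : R) - 1 with hQ
  have hQy : Commute Q (y : R) :=
    Commute.sub_left (hcy.units_val) (Commute.one_left _)
  have hQz : Commute Q (z : R) :=
    Commute.sub_left (hcz.units_val) (Commute.one_left _)
  have hQzi : Commute Q ((z⁻¹ : Rˣ) : R) := hQz.units_inv_right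
  -- the centralizer of `Q`
  set S : Subring R := Subring.centralizer {Q} with hS
  have hmem : ∀ r : R, r ∈ S ↔ Commute Q r := by
    intro r
    rw [hS, Subring.mem_centralizer_iff]
    constructor
    · intro h
      exact h Q rfl
    · intro h g hg
      rw [Set.mem_singleton_iff] at hg
      rw [hg]
      exact h
  set y' : S := ⟨y, (hmem _).mpr hQy⟩ with hy'
  set z' : S := ⟨z, (hmem _).mpr hQz⟩ with hz'
  set i' : S := ⟨((z⁻¹ : Rˣ) : R), (hmem _).mpr hQzi⟩ with hi'
  set q : S := ⟨Q, (hmem _).mpr (Commute.refl Q)⟩ with hq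
  have hqc : ∀ s : S, q * s = s * q := by
    intro s
    apply Subtype.ext
    exact (hmem _).mp s.2
  let I : Ideal S := Ideal.span {q}
  have hI : I.IsTwoSided := by
    refine ⟨?_⟩
    intro a b ha
    rw [Ideal.mem_span_singleton'] at ha ⊢
    obtain ⟨s, rfl⟩ := ha
    exact ⟨s * b, by rw [mul_assoc, ← hqc b, mul_assoc]⟩
  let π : S →+* S ⧸ I := Ideal.Quotient.mk I
  have hyz : Commute (π y') (π z') := by
    change π y' * π z' = π z' * π y'
    rw [← map_mul, ← map_mul]
    rw [Ideal.Quotient.mk_eq_mk_iff_sub_mem, Ideal.mem_span_singleton']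
    refine ⟨z' * y', ?_⟩
    rw [← hqc]
    apply Subtype.ext
    change Q * ((z : R) * y) = (y : R) * z - z * y
    have e : ((⁅y, z⁆ : Rˣ) : R) * ((z : R) * y) = y * z := by
      rw [← Units.val_mul, ← Units.val_mul, ← Units.val_mul]
      congr 1
      rw [commutatorElement_def]
      group
    rw [hQ, sub_mul, e, one_mul]
  have h5 : (π i' * π y' - 1) ^ 5 = 0 := by
    refine comm_case hyz ?_ ?_ ?_ ?_
    · rw [← map_mul, ← map_one π]
      congr 1
      apply Subtype.ext
      exact Units.inv_mul z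
    · rw [← map_mul, ← map_one π]
      congr 1
      apply Subtype.ext
      exact Units.mul_inv z
    · rw [← map_one π, ← map_sub, ← map_pow]
      have : (y' - 1) ^ 3 = 0 := by
        apply Subtype.ext
        exact hy
      rw [this, map_zero]
    · rw [← map_one π, ← map_sub, ← map_pow]
      have : (z' - 1) ^ 3 = 0 := by
        apply Subtype.ext
        exact hz
      rw [this, map_zero]
  rw [← map_mul, ← map_one π, ← map_sub, ← map_pow] at h5
  have h6 : (i' * y' - 1) ^ 5 ∈ I := Ideal.Quotient.eq_zero_iff_mem.mp h5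
  rw [Ideal.mem_span_singleton'] at h6
  obtain ⟨s, hs⟩ := h6
  have h7 : ((i' * y' - 1) ^ 5) ^ 5 = 0 := by
    rw [← hs]
    have hc : Commute s q := (hqc s).symm
    rw [hc.mul_pow]
    have : q ^ 5 = 0 := by
      apply Subtype.ext
      exact hc0
    rw [this, mul_zero]
  rw [← pow_mul] at h7
  have h8 := congrArg Subtype.val h7
  have e : ((z⁻¹ * y : Rˣ) : R) = ((z⁻¹ : Rˣ) : R) * y := Units.val_mul _ _
  rw [e]
  exact h8

end Pool.Agent.L3E
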