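import Pool.Agent.L3E.Stmts

set_option autoImplicit false

/-!
# L3E, module UR: unipotent generators and bounded class give a nilpotent ring
-/

namespace Pool.Agent.L3E

open Pool.Agent.KOS (ev Com)
open scoped commutatorElement

namespace UR_

/-! ## Group identities -/

section Grp
variable {G : Type} [Group G]

theorem comm_inv_of {x y : G} (hx : Commute ⁅x, y⁆ x) (hy : Commute ⁅x, y⁆ y) :
    ⁅x⁻¹, y⁻¹⁆ = ⁅x, y⁆ := by
  have h1 : x * y = ⁅x, y⁆ * (y * x) := by simp [commutatorElement_def, mul_assoc]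
  have h2 : ⁅x⁻¹, y⁻¹⁆ = (y * x)⁻¹ * (x * y) := by
    simp [commutatorElement_def, mul_assoc]
  rw [h2, h1, (hy.mul_right hx).eq]
  group

theorem l3_pair {x : G} (h : L3 x) (w : G) :
    Commute ⁅x, w * x * w⁻¹⁆ x ∧ Commute ⁅x, w * x * w⁻¹⁆ (w * x * w⁻¹) := by
  refine ⟨h w, ?_⟩
  have h1 := h w⁻¹
  have h2 : Commute (w * ⁅x, w⁻¹ * x * w⁻¹⁻¹⁆ * w⁻¹) (w * x * w⁻¹) := by
    have h3 := h1.eq
    show _ * _ = _ * _
    calc w * ⁅x, w⁻¹ * x * w⁻¹⁻¹⁆ * w⁻¹ * (w * x * w⁻¹)
        = w * (⁅x, w⁻¹ * x * w⁻¹⁻¹⁆ * x) * w⁻¹ := by group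
      _ = w * (x * ⁅x, w⁻¹ * x * w⁻¹⁻¹⁆) * w⁻¹ := by rw [h3]
      _ = _ := by group
  have h4 : w * ⁅x, w⁻¹ * x * w⁻¹⁻¹⁆ * w⁻¹ = (⁅x, w * x * w⁻¹⁆)⁻¹ := by
    simp [commutatorElement_def]
    group
  rw [h4] at h2
  exact Commute.inv_left_iff.1 h2

theorem gam_succ (n : ℕ) : gam G (n + 1) = ⁅gam G n, (⊤ : Subgroup G)⁆ := rfl

instance gam_normal (n : ℕ) : (gam G n).Normal := by
  unfold gam; infer_instance

theorem comm_mem_gam {t : ℕ} {a : G} (ha : a ∈ gam G t) (b : G) : ⁅a, b⁆ ∈ gam G (t + 1) := by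
  rw [gam_succ]
  exact Subgroup.commutator_mem_commutator ha (Subgroup.mem_top b)

theorem gam_le (t : ℕ) : gam G (t + 1) ≤ gam G t :=
  Subgroup.lowerCentralSeries_antitone _ (Nat.le_succ t)

end Grp

/-! ## Words in a commutative image -/

theorem prod_mem_pow {C : Type} [CommRing C] (I : Ideal C) :
    ∀ l : List C, (∀ a ∈ l, a ∈ I) → l.prod ∈ I ^ l.length
  | [], _ => by simp
  | a :: l, h => by
    rw [List.prod_cons, List.length_cons, pow_succ']
    exact Ideal.mul_mem_mul (h a (by simp)) (prod_mem_pow I l fun b hb => h b (by simp [hb]))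

theorem quot (h1 : Stmt_Uni) {G : Type} [Group G] {Q : Type} [Ring Q] (σ : G →* Q) {m r K t : ℕ}
    (x : Fin m → G) (cube : ∀ i, (σ (x i) - 1) ^ 3 = 0) (h3 : ∀ i, L3 (x i))
    (kill : ∀ a ∈ gam G (t + 1), σ a = 1) (v : Fin r → G)
    (hv : ∀ l, (∃ i, v l = x i) ∨ ∃ (w : G) (i : Fin m), v l = ⁅w, x i⁆)
    (hgen : Subgroup.closure (Set.range v) ⊔ gam G (t + 1) = gam G t)
    (hK : ∀ (C : Type) [CommRing C] (n : Fin r → C), (∀ i, n i ^ 25 = 0) →
      Ideal.span (Set.range n) ^ K = ⊥)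
    (l : List G) (hl : l.length = K) (hmem : ∀ a ∈ l, a ∈ gam G t) :
    (l.map fun a => σ a - 1).prod = 0 := by
  classical
  have hvt : ∀ i, v i ∈ gam G t := fun i => by
    rw [← hgen]
    exact Subgroup.mem_sup_left (Subgroup.subset_closure (Set.mem_range_self i))
  -- commutativity
  have hcomm : ∀ p ∈ (σ '' (gam G t : Set G)), ∀ q ∈ (σ '' (gam G t : Set G)),
      p * q = q * p := by
    rintro _ ⟨a, ha, rfl⟩ _ ⟨b, hb, rfl⟩
    have hab : a * b = ⁅a, b⁆ * (b * a) := by simp [commutatorElement_def, mul_assoc]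
    rw [← map_mul, hab, map_mul, kill _ (comm_mem_gam ha b), one_mul, map_mul]
  obtain ⟨C, hCdef⟩ : ∃ C, C = Subring.closure (σ '' (gam G t : Set G)) := ⟨_, rfl⟩
  have hCc : ∀ a b : C, a * b = b * a := by
    subst hCdef
    intro a b
    exact (Subring.isMulCommutative_closure hcomm).is_comm.comm a b
  let _ : CommRing C := { (inferInstance : Ring C) with mul_comm := hCc }
  have hC : ∀ a ∈ gam G t, σ a ∈ C := fun a ha => by
    rw [hCdef]; exact Subring.subset_closure ⟨a, ha, rfl⟩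
  -- nilpotent generators
  have hnil : ∀ i, (σ (v i) - 1) ^ 25 = 0 := by
    intro i
    rcases hv i with ⟨j, hj⟩ | ⟨w, j, hj⟩
    · rw [hj]
      exact pow_eq_zero_of_le (by norm_num) (cube j)
    · set s := x j with hs
      set y := w * s * w⁻¹ with hy
      obtain ⟨c1, c2⟩ := l3_pair (h3 j) w
      rw [← hs, ← hy] at c1 c2
      have e1 : ⁅s⁻¹, y⁻¹⁆ = ⁅s, y⁆ := comm_inv_of c1 c2
      have hc : (σ s - 1) ^ 3 = 0 := cube j
      have u1 : (σ s⁻¹ - 1) ^ 3 = 0 := by
        have e : σ s⁻¹ - 1 = -(σ s⁻¹) * (σ s - 1) := by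
          have : σ s⁻¹ * σ s = 1 := by rw [← map_mul]; simp
          rw [neg_mul, mul_sub, this]; simp
        have hcom : Commute (-(σ s⁻¹)) (σ s - 1) := by
          have hc1 : Commute (σ s⁻¹) (σ s) := by
            show _ * _ = _ * _
            rw [← map_mul, ← map_mul]; simp
          exact (hc1.sub_right (Commute.one_right _)).neg_left
        rw [e, hcom.mul_pow, hc, mul_zero]
      have u2 : (σ y⁻¹ - 1) ^ 3 = 0 := by
        have hp : ∀ n : ℕ, (σ y⁻¹ - 1) ^ n = σ w * (σ s⁻¹ - 1) ^ n * σ w⁻¹ := by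
          intro n
          induction n with
          | zero =>
            simp only [pow_zero, mul_one]
            rw [← map_mul]; simp
          | succ n ih =>
            have hww : σ w⁻¹ * σ w = 1 := by rw [← map_mul]; simp
            have hww' : σ w * σ w⁻¹ = 1 := by rw [← map_mul]; simp
            have e : σ y⁻¹ - 1 = σ w * (σ s⁻¹ - 1) * σ w⁻¹ := by
              rw [mul_sub, sub_mul, mul_one, hww', ← map_mul, ← map_mul]
              congr 2
              rw [hy]; group
            rw [pow_succ, ih, e, pow_succ]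
            calc σ w * (σ s⁻¹ - 1) ^ n * σ w⁻¹ * (σ w * (σ s⁻¹ - 1) * σ w⁻¹)
                = σ w * (σ s⁻¹ - 1) ^ n * (σ w⁻¹ * σ w) * (σ s⁻¹ - 1) * σ w⁻¹ := by
                  simp only [mul_assoc]
              _ = _ := by rw [hww, mul_one]; simp only [mul_assoc]
        rw [hp, u1]; simp
      have key := h1 Q (σ.toHomUnits s⁻¹) (σ.toHomUnits y⁻¹) u1 u2
      have hcs : Commute ⁅σ.toHomUnits s⁻¹, σ.toHomUnits y⁻¹⁆ (σ.toHomUnits s⁻¹) := by
        rw [← map_commutatorElement, e1]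
        exact (c1.inv_right).map σ.toHomUnits
      have hcy : Commute ⁅σ.toHomUnits s⁻¹, σ.toHomUnits y⁻¹⁆ (σ.toHomUnits y⁻¹) := by
        rw [← map_commutatorElement, e1]
        exact (c2.inv_right).map σ.toHomUnits
      have k2 := key hcs hcy
      have e3 : (((σ.toHomUnits y⁻¹)⁻¹ * σ.toHomUnits s⁻¹ : Qˣ) : Q) = σ (v i) := by
        rw [← map_inv, ← map_mul, MonoidHom.coe_toHomUnits, hj]
        congr 1
        rw [hy, commutatorElement_def]; group
      rw [e3] at k2
      exact k2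
  -- the ideal
  let n : Fin r → C := fun i => ⟨σ (v i), hC _ (hvt i)⟩ - 1
  have hn : ∀ i, n i ^ 25 = 0 := by
    intro i
    apply Subtype.ext
    have := hnil i
    simpa [n] using this
  have hI := hK C n hn
  have hmemI : ∀ a ∈ gam G t, ∀ h : σ a ∈ C, (⟨σ a, h⟩ : C) - 1 ∈ Ideal.span (Set.range n) := by
    have hle : gam G t ≤ Subgroup.closure (Set.range v ∪ (gam G (t + 1) : Set G)) := by
      rw [Subgroup.closure_union, Subgroup.closure_eq, hgen]
    intro a ha
    have ha' := hle ha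
    have hsub : ∀ b ∈ Subgroup.closure (Set.range v ∪ (gam G (t + 1) : Set G)), b ∈ gam G t := by
      intro b hb
      rwa [Subgroup.closure_union, Subgroup.closure_eq, hgen] at hb
    induction ha' using Subgroup.closure_induction with
    | mem b hb =>
      intro h
      rcases hb with ⟨i, rfl⟩ | hb
      · exact Ideal.subset_span ⟨i, rfl⟩
      · have : (⟨σ b, h⟩ : C) - 1 = 0 := by
          apply Subtype.ext
          show σ b - 1 = 0
          rw [kill b hb, sub_self]
        rw [this]; exact Ideal.zero_mem _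
    | one =>
      intro h
      have : (⟨σ 1, h⟩ : C) - 1 = 0 := by
        apply Subtype.ext
        show σ 1 - 1 = 0
        rw [map_one, sub_self]
      rw [this]; exact Ideal.zero_mem _
    | mul b c hb hc ihb ihc =>
      intro h
      have hb' := hsub b hb
      have hc' := hsub c hc
      have e : (⟨σ (b * c), h⟩ : C) - 1
          = (⟨σ b, hC _ hb'⟩ : C) * ((⟨σ c, hC _ hc'⟩ : C) - 1) + ((⟨σ b, hC _ hb'⟩ : C) - 1) := by
        apply Subtype.ext
        show σ (b * c) - 1 = σ b * (σ c - 1) + (σ b - 1)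
        rw [map_mul]; noncomm_ring
      rw [e]
      exact Ideal.add_mem _ (Ideal.mul_mem_left _ _ (ihc hc' _)) (ihb hb' _)
    | inv b hb ih =>
      intro h
      have hb' := hsub b hb
      have e : (⟨σ b⁻¹, h⟩ : C) - 1 = -((⟨σ b⁻¹, h⟩ : C) * ((⟨σ b, hC _ hb'⟩ : C) - 1)) := by
        apply Subtype.ext
        show σ b⁻¹ - 1 = -(σ b⁻¹ * (σ b - 1))
        have : σ b⁻¹ * σ b = 1 := by rw [← map_mul]; simp
        rw [mul_sub, this]; simp
      rw [e]
      exact Ideal.neg_mem_iff _ |>.2 (Ideal.mul_mem_left _ _ (ih hb' _))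
  -- conclusion
  have hfin : ∀ l : List G, (∀ a ∈ l, a ∈ gam G t) →
      ∃ l' : List C, l'.length = l.length ∧ (∀ b ∈ l', b ∈ Ideal.span (Set.range n)) ∧
        ((l'.prod : C) : Q) = (l.map fun a => σ a - 1).prod := by
    intro l
    induction l with
    | nil => intro _; exact ⟨[], rfl, by simp, by simp⟩
    | cons a l ih =>
      intro h
      obtain ⟨l', q1, q2, q3⟩ := ih fun b hb => h b (by simp [hb])
      have ha := h a (by simp)
      refine ⟨((⟨σ a, hC a ha⟩ : C) - 1) :: l', by simp [q1], ?_, ?_⟩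
      · intro b hb
        rcases List.mem_cons.1 hb with rfl | hb
        · exact hmemI a ha _
        · exact q2 b hb
      · rw [List.prod_cons, List.map_cons, List.prod_cons, ← q3]
        rfl
  obtain ⟨l', q1, q2, q3⟩ := hfin l hmem
  have q4 := prod_mem_pow _ l' q2
  rw [q1, hl, hI] at q4
  rw [← q3, (Ideal.mem_bot.1 q4)]
  rfl

/-! ## The step -/

section Step

variable {G : Type} [Group G] {R : Type} [Ring R] (ρ : G →* R) (t : ℕ)

/-- Additive span of all `(ρ a - 1) ρ h`. -/
def SS : AddSubgroup R :=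
  AddSubgroup.closure {y | ∃ a ∈ gam G t, ∃ h : G, y = (ρ a - 1) * ρ h}

theorem ss_gen {a : G} (ha : a ∈ gam G t) (h : G) : (ρ a - 1) * ρ h ∈ SS ρ t :=
  AddSubgroup.subset_closure ⟨a, ha, h, rfl⟩

theorem ss_right {s : R} (hs : s ∈ SS ρ t) (g : G) : s * ρ g ∈ SS ρ t := by
  unfold SS at hs
  induction hs using AddSubgroup.closure_induction with
  | mem y hy =>
    obtain ⟨a, ha, h, rfl⟩ := hy
    rw [mul_assoc, ← map_mul]
    exact ss_gen ρ t ha _
  | zero => rw [zero_mul]; exact zero_mem _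
  | add y z _ _ h1 h2 => rw [add_mul]; exact add_mem h1 h2
  | neg y _ h1 => rw [neg_mul]; exact neg_mem h1

theorem ss_left {s : R} (hs : s ∈ SS ρ t) (g : G) : ρ g * s ∈ SS ρ t := by
  unfold SS at hs
  induction hs using AddSubgroup.closure_induction with
  | mem y hy =>
    obtain ⟨a, ha, h, rfl⟩ := hy
    have e : ρ g * ((ρ a - 1) * ρ h) = (ρ (g * a * g⁻¹) - 1) * ρ (g * h) := by
      rw [sub_mul, mul_sub, sub_mul, ← map_mul, ← map_mul, ← map_mul, one_mul, one_mul, ← map_mul]
      congr 2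
      group
    rw [e]
    exact ss_gen ρ t ((gam_normal t).conj_mem a ha g) _
  | zero => rw [mul_zero]; exact zero_mem _
  | add y z _ _ h1 h2 => rw [mul_add]; exact add_mem h1 h2
  | neg y _ h1 => rw [mul_neg]; exact neg_mem h1

/-- The statement `Z(t, k)`. -/
def Z (k : ℕ) : Prop := ∀ l : List (G × G), l.length = k → (∀ p ∈ l, p.1 ∈ gam G t) →
  (l.map fun p => (ρ p.1 - 1) * ρ p.2).prod = 0

theorem ss_prod_aux {k : ℕ} (hZ : Z ρ t k) : ∀ (l : List R) (l' : List (G × G)),
    (∀ s ∈ l, s ∈ SS ρ t) → (∀ p ∈ l', p.1 ∈ gam G t) → l'.length + l.length = k →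
    (l'.map fun p => (ρ p.1 - 1) * ρ p.2).prod * l.prod = 0
  | [], l', _, h2, h3 => by
    rw [List.prod_nil, mul_one]
    exact hZ l' (by simpa using h3) h2
  | s :: l, l', h1, h2, h3 => by
    have hs : s ∈ SS ρ t := h1 s (by simp)
    have hrest : ∀ s ∈ l, s ∈ SS ρ t := fun b hb => h1 b (by simp [hb])
    rw [List.prod_cons]
    unfold SS at hs
    induction hs using AddSubgroup.closure_induction with
    | mem y hy =>
      obtain ⟨a, ha, h, rfl⟩ := hy
      have := ss_prod_aux hZ l (l' ++ [(a, h)]) hrest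
        (by
          intro p hp
          rcases List.mem_append.1 hp with hp | hp
          · exact h2 p hp
          · rw [List.mem_singleton.1 hp]; exact ha)
        (by simp only [List.length_append, List.length_cons, List.length_nil] at h3 ⊢; omega)
      simpa [mul_assoc] using this
    | zero => simp
    | add y z _ _ h1' h2' =>
      have e1 := h1' (by
        intro s hs
        rcases List.mem_cons.1 hs with rfl | hs
        · assumption
        · exact hrest s hs) (by simpa using h3)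
      have e2 := h2' (by
        intro s hs
        rcases List.mem_cons.1 hs with rfl | hs
        · assumption
        · exact hrest s hs) (by simpa using h3)
      rw [add_mul, mul_add, e1, e2, add_zero]
    | neg y _ h1' =>
      have e1 := h1' (by
        intro s hs
        rcases List.mem_cons.1 hs with rfl | hs
        · assumption
        · exact hrest s hs) (by simpa using h3)
      rw [neg_mul, mul_neg, e1, neg_zero]

theorem ss_prod {k : ℕ} (hZ : Z ρ t k) (l : List R) (h : ∀ s ∈ l, s ∈ SS ρ t)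
    (hl : l.length = k) : l.prod = 0 := by
  have := ss_prod_aux ρ t hZ l [] h (by simp) (by simpa using hl)
  simpa using this

/-- Moving the group elements to the right. -/
theorem move : ∀ l : List (G × G), (∀ p ∈ l, p.1 ∈ gam G t) →
    ∃ (l' : List G) (h : G), l'.length = l.length ∧ (∀ a ∈ l', a ∈ gam G t) ∧
      (l.map fun p => (ρ p.1 - 1) * ρ p.2).prod = (l'.map fun a => ρ a - 1).prod * ρ h
  | [], _ => ⟨[], 1, rfl, by simp, by simp⟩
  | p :: l, h => by
    obtain ⟨l', g, q1, q2, q3⟩ := move l fun b hb => h b (by simp [hb])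
    have hconj : ∀ (l' : List G), ρ p.2 * (l'.map fun a => ρ a - 1).prod
        = ((l'.map fun a => p.2 * a * p.2⁻¹).map fun a => ρ a - 1).prod * ρ p.2 := by
      intro l'
      induction l' with
      | nil => simp
      | cons a l' ih =>
        simp only [List.map_cons, List.prod_cons]
        have e : ρ p.2 * (ρ a - 1) = (ρ (p.2 * a * p.2⁻¹) - 1) * ρ p.2 := by
          rw [mul_sub, sub_mul, ← map_mul, ← map_mul, mul_one, one_mul]
          congr 2
          group
        rw [← mul_assoc, e, mul_assoc, ih, ← mul_assoc]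
    refine ⟨p.1 :: (l'.map fun a => p.2 * a * p.2⁻¹), p.2 * g, by simp [q1], ?_, ?_⟩
    · intro a ha
      rcases List.mem_cons.1 ha with rfl | ha
      · exact h p (by simp)
      · obtain ⟨b, hb, rfl⟩ := List.mem_map.1 ha
        exact (gam_normal t).conj_mem b (q2 b hb) p.2
    · rw [List.map_cons, List.prod_cons, q3, List.map_cons, List.prod_cons, map_mul,
        mul_assoc, ← mul_assoc (ρ p.2), hconj l']
      simp only [mul_assoc]

/-- The subring generated by the image of the group. -/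
def AA : Subring R := Subring.closure (Set.range ρ)

theorem aa_gen (g : G) : ρ g ∈ AA ρ := Subring.subset_closure ⟨g, rfl⟩

theorem aa_left {a : R} (ha : a ∈ AA ρ) : ∀ s ∈ SS ρ t, a * s ∈ SS ρ t := by
  unfold AA at ha
  induction ha using Subring.closure_induction with
  | mem y hy =>
    obtain ⟨g, rfl⟩ := hy
    exact fun s hs => ss_left ρ t hs g
  | zero => intro s _; rw [zero_mul]; exact zero_mem _
  | one => intro s hs; rwa [one_mul]
  | add y z _ _ h1 h2 => intro s hs; rw [add_mul]; exact add_mem (h1 s hs) (h2 s hs)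
  | neg y _ h1 => intro s hs; rw [neg_mul]; exact neg_mem (h1 s hs)
  | mul y z _ _ h1 h2 => intro s hs; rw [mul_assoc]; exact h1 _ (h2 s hs)

theorem aa_right {a : R} (ha : a ∈ AA ρ) : ∀ s ∈ SS ρ t, s * a ∈ SS ρ t := by
  unfold AA at ha
  induction ha using Subring.closure_induction with
  | mem y hy =>
    obtain ⟨g, rfl⟩ := hy
    exact fun s hs => ss_right ρ t hs g
  | zero => intro s _; rw [mul_zero]; exact zero_mem _
  | one => intro s hs; rwa [mul_one]
  | add y z _ _ h1 h2 => intro s hs; rw [mul_add]; exact add_mem (h1 s hs) (h2 s hs)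
  | neg y _ h1 => intro s hs; rw [mul_neg]; exact neg_mem (h1 s hs)
  | mul y z _ _ h1 h2 => intro s hs; rw [← mul_assoc]; exact h2 _ (h1 s hs)

/-- The two-sided ideal of `AA ρ`. -/
def II : Ideal (AA ρ) where
  carrier := {a | (a : R) ∈ SS ρ t}
  add_mem' := fun {a b} ha hb => by
    show ((a + b : AA ρ) : R) ∈ SS ρ t
    rw [Subring.coe_add]; exact add_mem ha hb
  zero_mem' := by
    show ((0 : AA ρ) : R) ∈ SS ρ t
    rw [Subring.coe_zero]; exact zero_mem _
  smul_mem' := fun c x hx => by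
    show ((c * x : AA ρ) : R) ∈ SS ρ t
    rw [Subring.coe_mul]; exact aa_left ρ t c.2 _ hx

theorem ii_two : (II ρ t).IsTwoSided := ⟨fun {a} b ha => by
    show ((a * b : AA ρ) : R) ∈ SS ρ t
    rw [Subring.coe_mul]; exact aa_right ρ t b.2 _ ha⟩

theorem mem_ii {a : AA ρ} : a ∈ II ρ t ↔ (a : R) ∈ SS ρ t := Iff.rfl

end Step

theorem chunk (h1 : Stmt_Uni) {G : Type} [Group G] {R : Type} [Ring R] (ρ : G →* R)
    {m r K t : ℕ}
    (x : Fin m → G) (cube : ∀ i, (ρ (x i) - 1) ^ 3 = 0) (h3 : ∀ i, L3 (x i))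
    (v : Fin r → G)
    (hv : ∀ l, (∃ i, v l = x i) ∨ ∃ (w : G) (i : Fin m), v l = ⁅w, x i⁆)
    (hgen : Subgroup.closure (Set.range v) ⊔ gam G (t + 1) = gam G t)
    (hK : ∀ (C : Type) [CommRing C] (n : Fin r → C), (∀ i, n i ^ 25 = 0) →
      Ideal.span (Set.range n) ^ K = ⊥)
    (l : List (G × G)) (hl : l.length = K) (hmem : ∀ p ∈ l, p.1 ∈ gam G t) :
    (l.map fun p => (ρ p.1 - 1) * ρ p.2).prod ∈ SS ρ (t + 1) := by
  obtain ⟨l', h, q1, q2, q3⟩ := move ρ t l hmem
  rw [q3]
  refine ss_right ρ (t + 1) ?_ h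
  have := ii_two ρ (t + 1)
  let ρA : G →* AA ρ :=
    { toFun := fun g => ⟨ρ g, aa_gen ρ g⟩
      map_one' := by apply Subtype.ext; simp
      map_mul' := fun a b => by apply Subtype.ext; simp }
  let q : AA ρ →+* (AA ρ ⧸ II ρ (t + 1)) := Ideal.Quotient.mk (II ρ (t + 1))
  let σ : G →* (AA ρ ⧸ II ρ (t + 1)) := q.toMonoidHom.comp ρA
  have hσ : ∀ g, σ g = q (ρA g) := fun g => rfl
  have cube' : ∀ i, (σ (x i) - 1) ^ 3 = 0 := by
    intro i
    have e : (ρA (x i) - 1) ^ 3 = 0 := by
      apply Subtype.ext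
      exact cube i
    rw [hσ, ← map_one q, ← map_sub, ← map_pow, e, map_zero]
  have kill : ∀ a ∈ gam G (t + 1), σ a = 1 := by
    intro a ha
    rw [hσ, ← sub_eq_zero, ← map_one q, ← map_sub]
    refine Ideal.Quotient.eq_zero_iff_mem.2 ?_
    rw [mem_ii]
    have := ss_gen ρ (t + 1) ha 1
    rw [map_one, mul_one] at this
    exact this
  have fin := quot h1 σ x cube' h3 kill v hv hgen hK l' (q1.trans hl) q2
  have e : ∀ l' : List G, (l'.map fun a => σ a - 1).prod = q (l'.map fun a => ρA a - 1).prod := by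
    intro l'
    rw [map_list_prod, List.map_map]
    refine congrArg List.prod (List.map_congr_left fun a _ => ?_)
    show σ a - 1 = q (ρA a - 1)
    rw [map_sub, map_one, hσ]
  rw [e] at fin
  have f2 := Ideal.Quotient.eq_zero_iff_mem.1 fin
  rw [mem_ii] at f2
  have e2 : ∀ l' : List G, (((l'.map fun a => ρA a - 1).prod : AA ρ) : R)
      = (l'.map fun a => ρ a - 1).prod := by
    intro l'
    induction l' with
    | nil => simp
    | cons a l' ih =>
      rw [List.map_cons, List.prod_cons, List.map_cons, List.prod_cons, Subring.coe_mul, ih]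
      rfl
  rw [e2] at f2
  exact f2

theorem split {G : Type} [Group G] {R : Type} [Ring R] (ρ : G →* R) {t K : ℕ} (S : AddSubgroup R)
    (hS : ∀ l : List (G × G), l.length = K → (∀ p ∈ l, p.1 ∈ gam G t) →
      (l.map fun p => (ρ p.1 - 1) * ρ p.2).prod ∈ S) :
    ∀ (j : ℕ) (l : List (G × G)), l.length = K * j → (∀ p ∈ l, p.1 ∈ gam G t) →
      ∃ L : List R, L.length = j ∧ (∀ s ∈ L, s ∈ S) ∧
        L.prod = (l.map fun p => (ρ p.1 - 1) * ρ p.2).prod
  | 0, l, hl, _ => by
    have : l = [] := by simpa using hl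
    exact ⟨[], rfl, by simp, by simp [this]⟩
  | j + 1, l, hl, h => by
    obtain ⟨L, q1, q2, q3⟩ := split ρ S hS j (l.drop K) (by
      rw [List.length_drop, hl, Nat.mul_succ]; omega)
      (fun p hp => h p (List.mem_of_mem_drop hp))
    refine ⟨((l.take K).map fun p => (ρ p.1 - 1) * ρ p.2).prod :: L, by simp [q1], ?_, ?_⟩
    · intro s hs
      rcases List.mem_cons.1 hs with rfl | hs
      · exact hS _ (by rw [List.length_take, hl, Nat.mul_succ]; omega)
          fun p hp => h p (List.mem_of_mem_take hp)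
      · exact q2 s hs
    · rw [List.prod_cons, q3, ← List.prod_append, ← List.map_append, List.take_append_drop]

theorem desc (h1 : Stmt_Uni) (h2 : Stmt_Abn) (h3 : Stmt_Gam) (m c : ℕ) : ∀ d t : ℕ, t + d = c →
    ∃ k : ℕ, ∀ (G : Type) [Group G] (R : Type) [Ring R] (ρ : G →* R) (x : Fin m → G),
      Subgroup.closure (Set.range x) = ⊤ → (∀ i, (ρ (x i) - 1) ^ 3 = 0) → (∀ i, L3 (x i)) →
      gam G c = ⊥ → Z ρ t k
  | 0, t, ht => by
    refine ⟨1, ?_⟩
    intro G _ R _ ρ x hx hc h3 hg l hl hmem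
    obtain ⟨p, rfl⟩ := List.length_eq_one_iff.1 hl
    have hp := hmem p (by simp)
    have : t = c := by omega
    rw [this, hg, Subgroup.mem_bot] at hp
    simp [hp]
  | d + 1, t, ht => by
    obtain ⟨k', hk'⟩ := desc h1 h2 h3 m c d (t + 1) (by omega)
    obtain ⟨r, hr⟩ := h3 m t
    obtain ⟨K, hK⟩ := h2 r 25
    refine ⟨K * k', ?_⟩
    intro G _ R _ ρ x hx hc hl3 hg l hl hmem
    obtain ⟨v, hv, hgen⟩ := hr G x hx
    obtain ⟨L, q1, q2, q3⟩ := split ρ (SS ρ (t + 1))
      (fun l a b => chunk h1 ρ x hc hl3 v hv hgen hK l a b) k' l hl hmem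
    rw [← q3]
    exact ss_prod ρ (t + 1) (hk' G R ρ x hx hc hl3 hg) L q2 q1

end UR_

/-- UR. -/
theorem ur_proof (h1 : Stmt_Uni) (h2 : Stmt_Abn) (h3 : Stmt_Gam) : Stmt_UR := by
  intro m c
  obtain ⟨k, hk⟩ := UR_.desc h1 h2 h3 m c c 0 (by omega)
  refine ⟨k, ?_⟩
  intro R _ u hu hl3 hnil
  let H := Subgroup.closure (Set.range u)
  let x : Fin m → H := fun i => ⟨u i, Subgroup.subset_closure ⟨i, rfl⟩⟩
  let ρ : H →* R := (Units.coeHom R).comp H.subtype
  have hρ : ∀ g : H, ρ g = ((g : Rˣ) : R) := fun g => rfl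
  have hx : Subgroup.closure (Set.range x) = ⊤ := by
    have e : (Set.range x) = (((↑) : H → Rˣ) ⁻¹' (Set.range u)) := by
      ext ⟨g, hg⟩
      constructor
      · rintro ⟨i, hi⟩
        exact ⟨i, congrArg Subtype.val hi⟩
      · rintro ⟨i, hi⟩
        exact ⟨i, Subtype.ext hi⟩
    rw [e]
    exact Subgroup.closure_closure_coe_preimage
  have hc : ∀ i, (ρ (x i) - 1) ^ 3 = 0 := fun i => hu i
  have h3' : ∀ i, L3 (x i) := by
    intro i g
    have := (hl3 i g g.2).eq
    apply Subtype.ext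
    simpa [commutatorElement_def] using this
  have hg : gam H c = ⊥ := by
    have e := Subgroup.top_subtype_lowerCentralSeries H c
    rw [hnil] at e
    exact (Subgroup.map_eq_bot_iff_of_injective _ H.subtype_injective).1 e
  have hZ := hk H R ρ x hx hc h3' hg
  intro w hw
  have := hZ (w.map fun i => (x i, 1)) (by simpa using hw) (by
    intro p _
    exact Subgroup.mem_top _)
  rw [List.map_map] at this
  rw [← this]
  unfold Pool.Agent.KOS.ev
  congr 1
  refine List.map_congr_left fun i _ => ?_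
  show (u i : R) - 1 = (ρ (x i) - 1) * ρ 1
  rw [map_one, mul_one, hρ]

end Pool.Agent.L3E
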