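import Pool.Agent.L3E.Stmts

set_option autoImplicit false

/-!
# L3E: US, bounded action on abelian sections
-/

namespace Pool.Agent.L3E

open Pool.Agent.KOS (ev Com)
open scoped commutatorElement

namespace US_

/-- Elements which act trivially modulo `K`. -/
theorem rho_eq_one {G : Type} [Group G] {V K : Subgroup G} {M : Type} [AddCommGroup M]
    (s : Sec G V K M) (hV : V.Normal) (g : G) (h : ∀ v ∈ V, ⁅v, g⁆ ∈ K) (hK : K ≤ V) :
    s.rho g = 1 := by
  have hpi1 : ∀ v : V, (v : G) ∈ K → s.pi v = 0 := fun v hv => (s.ker v).2 hv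
  ext m
  obtain ⟨v, rfl⟩ := s.surj m
  have hgv : g * (v : G) * g⁻¹ ∈ V := hV.conj_mem v v.2 g
  have h1 : s.pi ⟨g * (v : G) * g⁻¹, hgv⟩ = s.rho g (s.pi v) := s.act g v _ rfl
  rw [← h1, AddMonoid.End.coe_one, id]
  -- `g v g⁻¹ = ⁅v, g⁆⁻¹ v`
  have hk : (⁅(v : G), g⁆)⁻¹ ∈ K := K.inv_mem (h v v.2)
  have h2 : (⟨g * (v : G) * g⁻¹, hgv⟩ : V) = ⟨(⁅(v : G), g⁆)⁻¹, hK hk⟩ * v := by
    apply Subtype.ext
    change g * (v : G) * g⁻¹ = (⁅(v : G), g⁆)⁻¹ * (v : G)
    rw [commutatorElement_def]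
    group
  rw [h2, s.mul, hpi1 _ hk, zero_add]

end US_

open US_ in
theorem us_proof (hUR : Stmt_UR) (hSec : Stmt_Sec) (hSit : Stmt_Sit) (hCub : Stmt_Cub) :
    Stmt_US := by
  intro m c
  obtain ⟨k, hk⟩ := hUR m c
  refine ⟨k, ?_⟩
  intro G _ x hx hL V K hV hK hKV hVV hVc
  obtain ⟨M, hM, ⟨s⟩⟩ := hSec G V K hV hK hKV hVV
  obtain ⟨h1, -⟩ := hSit G m x V K M s hV hK hKV hx
  apply h1 k
  let φ : G →* (AddMonoid.End M)ˣ := s.rho.toHomUnits
  have hφ : ∀ g, ((φ g : (AddMonoid.End M)ˣ) : AddMonoid.End M) = s.rho g := fun g =>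
    MonoidHom.coe_toHomUnits s.rho g
  have hrange : Subgroup.closure (Set.range fun i => φ (x i)) = Subgroup.map φ ⊤ := by
    rw [← hx, MonoidHom.map_closure]
    congr 1
    ext y
    simp
  have key := hk (AddMonoid.End M) (fun i => φ (x i)) ?_ ?_ ?_
  · intro w hw
    have := key w hw
    have heq : (fun i => ((φ (x i) : (AddMonoid.End M)ˣ) : AddMonoid.End M) - 1) =
        ops x s.rho := by
      funext i
      rw [hφ]
      rfl
    rw [heq] at this
    exact this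
  · intro i
    rw [hφ]
    exact hCub G V K M s hV hK hKV (x i) (hL i)
  · intro i g hg
    rw [hrange] at hg
    obtain ⟨g', -, rfl⟩ := Subgroup.mem_map.1 hg
    have h2 := (hL i g').map φ
    rw [map_commutatorElement, map_mul, map_mul, map_inv] at h2
    exact h2
  · rw [hrange, ← Subgroup.map_lowerCentralSeries]
    rw [eq_bot_iff]
    rintro _ ⟨g, hg, rfl⟩
    rw [Subgroup.mem_bot]
    apply Units.ext
    rw [hφ, Units.val_one]
    refine rho_eq_one s hV g ?_ hKV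
    intro v hv
    exact hVc (Subgroup.commutator_mem_commutator hv hg)

end Pool.Agent.L3E
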