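import Pool.Agent.L3E.DK
import Pool.Agent.L3E.ABN
import Pool.Agent.L3E.CG
import Pool.Agent.L3E.CUB
import Pool.Agent.L3E.EIN
import Pool.Agent.L3E.ENG
import Pool.Agent.L3E.ENV
import Pool.Agent.L3E.FIN
import Pool.Agent.L3E.FS
import Pool.Agent.L3E.GAM
import Pool.Agent.L3E.GEN
import Pool.Agent.L3E.GR
import Pool.Agent.L3E.MAIN
import Pool.Agent.L3E.MLI
import Pool.Agent.L3E.NAK
import Pool.Agent.L3E.NKC
import Pool.Agent.L3E.P8
import Pool.Agent.L3E.QXY
import Pool.Agent.L3E.S1
import Pool.Agent.L3E.SEC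
import Pool.Agent.L3E.SIT
import Pool.Agent.L3E.SND
import Pool.Agent.L3E.SWT
import Pool.Agent.L3E.SWU
import Pool.Agent.L3E.SWZ
import Pool.Agent.L3E.THK
import Pool.Agent.L3E.UNI
import Pool.Agent.L3E.UR
import Pool.Agent.L3E.US

set_option autoImplicit false

/-!
# L3E, module DKM: everything except the two certificates (helper31)
-/

namespace Pool.Agent.L3E

/-- The theorem from the two certificates `Stmt_CS` and `Stmt_CL`. -/
theorem l3e_of_certs (hCS : Stmt_CS) (hCL : Stmt_CL) : Stmt_Main := by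
  have hUR : Stmt_UR := ur_proof uni_proof abn_proof gam_proof
  have hSWU : Stmt_SWU := swu_proof swz_proof thk_proof
  have hSec : Stmt_Sec := sec_proof
  have hCub : Stmt_Cub := cub_proof
  have hSit : Stmt_Sit := sit_proof
  have hEnv : Stmt_Env := env_proof hSec hCub hSit cg_proof
  have hLaw : Stmt_Law := law_proof
  have hTop : Stmt_Top := top_proof hLaw
  have hNak : Stmt_Nak := nak_proof
  have hEin : Stmt_Ein := ein_proof fs_proof (mli_proof hLaw) (qxy_proof hSWU hLaw) hNak hSWU hLaw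
  have hCore : Stmt_Core := dk_proof hUR hNak hEnv hSWU hTop hEin rel_proof hCS hCL
  have hUS : Stmt_US := us_proof hUR hSec hSit hCub
  have hGen : Stmt_Gen := gen_proof hSec hSit
  have hS1 : Stmt_S1 := s1_proof (gr_proof cg_proof) (swt_proof hSWU)
  have hP8 : Stmt_P8 := p8_proof hS1 hCub hSec
  have hSnd : Stmt_Snd := snd_proof hCore hUS nkc_proof hGen hP8
  exact main_proof (fin_proof hSnd hUS hGen) eng_proof

end Pool.Agent.L3E
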