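import Pool.Agent.KOS.Defs

set_option autoImplicit false

/-!
# L3E: nilpotent groups generated by left 3-Engel elements (MP_0fdb00_al, S00747), definitions

Text of the reduction: helper61 `/team-store/L3E_REDUCTION.md`; recipes of the modules:
`/team-store/MP_0fdb00_L3E.md`.  Commutators are `⁅x, y⁆ = x y x⁻¹ y⁻¹`.
-/

namespace Pool.Agent.L3E

open Pool.Agent.KOS (ev Com)
open scoped commutatorElement

/-! ## Groups -/

section Grp

variable {G : Type} [Group G]

/-- The lower central series of `G`; `gam G n` is the usual `γ_{n+1}(G)`. -/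
def gam (G : Type) [Group G] (n : ℕ) : Subgroup G := (⊤ : Subgroup G).lowerCentralSeries n

/-- `it A k = [A, G, ..., G]` (`k` times). -/
def it (A : Subgroup G) : ℕ → Subgroup G
  | 0 => A
  | n + 1 => ⁅it A n, (⊤ : Subgroup G)⁆

/-- `x` commutes with its commutators with its conjugates (equivalent to: `x` is a left 3-Engel
element). -/
def L3 (x : G) : Prop := ∀ g : G, Commute ⁅x, g * x * g⁻¹⁆ x

/-- A sandwich set: closed under conjugation, and `[x, y]` commutes with `x` for `x, y ∈ D`
(hence also with `y`). -/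
structure Sand (D : Set G) : Prop where
  conj : ∀ x ∈ D, ∀ g : G, g * x * g⁻¹ ∈ D
  comm : ∀ x ∈ D, ∀ y ∈ D, Commute ⁅x, y⁆ x

/-- The normal subgroups `N_k` generated by the `x_i ^ (2 ^ k)`. -/
def Nk {m : ℕ} (x : Fin m → G) (k : ℕ) : Subgroup G :=
  Subgroup.normalClosure (Set.range fun i => x i ^ 2 ^ k)

/-- The section `V / K` as a `G`-module `M` (written additively). -/
structure Sec (G : Type) [Group G] (V K : Subgroup G) (M : Type) [AddCommGroup M] where
  rho : G →* AddMonoid.End M
  pi : V → M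
  surj : Function.Surjective pi
  mul : ∀ a b : V, pi (a * b) = pi a + pi b
  ker : ∀ v : V, pi v = 0 ↔ (v : G) ∈ K
  act : ∀ (g : G) (v w : V), (w : G) = g * v * g⁻¹ → pi w = rho g (pi v)

/-! ## Systems of involutions -/

/-- All conjugates of the generators. -/
def DD {m : ℕ} (x : Fin m → G) : Set G := {u | ∃ (i : Fin m) (g : G), u = g * x i * g⁻¹}

/-- Generators which are involutions, all products of two conjugates have order dividing 4. -/
structure Inv {m : ℕ} (x : Fin m → G) : Prop where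
  gen : Subgroup.closure (Set.range x) = ⊤
  inv : ∀ i, x i * x i = 1
  pair : ∀ (i j : Fin m) (g : G), (x i * (g * x j * g⁻¹)) ^ 4 = 1

/-- Left normed commutators of weight `n + 1` in the elements of `DD x`. -/
def LL {m : ℕ} (x : Fin m → G) : ℕ → Set G
  | 0 => DD x
  | n + 1 => {d | ∃ c ∈ LL x n, ∃ z ∈ DD x, d = ⁅c, z⁆}

/-- The law `[x_1, ..., x_{n+1}]² = 1` on `DD x`. -/
def Law {m : ℕ} (x : Fin m → G) (n : ℕ) : Prop := ∀ d ∈ LL x n, d * d = 1

/-- Good involutions. -/
def Good {m : ℕ} (x : Fin m → G) (c : G) : Prop := c * c = 1 ∧ ∀ z ∈ DD x, (c * z) ^ 4 = 1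

/-- The operators `X_i = ρ(x_i) - 1`. -/
def ops {m : ℕ} {R : Type} [Ring R] (x : Fin m → G) (ρ : G →* R) (i : Fin m) : R := ρ (x i) - 1

end Grp

/-! ## Rings -/

/-- All words of length `k` in the `X i` vanish. -/
def NW {R : Type} [Ring R] {m : ℕ} (X : Fin m → R) (k : ℕ) : Prop :=
  ∀ w : List (Fin m), w.length = k → ev X w = 0

/-- Relations of the images of a system of involutions in the endomorphism ring of an elementary
abelian normal section. -/
structure RSys {G : Type} [Group G] {m : ℕ} {R : Type} [Ring R] (x : Fin m → G) (ρ : G →* R) :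
    Prop where
  two : (2 : R) = 0
  sq : ∀ c, Good x c → (ρ c - 1) * (ρ c - 1) = 0
  pr : ∀ c, Good x c → ∀ z ∈ DD x, (ρ c - 1) * (ρ z - 1) * (ρ c - 1) * (ρ z - 1) = 0
  pr' : ∀ c, Good x c → ∀ z ∈ DD x, (ρ z - 1) * (ρ c - 1) * (ρ z - 1) * (ρ c - 1) = 0
  nil : ∃ N, NW (ops x ρ) N

/-! ## The quantified statements of the chain -/

/-- Class bound for systems with `m` generators and the laws `0, ..., n`. -/
def PP (m n : ℕ) : Prop := ∃ c : ℕ, ∀ (G : Type) [Group G] (x : Fin m → G),
  Group.IsNilpotent G → Inv x → (∀ k ≤ n, Law x k) → gam G c = ⊥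

/-- Class bound for systems with `m` generators and all laws. -/
def PInf (m : ℕ) : Prop := ∃ c : ℕ, ∀ (G : Type) [Group G] (x : Fin m → G),
  Group.IsNilpotent G → Inv x → (∀ k, Law x k) → gam G c = ⊥

/-- Nilpotency bound for the rings, laws `0, ..., n`. -/
def EE (m n : ℕ) : Prop := ∃ k : ℕ, ∀ (G : Type) [Group G] (x : Fin m → G) (R : Type) [Ring R]
  (ρ : G →* R), Group.IsNilpotent G → Inv x → (∀ k ≤ n, Law x k) → RSys x ρ → NW (ops x ρ) k

/-- Nilpotency bound for the rings, all laws. -/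
def EInf (m : ℕ) : Prop := ∃ k : ℕ, ∀ (G : Type) [Group G] (x : Fin m → G) (R : Type) [Ring R]
  (ρ : G →* R), Group.IsNilpotent G → Inv x → (∀ k, Law x k) → RSys x ρ → NW (ops x ρ) k

end Pool.Agent.L3E
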