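import Mathlib

set_option autoImplicit false

/-!
# L3E, module NQC: a kernel checker for finite dimensional algebras with nilpotent letters (helper6)

A finite table of right multiplications on normal words is certified by relations which are products
of factors `(1 + a x₁) ⋯ (1 + a xₖ) - 1`.
-/

namespace Pool.Agent.L3E.NQC

/-- Field number `i` of width `w` of `t`. -/
def fld (w t i : ℕ) : ℕ := (t >>> (w * i)) % 2 ^ w

/-- The lowest set bit. -/
def low (v : ℕ) : ℕ := v &&& (v ^^^ (v - 1))

/-- Xor of the fields of width `w` of `t` at the set bits of `v`. -/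
def xf (w t : ℕ) : ℕ → ℕ → ℕ → ℕ
  | 0, _, acc => acc
  | k + 1, v, acc =>
    bif v == 0 then acc else xf w t k (v ^^^ low v) (acc ^^^ ((t / low v ^ w) % 2 ^ w))

/-- A table: dimension, number of letters, tables, definitions of the normal words. -/
structure Tab where
  n : ℕ
  m : ℕ
  T : List ℕ
  pl : List (ℕ × ℕ)
  df : ℕ

/-- One multiplication by `1 + a x` of a pair (symbols, value). -/
def mul1 (D : Tab) (x : ℕ) (p : ℕ × ℕ) : ℕ × ℕ :=
  (p.1 ^^^ (p.2 <<< (D.n * x)), p.2 ^^^ xf D.n (D.T.getD x 0) D.n p.2 0)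

/-- Multiplication by `(1 + a x₁) ⋯ (1 + a xₖ)`. -/
def mulg (D : Tab) : List ℕ → ℕ × ℕ → ℕ × ℕ
  | [], p => p
  | x :: w, p => mulg D w (mul1 D x p)

/-- Multiplication by `(1 + a x₁) ⋯ (1 + a xₖ) - 1`. -/
def mulh (D : Tab) (w : List ℕ) (p : ℕ × ℕ) : ℕ × ℕ :=
  ((mulg D w p).1 ^^^ p.1, (mulg D w p).2 ^^^ p.2)

/-- Multiplication by a product of such factors. -/
def mulp (D : Tab) : List (List ℕ) → ℕ × ℕ → ℕ × ℕ
  | [], p => p
  | w :: l, p => mulp D l (mulh D w p)

/-- Number of symbols. -/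
def Tab.M (D : Tab) : ℕ := D.n * D.m + 1

/-- The start for the normal word number `b`. -/
def start (D : Tab) (b : ℕ) : ℕ × ℕ := (fld D.M D.df b, 1 <<< b)

/-- All letters of a word are small. -/
def okw (m : ℕ) (w : List ℕ) : Bool := w.all fun x => Nat.blt x m

/-- Check of the evidences. -/
def chkEv (D : Tab) (SY : ℕ) : ℕ → List (ℕ × List (List ℕ)) → Bool
  | _, [] => true
  | k, e :: l => ((mulp D e.2 (start D e.1)).1 == fld D.M SY k)
      && Nat.blt e.1 D.n && (e.2.all (okw D.m)) && chkEv D SY (k + 1) l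

/-- Check of the definitions. -/
def chkPl (D : Tab) : ℕ → List (ℕ × ℕ) → Bool
  | _, [] => true
  | b, q :: l => (fld D.M D.df b == 1 <<< (D.n * q.2 + q.1)) && Nat.blt q.1 b && Nat.blt q.2 D.m
      && chkPl D (b + 1) l

/-- Check of the solution. -/
def chkSol (D : Tab) (SY E : ℕ) : ℕ → List ℕ → Bool
  | _, [] => true
  | p, c :: l =>
    (xf D.M SY E c (1 <<< p) == xf D.M D.df D.n (fld D.n (D.T.getD (p / D.n) 0) (p % D.n)) 0)
      && Nat.blt c (2 ^ E) && chkSol D SY E (p + 1) l

/-- The complete check. -/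
def chk (D : Tab) (SY : ℕ) (ev : List (ℕ × List (List ℕ))) (sol : List ℕ) : Bool :=
  chkEv D SY 0 ev && chkPl D 1 D.pl && chkSol D SY ev.length 0 sol &&
    (sol.length == D.n * D.m) && (D.pl.length + 1 == D.n) && (fld D.M D.df 0 == 1 <<< (D.n * D.m))

/-! ### Semantics -/

section
variable {R : Type} [Ring R]

/-- The value of a bit mask. -/
def val (g : ℕ → R) (n v : ℕ) : R := ∑ i ∈ Finset.range n, if v.testBit i then g i else 0

theorem val_zero (g : ℕ → R) (n : ℕ) : val g n 0 = 0 := by
  simp [val]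

theorem val_xor (h2 : (2 : R) = 0) (g : ℕ → R) (n v w : ℕ) :
    val g n (v ^^^ w) = val g n v + val g n w := by
  have ch : ∀ a : R, a + a = 0 := fun a => by rw [← two_mul, h2, zero_mul]
  rw [val, val, val, ← Finset.sum_add_distrib]
  refine Finset.sum_congr rfl fun i _ => ?_
  rw [Nat.testBit_xor]
  cases v.testBit i <;> cases w.testBit i <;> simp [ch]

theorem val_one (g : ℕ → R) {n i : ℕ} (hi : i < n) : val g n (1 <<< i) = g i := by
  rw [val, Finset.sum_eq_single i]
  · rw [Nat.one_shiftLeft, Nat.testBit_two_pow_self]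
    simp
  · intro j _ hj
    rw [Nat.one_shiftLeft, Nat.testBit_two_pow]
    simp [Ne.symm hj]
  · intro h
    exact absurd (Finset.mem_range.2 hi) h

theorem val_le (g : ℕ → R) {k n v : ℕ} (hv : v < 2 ^ k) (hk : k ≤ n) : val g n v = val g k v := by
  rw [val, val]
  symm
  refine Finset.sum_subset (Finset.range_subset_range.2 hk) fun i _ hi => ?_
  have hi' : k ≤ i := by simpa using hi
  have : v < 2 ^ i := lt_of_lt_of_le hv (Nat.pow_le_pow_right (by norm_num) hi')
  rw [Nat.testBit_lt_two_pow this]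
  simp

theorem low_spec (v : ℕ) : v ≠ 0 → ∃ i, low v = 2 ^ i ∧ v.testBit i = true := by
  induction v using Nat.strong_induction_on with
  | _ v ih =>
    intro hv
    rcases Nat.even_or_odd' v with ⟨u, hu | hu⟩
    · have hu0 : u ≠ 0 := by omega
      obtain ⟨i, h1, h2⟩ := ih u (by omega) hu0
      refine ⟨i + 1, ?_, ?_⟩
      · have e1 : v - 1 = 2 * (u - 1) + 1 := by omega
        have e2 : v ^^^ (v - 1) = 2 * (u ^^^ (u - 1)) + 1 := by
          apply Nat.eq_of_testBit_eq
          intro j
          rw [Nat.testBit_xor, hu, show 2 * u - 1 = 2 * (u - 1) + 1 by omega]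
          cases j with
          | zero => simp
          | succ j => simp [Nat.testBit_succ, Nat.testBit_xor, Nat.mul_add_div]
        rw [low, e2, hu]
        rw [low] at h1
        have e3 : 2 * u &&& (2 * (u ^^^ (u - 1)) + 1) = 2 * (u &&& (u ^^^ (u - 1))) := by
          apply Nat.eq_of_testBit_eq
          intro j
          rw [Nat.testBit_and]
          cases j with
          | zero => simp
          | succ j => simp [Nat.testBit_succ, Nat.testBit_and, Nat.testBit_xor, Nat.mul_add_div]
        rw [e3, h1, pow_succ]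
        ring
      · rw [hu, Nat.testBit_succ]
        simpa using h2
    · refine ⟨0, ?_, ?_⟩
      · rw [low, hu, show 2 * u + 1 - 1 = 2 * u by omega]
        have e2 : (2 * u + 1) ^^^ (2 * u) = 1 := by
          apply Nat.eq_of_testBit_eq
          intro j
          rw [Nat.testBit_xor]
          cases j with
          | zero => simp
          | succ j => simp [Nat.testBit_succ, Nat.mul_add_div]
        rw [e2]
        simp [Nat.and_one_is_mod, Nat.mul_add_mod]
      · rw [hu]
        simp

theorem fld_eq (w t i : ℕ) : (t / (2 ^ i) ^ w) % 2 ^ w = fld w t i := by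
  rw [fld, Nat.shiftRight_eq_div_pow, ← pow_mul, mul_comm]

theorem xf_spec' (L : ℕ → R) (hL : ∀ v w, L (v ^^^ w) = L v + L w) (h2 : (2 : R) = 0)
    (w t n : ℕ) : ∀ k v acc, v < 2 ^ n → ((Finset.range n).filter fun i => v.testBit i).card ≤ k →
      L (xf w t k v acc) = L acc + val (fun i => L (fld w t i)) n v := by
  intro k
  induction k with
  | zero =>
    intro v acc hv hc
    have h0 : v = 0 := by
      apply Nat.eq_of_testBit_eq
      intro j
      rw [Nat.zero_testBit]
      by_cases hj : j < n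
      · by_contra h
        have h' : v.testBit j = true := by simpa using h
        have : 0 < ((Finset.range n).filter fun i => v.testBit i).card :=
          Finset.card_pos.2 ⟨j, Finset.mem_filter.2 ⟨Finset.mem_range.2 hj, h'⟩⟩
        omega
      · exact Nat.testBit_lt_two_pow (lt_of_lt_of_le hv (Nat.pow_le_pow_right (by norm_num)
          (not_lt.1 hj)))
    subst h0
    rw [xf, val_zero, add_zero]
  | succ k ih =>
    intro v acc hv hc
    rw [xf]
    by_cases h0 : v = 0
    · subst h0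
      simp [val_zero]
    · have hb : (v == 0) = false := by simpa using h0
      rw [hb]
      simp only [cond_false]
      obtain ⟨i, h1, h3⟩ := low_spec v h0
      have hi : i < n := by
        by_contra h
        have := Nat.testBit_lt_two_pow (lt_of_lt_of_le hv (Nat.pow_le_pow_right (by norm_num)
          (not_lt.1 h)))
        rw [h3] at this
        exact absurd this (by simp)
      have h4 : v ^^^ 2 ^ i < 2 ^ n := Nat.xor_lt_two_pow hv (Nat.pow_lt_pow_right (by norm_num) hi)
      have h5 : ((Finset.range n).filter fun j => (v ^^^ 2 ^ i).testBit j) =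
          ((Finset.range n).filter fun j => v.testBit j).erase i := by
        ext j
        simp only [Finset.mem_filter, Finset.mem_range, Finset.mem_erase, Nat.testBit_xor,
          Nat.testBit_two_pow]
        by_cases hj : i = j
        · subst hj
          simp [h3]
        · simp [hj, Ne.symm hj]
      have h6 : i ∈ (Finset.range n).filter fun j => v.testBit j :=
        Finset.mem_filter.2 ⟨Finset.mem_range.2 hi, h3⟩
      have h7 : ((Finset.range n).filter fun j => (v ^^^ 2 ^ i).testBit j).card ≤ k := by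
        rw [h5, Finset.card_erase_of_mem h6]
        omega
      rw [h1, fld_eq, ih _ _ h4 h7, hL]
      have h8 : val (fun i => L (fld w t i)) n v = val (fun i => L (fld w t i)) n (v ^^^ 2 ^ i) +
          L (fld w t i) := by
        have h9 : v = (v ^^^ 2 ^ i) ^^^ (1 <<< i) := by
          rw [Nat.one_shiftLeft, Nat.xor_assoc, Nat.xor_self, Nat.xor_zero]
        have h10 := val_xor h2 (fun i => L (fld w t i)) n (v ^^^ 2 ^ i) (1 <<< i)
        rw [← h9, val_one _ hi] at h10
        exact h10
      rw [h8]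
      abel

theorem xf_spec (L : ℕ → R) (hL : ∀ v w, L (v ^^^ w) = L v + L w) (h2 : (2 : R) = 0) (w t : ℕ)
    (k v acc : ℕ) (hv : v < 2 ^ k) :
    L (xf w t k v acc) = L acc + val (fun i => L (fld w t i)) k v :=
  xf_spec' L hL h2 w t k k v acc hv ((Finset.card_filter_le _ _).trans (by simp))

end

section
variable {R : Type} [Ring R]

theorem fld_lt (w t i : ℕ) : fld w t i < 2 ^ w := Nat.mod_lt _ (by positivity)

theorem xf_lt (w t : ℕ) : ∀ k v acc, acc < 2 ^ w → xf w t k v acc < 2 ^ w := by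
  intro k
  induction k with
  | zero => intro v acc h; exact h
  | succ k ih =>
    intro v acc h
    rw [xf]
    cases (v == 0)
    · simp only [cond_false]
      exact ih _ _ (Nat.xor_lt_two_pow h (Nat.mod_lt _ (by positivity)))
    · simpa using h

theorem val_shift (g : ℕ → R) {n M s v : ℕ} (hv : v < 2 ^ n) (hM : s + n ≤ M) :
    val g M (v <<< s) = val (fun i => g (s + i)) n v := by
  rw [val, val]
  have h1 : Finset.Ico s (s + n) ⊆ Finset.range M := by
    intro i hi
    rw [Finset.mem_Ico] at hi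
    rw [Finset.mem_range]
    omega
  rw [← Finset.sum_subset h1]
  · rw [Finset.sum_Ico_eq_sum_range]
    have : s + n - s = n := by omega
    rw [this]
    refine Finset.sum_congr rfl fun i _ => ?_
    rw [Nat.testBit_shiftLeft]
    have h3 : s + i - s = i := by omega
    simp
  · intro i _ hi
    rw [Finset.mem_Ico] at hi
    rw [Nat.testBit_shiftLeft]
    by_cases h : s ≤ i
    · have h4 : n ≤ i - s := by omega
      have h5 : v < 2 ^ (i - s) := lt_of_lt_of_le hv (Nat.pow_le_pow_right (by norm_num) h4)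
      rw [Nat.testBit_lt_two_pow h5]
      simp
    · simp [h]

/-- The normal words. -/
def wd (pl : List (ℕ × ℕ)) : ℕ → ℕ → List ℕ
  | 0, _ => []
  | f + 1, b => if b = 0 then [] else wd pl f (pl.getD (b - 1) (0, 0)).1 ++ [(pl.getD (b - 1) (0, 0)).2]

/-- The value of a word. -/
def pw (a : ℕ → R) (w : List ℕ) : R := (w.map a).prod

/-- The normal elements. -/
def el (a : ℕ → R) (pl : List (ℕ × ℕ)) (b : ℕ) : R := pw a (wd pl b b)

/-- The filtration. -/
def J (a : ℕ → R) (m k : ℕ) : AddSubgroup R :=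
  AddSubgroup.closure {z | ∃ w : List ℕ, k ≤ w.length ∧ (∀ x ∈ w, x < m) ∧ z = pw a w}

theorem J_mono (a : ℕ → R) (m k : ℕ) : J a m (k + 1) ≤ J a m k := by
  refine AddSubgroup.closure_mono ?_
  rintro z ⟨w, h1, h2, h3⟩
  exact ⟨w, by omega, h2, h3⟩

theorem J_mul (a : ℕ → R) {m k x : ℕ} (hx : x < m) {z : R} (hz : z ∈ J a m k) :
    z * a x ∈ J a m (k + 1) := by
  induction hz using AddSubgroup.closure_induction with
  | mem z hz =>
    obtain ⟨w, h1, h2, rfl⟩ := hz
    refine AddSubgroup.subset_closure ⟨w ++ [x], by simpa using h1, ?_, ?_⟩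
    · intro y hy
      rcases List.mem_append.1 hy with h | h
      · exact h2 y h
      · have : y = x := by simpa using h
        rw [this]
        exact hx
    · simp [pw]
  | zero => rw [zero_mul]; exact zero_mem _
  | add y z _ _ h1 h2 => rw [add_mul]; exact add_mem h1 h2
  | neg y _ h1 => rw [neg_mul]; exact neg_mem h1

theorem pw_mem (a : ℕ → R) {m : ℕ} {w : List ℕ} (hw : ∀ x ∈ w, x < m) : pw a w ∈ J a m 0 :=
  AddSubgroup.subset_closure ⟨w, Nat.zero_le _, hw, rfl⟩

theorem J_nil (a : ℕ → R) {m N : ℕ}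
    (h : ∀ w : List ℕ, w.length = N → (∀ x ∈ w, x < m) → pw a w = 0) {z : R}
    (hz : z ∈ J a m N) : z = 0 := by
  induction hz using AddSubgroup.closure_induction with
  | mem z hz =>
    obtain ⟨w, h1, h2, rfl⟩ := hz
    have h3 := h (w.take N) (by simpa using h1) (fun x hx => h2 x (List.mem_of_mem_take hx))
    have h4 : pw a w = pw a (w.take N) * pw a (w.drop N) := by
      rw [pw, pw, pw, ← List.prod_append, ← List.map_append, List.take_append_drop]
    rw [h4, h3, zero_mul]
  | zero => rfl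
  | add y z _ _ h1 h2 => rw [h1, h2, add_zero]
  | neg y _ h1 => rw [h1, neg_zero]

theorem val_mem {g : ℕ → R} {n v : ℕ} (S : AddSubgroup R) (h : ∀ i < n, g i ∈ S) :
    val g n v ∈ S := by
  refine sum_mem fun i hi => ?_
  split_ifs
  · exact h i (Finset.mem_range.1 hi)
  · exact zero_mem _


/-- The values of the symbols. -/
def gs (a : ℕ → R) (D : Tab) (p : ℕ) : R :=
  if p = D.n * D.m then 1 else el a D.pl (p % D.n) * a (p / D.n)

/-- The pair `p` describes the element `z` to precision `k`. -/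
def St (a : ℕ → R) (D : Tab) (k : ℕ) (p : ℕ × ℕ) (z : R) : Prop :=
  p.2 < 2 ^ D.n ∧ z - val (gs a D) D.M p.1 ∈ J a D.m (k + 1) ∧
    z - val (el a D.pl) D.n p.2 ∈ J a D.m k

/-- The table is correct to precision `k`. -/
def HT (a : ℕ → R) (D : Tab) (k : ℕ) : Prop := ∀ i < D.n, ∀ x < D.m,
  el a D.pl i * a x - val (el a D.pl) D.n (fld D.n (D.T.getD x 0) i) ∈ J a D.m k

theorem val_mul (g : ℕ → R) (n v : ℕ) (r : R) : val g n v * r = val (fun i => g i * r) n v := by
  rw [val, val, Finset.sum_mul]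
  refine Finset.sum_congr rfl fun i _ => ?_
  split_ifs <;> simp

theorem val_sub_mem {g g' : ℕ → R} {n v : ℕ} (S : AddSubgroup R)
    (h : ∀ i < n, g i - g' i ∈ S) : val g n v - val g' n v ∈ S := by
  rw [val, val, ← Finset.sum_sub_distrib]
  refine sum_mem fun i hi => ?_
  split_ifs
  · exact h i (Finset.mem_range.1 hi)
  · simp

theorem val_congr {g g' : ℕ → R} {n v : ℕ} (h : ∀ i < n, g i = g' i) :
    val g n v = val g' n v := by
  rw [val, val]
  refine Finset.sum_congr rfl fun i hi => ?_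
  rw [h i (Finset.mem_range.1 hi)]

theorem st_mul1 (h2 : (2 : R) = 0) {a : ℕ → R} {D : Tab} {k : ℕ} (hT : HT a D k) {x : ℕ}
    (hx : x < D.m) {p : ℕ × ℕ} {z : R} (hp : St a D k p z) : St a D k (mul1 D x p) (z * (1 + a x)) := by
  obtain ⟨h3, h4, h5⟩ := hp
  have hn : D.n * x + D.n ≤ D.n * D.m := by
    have : D.n * (x + 1) ≤ D.n * D.m := Nat.mul_le_mul_left _ hx
    rw [Nat.mul_add, Nat.mul_one] at this
    exact this
  have hM : D.n * x + D.n ≤ D.M := le_trans hn (Nat.le_succ _)
  have e1 : val (gs a D) D.M (p.2 <<< (D.n * x)) = val (el a D.pl) D.n p.2 * a x := by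
    rw [val_shift _ h3 hM, val_mul]
    refine val_congr fun i hi => ?_
    have h6 : D.n * x + i ≠ D.n * D.m := by omega
    have h7 : (D.n * x + i) % D.n = i := by rw [Nat.mul_add_mod, Nat.mod_eq_of_lt hi]
    have h8 : (D.n * x + i) / D.n = x := by
      rw [Nat.mul_add_div (by omega), Nat.div_eq_of_lt hi, Nat.add_zero]
    rw [gs, if_neg h6, h7, h8]
  refine ⟨?_, ?_, ?_⟩
  · exact Nat.xor_lt_two_pow h3 (xf_lt _ _ _ _ _ (by positivity))
  · have e2 : z * (1 + a x) - val (gs a D) D.M (mul1 D x p).1 =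
        (z - val (gs a D) D.M p.1) + (z - val (el a D.pl) D.n p.2) * a x := by
      rw [mul1, val_xor h2, e1]
      noncomm_ring
    rw [e2]
    exact add_mem h4 (J_mul a hx h5)
  · have e3 : val (el a D.pl) D.n (mul1 D x p).2 = val (el a D.pl) D.n p.2 +
        val (fun i => val (el a D.pl) D.n (fld D.n (D.T.getD x 0) i)) D.n p.2 := by
      rw [mul1, val_xor h2, xf_spec (fun v => val (el a D.pl) D.n v) (val_xor h2 _ _) h2 _ _ _ _ _ h3,
        val_zero, zero_add]
    have e4 : z * (1 + a x) - val (el a D.pl) D.n (mul1 D x p).2 =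
        (z - val (el a D.pl) D.n p.2) + (z - val (el a D.pl) D.n p.2) * a x +
        (val (fun i => el a D.pl i * a x) D.n p.2 -
          val (fun i => val (el a D.pl) D.n (fld D.n (D.T.getD x 0) i)) D.n p.2) := by
      rw [e3, ← val_mul]
      noncomm_ring
    rw [e4]
    refine add_mem (add_mem h5 (J_mono _ _ _ (J_mul a hx h5))) ?_
    exact val_sub_mem _ fun i hi => hT i hi x hx

/-- The product `(1 + a x₁) ⋯ (1 + a xₖ)`. -/
def gw (a : ℕ → R) (w : List ℕ) : R := (w.map fun x => 1 + a x).prod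

/-- The hat of a group word. -/
def hw (a : ℕ → R) (w : List ℕ) : R := gw a w - 1

theorem st_mulg (h2 : (2 : R) = 0) {a : ℕ → R} {D : Tab} {k : ℕ} (hT : HT a D k) :
    ∀ (w : List ℕ), okw D.m w = true → ∀ (p : ℕ × ℕ) (z : R), St a D k p z →
      St a D k (mulg D w p) (z * gw a w) := by
  intro w
  induction w with
  | nil =>
    intro _ p z hp
    simpa [mulg, gw] using hp
  | cons x w ih =>
    intro hw p z hp
    rw [okw, List.all_cons, Bool.and_eq_true] at hw
    have hx : x < D.m := by simpa [Nat.blt_eq] using hw.1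
    have := ih hw.2 _ _ (st_mul1 h2 hT hx hp)
    rw [mulg]
    have e : z * gw a (x :: w) = z * (1 + a x) * gw a w := by
      rw [gw, gw, List.map_cons, List.prod_cons, mul_assoc]
    rw [e]
    exact this

theorem sxor (h2 : (2 : R) = 0) (P z A B : R) : P - z - (A + B) = (P - A) - (z - B) := by
  have h : B + B = 0 := by rw [← two_mul, h2, zero_mul]
  calc P - z - (A + B) = (P - A) - (z - B) - (B + B) := by abel
    _ = _ := by rw [h, sub_zero]

theorem st_mulh (h2 : (2 : R) = 0) {a : ℕ → R} {D : Tab} {k : ℕ} (hT : HT a D k)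
    {w : List ℕ} (hw' : okw D.m w = true) {p : ℕ × ℕ} {z : R} (hp : St a D k p z) :
    St a D k (mulh D w p) (z * hw a w) := by
  obtain ⟨h3, h4, h5⟩ := st_mulg h2 hT w hw' p z hp
  obtain ⟨h6, h7, h8⟩ := hp
  refine ⟨Nat.xor_lt_two_pow h3 h6, ?_, ?_⟩
  · rw [mulh, val_xor h2, hw, mul_sub, mul_one, sxor h2]
    exact sub_mem h4 h7
  · rw [mulh, val_xor h2, hw, mul_sub, mul_one, sxor h2]
    exact sub_mem h5 h8

theorem st_mulp (h2 : (2 : R) = 0) {a : ℕ → R} {D : Tab} {k : ℕ} (hT : HT a D k) :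
    ∀ (l : List (List ℕ)), l.all (okw D.m) = true → ∀ (p : ℕ × ℕ) (z : R), St a D k p z →
      St a D k (mulp D l p) (z * (l.map (hw a)).prod) := by
  intro l
  induction l with
  | nil =>
    intro _ p z hp
    simpa [mulp] using hp
  | cons w l ih =>
    intro hl p z hp
    rw [List.all_cons, Bool.and_eq_true] at hl
    have := ih hl.2 _ _ (st_mulh h2 hT hl.1 hp)
    rw [mulp, List.map_cons, List.prod_cons, ← mul_assoc]
    exact this

/-! ### The definitions -/

theorem chkPl_spec {D : Tab} : ∀ (l : List (ℕ × ℕ)) (b : ℕ), chkPl D b l = true →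
    ∀ j < l.length, fld D.M D.df (b + j) = 1 <<< (D.n * (l.getD j (0, 0)).2 + (l.getD j (0, 0)).1) ∧
      (l.getD j (0, 0)).1 < b + j ∧ (l.getD j (0, 0)).2 < D.m := by
  intro l
  induction l with
  | nil => intro b _ j hj; exact absurd hj (by simp)
  | cons q l ih =>
    intro b h j hj
    simp only [chkPl, Bool.and_eq_true, beq_iff_eq, Nat.blt_eq] at h
    obtain ⟨⟨⟨h1, h3⟩, h4⟩, h5⟩ := h
    cases j with
    | zero => exact ⟨by simpa using h1, by simpa using h3, by simpa using h4⟩
    | succ j =>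
      have := ih (b + 1) h5 j (by simpa using hj)
      simp only [List.getD_cons_succ]
      rw [show b + (j + 1) = b + 1 + j by ring]
      exact this

/-- All hypotheses on the definitions. -/
structure Def (D : Tab) : Prop where
  len : D.pl.length + 1 = D.n
  zero : fld D.M D.df 0 = 1 <<< (D.n * D.m)
  fd : ∀ b, 0 < b → b < D.n →
    fld D.M D.df b = 1 <<< (D.n * (D.pl.getD (b - 1) (0, 0)).2 + (D.pl.getD (b - 1) (0, 0)).1)
  par : ∀ b, 0 < b → (D.pl.getD (b - 1) (0, 0)).1 < b
  let_ : ∀ b, 0 < b → b < D.n → (D.pl.getD (b - 1) (0, 0)).2 < D.m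

theorem def_of_chk {D : Tab} (h1 : chkPl D 1 D.pl = true) (h2 : D.pl.length + 1 = D.n)
    (h3 : fld D.M D.df 0 = 1 <<< (D.n * D.m)) : Def D := by
  have h := chkPl_spec D.pl 1 h1
  refine ⟨h2, h3, fun b hb hn => ?_, fun b hb => ?_, fun b hb hn => ?_⟩
  · have := (h (b - 1) (by omega)).1
    rwa [show 1 + (b - 1) = b by omega] at this
  · by_cases hn : b - 1 < D.pl.length
    · have := (h (b - 1) hn).2.1
      omega
    · rw [List.getD_eq_default _ _ (by omega)]
      exact hb
  · exact (h (b - 1) (by omega)).2.2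

theorem wd_fuel {pl : List (ℕ × ℕ)} (hp : ∀ b, 0 < b → (pl.getD (b - 1) (0, 0)).1 < b) :
    ∀ f b, b ≤ f → wd pl f b = wd pl b b := by
  intro f
  induction f using Nat.strong_induction_on with
  | _ f ih =>
    intro b hb
    rcases Nat.eq_zero_or_pos b with h | h
    · subst h
      cases f <;> simp [wd]
    · obtain ⟨f', rfl⟩ : ∃ f', f = f' + 1 := ⟨f - 1, by omega⟩
      obtain ⟨b', rfl⟩ : ∃ b', b = b' + 1 := ⟨b - 1, by omega⟩
      have h1 := hp (b' + 1) h
      rw [wd, wd, if_neg (by omega), if_neg (by omega)]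
      congr 1
      rw [ih f' (by omega) _ (by omega)]
      by_cases h3 : b' = f'
      · rw [h3] at h1 ⊢
        rw [ih f' (by omega) _ (by omega)]
      · rw [ih b' (by omega) _ (by omega)]

theorem el_def {D : Tab} (hD : Def D) (a : ℕ → R) {b : ℕ} (hb : 0 < b) :
    el a D.pl b = el a D.pl (D.pl.getD (b - 1) (0, 0)).1 * a (D.pl.getD (b - 1) (0, 0)).2 := by
  obtain ⟨b', rfl⟩ : ∃ b', b = b' + 1 := ⟨b - 1, by omega⟩
  have h1 := hD.par (b' + 1) hb
  rw [el, wd, if_neg (by omega), wd_fuel hD.par b' _ (by omega), pw, List.map_append,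
    List.prod_append, el, pw]
  simp

theorem el_zero {D : Tab} (a : ℕ → R) : el a D.pl 0 = 1 := by
  simp [el, wd, pw]

theorem el_mem {D : Tab} (hD : Def D) (a : ℕ → R) : ∀ b < D.n, el a D.pl b ∈ J a D.m 0 := by
  intro b
  induction b using Nat.strong_induction_on with
  | _ b ih =>
    intro hb
    rcases Nat.eq_zero_or_pos b with h | h
    · subst h
      rw [el_zero]
      exact AddSubgroup.subset_closure ⟨[], Nat.zero_le _, by simp, by simp [pw]⟩
    · rw [el_def hD a h]
      have h1 := hD.par b h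
      exact J_mono _ _ _ (J_mul a (hD.let_ b h hb) (ih _ h1 (by omega)))

theorem gs_df {D : Tab} (hD : Def D) (a : ℕ → R) {b : ℕ} (hb : b < D.n) :
    val (gs a D) D.M (fld D.M D.df b) = el a D.pl b := by
  rcases Nat.eq_zero_or_pos b with h | h
  · subst h
    have hM : D.n * D.m < D.M := Nat.lt_succ_self _
    rw [hD.zero, val_one _ hM, gs, if_pos rfl, el_zero]
  · have h1 := hD.par b h
    have h3 := hD.let_ b h hb
    have h4 : D.n * (D.pl.getD (b - 1) (0, 0)).2 + (D.pl.getD (b - 1) (0, 0)).1 < D.n * D.m := by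
      have : D.n * ((D.pl.getD (b - 1) (0, 0)).2 + 1) ≤ D.n * D.m := Nat.mul_le_mul_left _ h3
      rw [Nat.mul_add, Nat.mul_one] at this
      omega
    have hM : D.n * (D.pl.getD (b - 1) (0, 0)).2 + (D.pl.getD (b - 1) (0, 0)).1 < D.M :=
      lt_trans h4 (Nat.lt_succ_self _)
    rw [hD.fd b h hb, val_one _ hM, gs, if_neg (by omega),
      Nat.mul_add_mod, Nat.mod_eq_of_lt (by omega), Nat.mul_add_div (by omega),
      Nat.div_eq_of_lt (by omega), Nat.add_zero, el_def hD a h]

theorem st_start {D : Tab} (hD : Def D) (a : ℕ → R) (k : ℕ) {b : ℕ}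
    (hb : b < D.n) : St a D k (start D b) (el a D.pl b) := by
  refine ⟨?_, ?_, ?_⟩
  · rw [start, Nat.one_shiftLeft]
    exact Nat.pow_lt_pow_right (by norm_num) hb
  · rw [start, gs_df hD a hb, sub_self]
    exact zero_mem _
  · rw [start, val_one _ hb, sub_self]
    exact zero_mem _


/-! ### The induction -/

theorem chkEv_spec {D : Tab} {SY : ℕ} : ∀ (l : List (ℕ × List (List ℕ))) (k : ℕ),
    chkEv D SY k l = true → ∀ j < l.length,
      (mulp D (l.getD j (0, [])).2 (start D (l.getD j (0, [])).1)).1 = fld D.M SY (k + j) ∧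
      (l.getD j (0, [])).1 < D.n ∧ (l.getD j (0, [])).2.all (okw D.m) = true := by
  intro l
  induction l with
  | nil => intro k _ j hj; exact absurd hj (by simp)
  | cons e l ih =>
    intro k h j hj
    simp only [chkEv, Bool.and_eq_true, beq_iff_eq, Nat.blt_eq] at h
    obtain ⟨⟨⟨h1, h3⟩, h4⟩, h5⟩ := h
    cases j with
    | zero => exact ⟨by simpa using h1, by simpa using h3, by simpa using h4⟩
    | succ j =>
      have := ih (k + 1) h5 j (by simpa using hj)
      simp only [List.getD_cons_succ]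
      rw [show k + (j + 1) = k + 1 + j by ring]
      exact this

theorem chkSol_spec {D : Tab} {SY E : ℕ} : ∀ (l : List ℕ) (p : ℕ),
    chkSol D SY E p l = true → ∀ j < l.length, ∃ c, c < 2 ^ E ∧
      xf D.M SY E c (1 <<< (p + j)) = xf D.M D.df D.n
        (fld D.n (D.T.getD ((p + j) / D.n) 0) ((p + j) % D.n)) 0 := by
  intro l
  induction l with
  | nil => intro k _ j hj; exact absurd hj (by simp)
  | cons e l ih =>
    intro k h j hj
    simp only [chkSol, Bool.and_eq_true, beq_iff_eq, Nat.blt_eq] at h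
    obtain ⟨⟨h1, h3⟩, h5⟩ := h
    cases j with
    | zero => exact ⟨e, h3, h1⟩
    | succ j =>
      have := ih (k + 1) h5 j (by simpa using hj)
      rw [show k + (j + 1) = k + 1 + j by ring]
      exact this

theorem step_HT (h2 : (2 : R) = 0) {a : ℕ → R} {D : Tab} (hD : Def D) {SY : ℕ}
    {ev : List (ℕ × List (List ℕ))} {sol : List ℕ}
    (h1 : chkEv D SY 0 ev = true) (h3 : chkSol D SY ev.length 0 sol = true)
    (h4 : sol.length = D.n * D.m) (hrel : ∀ e ∈ ev, (e.2.map (hw a)).prod = 0)
    {k : ℕ} (hT : HT a D k) : HT a D (k + 1) := by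
  have hS : ∀ j < ev.length, val (gs a D) D.M (fld D.M SY j) ∈ J a D.m (k + 1) := by
    intro j hj
    obtain ⟨e1, e2, e3⟩ := chkEv_spec ev 0 h1 j hj
    rw [Nat.zero_add] at e1
    have h5 := st_mulp h2 hT _ e3 _ _ (st_start hD a k e2)
    have h6 : ((ev.getD j (0, [])).2.map (hw a)).prod = 0 := by
      refine hrel _ ?_
      rw [List.getD_eq_getElem _ _ hj]
      exact List.getElem_mem hj
    have h7 := h5.2.1
    rw [h6, mul_zero, zero_sub, e1] at h7
    simpa using h7
  intro i hi x hx
  have hp : D.n * x + i < D.n * D.m := by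
    have : D.n * (x + 1) ≤ D.n * D.m := Nat.mul_le_mul_left _ hx
    rw [Nat.mul_add, Nat.mul_one] at this
    omega
  obtain ⟨c, hc, he⟩ := chkSol_spec sol 0 h3 (D.n * x + i) (by rw [h4]; exact hp)
  have hM : D.n * x + i < D.M := lt_trans hp (Nat.lt_succ_self _)
  rw [Nat.zero_add, Nat.mul_add_mod, Nat.mod_eq_of_lt hi, Nat.mul_add_div (by omega),
    Nat.div_eq_of_lt hi, Nat.add_zero] at he
  have h5 := congrArg (val (gs a D) D.M) he
  rw [xf_spec (val (gs a D) D.M) (val_xor h2 _ _) h2 _ _ _ _ _ hc,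
    xf_spec (val (gs a D) D.M) (val_xor h2 _ _) h2 _ _ _ _ _ (fld_lt _ _ _), val_one _ hM, val_zero,
    zero_add] at h5
  have h6 : gs a D (D.n * x + i) = el a D.pl i * a x := by
    rw [gs, if_neg (by omega), Nat.mul_add_mod, Nat.mod_eq_of_lt hi, Nat.mul_add_div (by omega),
      Nat.div_eq_of_lt hi, Nat.add_zero]
  have h7 : val (fun i => val (gs a D) D.M (fld D.M D.df i)) D.n
      (fld D.n (D.T.getD x 0) i) = val (el a D.pl) D.n (fld D.n (D.T.getD x 0) i) :=
    val_congr fun j hj => gs_df hD a hj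
  rw [h6, h7] at h5
  have h8 : el a D.pl i * a x - val (el a D.pl) D.n (fld D.n (D.T.getD x 0) i) =
      -(val (fun i => val (gs a D) D.M (fld D.M SY i)) ev.length c) := by
    rw [← h5]
    abel
  rw [h8]
  exact neg_mem (val_mem _ hS)

theorem all_HT (h2 : (2 : R) = 0) {a : ℕ → R} {D : Tab} (hD : Def D) {SY : ℕ}
    {ev : List (ℕ × List (List ℕ))} {sol : List ℕ}
    (h1 : chkEv D SY 0 ev = true) (h3 : chkSol D SY ev.length 0 sol = true)
    (h4 : sol.length = D.n * D.m) (hrel : ∀ e ∈ ev, (e.2.map (hw a)).prod = 0) :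
    ∀ k, HT a D k := by
  intro k
  induction k with
  | zero =>
    intro i hi x hx
    exact sub_mem (J_mono _ _ _ (J_mul a hx (el_mem hD a i hi))) (val_mem _ (el_mem hD a))
  | succ k ih => exact step_HT h2 hD h1 h3 h4 hrel ih

end

/-- The main theorem: a product of hats is the value computed by the table. -/
theorem main {R : Type} [Ring R] (h2 : (2 : R) = 0) (a : ℕ → R) (D : Tab) (SY : ℕ)
    (ev : List (ℕ × List (List ℕ))) (sol : List ℕ) (hc : chk D SY ev sol = true)
    (hrel : ∀ e ∈ ev, (e.2.map (hw a)).prod = 0)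
    (hnil : ∃ N : ℕ, ∀ w : List ℕ, w.length = N → (∀ x ∈ w, x < D.m) → pw a w = 0)
    (l : List (List ℕ)) (hl : l.all (okw D.m) = true) :
    (l.map (hw a)).prod = val (el a D.pl) D.n (mulp D l (start D 0)).2 := by
  simp only [chk, Bool.and_eq_true, beq_iff_eq] at hc
  obtain ⟨⟨⟨⟨⟨h1, h3⟩, h4⟩, h5⟩, h6⟩, h7⟩ := hc
  have hD := def_of_chk h3 h6 h7
  obtain ⟨N, hN⟩ := hnil
  have hT := all_HT h2 hD h1 h4 h5 hrel N
  have hn : 0 < D.n := by omega
  have h8 := (st_mulp h2 hT l hl _ _ (st_start hD a N hn)).2.2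
  rw [el_zero, one_mul] at h8
  exact sub_eq_zero.1 (J_nil a hN h8)

end Pool.Agent.L3E.NQC
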