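import Pool.Agent.L3E.NQC

set_option autoImplicit false

/-!
# L3E, module NQF: fast versions of the functions of the checker (helper6)
-/

namespace Pool.Agent.L3E.NQC

/-- Strict application (forces the evaluation of `v` in the kernel). -/
def strict {α : Type} (v : ℕ) (f : ℕ → α) : α := Nat.rec (motive := fun _ => α) (f 0) (fun n _ => f (n + 1)) v

theorem strict_eq {α : Type} (v : ℕ) (f : ℕ → α) : strict v f = f v := by
  cases v <;> rfl

/-- Fast `xf`, with a continuation. -/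
def xff {α : Type} (w W t : ℕ) (c : ℕ → α) (k : ℕ) : ℕ → ℕ → α :=
  Nat.rec (motive := fun _ => ℕ → ℕ → α) (fun _ acc => c acc)
    (fun _ ih v acc => Bool.rec (motive := fun _ => α)
      (strict (Nat.land v (Nat.xor v (Nat.pred v))) fun lo => strict (Nat.xor v lo) fun v' =>
        strict (Nat.xor acc (Nat.mod (Nat.div t (Nat.pow lo w)) W)) fun acc' => ih v' acc')
      (c acc) (Nat.beq v 0)) k

theorem xff_eq {α : Type} (w t : ℕ) (c : ℕ → α) (k : ℕ) : ∀ v acc,
    xff w (2 ^ w) t c k v acc = c (xf w t k v acc) := by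
  induction k with
  | zero => intro v acc; rfl
  | succ k ih =>
    intro v acc
    have e : xff w (2 ^ w) t c (k + 1) v acc = Bool.rec (motive := fun _ => α)
      (strict (low v) fun lo => strict (v ^^^ lo) fun v' =>
        strict (acc ^^^ ((t / lo ^ w) % 2 ^ w)) fun acc' => xff w (2 ^ w) t c k v' acc')
      (c acc) (Nat.beq v 0) := rfl
    rw [e]
    by_cases h : v = 0
    · subst h
      rfl
    · have h1 : Nat.beq v 0 = false := by
        cases v with
        | zero => exact absurd rfl h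
        | succ v => rfl
      have h3 : (v == 0) = false := by simpa using h
      rw [h1]
      simp only [strict_eq]
      rw [ih, xf, h3]
      rfl

theorem beqn (a b : ℕ) : Nat.beq a b = (a == b) := by
  rw [Bool.eq_iff_iff, Nat.beq_eq, beq_iff_eq]

/-- Fast multiplication by `1 + a x`. -/
def mul1f {α : Type} (n W : ℕ) (T : List ℕ) (x s v : ℕ) (c : ℕ → ℕ → α) : α :=
  strict (s ^^^ (v <<< (n * x))) fun s' => xff n W (T.getD x 0)
    (fun r => strict (v ^^^ r) fun v' => c s' v') n v 0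

theorem mul1f_eq {α : Type} (D : Tab) (x s v : ℕ) (c : ℕ → ℕ → α) :
    mul1f D.n (2 ^ D.n) D.T x s v c = c (mul1 D x (s, v)).1 (mul1 D x (s, v)).2 := by
  rw [mul1f, strict_eq, xff_eq, strict_eq]
  rfl

/-- Fast multiplication by a group word. -/
def mulgf {α : Type} (n W : ℕ) (T : List ℕ) (w : List ℕ) : (ℕ → ℕ → α) → ℕ → ℕ → α :=
  List.rec (motive := fun _ => (ℕ → ℕ → α) → ℕ → ℕ → α) (fun c s v => c s v)
    (fun x _ ih c s v => mul1f n W T x s v (fun s' v' => ih c s' v')) w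

theorem mulgf_eq {α : Type} (D : Tab) (w : List ℕ) : ∀ (c : ℕ → ℕ → α) (p : ℕ × ℕ),
    mulgf D.n (2 ^ D.n) D.T w c p.1 p.2 = c (mulg D w p).1 (mulg D w p).2 := by
  induction w with
  | nil => intro c p; rfl
  | cons x w ih =>
    intro c p
    have e : mulgf D.n (2 ^ D.n) D.T (x :: w) c p.1 p.2 = mul1f D.n (2 ^ D.n) D.T x p.1 p.2
      (fun s' v' => mulgf D.n (2 ^ D.n) D.T w c s' v') := rfl
    rw [e, mul1f_eq, mulg]
    exact ih c (mul1 D x (p.1, p.2))

/-- Fast multiplication by a hat. -/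
def mulhf {α : Type} (n W : ℕ) (T : List ℕ) (w : List ℕ) (c : ℕ → ℕ → α) (s v : ℕ) : α :=
  mulgf n W T w (fun s' v' => strict (s' ^^^ s) fun s'' => strict (v' ^^^ v) fun v'' => c s'' v'')
    s v

theorem mulhf_eq {α : Type} (D : Tab) (w : List ℕ) (c : ℕ → ℕ → α) (p : ℕ × ℕ) :
    mulhf D.n (2 ^ D.n) D.T w c p.1 p.2 = c (mulh D w p).1 (mulh D w p).2 := by
  rw [mulhf, mulgf_eq, strict_eq, strict_eq]
  rfl

/-- Fast multiplication by a product of hats. -/
def mulpf {α : Type} (n W : ℕ) (T : List ℕ) (l : List (List ℕ)) : (ℕ → ℕ → α) → ℕ → ℕ → α :=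
  List.rec (motive := fun _ => (ℕ → ℕ → α) → ℕ → ℕ → α) (fun c s v => c s v)
    (fun w _ ih c s v => mulhf n W T w (fun s' v' => ih c s' v') s v) l

theorem mulpf_eq {α : Type} (D : Tab) (l : List (List ℕ)) : ∀ (c : ℕ → ℕ → α) (p : ℕ × ℕ),
    mulpf D.n (2 ^ D.n) D.T l c p.1 p.2 = c (mulp D l p).1 (mulp D l p).2 := by
  induction l with
  | nil => intro c p; rfl
  | cons w l ih =>
    intro c p
    have e : mulpf D.n (2 ^ D.n) D.T (w :: l) c p.1 p.2 = mulhf D.n (2 ^ D.n) D.T w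
      (fun s' v' => mulpf D.n (2 ^ D.n) D.T l c s' v') p.1 p.2 := rfl
    rw [e, mulhf_eq, mulp]
    exact ih c (mulh D w p)

/-- Fast check of the evidences. -/
def chkEvf (n m W M V df SY : ℕ) (T : List ℕ) (l : List (ℕ × List (List ℕ))) : ℕ → Bool :=
  List.rec (motive := fun _ => ℕ → Bool) (fun _ => true)
    (fun e _ ih k => strict ((df >>> (M * e.1)) % V) fun s => strict (1 <<< e.1) fun v =>
      (mulpf n W T e.2 (fun s' _ => Nat.beq s' ((SY >>> (M * k)) % V)) s v)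
      && Nat.blt e.1 n && (e.2.all (okw m)) && strict (k + 1) fun k' => ih k') l

theorem chkEvf_eq (D : Tab) (SY : ℕ) (l : List (ℕ × List (List ℕ))) : ∀ k,
    chkEvf D.n D.m (2 ^ D.n) D.M (2 ^ D.M) D.df SY D.T l k = chkEv D SY k l := by
  induction l with
  | nil => intro k; rfl
  | cons e l ih =>
    intro k
    have h : chkEvf D.n D.m (2 ^ D.n) D.M (2 ^ D.M) D.df SY D.T (e :: l) k =
      (strict ((D.df >>> (D.M * e.1)) % 2 ^ D.M) fun s => strict (1 <<< e.1) fun v =>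
      (mulpf D.n (2 ^ D.n) D.T e.2 (fun s' _ => Nat.beq s' ((SY >>> (D.M * k)) % 2 ^ D.M)) s v)
      && Nat.blt e.1 D.n && (e.2.all (okw D.m)) && strict (k + 1) fun k' =>
        chkEvf D.n D.m (2 ^ D.n) D.M (2 ^ D.M) D.df SY D.T l k') := rfl
    rw [h, strict_eq, strict_eq, strict_eq, ih, chkEv]
    have h1 := mulpf_eq D e.2 (fun s' _ => Nat.beq s' ((SY >>> (D.M * k)) % 2 ^ D.M)) (start D e.1)
    have h2 : (start D e.1).1 = (D.df >>> (D.M * e.1)) % 2 ^ D.M := rfl
    have h3 : (start D e.1).2 = 1 <<< e.1 := rfl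
    rw [h2, h3] at h1
    rw [h1, beqn]
    rfl

/-- Fast check of the solution. -/
def chkSolf (n W M V df SY E : ℕ) (T : List ℕ) (l : List ℕ) : ℕ → Bool :=
  List.rec (motive := fun _ => ℕ → Bool) (fun _ => true)
    (fun c _ ih p =>
      strict (((T.getD (p / n) 0) >>> (n * (p % n))) % W) (fun r =>
        xff M V SY (fun a => xff M V df (fun b => Nat.beq a b) n r 0) E c (1 <<< p))
      && Nat.blt c (2 ^ E) && strict (p + 1) fun p' => ih p') l

theorem chkSolf_eq (D : Tab) (SY E : ℕ) (l : List ℕ) : ∀ p,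
    chkSolf D.n (2 ^ D.n) D.M (2 ^ D.M) D.df SY E D.T l p = chkSol D SY E p l := by
  induction l with
  | nil => intro k; rfl
  | cons c l ih =>
    intro p
    have h : chkSolf D.n (2 ^ D.n) D.M (2 ^ D.M) D.df SY E D.T (c :: l) p =
      (strict (((D.T.getD (p / D.n) 0) >>> (D.n * (p % D.n))) % 2 ^ D.n) (fun r =>
        xff D.M (2 ^ D.M) SY (fun a => xff D.M (2 ^ D.M) D.df (fun b => Nat.beq a b) D.n r 0) E c
          (1 <<< p))
      && Nat.blt c (2 ^ E) && strict (p + 1) fun p' =>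
        chkSolf D.n (2 ^ D.n) D.M (2 ^ D.M) D.df SY E D.T l p') := rfl
    rw [h, strict_eq, strict_eq, xff_eq, xff_eq, ih, chkSol, beqn]
    rfl

/-- The complete fast check. -/
def chkf (n m W M V df SY : ℕ) (T : List ℕ) (pl : List (ℕ × ℕ))
    (ev : List (ℕ × List (List ℕ))) (sol : List ℕ) : Bool :=
  chkEvf n m W M V df SY T ev 0 && chkPl ⟨n, m, T, pl, df⟩ 1 pl &&
    chkSolf n W M V df SY ev.length T sol 0 && (sol.length == n * m) && (pl.length + 1 == n) &&
    (fld M df 0 == 1 <<< (n * m)) && Nat.beq W (2 ^ n) && Nat.beq M (n * m + 1) && Nat.beq V (2 ^ M)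

theorem chk_of_chkf {n m W M V df SY : ℕ} {T : List ℕ} {pl : List (ℕ × ℕ)}
    {ev : List (ℕ × List (List ℕ))} {sol : List ℕ} (h : chkf n m W M V df SY T pl ev sol = true) :
    chk ⟨n, m, T, pl, df⟩ SY ev sol = true := by
  simp only [chkf, Bool.and_eq_true, Nat.beq_eq] at h
  obtain ⟨⟨⟨⟨⟨⟨⟨⟨h1, h2⟩, h3⟩, h4⟩, h5⟩, h6⟩, rfl⟩, rfl⟩, rfl⟩ := h
  have e1 := chkEvf_eq ⟨n, m, T, pl, df⟩ SY ev 0
  have e2 := chkSolf_eq ⟨n, m, T, pl, df⟩ SY ev.length sol 0
  simp only [Tab.M] at e1 e2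
  rw [e1] at h1
  rw [e2] at h3
  simp only [chk, Bool.and_eq_true]
  exact ⟨⟨⟨⟨⟨h1, h2⟩, h3⟩, h4⟩, h5⟩, h6⟩

end Pool.Agent.L3E.NQC
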