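import Pool.Agent.L3E.NQI
import Pool.Agent.L3E.CLC

set_option autoImplicit false

/-!
# L3E, module NQH: `Stmt_H0` from the table of the 175-dimensional algebra (helper6)
-/

namespace Pool.Agent.L3E

open scoped commutatorElement

open NQI_ in
/-- `C E C X Y X = 0`. -/
theorem h0 : Stmt_H0 := by
  intro G _ D R _ ρ _ _ hD _ hR c hc x hx y hy
  have h := zero hD hR hc hx hy [[2], [0, 1, 0, 1], [2], [0], [1], [0]] (by decide)
    (by decide +kernel)
  have ix : x⁻¹ = x := inv_eq_of_mul_eq_one_left (hD.inv x hx)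
  have iy : y⁻¹ = y := inv_eq_of_mul_eq_one_left (hD.inv y hy)
  have e1 : gp x y c [0, 1, 0, 1] = ⁅x, y⁆ := by
    rw [commutatorElement_def, ix, iy]
    simp [gp, lt, mul_assoc]
  have e2 : gp x y c [2] = c := by simp [gp, lt]
  have e3 : gp x y c [0] = x := by simp [gp, lt]
  have e4 : gp x y c [1] = y := by simp [gp, lt]
  simp only [List.map_cons, List.map_nil, List.prod_cons, List.prod_nil, mul_one, e1, e2, e3,
    e4] at h
  simpa only [mul_assoc] using h

end Pool.Agent.L3E
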