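import Pool.Agent.L3E.NQD
import Pool.Agent.L3E.CLB

set_option autoImplicit false

/-!
# L3E, module NQI: identities of two D-letters and one good letter; `Stmt_I1` (helper6)
-/

namespace Pool.Agent.L3E

open scoped commutatorElement

namespace NQI_

/-- The letters. -/
def lt {G : Type} (x y c : G) (i : ℕ) : G := if i = 0 then x else if i = 1 then y else c

/-- The group element of a word. -/
def gp {G : Type} [Group G] (x y c : G) (w : List ℕ) : G := (w.map (lt x y c)).prod

/-- Admissible words: 1 for conjugates of the D-letters, 2 for conjugates of the good letter. -/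
def ty : List ℕ → ℕ
  | [m] => if m < 2 then 1 else 2
  | [p, m, q] => if p = q then (if m < 2 then 1 else 2) else 0
  | _ => 0

/-- Admissible relations. -/
def okr : List (List ℕ) → Bool
  | [g, h] => (g == h) && !(ty g == 0)
  | [g, h, g', h'] => (g == g') && (h == h') && !(ty g == 0) && !(ty h == 0) &&
      (ty g == 1 || ty h == 1)
  | _ => false

section
variable {G R : Type} [Group G] [Ring R] {D : Set G} {ρ : G →* R}

theorem gd_of_D (hD : DSet D) (hR : RD D ρ) {z : G} (hz : z ∈ D) : Gd D ρ z := by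
  have h : EG D z := ⟨hD.inv z hz, fun w hw => hD.pair z hz w hw⟩
  exact ⟨hR.sq z h, hR.pr z h, hR.pr' z h⟩

theorem gw_eq (x y c : G) (w : List ℕ) :
    NQC.gw (fun i => ρ (lt x y c i) - 1) w = ρ (gp x y c w) := by
  rw [NQC.gw, gp, map_list_prod, List.map_map]
  congr 1
  apply List.map_congr_left
  intro i _
  simp

theorem hw_eq (x y c : G) (w : List ℕ) :
    NQC.hw (fun i => ρ (lt x y c i) - 1) w = ρ (gp x y c w) - 1 := by
  rw [NQC.hw, gw_eq]

variable {x y c : G}

theorem lt_gd (hD : DSet D) (hR : RD D ρ) (hc : Gd D ρ c) (hx : x ∈ D) (hy : y ∈ D) (i : ℕ) :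
    Gd D ρ (lt x y c i) := by
  rw [lt]
  split_ifs
  · exact gd_of_D hD hR hx
  · exact gd_of_D hD hR hy
  · exact hc

omit [Group G] in
theorem lt_D (hx : x ∈ D) (hy : y ∈ D) {i : ℕ} (hi : i < 2) : lt x y c i ∈ D := by
  rw [lt]
  split_ifs with h1 h2
  · exact hx
  · exact hy
  · omega

/-- A word of type 1 or 2. -/
theorem ty_spec (hD : DSet D) (hR : RD D ρ) (hc : Gd D ρ c) (hx : x ∈ D) (hy : y ∈ D)
    {w : List ℕ} (hw : ty w ≠ 0) : ∃ g : G, ρ g = ρ (gp x y c w) ∧ Gd D ρ g ∧
      (ty w = 1 → g ∈ D) := by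
  have hm : ∀ m : ℕ, (if m < 2 then 1 else 2) = 1 → m < 2 := by
    intro m h
    by_contra h'
    rw [if_neg h'] at h
    exact absurd h (by norm_num)
  match w, hw with
  | [m], _ =>
    refine ⟨lt x y c m, by simp [gp], lt_gd hD hR hc hx hy m, fun h => lt_D hx hy (hm m h)⟩
  | [p, m, q], hw =>
    have hpq : p = q := by
      by_contra h
      exact hw (by rw [ty, if_neg h])
    subst hpq
    have gp' := lt_gd hD hR hc hx hy p
    have hi : ρ (lt x y c p)⁻¹ = ρ (lt x y c p) := BCS_.rho_inv hR.two gp'.sq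
    refine ⟨lt x y c p * lt x y c m * (lt x y c p)⁻¹, ?_, ?_, fun h => ?_⟩
    · rw [map_mul, map_mul, hi, gp]
      simp [mul_assoc]
    · exact CLB_.gd_conj hD.conj (lt_gd hD hR hc hx hy m) _
    · rw [ty, if_pos rfl] at h
      exact hD.conj _ (lt_D hx hy (hm m h)) _
  | [], hw => exact absurd rfl hw
  | [_, _], hw => exact absurd rfl hw
  | _ :: _ :: _ :: _ :: _, hw => exact absurd rfl hw

theorem okr_spec (hD : DSet D) (hR : RD D ρ) (hc : Gd D ρ c) (hx : x ∈ D) (hy : y ∈ D)
    {l : List (List ℕ)} (hl : okr l = true) :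
    (l.map (NQC.hw (fun i => ρ (lt x y c i) - 1))).prod = 0 := by
  match l, hl with
  | [g, h], hl =>
    simp only [okr, Bool.and_eq_true, Bool.not_eq_true', beq_eq_false_iff_ne, beq_iff_eq] at hl
    obtain ⟨rfl, h2⟩ := hl
    obtain ⟨a, ha, ga, _⟩ := ty_spec hD hR hc hx hy h2
    simp only [List.map_cons, List.map_nil, List.prod_cons, List.prod_nil, mul_one, hw_eq, ← ha]
    exact ga.sq
  | [g, h, g', h'], hl =>
    simp only [okr, Bool.and_eq_true, Bool.not_eq_true', beq_eq_false_iff_ne, beq_iff_eq,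
      Bool.or_eq_true] at hl
    obtain ⟨⟨⟨⟨rfl, rfl⟩, h2⟩, h3⟩, h4⟩ := hl
    obtain ⟨a, ha, ga, da⟩ := ty_spec hD hR hc hx hy h2
    obtain ⟨b, hb, gb, db⟩ := ty_spec hD hR hc hx hy h3
    simp only [List.map_cons, List.map_nil, List.prod_cons, List.prod_nil, mul_one, hw_eq, ← ha,
      ← hb, ← mul_assoc]
    rcases h4 with h4 | h4
    · exact gb.pr' _ (da h4)
    · exact ga.pr _ (db h4)
  | [], hl => exact absurd hl (by simp [okr])
  | [_], hl => exact absurd hl (by simp [okr])
  | [_, _, _], hl => exact absurd hl (by simp [okr])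
  | _ :: _ :: _ :: _ :: _ :: _, hl => exact absurd hl (by simp [okr])

end

theorem ok_ev : (NQD.ev.all fun e => okr e.2) = true := by decide +kernel

/-- Fast computation in the table. -/
def fz (l : List (List ℕ)) : Bool :=
  NQC.mulpf 175 0x80000000000000000000000000000000000000000000 [NQD.t0, NQD.t1, NQD.t2] l (fun _ v => Nat.beq v 0) (1 <<< 525) 1

theorem fz_spec {l : List (List ℕ)} (hf : fz l = true) :
    (NQC.mulp NQD.tab l (NQC.start NQD.tab 0)).2 = 0 := by
  have h0 : NQC.start NQD.tab 0 = (1 <<< 525, 1) := by decide +kernel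
  have h1 := NQC.mulpf_eq NQD.tab l (fun _ v => Nat.beq v 0) (1 <<< 525, 1)
  have hW : (2 : ℕ) ^ NQD.tab.n = 0x80000000000000000000000000000000000000000000 := by decide +kernel
  rw [hW] at h1
  rw [h0]
  have h3 : fz l = Nat.beq (NQC.mulp NQD.tab l (1 <<< 525, 1)).2 0 := h1
  rw [hf] at h3
  exact Nat.beq_eq.mp h3.symm

theorem zero {G R : Type} [Group G] [Ring R] {D : Set G} {ρ : G →* R} (hD : DSet D)
    (hR : RD D ρ) {c x y : G} (hc : Gd D ρ c) (hx : x ∈ D) (hy : y ∈ D) (l : List (List ℕ))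
    (hl : (l.all (NQC.okw 3)) = true) (hf : fz l = true) :
    (l.map fun w => ρ (gp x y c w) - 1).prod = 0 := by
  have hnil : ∃ N : ℕ, ∀ w : List ℕ, w.length = N → (∀ i ∈ w, i < NQD.tab.m) →
      NQC.pw (fun i => ρ (lt x y c i) - 1) w = 0 := by
    obtain ⟨N, hN⟩ := hR.nil
    refine ⟨N, fun w hw _ => ?_⟩
    have := hN (w.map (lt x y c)) (by simpa using hw)
    rw [List.map_map] at this
    exact this
  have hrel : ∀ e ∈ NQD.ev, (e.2.map (NQC.hw (fun i => ρ (lt x y c i) - 1))).prod = 0 := by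
    intro e he
    have := List.all_eq_true.1 ok_ev e he
    exact okr_spec hD hR hc hx hy this
  have key := NQC.main hR.two (fun i => ρ (lt x y c i) - 1) NQD.tab NQD.sy NQD.ev NQD.sol
    NQD.chk_ok hrel hnil l hl
  rw [fz_spec hf, NQC.val_zero] at key
  rw [← key]
  congr 1
  apply List.map_congr_left
  intro w _
  rw [hw_eq]

end NQI_

open NQI_ in
/-- `E C E C E = 0`. -/
theorem i1 : Stmt_I1 := by
  intro G _ D R _ ρ _ _ hD _ hR c hc x hx y hy
  have h := zero hD hR hc hx hy [[0, 1, 0, 1], [2], [0, 1, 0, 1], [2], [0, 1, 0, 1]] (by decide)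
    (by decide +kernel)
  have ix : x⁻¹ = x := inv_eq_of_mul_eq_one_left (hD.inv x hx)
  have iy : y⁻¹ = y := inv_eq_of_mul_eq_one_left (hD.inv y hy)
  have e1 : gp x y c [0, 1, 0, 1] = ⁅x, y⁆ := by
    rw [commutatorElement_def, ix, iy]
    simp [gp, lt, mul_assoc]
  have e2 : gp x y c [2] = c := by simp [gp, lt]
  simp only [List.map_cons, List.map_nil, List.prod_cons, List.prod_nil, mul_one, e1, e2,
    ← mul_assoc] at h
  exact h

end Pool.Agent.L3E
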