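import Pool.Agent.L3E.Stmts

set_option autoImplicit false

/-!
# L3E: SEC, sections as modules
-/

namespace Pool.Agent.L3E

open Pool.Agent.KOS (ev Com)
open scoped commutatorElement

namespace SEC_

variable {G : Type} [Group G] (V K : Subgroup G)

/-- The quotient is commutative. -/
theorem mulc (hK : (K.subgroupOf V).Normal) (hVV : ⁅V, V⁆ ≤ K) (a b : V ⧸ K.subgroupOf V) :
    a * b = b * a := by
  induction a using QuotientGroup.induction_on with
  | H a =>
    induction b using QuotientGroup.induction_on with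
    | H b =>
      rw [← QuotientGroup.mk_mul, ← QuotientGroup.mk_mul, QuotientGroup.eq,
        Subgroup.mem_subgroupOf]
      have h : ⁅(b : G)⁻¹, (a : G)⁻¹⁆ ∈ K :=
        hVV (Subgroup.commutator_mem_commutator (V.inv_mem b.2) (V.inv_mem a.2))
      have e : (((a * b)⁻¹ * (b * a) : V) : G) = ⁅(b : G)⁻¹, (a : G)⁻¹⁆ := by
        simp only [Subgroup.coe_mul, Subgroup.coe_inv, commutatorElement_def]
        group
      rw [e]
      exact h

theorem conj_le (hV : V.Normal) (hK : K.Normal) (g : G) :
    K.subgroupOf V ≤ (K.subgroupOf V).comap (MulAut.conjNormal g : MulAut V).toMonoidHom := by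
  intro v hv
  rw [Subgroup.mem_comap, Subgroup.mem_subgroupOf]
  rw [Subgroup.mem_subgroupOf] at hv
  have e : (((MulAut.conjNormal g : MulAut V).toMonoidHom v : V) : G) = g * v * g⁻¹ :=
    MulAut.conjNormal_apply g v
  rw [e]
  exact hK.conj_mem _ hv g

end SEC_

open SEC_ in
theorem sec_proof : Stmt_Sec := by
  intro G _ V K hV hK hKV hVV
  have hN : (K.subgroupOf V).Normal := hK.subgroupOf V
  let _ : CommGroup (V ⧸ K.subgroupOf V) :=
    { (inferInstance : Group (V ⧸ K.subgroupOf V)) with
      mul_comm := mulc V K hN hVV }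
  let φ : G → ((V ⧸ K.subgroupOf V) →* (V ⧸ K.subgroupOf V)) := fun g =>
    QuotientGroup.map (K.subgroupOf V) (K.subgroupOf V) (MulAut.conjNormal g : MulAut V).toMonoidHom
      (conj_le V K hV hK g)
  have hφ : ∀ (g : G) (v : V), φ g (QuotientGroup.mk v) =
      QuotientGroup.mk ((MulAut.conjNormal g : MulAut V) v) := fun g v => rfl
  refine ⟨Additive (V ⧸ K.subgroupOf V), inferInstance, ⟨⟨⟨⟨fun g => MonoidHom.toAdditive (φ g), ?_⟩,
    ?_⟩, fun v => Additive.ofMul (QuotientGroup.mk v), ?_, ?_, ?_, ?_⟩⟩⟩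
  · apply AddMonoidHom.ext
    intro m
    obtain ⟨v, hv⟩ := QuotientGroup.mk_surjective (Additive.toMul m)
    have hm : m = Additive.ofMul (QuotientGroup.mk v) := by rw [hv]; rfl
    rw [hm]
    change Additive.ofMul (φ 1 (QuotientGroup.mk v)) = Additive.ofMul (QuotientGroup.mk v)
    rw [hφ, map_one]
    rfl
  · intro g h
    apply AddMonoidHom.ext
    intro m
    obtain ⟨v, hv⟩ := QuotientGroup.mk_surjective (Additive.toMul m)
    have hm : m = Additive.ofMul (QuotientGroup.mk v) := by rw [hv]; rfl
    rw [hm]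
    change Additive.ofMul (φ (g * h) (QuotientGroup.mk v)) =
      Additive.ofMul (φ g (φ h (QuotientGroup.mk v)))
    rw [hφ, hφ, hφ, map_mul]
    rfl
  · intro m
    obtain ⟨v, hv⟩ := QuotientGroup.mk_surjective (Additive.toMul m)
    exact ⟨v, congrArg Additive.ofMul hv⟩
  · intro a b
    rfl
  · intro v
    constructor
    · intro h
      have h1 : (QuotientGroup.mk v : V ⧸ K.subgroupOf V) = 1 := h
      rw [QuotientGroup.eq_one_iff, Subgroup.mem_subgroupOf] at h1
      exact h1
    · intro h
      have h1 : (QuotientGroup.mk v : V ⧸ K.subgroupOf V) = 1 := by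
        rw [QuotientGroup.eq_one_iff, Subgroup.mem_subgroupOf]
        exact h
      exact h1
  · intro g v w hw
    change Additive.ofMul (QuotientGroup.mk w) = Additive.ofMul (φ g (QuotientGroup.mk v))
    rw [hφ]
    have : w = (MulAut.conjNormal g : MulAut V) v := by
      apply Subtype.ext
      rw [hw, MulAut.conjNormal_apply]
    rw [this]

end Pool.Agent.L3E
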