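import Pool.Agent.L3E.Defs

set_option autoImplicit false

/-!
# L3E: exact statements of the modules
-/

namespace Pool.Agent.L3E

open Pool.Agent.KOS (ev Com)
open scoped commutatorElement

/-! ## A. Sandwich theorem over rings -/

/-- SWZ: the sandwich theorem over an arbitrary ring. -/
def Stmt_SWZ : Prop := ∀ (R : Type) [Ring R] (r : ℕ) (g : Fin r → R),
  (∀ c, Com g c → c * c = 0) → (∀ c d, Com g c → Com g d → c * d * c = 0) →
  ∃ N : ℕ, NW g N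

/-- THK: commutators of thick elements are thick. -/
def Stmt_Thk : Prop := ∀ (R : Type) [Ring R] (r : ℕ) (g : Fin r → R),
  (∀ i, g i * g i = 0) → (∀ i l, Com g l → g i * l * g i = 0) →
  (∀ c, Com g c → c * c = 0) ∧ ∀ c d, Com g c → Com g d → c * d * c = 0

/-- SWU: uniform sandwich theorem, hypotheses only on the generators. -/
def Stmt_SWU : Prop := ∀ r : ℕ, ∃ N : ℕ, ∀ (R : Type) [Ring R] (g : Fin r → R),
  (∀ i, g i * g i = 0) → (∀ i l, Com g l → g i * l * g i = 0) → NW g N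

/-- SWT: the same up to 2-torsion. -/
def Stmt_SWT : Prop := ∀ r : ℕ, ∃ N : ℕ, ∀ (R : Type) [Ring R] (g : Fin r → R),
  (∀ i, g i * g i = 0) → (∀ i l, Com g l → 2 * (g i * l * g i) = 0) →
  ∀ w : List (Fin r), w.length = N → 2 * ev g w = 0

/-! ## B. Unipotent groups in rings -/

/-- UNI. -/
def Stmt_Uni : Prop := ∀ (R : Type) [Ring R] (y z : Rˣ), ((y : R) - 1) ^ 3 = 0 →
  ((z : R) - 1) ^ 3 = 0 → Commute ⁅y, z⁆ y → Commute ⁅y, z⁆ z →
  (((z⁻¹ * y : Rˣ) : R) - 1) ^ 25 = 0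

/-- ABN: products of many elements of an ideal generated by nilpotent elements vanish. -/
def Stmt_Abn : Prop := ∀ r e : ℕ, ∃ K : ℕ, ∀ (C : Type) [CommRing C] (n : Fin r → C),
  (∀ i, n i ^ e = 0) → Ideal.span (Set.range n) ^ K = ⊥

/-- GAM: generators of the lower central factors. -/
def Stmt_Gam : Prop := ∀ m t : ℕ, ∃ r : ℕ, ∀ (G : Type) [Group G] (x : Fin m → G),
  Subgroup.closure (Set.range x) = ⊤ → ∃ v : Fin r → G,
    (∀ l, (∃ i, v l = x i) ∨ ∃ (w : G) (i : Fin m), v l = ⁅w, x i⁆) ∧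
    Subgroup.closure (Set.range v) ⊔ gam G (t + 1) = gam G t

/-- UR: unipotent generators with the left 3-Engel condition and a nilpotent group of bounded
class generate a nilpotent ring of bounded class. -/
def Stmt_UR : Prop := ∀ m c : ℕ, ∃ k : ℕ, ∀ (R : Type) [Ring R] (u : Fin m → Rˣ),
  (∀ i, ((u i : R) - 1) ^ 3 = 0) →
  (∀ i, ∀ g ∈ Subgroup.closure (Set.range u), Commute ⁅u i, g * u i * g⁻¹⁆ (u i)) →
  (Subgroup.closure (Set.range u)).lowerCentralSeries c = ⊥ →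
  NW (fun i => (u i : R) - 1) k

/-! ## C. Sections -/

/-- SEC: sections as modules. -/
def Stmt_Sec : Prop := ∀ (G : Type) [Group G] (V K : Subgroup G), V.Normal → K.Normal → K ≤ V →
  ⁅V, V⁆ ≤ K → ∃ (M : Type) (_ : AddCommGroup M), Nonempty (Sec G V K M)

/-- SIT: vanishing words and iterated commutators. -/
def Stmt_Sit : Prop := ∀ (G : Type) [Group G] (m : ℕ) (x : Fin m → G) (V K : Subgroup G)
  (M : Type) [AddCommGroup M] (s : Sec G V K M), V.Normal → K.Normal → K ≤ V →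
  Subgroup.closure (Set.range x) = ⊤ →
  (∀ k, NW (ops x s.rho) k → it V k ≤ K) ∧
  (∀ k, it V k ≤ K → NW (ops x s.rho) k)

/-- CUB: left 3-Engel elements act on abelian sections with `X³ = 0`. -/
def Stmt_Cub : Prop := ∀ (G : Type) [Group G] (V K : Subgroup G) (M : Type) [AddCommGroup M]
  (s : Sec G V K M), V.Normal → K.Normal → K ≤ V → ∀ x : G, L3 x → (s.rho x - 1) ^ 3 = 0

/-- US: bounded action on abelian sections. -/
def Stmt_US : Prop := ∀ m c : ℕ, ∃ k : ℕ, ∀ (G : Type) [Group G] (x : Fin m → G),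
  Subgroup.closure (Set.range x) = ⊤ → (∀ i, L3 (x i)) →
  ∀ V K : Subgroup G, V.Normal → K.Normal → K ≤ V → ⁅V, V⁆ ≤ K → ⁅V, gam G c⁆ ≤ K → it V k ≤ K

/-! ## D. Squares in deep terms of the lower central series -/

/-- CG. -/
def Stmt_CG : Prop := ∀ (G : Type) [Group G] (i j : ℕ), ⁅gam G i, gam G j⁆ ≤ gam G (i + j + 1)

/-- GR: the operators `ad x_i` on the graded Lie ring of the lower central series. -/
def Stmt_GR : Prop := ∀ (G : Type) [Group G] (D : Set G) (m : ℕ) (x : Fin m → G), Sand D →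
  (∀ i, x i ∈ D) → Subgroup.closure (Set.range x) = ⊤ →
  ∃ (R : Type) (_ : Ring R) (g : Fin m → R),
    (∀ i, g i * g i = 0) ∧ (∀ i l, Com g l → 2 * (g i * l * g i) = 0) ∧
    ∀ N : ℕ, (∀ w : List (Fin m), w.length = N → 2 * ev g w = 0) →
      ∀ j, N ≤ j → ∀ u ∈ gam G j, u * u ∈ gam G (j + 1)

/-- S1. -/
def Stmt_S1 : Prop := ∀ m : ℕ, ∃ N : ℕ, ∀ (G : Type) [Group G] (D : Set G) (x : Fin m → G),
  Sand D → (∀ i, x i ∈ D) → Subgroup.closure (Set.range x) = ⊤ →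
  ∀ j, N ≤ j → ∀ u ∈ gam G j, u * u ∈ gam G (j + 1)

/-! ## E. From involutions to left 3-Engel elements -/

/-- The involution core. -/
def Stmt_Core : Prop := ∀ m : ℕ, ∃ c : ℕ, ∀ (G : Type) [Group G] (x : Fin m → G),
  Group.IsNilpotent G → Inv x → gam G c = ⊥

/-- P8: subgroups generated by eighth powers. -/
def Stmt_P8 : Prop := ∀ r : ℕ, ∃ c : ℕ, ∀ (G : Type) [Group G] (D : Set G) (P : Subgroup G)
  (y : Fin r → G), Group.IsNilpotent G → Sand D → P.Normal → (∀ l, ∃ x ∈ D, y l = x ^ 8) →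
  Subgroup.closure (Set.range y) = P → P.lowerCentralSeries c = ⊥

/-- NKC: commutators of the subgroups `N_k`. -/
def Stmt_NKC : Prop := ∀ (G : Type) [Group G] (D : Set G) (m : ℕ) (x : Fin m → G), Sand D →
  (∀ i, x i ∈ D) → (∀ k l, ⁅Nk x k, Nk x l⁆ ≤ Nk x (k + l)) ∧ ∀ k, Nk x (k + 1) ≤ Nk x k

/-- GEN: boundedly many conjugates generate. -/
def Stmt_Gen : Prop := ∀ m r k : ℕ, ∃ M : ℕ, ∀ (G : Type) [Group G] (x : Fin m → G)
  (y : Fin r → G) (N : Subgroup G), Group.IsNilpotent G → Subgroup.closure (Set.range x) = ⊤ →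
  N = Subgroup.normalClosure (Set.range y) → it N k ≤ ⁅N, N⁆ →
  ∃ y' : Fin M → G, (∀ l, ∃ (i : Fin r) (g : G), y' l = g * y i * g⁻¹) ∧
    Subgroup.closure (Set.range y') = N

/-- SND: class bound for groups generated by elements of a sandwich set. -/
def Stmt_Snd : Prop := ∀ m : ℕ, ∃ s : ℕ, ∀ (G : Type) [Group G] (D : Set G) (x : Fin m → G),
  Group.IsNilpotent G → Sand D → (∀ i, x i ∈ D) → Subgroup.closure (Set.range x) = ⊤ →
  gam G s = ⊥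

/-- ENG: left 3-Engel elements. -/
def Stmt_Eng : Prop := ∀ (G : Type) [Group G] (x : G),
  (∀ y : G, (fun y : G => y⁻¹ * x⁻¹ * y * x)^[3] y = 1) → L3 x

/-- FIN: class bound for groups generated by left 3-Engel elements. -/
def Stmt_Fin : Prop := ∀ d : ℕ, ∃ f : ℕ, ∀ (G : Type) [Group G] (x : Fin d → G),
  Group.IsNilpotent G → Subgroup.closure (Set.range x) = ⊤ → (∀ i, L3 (x i)) → gam G f = ⊥

/-- The frozen statement. -/
def Stmt_Main : Prop := ∃ f : ℕ → ℕ, ∀ (d : ℕ) (G : Type) [Group G] (g : Fin d → G),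
  Group.IsNilpotent G → Subgroup.closure (Set.range g) = ⊤ →
  (∀ i : Fin d, ∀ x : G, (fun y : G => y⁻¹ * (g i)⁻¹ * y * g i)^[3] x = 1) →
  (Subgroup.upperCentralSeries G (f d) = ⊤)

/-! ## F. Involutions: laws, sections, class -/

/-- LAW: elementary facts. -/
def Stmt_Law : Prop := ∀ (G : Type) [Group G] (m : ℕ) (x : Fin m → G), Inv x →
  (∀ n, ∀ d ∈ LL x n, ∀ g : G, g * d * g⁻¹ ∈ LL x n) ∧
  (∀ c, Good x c → ∀ g : G, Good x (g * c * g⁻¹)) ∧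
  (∀ z ∈ DD x, Good x z) ∧ Law x 0 ∧ Law x 1 ∧
  (∀ n, Law x n → Law x (n + 1) → ∀ c ∈ LL x n, Good x c) ∧
  (∀ n, ∀ d ∈ LL x n, d ∈ gam G n)

/-- REL: the relations on elementary abelian sections. -/
def Stmt_Rel : Prop := ∀ (G : Type) [Group G] (m : ℕ) (x : Fin m → G) (V K : Subgroup G)
  (M : Type) [AddCommGroup M] (s : Sec G V K M), Group.IsNilpotent G → Inv x → V.Normal →
  K.Normal → K ≤ V → (∀ v ∈ V, v * v ∈ K) → RSys x s.rho

/-- ENV: from elementary abelian sections to the class. -/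
def Stmt_Env : Prop := ∀ m k : ℕ, ∃ c : ℕ, ∀ (G : Type) [Group G] (x : Fin m → G),
  Group.IsNilpotent G → Inv x →
  (∀ (V K : Subgroup G) (M : Type) [AddCommGroup M] (s : Sec G V K M), V.Normal → K.Normal →
    K ≤ V → ⁅V, V⁆ ≤ K → (∀ v ∈ V, v * v ∈ K) → NW (ops x s.rho) k) → gam G c = ⊥

/-- TOP. -/
def Stmt_Top : Prop := ∀ m : ℕ, PInf m → ∃ n, PP m n

/-! ## G. The chain of laws -/

/-- NAK: Nakayama argument with sandwiches. -/
def Stmt_Nak : Prop := ∀ (m k₀ : ℕ) (f : ℕ → ℕ), ∃ k₁ : ℕ, ∀ (G : Type) [Group G]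
  (x : Fin m → G) (R : Type) [Ring R] (ρ : G →* R) (S : Set R),
  Subgroup.closure (Set.range x) = ⊤ → (2 : R) = 0 → (∃ N, NW (ops x ρ) N) →
  (∀ s ∈ S, ∀ g : G, ρ g * s * ρ g⁻¹ ∈ S) →
  (∀ s ∈ S, s ∈ AddSubgroup.closure (Set.range ρ)) →
  (∀ w : List (Fin m), w.length = k₀ →
    ev (ops x ρ) w ∈ AddSubgroup.closure {y | ∃ (g : G), ∃ s ∈ S, y = ρ g * s}) →
  (∀ (r : ℕ) (s : Fin r → R), (∀ l, s l ∈ S) → NW s (f r)) → NW (ops x ρ) k₁

/-- FS: final step, exact identity. -/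
def Stmt_FS : Prop := ∀ (G : Type) [Group G] (m : ℕ) (x : Fin m → G) (R : Type) [Ring R]
  (ρ : G →* R), Inv x → RSys x ρ → ∀ a ∈ DD x, ∀ b ∈ DD x, ∀ c, Good x c →
  (∀ z ∈ DD x, Good x ⁅c, z⁆) →
  (ρ a - 1) * (ρ b - 1) * (ρ a - 1) * (ρ c - 1) * ((ρ a - 1) * (ρ b - 1) * (ρ a - 1)) = 0

/-- MLI: the span of all `ρ c - 1`, `c` a left normed commutator, is closed under commutators and
contains all `X Y X`. -/
def Stmt_Mli : Prop := ∀ (G : Type) [Group G] (m : ℕ) (x : Fin m → G) (R : Type) [Ring R]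
  (ρ : G →* R), Inv x → (∀ n, Law x n) → RSys x ρ →
  (∀ a ∈ AddSubgroup.closure {y | ∃ n, ∃ c ∈ LL x n, y = ρ c - 1},
    ∀ b ∈ AddSubgroup.closure {y | ∃ n, ∃ c ∈ LL x n, y = ρ c - 1},
      a * b - b * a ∈ AddSubgroup.closure {y | ∃ n, ∃ c ∈ LL x n, y = ρ c - 1}) ∧
  ∀ a ∈ DD x, ∀ b ∈ DD x, (ρ a - 1) * (ρ b - 1) * (ρ a - 1) ∈
    AddSubgroup.closure {y | ∃ n, ∃ c ∈ LL x n, y = ρ c - 1}

/-- QXY: modulo the ideal generated by all `X Y X` words of bounded length vanish. -/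
def Stmt_Qxy : Prop := ∀ m : ℕ, ∃ k₀ : ℕ, ∀ (G : Type) [Group G] (x : Fin m → G) (R : Type)
  [Ring R] (ρ : G →* R), Inv x → RSys x ρ → ∀ w : List (Fin m), w.length = k₀ →
  ev (ops x ρ) w ∈ AddSubgroup.closure {y | ∃ (g : G), ∃ s ∈ {s : R | ∃ a ∈ DD x, ∃ b ∈ DD x,
    s = (ρ a - 1) * (ρ b - 1) * (ρ a - 1)}, y = ρ g * s}

/-- EIN: the case of all laws. -/
def Stmt_Ein : Prop := ∀ m, EInf m

/-- QUO: modulo the ideal generated by the values of the next law words of bounded length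
vanish. -/
def Stmt_Quo : Prop := ∀ m n : ℕ, PP m (n + 1) → ∃ k₀ : ℕ, ∀ (G : Type) [Group G]
  (x : Fin m → G) (R : Type) [Ring R] (ρ : G →* R), Group.IsNilpotent G → Inv x →
  (∀ k ≤ n, Law x k) → RSys x ρ → ∀ w : List (Fin m), w.length = k₀ →
  ev (ops x ρ) w ∈ AddSubgroup.closure {y | ∃ (g : G), ∃ s ∈ {s : R | ∃ d ∈ LL x (n + 1),
    s = ρ (d * d) - 1}, y = ρ g * s}

/-- J1 and J2: the values of the laws are thick. -/
def Stmt_J : Prop := ∀ (G : Type) [Group G] (m : ℕ) (x : Fin m → G) (R : Type) [Ring R]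
  (ρ : G →* R), Inv x → RSys x ρ → ∀ a ∈ DD x, ∀ b ∈ DD x, ∀ c, Good x c → ∀ w ∈ DD x,
  (ρ (⁅⁅c, a⁆, b⁆ ^ 2) - 1) * (ρ w - 1) * (ρ (⁅⁅c, a⁆, b⁆ ^ 2) - 1) = 0 ∧
  ∀ w' ∈ DD x, Commute w w' →
  (ρ (⁅⁅c, a⁆, b⁆ ^ 2) - 1) * (ρ w - 1) * (ρ w' - 1) * (ρ (⁅⁅c, a⁆, b⁆ ^ 2) - 1) = 0

/-- KIL: `T T = 0` and `T T' T = 0` for two values. -/
def Stmt_Kil : Prop := ∀ n, 1 ≤ n → ∀ (G : Type) [Group G] (m : ℕ) (x : Fin m → G) (R : Type)
  [Ring R] (ρ : G →* R), Inv x → (∀ k ≤ n, Law x k) → RSys x ρ →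
  ∀ d ∈ LL x (n + 1), ∀ d' ∈ LL x (n + 1),
  (ρ (d * d) - 1) * (ρ (d * d) - 1) = 0 ∧
  (ρ (d * d) - 1) * (ρ (d' * d') - 1) * (ρ (d * d) - 1) = 0

/-- CHN: one step of the chain. -/
def Stmt_Chn : Prop := ∀ m n : ℕ, 1 ≤ n → PP m (n + 1) → EE m n

end Pool.Agent.L3E
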